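import Pool.Agent.LibME94.ADef

/-!
# Basic identities
-/

open Matrix
open MW38 (Fl Tri)
open ZQ38 (Un Low cx Fend brk Stab)
open Pool.Agent.LibEis68 (sl sl_bracket)

namespace Pool.Agent.LibME94

section gen

variable {ι : Type} [Fintype ι] [DecidableEq ι] {R : Type*} [CommRing R]

theorem ad_apply (A M : Matrix ι ι R) : ad A M = A * M - M * A := rfl

theorem ad_add (A B : Matrix ι ι R) : ad (A + B) = ad A + ad B := by
  ext1 M
  simp only [ad_apply, LinearMap.add_apply, add_mul, mul_add]
  abel

theorem ad_smul (r : R) (A : Matrix ι ι R) : ad (r • A) = r • ad A := by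
  ext1 M
  simp only [ad_apply, LinearMap.smul_apply, Matrix.smul_mul, Matrix.mul_smul, smul_sub]

theorem ad_neg (A : Matrix ι ι R) : ad (-A) = -ad A := by
  ext1 M
  simp only [ad_apply, LinearMap.neg_apply, neg_mul, mul_neg]
  abel

theorem ad_sub (A B : Matrix ι ι R) : ad (A - B) = ad A - ad B := by
  rw [sub_eq_add_neg, ad_add, ad_neg, ← sub_eq_add_neg]

theorem ad_zero : ad (0 : Matrix ι ι R) = 0 := by
  ext1 M
  simp [ad_apply]

theorem ad_ad (A B M : Matrix ι ι R) : ad A (ad B M) = ad B (ad A M) + ad (ad A B) M := by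
  simp only [ad_apply]
  noncomm_ring

theorem ad_diag (d : ι → R) (B : Matrix ι ι R) (x y : ι) :
    ad (Matrix.diagonal d) B x y = (d x - d y) * B x y := by
  rw [ad_apply, Matrix.sub_apply, Matrix.diagonal_mul, Matrix.mul_diagonal]
  ring

theorem cmp_apply (d : ι → ℤ) (w : ℤ) (B : Matrix ι ι R) (x y : ι) :
    cmp d w B x y = if d x - d y = w then B x y else 0 := rfl

theorem fn_apply (c B : Matrix ι ι R) : fn c B = ∑ x, ∑ y, c x y * B x y := rfl

theorem fn_add (c c' B : Matrix ι ι R) : fn (c + c') B = fn c B + fn c' B := by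
  simp only [fn_apply, Matrix.add_apply, add_mul, Finset.sum_add_distrib]

theorem fn_smul (r : R) (c B : Matrix ι ι R) : fn (r • c) B = r * fn c B := by
  simp only [fn_apply, Matrix.smul_apply, smul_eq_mul, Finset.mul_sum, mul_assoc]

theorem cmp_cmp (d : ι → ℤ) (w : ℤ) (B : Matrix ι ι R) : cmp d w (cmp d w B) = cmp d w B := by
  ext x y
  simp only [cmp_apply]
  split_ifs <;> rfl

theorem cmp_comm (d d' : ι → ℤ) (w w' : ℤ) (B : Matrix ι ι R) :
    cmp d w (cmp d' w' B) = cmp d' w' (cmp d w B) := by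
  ext x y
  simp only [cmp_apply]
  split_ifs <;> rfl

/-- an element is the sum of its components -/
theorem sum_cmp (d : ι → ℤ) (B : Matrix ι ι R) :
    ∃ s : Finset ℤ, ∑ w ∈ s, cmp d w B = B ∧ ∀ w, w ∉ s → cmp d w B = 0 := by
  classical
  refine ⟨Finset.univ.image fun z : ι × ι => d z.1 - d z.2, ?_, ?_⟩
  · ext x y
    rw [Matrix.sum_apply]
    simp only [cmp_apply]
    rw [Finset.sum_ite_eq, if_pos]
    exact Finset.mem_image_of_mem (fun z : ι × ι => d z.1 - d z.2) (Finset.mem_univ (x, y))
  · intro w hw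
    ext x y
    rw [cmp_apply, if_neg]
    · rfl
    · intro h
      apply hw
      rw [← h]
      exact Finset.mem_image_of_mem (fun z : ι × ι => d z.1 - d z.2) (Finset.mem_univ (x, y))

end gen

section field

variable {ι : Type} [Fintype ι] [DecidableEq ι] {R : Type*} [Field R] [CharZero R]

/-- eigenvectors of `ad (diagonal d)` -/
theorem eig_iff (d : ι → ℤ) (w : ℤ) (B : Matrix ι ι R) :
    ad (Matrix.diagonal fun x => (d x : R)) B = (w : R) • B ↔ cmp d w B = B := by
  constructor
  · intro h
    ext x y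
    rw [cmp_apply]
    split_ifs with h1
    · rfl
    · have h2 := congrFun (congrFun h x) y
      rw [ad_diag, Matrix.smul_apply, smul_eq_mul] at h2
      have h3 : ((d x - d y - w : ℤ) : R) * B x y = 0 := by
        push_cast
        linear_combination h2
      rcases mul_eq_zero.1 h3 with h4 | h4
      · rw [Int.cast_eq_zero] at h4
        omega
      · exact h4.symm
  · intro h
    ext x y
    rw [ad_diag, Matrix.smul_apply, smul_eq_mul]
    have h2 := congrFun (congrFun h x) y
    rw [cmp_apply] at h2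
    split_ifs at h2 with h1
    · rw [← h1]
      push_cast
      ring
    · rw [← h2]
      ring

/-- the components of an element of a stable subspace belong to it -/
theorem cmp_mem {V : Submodule R (Matrix ι ι R)} (d : ι → ℤ)
    (hV : ∀ B ∈ V, ad (Matrix.diagonal fun x => (d x : R)) B ∈ V) (w : ℤ) {B : Matrix ι ι R}
    (hB : B ∈ V) : cmp d w B ∈ V := by
  classical
  obtain ⟨s, hs, hs0⟩ := sum_cmp d B
  by_cases hw : w ∈ s
  swap
  · rw [hs0 w hw]
    exact V.zero_mem
  set A := ad (Matrix.diagonal fun x => (d x : R)) with hA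
  have key : ∀ (t : Finset ℤ), ∀ C ∈ V, A.comp (LinearMap.id) C ∈ V := by
    intro t C hC
    exact hV C hC
  have hprod : ∀ t : Finset ℤ, ∀ C ∈ V,
      (∏ v ∈ t, (Polynomial.X - Polynomial.C (v : R))).aeval A C ∈ V := by
    intro t
    induction t using Finset.induction_on with
    | empty => intro C hC; simpa using hC
    | insert a t ha ih =>
      intro C hC
      rw [Finset.prod_insert ha, map_mul, Module.End.mul_apply, map_sub, Polynomial.aeval_X,
        Polynomial.aeval_C, LinearMap.sub_apply, Module.algebraMap_end_apply]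
      exact V.sub_mem (hV _ (ih C hC)) (V.smul_mem _ (ih C hC))
  have heig : ∀ v : ℤ, A (cmp d v B) = (v : R) • cmp d v B := by
    intro v
    rw [hA, eig_iff, cmp_cmp]
  have haev : ∀ (q : Polynomial R) (v : ℤ),
      q.aeval A (cmp d v B) = q.eval (v : R) • cmp d v B := by
    intro q v
    induction q using Polynomial.induction_on' with
    | add p q hp hq => rw [map_add, LinearMap.add_apply, hp, hq, Polynomial.eval_add, add_smul]
    | monomial n a =>
      rw [Polynomial.aeval_monomial, Polynomial.eval_monomial, Module.End.mul_apply,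
        Module.algebraMap_end_apply, mul_smul]
      congr 1
      induction n with
      | zero => simp
      | succ n ih =>
        rw [pow_succ', Module.End.mul_apply, ih, map_smul, heig, smul_smul, pow_succ]
  have h1 := hprod (s.erase w) B hB
  have h2 : (∏ v ∈ s.erase w, (Polynomial.X - Polynomial.C (v : R))).aeval A B =
      (∏ v ∈ s.erase w, ((w : R) - v)) • cmp d w B := by
    conv_lhs => rw [← hs]
    rw [map_sum, Finset.sum_eq_single w]
    · rw [haev, Polynomial.eval_prod]
      simp
    · intro v hv hvw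
      rw [haev, Polynomial.eval_prod, Finset.prod_eq_zero (Finset.mem_erase.2 ⟨hvw, hv⟩),
        zero_smul]
      simp
    · intro h
      exact absurd hw h
  rw [h2] at h1
  have h3 : (∏ v ∈ s.erase w, ((w : R) - v)) ≠ 0 := by
    rw [Finset.prod_ne_zero_iff]
    intro v hv
    rw [sub_ne_zero]
    intro h
    exact (Finset.mem_erase.1 hv).1 (Int.cast_injective h).symm
  exact (V.smul_mem_iff h3).1 h1

end field

section dr

variable {J : Type} [DecidableEq J] {kk : J → ℕ} {nn : J → ℤ} {R : Type*}
  [CommRing R]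

theorem sl_add (k : ℕ) (t t' : Fin 4 → R) : sl k (t + t') = sl k t + sl k t' := by
  ext i j
  simp only [sl, Matrix.of_apply, Matrix.add_apply, Pi.add_apply]
  split_ifs <;> ring

theorem sl_smul (k : ℕ) (c : R) (t : Fin 4 → R) : sl k (c • t) = c • sl k t := by
  ext i j
  simp only [sl, Matrix.of_apply, Matrix.smul_apply, Pi.smul_apply, smul_eq_mul]
  split_ifs <;> ring

theorem dr_add (t t' : Fin 4 → R) : dr kk nn (t + t') = dr kk nn t + dr kk nn t' := by
  unfold dr
  rw [← Matrix.blockDiagonal'_add]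
  congr 1
  funext j
  show _ = sl (kk j) (_ : Fin 4 → R) + sl (kk j) (_ : Fin 4 → R)
  rw [← sl_add]
  congr 1
  funext i
  fin_cases i <;> simp <;> ring

theorem dr_smul (c : R) (t : Fin 4 → R) : dr kk nn (c • t) = c • dr kk nn t := by
  unfold dr
  rw [← Matrix.blockDiagonal'_smul]
  congr 1
  funext j
  show _ = c • sl (kk j) _
  rw [← sl_smul]
  congr 1
  funext i
  fin_cases i <;> simp <;> ring

theorem dr_bracket [Fintype J] (t t' : Fin 4 → R) :
    ad (dr kk nn t) (dr kk nn t') = dr kk nn ![2 * (t 1 * t' 0 - t 0 * t' 1),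
      t 2 * t' 0 - t 0 * t' 2, 2 * (t 2 * t' 1 - t 1 * t' 2), 0] := by
  rw [ad_apply]
  unfold dr
  rw [← Matrix.blockDiagonal'_mul, ← Matrix.blockDiagonal'_mul, ← Matrix.blockDiagonal'_sub]
  congr 1
  funext j
  show sl (kk j) (_ : Fin 4 → R) * sl (kk j) (_ : Fin 4 → R) -
    sl (kk j) (_ : Fin 4 → R) * sl (kk j) (_ : Fin 4 → R) = _
  rw [sl_bracket]
  simp

theorem dr_H : dr kk nn (R := R) ![0, 1, 0, 0] = Matrix.diagonal fun x => (hw kk x : R) := by
  unfold dr
  ext ⟨i, x⟩ ⟨j, y⟩
  rw [Matrix.blockDiagonal'_apply, Matrix.diagonal_apply]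
  by_cases h : i = j
  · subst h
    simp only [dite_true, cast_eq, sl, Matrix.of_apply]
    by_cases hxy : x = y
    · subst hxy
      simp [hw]
    · have h1 : ¬ ((⟨i, x⟩ : Ix kk) = ⟨i, y⟩) := by
        intro h
        apply hxy
        simpa using h
      rw [if_neg h1]
      simp [hxy]
  · rw [dif_neg h, if_neg]
    intro h'
    apply h
    exact congrArg Sigma.fst h'

theorem dr_D : dr kk nn (R := R) ![0, 0, 0, 1] = Matrix.diagonal fun x => (wt kk nn x : R) := by
  unfold dr
  ext ⟨i, x⟩ ⟨j, y⟩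
  rw [Matrix.blockDiagonal'_apply, Matrix.diagonal_apply]
  by_cases h : i = j
  · subst h
    simp only [dite_true, cast_eq, sl, Matrix.of_apply]
    by_cases hxy : x = y
    · subst hxy
      simp [wt]
    · have h1 : ¬ ((⟨i, x⟩ : Ix kk) = ⟨i, y⟩) := by
        intro h
        apply hxy
        simpa using h
      rw [if_neg h1]
      simp [hxy]
  · rw [dif_neg h, if_neg]
    intro h'
    apply h
    exact congrArg Sigma.fst h'

theorem dr_neg (t : Fin 4 → R) : dr kk nn (-t) = -dr kk nn t := by
  have := dr_smul (kk := kk) (nn := nn) (-1 : R) t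
  simpa using this

theorem dr_comb (t : Fin 4 → R) : dr kk nn t = t 0 • dr kk nn (R := R) ![1, 0, 0, 0] +
    t 1 • dr kk nn (R := R) ![0, 1, 0, 0] - t 2 • dr kk nn (R := R) ![0, 0, -1, 0] +
    t 3 • dr kk nn (R := R) ![0, 0, 0, 1] := by
  rw [← dr_smul, ← dr_smul, ← dr_smul, ← dr_smul, sub_eq_add_neg, ← dr_neg, ← dr_add, ← dr_add,
    ← dr_add]
  congr 1
  funext i
  fin_cases i <;> simp

theorem dr_map (t : Fin 4 → ℚ) : (dr kk nn t).map (algebraMap ℚ ℂ) =
    dr kk nn fun i => (algebraMap ℚ ℂ (t i)) := by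
  unfold dr
  rw [Matrix.blockDiagonal'_map _ _ (map_zero _)]
  congr 1
  funext j
  ext x y
  simp only [Matrix.map_apply, sl, Matrix.of_apply]
  split_ifs <;> simp

theorem dr_zero : dr kk nn (0 : Fin 4 → R) = 0 := by
  have := dr_smul (kk := kk) (nn := nn) (0 : R) (0 : Fin 4 → R)
  simpa using this

/-- the matrices `dr t` are block diagonal, hence of weight `0` -/
theorem dr_off (t : Fin 4 → R) (x y : Ix kk) (h : wt kk nn x ≠ wt kk nn y) :
    dr kk nn t x y = 0 := by
  unfold dr
  obtain ⟨i, x⟩ := x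
  obtain ⟨j, y⟩ := y
  rw [Matrix.blockDiagonal'_apply]
  by_cases hij : i = j
  · exact absurd (by subst hij; rfl) h
  · rw [dif_neg hij]

end dr

end Pool.Agent.LibME94
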