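import Pool.Agent.LibME94.A1

/-!
# The projection defined by a functional is equivariant
-/

open Matrix
open MW38 (Fl Tri)
open ZQ38 (Un Low cx Fend brk Stab)
open Pool.Agent.LibEis68 (sl sl_bracket)

namespace Pool.Agent.LibME94

section gen

variable {ι : Type} [Fintype ι] [DecidableEq ι] {R : Type*} [CommRing R]

theorem cmp_mul_left {d : ι → ℤ} {m : ℤ} {X : Matrix ι ι R}
    (hX : ∀ x y, X x y ≠ 0 → d x - d y = m) (v : ℤ) (B : Matrix ι ι R) :
    cmp d (v + m) (X * B) = X * cmp d v B := by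
  ext x y
  rw [cmp_apply, Matrix.mul_apply, Matrix.mul_apply]
  by_cases h : d x - d y = v + m
  · rw [if_pos h]
    refine Finset.sum_congr rfl fun z _ => ?_
    by_cases hz : X x z = 0
    · rw [hz, zero_mul, zero_mul]
    · have := hX x z hz
      rw [cmp_apply, if_pos (by omega)]
  · rw [if_neg h]
    symm
    refine Finset.sum_eq_zero fun z _ => ?_
    by_cases hz : X x z = 0
    · rw [hz, zero_mul]
    · have := hX x z hz
      rw [cmp_apply, if_neg (by omega), mul_zero]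

theorem cmp_mul_right {d : ι → ℤ} {m : ℤ} {X : Matrix ι ι R}
    (hX : ∀ x y, X x y ≠ 0 → d x - d y = m) (v : ℤ) (B : Matrix ι ι R) :
    cmp d (v + m) (B * X) = cmp d v B * X := by
  ext x y
  rw [cmp_apply, Matrix.mul_apply, Matrix.mul_apply]
  by_cases h : d x - d y = v + m
  · rw [if_pos h]
    refine Finset.sum_congr rfl fun z _ => ?_
    by_cases hz : X z y = 0
    · rw [hz, mul_zero, mul_zero]
    · have := hX z y hz
      rw [cmp_apply, if_pos (by omega)]
  · rw [if_neg h]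
    symm
    refine Finset.sum_eq_zero fun z _ => ?_
    by_cases hz : X z y = 0
    · rw [hz, mul_zero]
    · have := hX z y hz
      rw [cmp_apply, if_neg (by omega), zero_mul]

theorem cmp_ad {d : ι → ℤ} {m : ℤ} {X : Matrix ι ι R}
    (hX : ∀ x y, X x y ≠ 0 → d x - d y = m) (v : ℤ) (B : Matrix ι ι R) :
    cmp d (v + m) (ad X B) = ad X (cmp d v B) := by
  rw [ad_apply, ad_apply, map_sub, cmp_mul_left hX, cmp_mul_right hX]

theorem fn_cmp {d : ι → ℤ} {m : ℤ} {c : Matrix ι ι R}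
    (hc : ∀ x y, c x y ≠ 0 → d x - d y = m) (B : Matrix ι ι R) : fn c (cmp d m B) = fn c B := by
  rw [fn_apply, fn_apply]
  refine Finset.sum_congr rfl fun x _ => Finset.sum_congr rfl fun y _ => ?_
  by_cases h : c x y = 0
  · rw [h, zero_mul, zero_mul]
  · rw [cmp_apply, if_pos (hc x y h)]

theorem fn_cmp_ne {d : ι → ℤ} {m v : ℤ} (hv : v ≠ m) {c : Matrix ι ι R}
    (hc : ∀ x y, c x y ≠ 0 → d x - d y = m) (B : Matrix ι ι R) : fn c (cmp d v B) = 0 := by
  rw [fn_apply]
  refine Finset.sum_eq_zero fun x _ => Finset.sum_eq_zero fun y _ => ?_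
  by_cases h : c x y = 0
  · rw [h, zero_mul]
  · rw [cmp_apply, if_neg (by rw [hc x y h]; exact hv.symm), mul_zero]

/-- the functional on eigenvectors of a grading -/
theorem fn_ad_diag {d : ι → ℤ} {m : ℤ} {c : Matrix ι ι R}
    (hc : ∀ x y, c x y ≠ 0 → d x - d y = m) (B : Matrix ι ι R) :
    fn c (ad (Matrix.diagonal fun x => (d x : R)) B) = m * fn c B := by
  rw [fn_apply, fn_apply, Finset.mul_sum]
  refine Finset.sum_congr rfl fun x _ => ?_
  rw [Finset.mul_sum]
  refine Finset.sum_congr rfl fun y _ => ?_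
  by_cases h : c x y = 0
  · rw [h, zero_mul, zero_mul, mul_zero]
  · rw [ad_diag, ← hc x y h]
    push_cast
    ring

end gen

variable {J : Type} [Fintype J] [DecidableEq J] {kk : J → ℕ} {nn : J → ℤ}

section off

variable {R : Type*} [CommRing R]

theorem sup_R (x y : Ix kk) (h : dr kk nn (R := R) ![1, 0, 0, 0] x y ≠ 0) :
    hw kk x - hw kk y = 2 := by
  obtain ⟨i, x⟩ := x
  obtain ⟨j, y⟩ := y
  unfold dr at h
  rw [Matrix.blockDiagonal'_apply] at h
  by_cases hij : i = j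
  · subst hij
    simp only [dite_true, cast_eq, sl, Matrix.of_apply] at h
    by_cases h1 : (x : ℕ) = y + 1
    · simp only [hw]
      rw [h1]
      push_cast
      ring
    · exfalso
      apply h
      simp [h1]
  · rw [dif_neg hij] at h
    exact absurd rfl h

theorem sup_G (x y : Ix kk) (h : dr kk nn (R := R) ![0, 0, -1, 0] x y ≠ 0) :
    hw kk x - hw kk y = -2 := by
  obtain ⟨i, x⟩ := x
  obtain ⟨j, y⟩ := y
  unfold dr at h
  rw [Matrix.blockDiagonal'_apply] at h
  by_cases hij : i = j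
  · subst hij
    simp only [dite_true, cast_eq, sl, Matrix.of_apply] at h
    by_cases h1 : (x : ℕ) + 1 = y
    · simp only [hw]
      rw [← h1]
      push_cast
      ring
    · exfalso
      apply h
      simp [h1]
  · rw [dif_neg hij] at h
    exact absurd rfl h

theorem sup_dr (t : Fin 4 → R) (x y : Ix kk) (h : dr kk nn t x y ≠ 0) :
    wt kk nn x - wt kk nn y = 0 := by
  by_contra h'
  exact h (dr_off t x y (by omega))

end off

/-- a functional on `U` killing the image of the raising operator, of given weights -/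
structure Fu {R : Type*} [Field R] (nn : J → ℤ) (U : Submodule R (Matrix (Ix kk) (Ix kk) R))
    (w κ : ℤ) (c : Matrix (Ix kk) (Ix kk) R) : Prop where
  st : ∀ t : Fin 4 → R, ∀ B ∈ U, ad (dr kk nn t) B ∈ U
  supp : ∀ x y, c x y ≠ 0 → wt kk nn x - wt kk nn y = w ∧ hw kk x - hw kk y = -κ
  low : ∀ B ∈ U, fn c (ad (dr kk nn ![1, 0, 0, 0]) B) = 0

namespace Fu

variable {R : Type*} [Field R] [CharZero R] {U : Submodule R (Matrix (Ix kk) (Ix kk) R)}
  {w κ : ℤ} {c : Matrix (Ix kk) (Ix kk) R}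

omit [CharZero R] in
theorem pow_mem (h : Fu nn U w κ c) (l : ℕ) {B : Matrix (Ix kk) (Ix kk) R} (hB : B ∈ U) :
    (ad (dr kk nn (R := R) ![0, 0, -1, 0]) ^ l) B ∈ U := by
  induction l with
  | zero => simpa using hB
  | succ l ih =>
    rw [pow_succ', Module.End.mul_apply]
    exact h.st _ _ ih

omit [CharZero R] in
theorem cmp_G (h₀ : ℤ) (l : ℕ) (B : Matrix (Ix kk) (Ix kk) R) :
    cmp (hw kk) h₀ ((ad (dr kk nn (R := R) ![0, 0, -1, 0]) ^ l) B) =
      (ad (dr kk nn (R := R) ![0, 0, -1, 0]) ^ l) (cmp (hw kk) (h₀ + 2 * l) B) := by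
  induction l generalizing h₀ with
  | zero => simp
  | succ l ih =>
    rw [pow_succ', Module.End.mul_apply, Module.End.mul_apply]
    have h1 := cmp_ad (R := R) (sup_G (kk := kk) (nn := nn)) (h₀ + 2)
      ((ad (dr kk nn (R := R) ![0, 0, -1, 0]) ^ l) B)
    have h2 : h₀ + 2 + -2 = h₀ := by ring
    rw [h2] at h1
    rw [h1, ih]
    congr 3
    push_cast
    ring

omit [CharZero R] in
theorem eig_H (h : Fu nn U w κ c) (l : ℕ) (B : Matrix (Ix kk) (Ix kk) R) :
    fn c ((ad (dr kk nn (R := R) ![0, 0, -1, 0]) ^ l) (ad (dr kk nn ![0, 1, 0, 0]) B)) =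
      (-κ + 2 * l : R) * fn c ((ad (dr kk nn (R := R) ![0, 0, -1, 0]) ^ l) B) := by
  have hcomm : ∀ l : ℕ, ∀ B : Matrix (Ix kk) (Ix kk) R,
      (ad (dr kk nn (R := R) ![0, 0, -1, 0]) ^ l) (ad (dr kk nn ![0, 1, 0, 0]) B) =
        ad (dr kk nn ![0, 1, 0, 0]) ((ad (dr kk nn (R := R) ![0, 0, -1, 0]) ^ l) B) +
          (2 * l : R) • (ad (dr kk nn (R := R) ![0, 0, -1, 0]) ^ l) B := by
    intro l
    induction l with
    | zero => intro B; simp
    | succ l ih =>
      intro B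
      rw [pow_succ', Module.End.mul_apply, ih, map_add, map_smul, ad_ad _ (dr kk nn ![0, 1, 0, 0]),
        dr_bracket, Module.End.mul_apply]
      have h1 : ![2 * ((![0, 0, -1, 0] : Fin 4 → R) 1 * (![0, 1, 0, 0] : Fin 4 → R) 0 -
          (![0, 0, -1, 0] : Fin 4 → R) 0 * (![0, 1, 0, 0] : Fin 4 → R) 1),
          (![0, 0, -1, 0] : Fin 4 → R) 2 * (![0, 1, 0, 0] : Fin 4 → R) 0 -
          (![0, 0, -1, 0] : Fin 4 → R) 0 * (![0, 1, 0, 0] : Fin 4 → R) 2,
          2 * ((![0, 0, -1, 0] : Fin 4 → R) 2 * (![0, 1, 0, 0] : Fin 4 → R) 1 -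
          (![0, 0, -1, 0] : Fin 4 → R) 1 * (![0, 1, 0, 0] : Fin 4 → R) 2), (0 : R)] =
          (2 : R) • ![0, 0, -1, 0] := by
        funext i
        fin_cases i <;> simp
      rw [h1, dr_smul, ad_smul, LinearMap.smul_apply, add_assoc, ← add_smul]
      congr 2
      push_cast
      ring
  rw [hcomm, map_add, map_smul, dr_H, fn_ad_diag (fun x y hxy => (h.supp x y hxy).2), smul_eq_mul]
  push_cast
  ring

omit [CharZero R] in
theorem eig_D (h : Fu nn U w κ c) (l : ℕ) (B : Matrix (Ix kk) (Ix kk) R) :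
    fn c ((ad (dr kk nn (R := R) ![0, 0, -1, 0]) ^ l) (ad (dr kk nn ![0, 0, 0, 1]) B)) =
      (w : R) * fn c ((ad (dr kk nn (R := R) ![0, 0, -1, 0]) ^ l) B) := by
  have hcomm : ∀ l : ℕ, ∀ B : Matrix (Ix kk) (Ix kk) R,
      (ad (dr kk nn (R := R) ![0, 0, -1, 0]) ^ l) (ad (dr kk nn ![0, 0, 0, 1]) B) =
        ad (dr kk nn ![0, 0, 0, 1]) ((ad (dr kk nn (R := R) ![0, 0, -1, 0]) ^ l) B) := by
    intro l
    induction l with
    | zero => intro B; simp
    | succ l ih =>
      intro B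
      rw [pow_succ', Module.End.mul_apply, ih, ad_ad _ (dr kk nn ![0, 0, 0, 1]),
        dr_bracket, Module.End.mul_apply]
      have h1 : ![2 * ((![0, 0, -1, 0] : Fin 4 → R) 1 * (![0, 0, 0, 1] : Fin 4 → R) 0 -
          (![0, 0, -1, 0] : Fin 4 → R) 0 * (![0, 0, 0, 1] : Fin 4 → R) 1),
          (![0, 0, -1, 0] : Fin 4 → R) 2 * (![0, 0, 0, 1] : Fin 4 → R) 0 -
          (![0, 0, -1, 0] : Fin 4 → R) 0 * (![0, 0, 0, 1] : Fin 4 → R) 2,
          2 * ((![0, 0, -1, 0] : Fin 4 → R) 2 * (![0, 0, 0, 1] : Fin 4 → R) 1 -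
          (![0, 0, -1, 0] : Fin 4 → R) 1 * (![0, 0, 0, 1] : Fin 4 → R) 2), (0 : R)] =
          (0 : Fin 4 → R) := by
        funext i
        fin_cases i <;> simp
      rw [h1, dr_zero, ad_zero, LinearMap.zero_apply, add_zero]
  rw [hcomm, dr_D, fn_ad_diag (fun x y hxy => (h.supp x y hxy).1)]

omit [CharZero R] in
theorem string (h : Fu nn U w κ c) (l : ℕ) {B : Matrix (Ix kk) (Ix kk) R} (hB : B ∈ U) :
    fn c ((ad (dr kk nn (R := R) ![0, 0, -1, 0]) ^ (l + 1)) (ad (dr kk nn ![1, 0, 0, 0]) B)) =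
      ((l + 1) * (κ - l) : R) * fn c ((ad (dr kk nn (R := R) ![0, 0, -1, 0]) ^ l) B) := by
  have hgr : ∀ B : Matrix (Ix kk) (Ix kk) R,
      ad (dr kk nn (R := R) ![0, 0, -1, 0]) (ad (dr kk nn ![1, 0, 0, 0]) B) =
      ad (dr kk nn ![1, 0, 0, 0]) (ad (dr kk nn (R := R) ![0, 0, -1, 0]) B) -
        ad (dr kk nn ![0, 1, 0, 0]) B := by
    intro B
    rw [ad_ad _ (dr kk nn ![1, 0, 0, 0]), dr_bracket]
    have h1 : ![2 * ((![0, 0, -1, 0] : Fin 4 → R) 1 * (![1, 0, 0, 0] : Fin 4 → R) 0 -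
          (![0, 0, -1, 0] : Fin 4 → R) 0 * (![1, 0, 0, 0] : Fin 4 → R) 1),
          (![0, 0, -1, 0] : Fin 4 → R) 2 * (![1, 0, 0, 0] : Fin 4 → R) 0 -
          (![0, 0, -1, 0] : Fin 4 → R) 0 * (![1, 0, 0, 0] : Fin 4 → R) 2,
          2 * ((![0, 0, -1, 0] : Fin 4 → R) 2 * (![1, 0, 0, 0] : Fin 4 → R) 1 -
          (![0, 0, -1, 0] : Fin 4 → R) 1 * (![1, 0, 0, 0] : Fin 4 → R) 2), (0 : R)] =
          -![0, 1, 0, 0] := by
      funext i
      fin_cases i <;> simp
    rw [h1, dr_neg, ad_neg, LinearMap.neg_apply, sub_eq_add_neg]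
  induction l generalizing B with
  | zero =>
    rw [zero_add, pow_one, hgr, map_sub, h.low _ (h.st _ _ hB)]
    have := h.eig_H 0 B
    simp only [pow_zero, Module.End.one_apply] at this
    rw [this]
    simp
  | succ l ih =>
    rw [pow_succ, Module.End.mul_apply, hgr, map_sub, map_sub, ih (h.st _ _ hB), h.eig_H,
      ← Module.End.mul_apply, ← pow_succ]
    push_cast
    ring

/-- far components vanish -/
theorem _root_.Pool.Agent.LibME94.cmp_far {ι : Type} [Fintype ι] {R : Type*} [CommRing R]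
    (d : ι → ℤ) : ∃ N : ℕ, ∀ v : ℤ, (N : ℤ) < |v| → ∀ B : Matrix ι ι R, cmp d v B = 0 := by
  classical
  refine ⟨∑ x, ∑ y, (d x - d y).natAbs, fun v hv B => ?_⟩
  ext x y
  rw [cmp_apply, if_neg, Matrix.zero_apply]
  intro h
  rw [← h, Int.abs_eq_natAbs, Nat.cast_lt] at hv
  have h1 : (d x - d y).natAbs ≤ ∑ y, (d x - d y).natAbs :=
    Finset.single_le_sum (f := fun y => (d x - d y).natAbs) (fun _ _ => Nat.zero_le _)
      (Finset.mem_univ y)
  have h2 : ∑ y, (d x - d y).natAbs ≤ ∑ x, ∑ y, (d x - d y).natAbs :=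
    Finset.single_le_sum (f := fun x => ∑ y, (d x - d y).natAbs) (fun _ _ => Nat.zero_le _)
      (Finset.mem_univ x)
  omega

omit [CharZero R] in
theorem far (h : Fu nn U w κ c) : ∃ N : ℕ, ∀ l : ℕ, N ≤ l → ∀ B : Matrix (Ix kk) (Ix kk) R,
    fn c ((ad (dr kk nn (R := R) ![0, 0, -1, 0]) ^ l) B) = 0 := by
  obtain ⟨N, hN⟩ := cmp_far (R := R) (hw kk)
  refine ⟨N + κ.natAbs + 1, fun l hl B => ?_⟩
  rw [← fn_cmp (fun x y hxy => (h.supp x y hxy).2), cmp_G, hN, map_zero, map_zero]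
  rw [lt_abs]
  left
  omega

theorem top_aux (h : Fu nn U w κ c) (m : ℕ) (hm : ∀ l : ℕ, m ≤ l → (l : ℤ) ≠ κ) (l : ℕ)
    (hl : m ≤ l) {B : Matrix (Ix kk) (Ix kk) R} (hB : B ∈ U) :
    fn c ((ad (dr kk nn (R := R) ![0, 0, -1, 0]) ^ l) B) = 0 := by
  obtain ⟨N, hN⟩ := h.far
  have key : ∀ j : ℕ, ∀ l : ℕ, m ≤ l → N ≤ l + j → ∀ B ∈ U,
      fn c ((ad (dr kk nn (R := R) ![0, 0, -1, 0]) ^ l) B) = 0 := by
    intro j
    induction j with
    | zero => intro l _ hl B _; exact hN l hl B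
    | succ j ih =>
      intro l hml hl B hB
      have h1 := h.string l hB
      rw [ih (l + 1) (by omega) (by omega) _ (h.st _ _ hB)] at h1
      have h2 : ((l + 1) * (κ - l) : R) ≠ 0 := by
        apply mul_ne_zero
        · exact_mod_cast Nat.succ_ne_zero l
        · rw [sub_ne_zero]
          intro h3
          apply hm l hml
          have h4 : ((l : ℤ) : R) = (κ : R) := by
            rw [h3]
            simp
          exact Int.cast_injective h4
      exact (mul_eq_zero.1 h1.symm).resolve_left h2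
  exact key N l hl (by omega) B hB

theorem nonneg (h : Fu nn U w κ c) (hne : ∃ B ∈ U, fn c B ≠ 0) : 0 ≤ κ := by
  by_contra hκ
  obtain ⟨B, hB, hB'⟩ := hne
  apply hB'
  have := h.top_aux 0 (fun l _ => by omega) 0 le_rfl hB
  simpa using this

theorem top {κ : ℕ} (h : Fu nn U w κ c) {B : Matrix (Ix kk) (Ix kk) R} (hB : B ∈ U) :
    fn c ((ad (dr kk nn (R := R) ![0, 0, -1, 0]) ^ (κ + 1)) B) = 0 :=
  h.top_aux (κ + 1) (fun l hl => by omega) (κ + 1) le_rfl hB

end Fu

theorem pr_apply {R : Type*} [Field R] (nn : J → ℤ) (c : Matrix (Ix kk) (Ix kk) R) (κ : ℕ)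
    (B : Matrix (Ix kk) (Ix kk) R) (j : Fin (κ + 1)) : pr nn c κ B j =
      ((Nat.factorial j : ℕ) : R)⁻¹ *
        fn c ((ad (dr kk nn (R := R) ![0, 0, -1, 0]) ^ (j : ℕ)) B) := rfl

theorem Fu.pr_ad {R : Type*} [Field R] [CharZero R] {U : Submodule R (Matrix (Ix kk) (Ix kk) R)}
    {w : ℤ} {κ : ℕ} {c : Matrix (Ix kk) (Ix kk) R} (h : Fu nn U w κ c) (t : Fin 4 → R)
    {B : Matrix (Ix kk) (Ix kk) R} (hB : B ∈ U) :
    pr nn c κ (ad (dr kk nn t) B) = sl κ ![t 0, t 1, t 2, t 3 * w] *ᵥ pr nn c κ B := by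
  have hfac : ∀ n : ℕ, ((Nat.factorial n : ℕ) : R) ≠ 0 := fun n => by
    exact_mod_cast Nat.factorial_ne_zero n
  have hR : pr nn c κ (ad (dr kk nn ![1, 0, 0, 0]) B) = sl κ ![1, 0, 0, 0] *ᵥ pr nn c κ B := by
    funext j
    rw [pr_apply, Matrix.mulVec, dotProduct]
    simp only [sl, Matrix.of_apply, Matrix.cons_val_zero, Matrix.cons_val_one, Matrix.cons_val,
      one_mul, zero_mul, add_zero, ite_self, sub_zero, ite_mul]
    obtain ⟨j, hj⟩ := j
    rcases j with _ | l
    · simp only [pow_zero, Module.End.one_apply]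
      rw [h.low _ hB, mul_zero]
      symm
      refine Finset.sum_eq_zero fun i _ => ?_
      rw [if_neg (by simp)]
    · rw [Finset.sum_eq_single (⟨l, by omega⟩ : Fin (κ + 1))]
      · rw [if_pos rfl, pr_apply, h.string l hB]
        simp only [Nat.factorial_succ]
        have := hfac l
        have h2 : ((l + 1 : ℕ) : R) ≠ 0 := by exact_mod_cast Nat.succ_ne_zero l
        push_cast at h2 ⊢
        field_simp
      · intro i _ hi
        rw [if_neg]
        intro h'
        apply hi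
        ext
        simp only at h' ⊢
        omega
      · intro h'
        exact absurd (Finset.mem_univ _) h'
  have hG : pr nn c κ (ad (dr kk nn ![0, 0, -1, 0]) B) =
      sl κ ![0, 0, -1, 0] *ᵥ pr nn c κ B := by
    funext j
    rw [pr_apply, Matrix.mulVec, dotProduct, ← Module.End.mul_apply, ← pow_succ]
    simp only [sl, Matrix.of_apply, Matrix.cons_val_zero, Matrix.cons_val_one, Matrix.cons_val,
      zero_mul, add_zero, ite_self, zero_sub]
    obtain ⟨j, hj⟩ := j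
    by_cases hjκ : j = κ
    · subst hjκ
      simp only
      rw [h.top hB, mul_zero]
      symm
      refine Finset.sum_eq_zero fun i _ => ?_
      rw [if_neg (by have := i.2; omega)]
      simp
    · rw [Finset.sum_eq_single (⟨j + 1, by omega⟩ : Fin (κ + 1))]
      · rw [if_pos rfl, pr_apply]
        simp only [Nat.factorial_succ]
        have := hfac j
        have h2 : ((j + 1 : ℕ) : R) ≠ 0 := by exact_mod_cast Nat.succ_ne_zero j
        push_cast at h2 ⊢
        field_simp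
      · intro i _ hi
        rw [if_neg]
        · simp
        intro h'
        apply hi
        ext
        simp only at h' ⊢
        omega
      · intro h'
        exact absurd (Finset.mem_univ _) h'
  have hH : pr nn c κ (ad (dr kk nn ![0, 1, 0, 0]) B) =
      sl κ ![0, 1, 0, 0] *ᵥ pr nn c κ B := by
    funext j
    rw [pr_apply, Matrix.mulVec, dotProduct, h.eig_H]
    simp only [sl, Matrix.of_apply, Matrix.cons_val_zero, Matrix.cons_val_one, Matrix.cons_val,
      zero_mul, ite_self, zero_add, one_mul, add_zero, sub_zero, ite_mul]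
    rw [Finset.sum_ite_eq, if_pos (Finset.mem_univ _), pr_apply]
    push_cast
    ring
  have hD : pr nn c κ (ad (dr kk nn ![0, 0, 0, 1]) B) =
      sl κ ![0, 0, 0, (w : R)] *ᵥ pr nn c κ B := by
    funext j
    rw [pr_apply, Matrix.mulVec, dotProduct, h.eig_D]
    simp only [sl, Matrix.of_apply, Matrix.cons_val_zero, Matrix.cons_val_one, Matrix.cons_val,
      zero_mul, ite_self, zero_add, sub_zero, ite_mul]
    rw [Finset.sum_ite_eq, if_pos (Finset.mem_univ _), pr_apply]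
    ring
  have hsl : sl κ ![t 0, t 1, t 2, t 3 * w] = t 0 • sl κ (![1, 0, 0, 0] : Fin 4 → R) +
      t 1 • sl κ (![0, 1, 0, 0] : Fin 4 → R) - t 2 • sl κ (![0, 0, -1, 0] : Fin 4 → R) +
      t 3 • sl κ (![0, 0, 0, (w : R)] : Fin 4 → R) := by
    rw [← sl_smul, ← sl_smul, ← sl_smul, ← sl_smul, sub_eq_add_neg]
    have hn : -sl κ (t 2 • (![0, 0, -1, 0] : Fin 4 → R)) =
        sl κ (-(t 2 • (![0, 0, -1, 0] : Fin 4 → R))) := by
      have := sl_smul κ (-1 : R) (t 2 • (![0, 0, -1, 0] : Fin 4 → R))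
      simpa using this.symm
    rw [hn, ← sl_add, ← sl_add, ← sl_add]
    congr 1
    funext i
    fin_cases i <;> simp
  rw [dr_comb t, ad_add, ad_sub, ad_add, ad_smul, ad_smul, ad_smul, ad_smul, hsl]
  simp only [LinearMap.add_apply, LinearMap.sub_apply, LinearMap.smul_apply, map_add, map_sub,
    map_smul, Matrix.add_mulVec, Matrix.sub_mulVec, Matrix.smul_mulVec, hR, hG, hH, hD]

end Pool.Agent.LibME94
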