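import Pool.Agent.LibME94.A2

/-!
# Existence of functionals, surjectivity
-/

open Matrix
open MW38 (Fl Tri)
open ZQ38 (Un Low cx Fend brk Stab)
open Pool.Agent.LibEis68 (sl sl_bracket)

namespace Pool.Agent.LibME94

variable {J : Type} [Fintype J] [DecidableEq J] {kk : J → ℕ} {nn : J → ℤ}

theorem GlSt.cmp_wt {u : Submodule ℚ (Matrix (Ix kk) (Ix kk) ℚ)} (h : GlSt kk nn u) (w : ℤ)
    {B : Matrix (Ix kk) (Ix kk) ℚ} (hB : B ∈ u) : cmp (wt kk nn) w B ∈ u :=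
  cmp_mem _ (fun B hB => by rw [← dr_D]; exact h _ B hB) w hB

theorem GlSt.cmp_hw {u : Submodule ℚ (Matrix (Ix kk) (Ix kk) ℚ)} (h : GlSt kk nn u) (w : ℤ)
    {B : Matrix (Ix kk) (Ix kk) ℚ} (hB : B ∈ u) : cmp (hw kk) w B ∈ u :=
  cmp_mem _ (fun B hB => by rw [← dr_H (nn := nn)]; exact h _ B hB) w hB

theorem IsFun.fu {u K : Submodule ℚ (Matrix (Ix kk) (Ix kk) ℚ)} (hu : GlSt kk nn u) {w : ℤ} {κ : ℕ}
    {c : Matrix (Ix kk) (Ix kk) ℚ} (h : IsFun nn u K w κ c) : Fu nn u w κ c :=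
  ⟨hu, h.supp, h.low⟩

theorem IsFun.mono {u K K' : Submodule ℚ (Matrix (Ix kk) (Ix kk) ℚ)} (hK : K ≤ K') {w : ℤ}
    {κ : ℕ} {c : Matrix (Ix kk) (Ix kk) ℚ} (h : IsFun nn u K' w κ c) : IsFun nn u K w κ c :=
  ⟨h.supp, fun B hB => h.ker B (hK hB), h.low, h.ne⟩

theorem sl_R_single {R : Type*} [CommRing R] (κ : ℕ) (i : ℕ) (hi : i < κ) :
    sl κ (![1, 0, 0, 0] : Fin 4 → R) *ᵥ Pi.single (⟨i, by omega⟩ : Fin (κ + 1)) 1 =
      ((κ : R) - i) • Pi.single (⟨i + 1, by omega⟩ : Fin (κ + 1)) 1 := by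
  funext j
  rw [Matrix.mulVec_single_one, Matrix.col_apply, Pi.smul_apply]
  simp only [sl, Matrix.of_apply, Matrix.cons_val_zero, Matrix.cons_val_one, Matrix.cons_val,
    one_mul, zero_mul, add_zero, ite_self, sub_zero]
  by_cases h : (j : ℕ) = i + 1
  · have h' : j = (⟨i + 1, by omega⟩ : Fin (κ + 1)) := Fin.ext h
    rw [if_pos h, h', Pi.single_eq_same, smul_eq_mul, mul_one]
  · have h' : j ≠ (⟨i + 1, by omega⟩ : Fin (κ + 1)) := fun hh => h (congrArg Fin.val hh)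
    rw [if_neg h, Pi.single_eq_of_ne h', smul_zero]

/-- a vector on which only the lowest coordinate is not zero -/
theorem IsFun.exists_low {u K : Submodule ℚ (Matrix (Ix kk) (Ix kk) ℚ)} (hu : GlSt kk nn u)
    {w : ℤ} {κ : ℕ} {c : Matrix (Ix kk) (Ix kk) ℚ} (h : IsFun nn u K w κ c) :
    ∃ B ∈ u, fn c B ≠ 0 ∧ cmp (wt kk nn) w B = B ∧ cmp (hw kk) (-κ) B = B := by
  obtain ⟨B, hB, hc⟩ := h.ne
  refine ⟨cmp (hw kk) (-κ) (cmp (wt kk nn) w B), hu.cmp_hw _ (hu.cmp_wt _ hB), ?_, ?_, ?_⟩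
  · rw [fn_cmp (fun x y hxy => (h.supp x y hxy).2), fn_cmp (fun x y hxy => (h.supp x y hxy).1)]
    exact hc
  · rw [cmp_comm, cmp_cmp]
  · rw [cmp_cmp]

theorem IsFun.pr_low {u K : Submodule ℚ (Matrix (Ix kk) (Ix kk) ℚ)} {w : ℤ} {κ : ℕ}
    {c : Matrix (Ix kk) (Ix kk) ℚ} (h : IsFun nn u K w κ c) {B : Matrix (Ix kk) (Ix kk) ℚ}
    (hB : cmp (hw kk) (-κ) B = B) : pr nn c κ B = fn c B • Pi.single (0 : Fin (κ + 1)) 1 := by
  funext j
  rw [pr_apply, Pi.smul_apply]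
  by_cases hj : j = 0
  · subst hj
    simp
  · rw [Pi.single_eq_of_ne hj, smul_zero]
    have h1 : ((j : ℕ) : ℤ) ≠ 0 := by
      intro h'
      apply hj
      ext
      simpa using h'
    rw [← fn_cmp (fun x y hxy => (h.supp x y hxy).2), Fu.cmp_G, ← hB, ← fn_cmp_ne (v := -κ + 2 * j)
      (by omega) (fun x y hxy => (h.supp x y hxy).2) (0 : Matrix (Ix kk) (Ix kk) ℚ)]
    have h2 : cmp (hw kk) (-κ + 2 * (j : ℕ)) (cmp (hw kk) (-κ) B) = 0 := by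
      ext x y
      rw [cmp_apply, cmp_apply]
      split_ifs with h3 h4
      · omega
      · rfl
      · rfl
    rw [h2]
    simp

theorem IsFun.surj {u K : Submodule ℚ (Matrix (Ix kk) (Ix kk) ℚ)} (hu : GlSt kk nn u)
    {w : ℤ} {κ : ℕ} {c : Matrix (Ix kk) (Ix kk) ℚ} (h : IsFun nn u K w κ c)
    (r : Fin (κ + 1) → ℚ) : ∃ B ∈ u, cmp (wt kk nn) w B = B ∧ pr nn c κ B = r := by
  set S : Submodule ℚ (Fin (κ + 1) → ℚ) :=
    (u ⊓ LinearMap.ker (LinearMap.id - cmp (wt kk nn) w)).map (pr nn c κ) with hS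
  have hmem : ∀ v, v ∈ S ↔ ∃ B ∈ u, cmp (wt kk nn) w B = B ∧ pr nn c κ B = v := by
    intro v
    rw [hS, Submodule.mem_map]
    constructor
    · rintro ⟨B, hB, rfl⟩
      refine ⟨B, hB.1, ?_, rfl⟩
      have := LinearMap.mem_ker.1 hB.2
      rw [LinearMap.sub_apply, LinearMap.id_apply, sub_eq_zero] at this
      exact this.symm
    · rintro ⟨B, hB, h1, rfl⟩
      refine ⟨B, ⟨hB, LinearMap.mem_ker.2 ?_⟩, rfl⟩
      rw [LinearMap.sub_apply, LinearMap.id_apply, sub_eq_zero]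
      exact h1.symm
  have hst : ∀ v ∈ S, sl κ (![1, 0, 0, 0] : Fin 4 → ℚ) *ᵥ v ∈ S := by
    intro v hv
    rw [hmem] at hv ⊢
    obtain ⟨B, hB, h1, rfl⟩ := hv
    refine ⟨ad (dr kk nn ![1, 0, 0, 0]) B, hu _ _ hB, ?_, ?_⟩
    · have := cmp_ad (R := ℚ) (m := 0) (sup_dr (kk := kk) (nn := nn) ![1, 0, 0, 0]) w B
      rw [add_zero] at this
      rw [this, h1]
    · rw [(h.fu hu).pr_ad _ hB]
      simp
  have hall : ∀ i (hi : i < κ + 1), (Pi.single (⟨i, hi⟩ : Fin (κ + 1)) 1 : Fin (κ + 1) → ℚ) ∈ S := by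
    intro i
    induction i with
    | zero =>
      intro hi
      obtain ⟨B, hB, h1, h2, h3⟩ := h.exists_low hu
      have h4 : pr nn c κ B ∈ S := (hmem _).2 ⟨B, hB, h2, rfl⟩
      rw [h.pr_low h3] at h4
      exact (S.smul_mem_iff h1).1 h4
    | succ i ih =>
      intro hi
      have h4 := hst _ (ih (by omega))
      rw [sl_R_single κ i (by omega)] at h4
      have h5 : ((κ : ℚ) - i) ≠ 0 := by
        rw [sub_ne_zero]
        intro h'
        have : κ = i := by exact_mod_cast h'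
        omega
      exact (S.smul_mem_iff h5).1 h4
  have : r ∈ S := by
    have h1 : r = ∑ i, r i • (Pi.single i 1 : Fin (κ + 1) → ℚ) := by
      funext j
      rw [Finset.sum_apply]
      simp [Pi.single_apply]
    rw [h1]
    exact S.sum_mem fun i _ => S.smul_mem _ (hall i i.2)
  exact (hmem _).1 this

/-- existence of functionals -/
theorem exists_fun {u K : Submodule ℚ (Matrix (Ix kk) (Ix kk) ℚ)} (hu : GlSt kk nn u)
    (hK : GlSt kk nn K) {w h₀ : ℤ} {B₀ : Matrix (Ix kk) (Ix kk) ℚ} (hB₀ : B₀ ∈ u)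
    (hw0 : cmp (wt kk nn) w B₀ = B₀) (hh0 : cmp (hw kk) h₀ B₀ = B₀) (hn : B₀ ∉ K) :
    ∃ (κ : ℕ) (c : Matrix (Ix kk) (Ix kk) ℚ), IsFun nn u K w κ c ∧ -(κ : ℤ) ≤ h₀ := by
  obtain ⟨N, hN⟩ := cmp_far (R := ℚ) (hw kk)
  obtain ⟨h₁, ⟨B₁, hB₁, hw1, hh1, hn1⟩, hmin⟩ := Int.exists_least_of_bdd
    (P := fun h => ∃ B ∈ u, cmp (wt kk nn) w B = B ∧ cmp (hw kk) h B = B ∧ B ∉ K)
    ⟨-N, fun z ⟨B, hB, h1, h2, h3⟩ => by
      by_contra hz
      apply h3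
      rw [← h2, hN z (by rw [lt_abs]; right; omega)]
      exact K.zero_mem⟩ ⟨h₀, B₀, hB₀, hw0, hh0, hn⟩
  obtain ⟨f, hf1, hf2⟩ : ∃ f : Matrix (Ix kk) (Ix kk) ℚ →ₗ[ℚ] ℚ, f B₁ ≠ 0 ∧ K ≤ LinearMap.ker f :=
    Submodule.exists_le_ker_of_notMem hn1
  set c : Matrix (Ix kk) (Ix kk) ℚ := Matrix.of fun x y =>
    if wt kk nn x - wt kk nn y = w ∧ hw kk x - hw kk y = h₁ then f (Matrix.single x y 1) else 0
    with hc
  have hfn : ∀ B, fn c B = f (cmp (hw kk) h₁ (cmp (wt kk nn) w B)) := by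
    intro B
    rw [fn_apply]
    have h1 : cmp (hw kk) h₁ (cmp (wt kk nn) w B) = ∑ x, ∑ y,
        (cmp (hw kk) h₁ (cmp (wt kk nn) w B)) x y • Matrix.single x y (1 : ℚ) := by
      conv_lhs => rw [Matrix.matrix_eq_sum_single (cmp (hw kk) h₁ (cmp (wt kk nn) w B))]
      refine Finset.sum_congr rfl fun x _ => Finset.sum_congr rfl fun y _ => ?_
      rw [Matrix.smul_single, smul_eq_mul, mul_one]
    rw [h1, map_sum]
    refine Finset.sum_congr rfl fun x _ => ?_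
    rw [map_sum]
    refine Finset.sum_congr rfl fun y _ => ?_
    rw [map_smul, hc, Matrix.of_apply, cmp_apply, cmp_apply, smul_eq_mul]
    by_cases h2 : wt kk nn x - wt kk nn y = w <;> by_cases h3 : hw kk x - hw kk y = h₁
    · rw [if_pos ⟨h2, h3⟩, if_pos h3, if_pos h2, mul_comm]
    · rw [if_neg (by tauto), if_neg h3]
      simp
    · rw [if_neg (by tauto), if_pos h3, if_neg h2]
      simp
    · rw [if_neg (by tauto), if_neg h3]
      simp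
  have hFu : Fu nn u w (-h₁) c := by
    refine ⟨hu, ?_, ?_⟩
    · intro x y hxy
      rw [hc, Matrix.of_apply] at hxy
      by_contra h
      apply hxy
      rw [if_neg]
      intro h'
      apply h
      rw [neg_neg]
      exact h'
    · intro B hB
      rw [hfn]
      have h1 := cmp_ad (R := ℚ) (m := 0) (sup_dr (kk := kk) (nn := nn) ![1, 0, 0, 0]) w B
      rw [add_zero] at h1
      have h2 := cmp_ad (R := ℚ) (sup_R (kk := kk) (nn := nn)) (h₁ - 2) (cmp (wt kk nn) w B)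
      rw [sub_add_cancel] at h2
      rw [h1, h2]
      apply hf2
      apply hK
      by_contra h3
      have h4 := hmin (h₁ - 2) ⟨_, hu.cmp_hw _ (hu.cmp_wt _ hB), by rw [cmp_comm, cmp_cmp],
        by rw [cmp_cmp], h3⟩
      omega
  have hne : ∃ B ∈ u, fn c B ≠ 0 := by
    refine ⟨B₁, hB₁, ?_⟩
    rw [hfn, hw1, hh1]
    exact hf1
  have hpos := hFu.nonneg hne
  obtain ⟨κ, hκ⟩ := Int.eq_ofNat_of_zero_le hpos
  refine ⟨κ, c, ⟨?_, ?_, hFu.low, hne⟩, ?_⟩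
  · intro x y hxy
    have := hFu.supp x y hxy
    rw [hκ] at this
    exact this
  · intro B hB
    rw [hfn]
    exact hf2 (hK.cmp_hw _ (hK.cmp_wt _ hB))
  · have := hmin h₀ ⟨B₀, hB₀, hw0, hh0, hn⟩
    have h5 : (κ : ℤ) = -h₁ := hκ.symm
    omega

/-- if the component of weight `w` of some element is not in `K` there is a functional -/
theorem exists_fun_wt {u K : Submodule ℚ (Matrix (Ix kk) (Ix kk) ℚ)} (hu : GlSt kk nn u)
    (hK : GlSt kk nn K) {w : ℤ} {B : Matrix (Ix kk) (Ix kk) ℚ} (hB : B ∈ u)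
    (hn : cmp (wt kk nn) w B ∉ K) :
    ∃ (κ : ℕ) (c : Matrix (Ix kk) (Ix kk) ℚ), IsFun nn u K w κ c := by
  obtain ⟨s, hs, -⟩ := sum_cmp (hw kk) (cmp (wt kk nn) w B)
  have h1 : ∃ h, cmp (hw kk) h (cmp (wt kk nn) w B) ∉ K := by
    by_contra h
    push Not at h
    apply hn
    rw [← hs]
    exact K.sum_mem fun i _ => h i
  obtain ⟨h, hh⟩ := h1
  obtain ⟨κ, c, hc, -⟩ := exists_fun hu hK (hu.cmp_hw h (hu.cmp_wt w hB))
    (by rw [cmp_comm, cmp_cmp]) (cmp_cmp _ _ _) hh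
  exact ⟨κ, c, hc⟩

end Pool.Agent.LibME94
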