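import Pool.Agent.LibME94.A3

/-!
# Multiplicity one implies injectivity
-/

open Matrix
open MW38 (Fl Tri)
open ZQ38 (Un Low cx Fend brk Stab)
open Pool.Agent.LibEis68 (sl sl_bracket)

namespace Pool.Agent.LibME94

variable {J : Type} [Fintype J] [DecidableEq J] {kk : J → ℕ} {nn : J → ℤ}

theorem cmp_R {R : Type*} [CommRing R] (h₀ : ℤ) (l : ℕ) (B : Matrix (Ix kk) (Ix kk) R) :
    cmp (hw kk) (h₀ + 2 * l) ((ad (dr kk nn (R := R) ![1, 0, 0, 0]) ^ l) B) =
      (ad (dr kk nn (R := R) ![1, 0, 0, 0]) ^ l) (cmp (hw kk) h₀ B) := by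
  induction l with
  | zero => simp
  | succ l ih =>
    rw [pow_succ', Module.End.mul_apply, Module.End.mul_apply, ← ih]
    have h1 := cmp_ad (R := R) (sup_R (kk := kk) (nn := nn)) (h₀ + 2 * l)
      ((ad (dr kk nn (R := R) ![1, 0, 0, 0]) ^ l) B)
    rw [← h1]
    congr 2
    push_cast
    ring

theorem eigH_R {κ : ℕ} {v : Matrix (Ix kk) (Ix kk) ℚ} (hv : cmp (hw kk) (-κ) v = v) (l : ℕ) :
    ad (dr kk nn (R := ℚ) ![0, 1, 0, 0]) ((ad (dr kk nn (R := ℚ) ![1, 0, 0, 0]) ^ l) v) =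
      (-κ + 2 * l : ℚ) • (ad (dr kk nn (R := ℚ) ![1, 0, 0, 0]) ^ l) v := by
  have h1 := (eig_iff (R := ℚ) (hw kk) (-κ + 2 * l)
    ((ad (dr kk nn (R := ℚ) ![1, 0, 0, 0]) ^ l) v)).2 (by rw [cmp_R, hv])
  rw [dr_H, h1]
  congr 1
  push_cast
  ring

theorem gr_comm (B : Matrix (Ix kk) (Ix kk) ℚ) :
    ad (dr kk nn (R := ℚ) ![0, 0, -1, 0]) (ad (dr kk nn ![1, 0, 0, 0]) B) =
      ad (dr kk nn ![1, 0, 0, 0]) (ad (dr kk nn (R := ℚ) ![0, 0, -1, 0]) B) -
        ad (dr kk nn ![0, 1, 0, 0]) B := by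
  rw [ad_ad _ (dr kk nn ![1, 0, 0, 0]), dr_bracket]
  have h1 : ![2 * ((![0, 0, -1, 0] : Fin 4 → ℚ) 1 * (![1, 0, 0, 0] : Fin 4 → ℚ) 0 -
        (![0, 0, -1, 0] : Fin 4 → ℚ) 0 * (![1, 0, 0, 0] : Fin 4 → ℚ) 1),
        (![0, 0, -1, 0] : Fin 4 → ℚ) 2 * (![1, 0, 0, 0] : Fin 4 → ℚ) 0 -
        (![0, 0, -1, 0] : Fin 4 → ℚ) 0 * (![1, 0, 0, 0] : Fin 4 → ℚ) 2,
        2 * ((![0, 0, -1, 0] : Fin 4 → ℚ) 2 * (![1, 0, 0, 0] : Fin 4 → ℚ) 1 -
        (![0, 0, -1, 0] : Fin 4 → ℚ) 1 * (![1, 0, 0, 0] : Fin 4 → ℚ) 2), (0 : ℚ)] =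
        -![0, 1, 0, 0] := by
    funext i
    fin_cases i <;> simp
  rw [h1, dr_neg, ad_neg, LinearMap.neg_apply, sub_eq_add_neg]

theorem dual_string {K : Submodule ℚ (Matrix (Ix kk) (Ix kk) ℚ)} (hK : GlSt kk nn K) {κ : ℕ}
    {v : Matrix (Ix kk) (Ix kk) ℚ} (hv : cmp (hw kk) (-κ) v = v)
    (hG : ad (dr kk nn (R := ℚ) ![0, 0, -1, 0]) v ∈ K) (l : ℕ) :
    ad (dr kk nn (R := ℚ) ![0, 0, -1, 0]) ((ad (dr kk nn (R := ℚ) ![1, 0, 0, 0]) ^ (l + 1)) v) -
      ((l + 1) * (κ - l) : ℚ) • (ad (dr kk nn (R := ℚ) ![1, 0, 0, 0]) ^ l) v ∈ K := by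
  induction l with
  | zero =>
    rw [zero_add, pow_one, gr_comm]
    have h1 := eigH_R (nn := nn) hv 0
    simp only [pow_zero, Module.End.one_apply, Nat.cast_zero, mul_zero, add_zero] at h1 ⊢
    rw [h1]
    have h2 := hK ![1, 0, 0, 0] _ hG
    convert h2 using 1
    rw [sub_zero, zero_add, one_mul]
    module
  | succ l ih =>
    rw [pow_succ' _ (l + 1), Module.End.mul_apply, gr_comm, eigH_R hv (l + 1)]
    have h2 := hK ![1, 0, 0, 0] _ ih
    convert h2 using 1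
    rw [map_sub, map_smul, ← Module.End.mul_apply (ad (dr kk nn (R := ℚ) ![1, 0, 0, 0]))
      (ad (dr kk nn (R := ℚ) ![1, 0, 0, 0]) ^ l), ← pow_succ']
    push_cast
    module

theorem dual_top {K : Submodule ℚ (Matrix (Ix kk) (Ix kk) ℚ)} (hK : GlSt kk nn K) {κ : ℕ}
    {v : Matrix (Ix kk) (Ix kk) ℚ} (hv : cmp (hw kk) (-κ) v = v)
    (hG : ad (dr kk nn (R := ℚ) ![0, 0, -1, 0]) v ∈ K) (l : ℕ) (hl : κ < l) :
    (ad (dr kk nn (R := ℚ) ![1, 0, 0, 0]) ^ l) v ∈ K := by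
  obtain ⟨N, hN⟩ := cmp_far (R := ℚ) (hw kk)
  have key : ∀ j : ℕ, ∀ l : ℕ, κ < l → N + κ < l + j →
      (ad (dr kk nn (R := ℚ) ![1, 0, 0, 0]) ^ l) v ∈ K := by
    intro j
    induction j with
    | zero =>
      intro l _ hl
      rw [← hv, ← cmp_R, hN]
      · exact K.zero_mem
      · rw [lt_abs]
        left
        omega
    | succ j ih =>
      intro l hκl hl
      have h1 := dual_string hK hv hG l
      have h2 := hK ![0, 0, -1, 0] _ (ih (l + 1) (by omega) (by omega))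
      have h3 := K.sub_mem h2 h1
      rw [sub_sub_cancel] at h3
      refine (K.smul_mem_iff ?_).1 h3
      apply mul_ne_zero
      · exact_mod_cast Nat.succ_ne_zero l
      · rw [sub_ne_zero]
        intro h'
        have : κ = l := by exact_mod_cast h'
        omega
  exact key (N + κ + 1) l hl (by omega)

theorem glSt_of {K : Submodule ℚ (Matrix (Ix kk) (Ix kk) ℚ)}
    (h1 : ∀ B ∈ K, ad (dr kk nn (R := ℚ) ![1, 0, 0, 0]) B ∈ K)
    (h2 : ∀ B ∈ K, ad (dr kk nn (R := ℚ) ![0, 1, 0, 0]) B ∈ K)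
    (h3 : ∀ B ∈ K, ad (dr kk nn (R := ℚ) ![0, 0, -1, 0]) B ∈ K)
    (h4 : ∀ B ∈ K, ad (dr kk nn (R := ℚ) ![0, 0, 0, 1]) B ∈ K) : GlSt kk nn K := by
  intro t B hB
  rw [dr_comb, ad_add, ad_sub, ad_add, ad_smul, ad_smul, ad_smul, ad_smul]
  simp only [LinearMap.add_apply, LinearMap.sub_apply, LinearMap.smul_apply]
  exact K.add_mem (K.sub_mem (K.add_mem (K.smul_mem _ (h1 B hB)) (K.smul_mem _ (h2 B hB)))
    (K.smul_mem _ (h3 B hB))) (K.smul_mem _ (h4 B hB))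

theorem IsFun.pr_ker {u K : Submodule ℚ (Matrix (Ix kk) (Ix kk) ℚ)} (hK : GlSt kk nn K) {w : ℤ}
    {κ : ℕ} {c : Matrix (Ix kk) (Ix kk) ℚ} (h : IsFun nn u K w κ c)
    {B : Matrix (Ix kk) (Ix kk) ℚ} (hB : B ∈ K) : pr nn c κ B = 0 := by
  funext j
  have h1 : ∀ l : ℕ, (ad (dr kk nn (R := ℚ) ![0, 0, -1, 0]) ^ l) B ∈ K := by
    intro l
    induction l with
    | zero => simpa using hB
    | succ l ih =>
      rw [pow_succ', Module.End.mul_apply]
      exact hK _ _ ih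
  rw [pr_apply, h.ker _ (h1 _), mul_zero, Pi.zero_apply]

theorem inj_of_unique {u K : Submodule ℚ (Matrix (Ix kk) (Ix kk) ℚ)} (hu : GlSt kk nn u)
    (hK : GlSt kk nn K) {w : ℤ} {κ : ℕ} {c : Matrix (Ix kk) (Ix kk) ℚ}
    (h : IsFun nn u K w κ c)
    (huniq : ∀ (κ' : ℕ) (c' : Matrix (Ix kk) (Ix kk) ℚ), IsFun nn u K w κ' c' →
      κ' = κ ∧ ∃ a b : ℚ, (a ≠ 0 ∨ b ≠ 0) ∧ ∀ B ∈ u, a * fn c B + b * fn c' B = 0)
    {B : Matrix (Ix kk) (Ix kk) ℚ} (hB : B ∈ u) (hBw : cmp (wt kk nn) w B = B)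
    (hpr : pr nn c κ B = 0) : B ∈ K := by
  obtain ⟨v, hv, hcv, hvw, hvh⟩ := h.exists_low hu
  have hD : ∀ t : Fin 4 → ℚ, ∀ C : Matrix (Ix kk) (Ix kk) ℚ, cmp (wt kk nn) w C = C →
      cmp (wt kk nn) w (ad (dr kk nn t) C) = ad (dr kk nn t) C := by
    intro t C hC
    have h1 := cmp_ad (R := ℚ) (m := 0) (sup_dr (kk := kk) (nn := nn) t) w C
    rw [add_zero] at h1
    rw [h1, hC]
  have hG : ad (dr kk nn (R := ℚ) ![0, 0, -1, 0]) v ∈ K := by
    by_contra hn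
    have h1 := cmp_ad (R := ℚ) (sup_G (kk := kk) (nn := nn)) (-κ) v
    rw [hvh] at h1
    obtain ⟨κ', c', hc', hle⟩ := exists_fun hu hK (hu _ _ hv) (hD _ _ hvw) h1 hn
    obtain ⟨rfl, -⟩ := huniq κ' c' hc'
    omega
  set Rp : ℕ → Matrix (Ix kk) (Ix kk) ℚ := fun i =>
    (ad (dr kk nn (R := ℚ) ![1, 0, 0, 0]) ^ i) v with hRp
  have hRu : ∀ i, Rp i ∈ u := by
    intro i
    induction i with
    | zero => simpa [hRp] using hv
    | succ i ih =>
      simp only [hRp] at ih ⊢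
      rw [pow_succ', Module.End.mul_apply]
      exact hu _ _ ih
  have hRw : ∀ i, cmp (wt kk nn) w (Rp i) = Rp i := by
    intro i
    induction i with
    | zero => simpa [hRp] using hvw
    | succ i ih =>
      simp only [hRp] at ih ⊢
      rw [pow_succ', Module.End.mul_apply]
      exact hD _ _ ih
  set K' : Submodule ℚ (Matrix (Ix kk) (Ix kk) ℚ) := K ⊔ Submodule.span ℚ (Set.range Rp) with hK'
  have hRK : ∀ i, Rp i ∈ K' := fun i =>
    Submodule.mem_sup_right (Submodule.subset_span ⟨i, rfl⟩)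
  have hst : ∀ X : Matrix (Ix kk) (Ix kk) ℚ, (∀ C ∈ K, ad X C ∈ K) →
      (∀ i, ad X (Rp i) ∈ K') → ∀ C ∈ K', ad X C ∈ K' := by
    intro X h1 h2 C hC
    have h3 : K' ≤ K'.comap (ad X) := by
      rw [hK']
      refine sup_le (fun C hC => Submodule.mem_sup_left (h1 C hC)) ?_
      rw [Submodule.span_le]
      rintro _ ⟨i, rfl⟩
      exact h2 i
    exact h3 hC
  have hgl : GlSt kk nn K' := by
    refine glSt_of (hst _ (fun C hC => hK _ _ hC) fun i => ?_)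
      (hst _ (fun C hC => hK _ _ hC) fun i => ?_) (hst _ (fun C hC => hK _ _ hC) fun i => ?_)
      (hst _ (fun C hC => hK _ _ hC) fun i => ?_)
    · have := hRK (i + 1)
      simp only [hRp] at this ⊢
      rwa [pow_succ', Module.End.mul_apply] at this
    · simp only [hRp]
      rw [eigH_R hvh i]
      exact K'.smul_mem _ (hRK i)
    · rcases i with _ | l
      · simp only [hRp, pow_zero, Module.End.one_apply]
        exact Submodule.mem_sup_left hG
      · have h1 := Submodule.mem_sup_left (T := Submodule.span ℚ (Set.range Rp))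
          (dual_string hK hvh hG l)
        have h2 := K'.add_mem h1 (K'.smul_mem ((l + 1) * (κ - l) : ℚ) (hRK l))
        simp only [hRp] at h2 ⊢
        rwa [sub_add_cancel] at h2
    · have h1 := (eig_iff (R := ℚ) (wt kk nn) w (Rp i)).2 (hRw i)
      rw [dr_D, h1]
      exact K'.smul_mem _ (hRK i)
  have hBK' : B ∈ K' := by
    by_contra hn
    obtain ⟨κ', c', hc'⟩ := exists_fun_wt hu hgl hB (by rw [hBw]; exact hn)
    obtain ⟨-, a, b, hab, h1⟩ := huniq κ' c' (hc'.mono le_sup_left)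
    have h2 := h1 v hv
    rw [hc'.ker v (by simpa [hRp] using hRK 0), mul_zero, add_zero] at h2
    have ha : a = 0 := (mul_eq_zero.1 h2).resolve_right hcv
    rw [ha] at hab h1
    have hb : b ≠ 0 := by tauto
    obtain ⟨C, hC, hC'⟩ := hc'.ne
    have h3 := h1 C hC
    rw [zero_mul, zero_add] at h3
    exact hC' ((mul_eq_zero.1 h3).resolve_left hb)
  rw [hK', Submodule.mem_sup] at hBK'
  obtain ⟨k, hk, s, hs, rfl⟩ := hBK'
  rw [Finsupp.mem_span_range_iff_exists_finsupp] at hs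
  obtain ⟨β, rfl⟩ := hs
  have hprR : ∀ i (hi : i < κ + 1), ∃ a : ℚ, a ≠ 0 ∧
      pr nn c κ (Rp i) = a • Pi.single (⟨i, hi⟩ : Fin (κ + 1)) 1 := by
    intro i
    induction i with
    | zero =>
      intro hi
      refine ⟨fn c v, hcv, ?_⟩
      have := h.pr_low hvh
      simpa [hRp] using this
    | succ i ih =>
      intro hi
      obtain ⟨a, ha, h1⟩ := ih (by omega)
      refine ⟨a * (κ - i), ?_, ?_⟩
      · apply mul_ne_zero ha
        rw [sub_ne_zero]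
        intro h'
        have : κ = i := by exact_mod_cast h'
        omega
      · have h2 := (h.fu hu).pr_ad ![1, 0, 0, 0] (hRu i)
        have h3 : ad (dr kk nn (R := ℚ) ![1, 0, 0, 0]) (Rp i) = Rp (i + 1) := by
          simp only [hRp]
          rw [pow_succ', Module.End.mul_apply]
        have h4 : (![(![1, 0, 0, 0] : Fin 4 → ℚ) 0, (![1, 0, 0, 0] : Fin 4 → ℚ) 1,
            (![1, 0, 0, 0] : Fin 4 → ℚ) 2, (![1, 0, 0, 0] : Fin 4 → ℚ) 3 * w] : Fin 4 → ℚ) =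
            ![1, 0, 0, 0] := by
          funext i
          fin_cases i <;> simp
        rw [h3, h4, h1, Matrix.mulVec_smul, sl_R_single κ i (by omega), smul_smul] at h2
        exact h2
  have hβ : ∀ i, i < κ + 1 → β i = 0 := by
    intro i hi
    rw [map_add, h.pr_ker hK hk, zero_add, Finsupp.sum, map_sum] at hpr
    have h1 := congrFun hpr ⟨i, hi⟩
    rw [Finset.sum_apply, Pi.zero_apply] at h1
    obtain ⟨a, ha, h2⟩ := hprR i hi
    rw [Finset.sum_eq_single i] at h1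
    · rw [map_smul, h2] at h1
      simp only [Pi.smul_apply, Pi.single_eq_same, smul_eq_mul, mul_one] at h1
      exact (mul_eq_zero.1 h1).resolve_right ha
    · intro j _ hji
      by_cases hj : j < κ + 1
      · obtain ⟨a', -, h3⟩ := hprR j hj
        rw [map_smul, h3]
        simp only [Pi.smul_apply, smul_eq_mul]
        rw [Pi.single_eq_of_ne, mul_zero, mul_zero]
        intro h'
        exact hji (congrArg Fin.val h').symm
      · rw [map_smul, h.pr_ker hK (dual_top hK hvh hG j (by omega))]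
        simp
    · intro h'
      rw [Finsupp.notMem_support_iff.1 h', zero_smul, map_zero]
      rfl
  apply K.add_mem hk
  rw [Finsupp.sum]
  refine K.sum_mem fun j hj => K.smul_mem _ ?_
  apply dual_top hK hvh hG j
  by_contra hj'
  exact (Finsupp.mem_support_iff.1 hj) (hβ j (by omega))

end Pool.Agent.LibME94
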