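import Pool.Agent.LibME94.A2
import Pool.Agent.LibSym94.Main

/-!
# The adjoint action of `SL₂(ℤ)`
-/

open Matrix
open scoped MatrixGroups Nat
open MW38 (Fl Tri)
open ZQ38 (Un Low cx Fend brk Stab)
open Pool.Agent.LibEis68 (sl sl_bracket act)
open Pool.Agent.LibSym94 (act_mul act_one)

namespace Pool.Agent.LibME94

/-! ### exponentials on one block -/

theorem sl_G_apply (k : ℕ) (i l : Fin (k + 1)) :
    sl k (![0, 0, 1, 0] : Fin 4 → ℚ) i l = if (i : ℕ) + 1 = l then -((l : ℕ) : ℚ) else 0 := by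
  simp only [sl, Matrix.of_apply, Matrix.cons_val_zero, Matrix.cons_val_one,
    Matrix.cons_val, zero_mul, ite_self, add_zero, one_mul, zero_sub]
  split_ifs <;> simp

theorem sl_R_apply (k : ℕ) (i l : Fin (k + 1)) :
    sl k (![-1, 0, 0, 0] : Fin 4 → ℚ) i l =
      if (i : ℕ) = l + 1 then -((k : ℚ) - (l : ℕ)) else 0 := by
  simp only [sl, Matrix.of_apply, Matrix.cons_val_zero, Matrix.cons_val_one,
    Matrix.cons_val, zero_mul, ite_self, add_zero, one_mul, sub_zero, neg_mul]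

theorem sl_G_single (k j : ℕ) (hj : j < k + 1) (m : ℕ) (i : Fin (k + 1)) :
    ((sl k (![0, 0, 1, 0] : Fin 4 → ℚ)) ^ m) i ⟨j, hj⟩ =
      if (i : ℕ) + m = j then (-1) ^ m * (j.descFactorial m : ℚ) else 0 := by
  induction m generalizing i with
  | zero =>
    rw [pow_zero, Matrix.one_apply]
    by_cases h : (i : ℕ) = j
    · have : i = ⟨j, hj⟩ := Fin.ext h
      rw [if_pos this, if_pos (by omega)]
      simp
    · have : i ≠ ⟨j, hj⟩ := fun hh => h (congrArg Fin.val hh)
      rw [if_neg this, if_neg (by omega)]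
  | succ m ih =>
    rw [pow_succ', Matrix.mul_apply]
    simp only [ih, sl_G_apply]
    by_cases h : (i : ℕ) + (m + 1) = j
    · rw [if_pos h, Finset.sum_eq_single (⟨i + 1, by omega⟩ : Fin (k + 1))]
      · simp only
        rw [if_pos trivial, if_pos (by omega), Nat.descFactorial_succ]
        have h1 : j - m = i + 1 := by omega
        rw [h1]
        push_cast
        ring
      · intro l _ hl
        by_cases h1 : (i : ℕ) + 1 = l
        · exfalso
          apply hl
          ext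
          exact h1.symm
        · rw [if_neg h1]
          simp
      · intro h'
        exact absurd (Finset.mem_univ _) h'
    · rw [if_neg h]
      refine Finset.sum_eq_zero fun l _ => ?_
      by_cases h1 : (i : ℕ) + 1 = l
      · rw [if_neg (by omega : ¬ ((l : ℕ) + m = j)), mul_zero]
      · rw [if_neg h1]
        simp

theorem sl_R_single' (k j : ℕ) (hj : j < k + 1) (m : ℕ) (i : Fin (k + 1)) :
    ((sl k (![-1, 0, 0, 0] : Fin 4 → ℚ)) ^ m) i ⟨j, hj⟩ =
      if (i : ℕ) = j + m then (-1) ^ m * ((k - j).descFactorial m : ℚ) else 0 := by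
  induction m generalizing i with
  | zero =>
    rw [pow_zero, Matrix.one_apply]
    by_cases h : (i : ℕ) = j
    · have : i = ⟨j, hj⟩ := Fin.ext h
      rw [if_pos this, if_pos (by omega)]
      simp
    · have : i ≠ ⟨j, hj⟩ := fun hh => h (congrArg Fin.val hh)
      rw [if_neg this, if_neg (by omega)]
  | succ m ih =>
    rw [pow_succ', Matrix.mul_apply]
    simp only [ih, sl_R_apply]
    by_cases h : (i : ℕ) = j + (m + 1)
    · have hi := i.2
      rw [if_pos h, Finset.sum_eq_single (⟨j + m, by omega⟩ : Fin (k + 1))]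
      · simp only
        rw [if_pos (by omega), if_pos trivial, Nat.descFactorial_succ]
        have h1 : ((k - j - m : ℕ) : ℚ) = (k : ℚ) - (j + m : ℕ) := by
          rw [Nat.sub_sub, Nat.cast_sub (by omega)]
        push_cast at h1 ⊢
        rw [h1]
        ring
      · intro l _ hl
        by_cases h1 : (i : ℕ) = l + 1
        · exfalso
          apply hl
          ext
          simp only
          omega
        · rw [if_neg h1]
          simp
      · intro h'
        exact absurd (Finset.mem_univ _) h'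
    · rw [if_neg h]
      refine Finset.sum_eq_zero fun l _ => ?_
      by_cases h1 : (i : ℕ) = l + 1
      · rw [if_neg (by omega : ¬ ((l : ℕ) = j + m)), mul_zero]
      · rw [if_neg h1]
        simp

theorem sl_G_pow (k m : ℕ) (hm : k < m) : (sl k (![0, 0, 1, 0] : Fin 4 → ℚ)) ^ m = 0 := by
  ext i ⟨j, hj⟩
  rw [sl_G_single, if_neg (by omega), Matrix.zero_apply]

theorem sl_R_pow (k m : ℕ) (hm : k < m) : (sl k (![-1, 0, 0, 0] : Fin 4 → ℚ)) ^ m = 0 := by
  ext i ⟨j, hj⟩
  rw [sl_R_single', if_neg (by have := i.2; omega), Matrix.zero_apply]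

/-- the second generator -/
def LL : SL(2, ℤ) := ⟨!![1, 0; 1, 1], by simp [Matrix.det_fin_two]⟩

theorem act_T (k : ℕ) : act k ModularGroup.T = IsNilpotent.exp (sl k (![0, 0, 1, 0] : Fin 4 → ℚ)) := by
  rw [IsNilpotent.exp_eq_sum (sl_G_pow k (k + 1) (by omega))]
  ext i ⟨j, hj⟩
  rw [Matrix.sum_apply]
  simp only [Matrix.smul_apply, sl_G_single, smul_eq_mul]
  unfold act
  rw [Matrix.of_apply, ModularGroup.coe_T]
  have h1 : ((Polynomial.C ((1 : ℤ) : ℚ) * Polynomial.X - Polynomial.C ((1 : ℤ) : ℚ)) ^ j *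
      (Polynomial.C ((1 : ℤ) : ℚ) - Polynomial.C ((0 : ℤ) : ℚ) * Polynomial.X) ^ (k - j)).coeff
        (i : ℕ) = (-1) ^ (j - i) * (j.choose i : ℚ) := by
    have h2 : (Polynomial.C ((1 : ℤ) : ℚ) * Polynomial.X - Polynomial.C ((1 : ℤ) : ℚ)) ^ j *
      (Polynomial.C ((1 : ℤ) : ℚ) - Polynomial.C ((0 : ℤ) : ℚ) * Polynomial.X) ^ (k - j) =
        (Polynomial.X + Polynomial.C (-1 : ℚ)) ^ j := by
      simp [sub_eq_add_neg]
    rw [h2, Polynomial.coeff_X_add_C_pow]
  have h3 : (((!![1, 1; 0, 1] : Matrix (Fin 2) (Fin 2) ℤ) 1 1 : ℤ) : ℚ) = ((1 : ℤ) : ℚ) := by simp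
  have h4 : (((!![1, 1; 0, 1] : Matrix (Fin 2) (Fin 2) ℤ) 0 1 : ℤ) : ℚ) = ((1 : ℤ) : ℚ) := by simp
  have h5 : (((!![1, 1; 0, 1] : Matrix (Fin 2) (Fin 2) ℤ) 0 0 : ℤ) : ℚ) = ((1 : ℤ) : ℚ) := by simp
  have h6 : (((!![1, 1; 0, 1] : Matrix (Fin 2) (Fin 2) ℤ) 1 0 : ℤ) : ℚ) = ((0 : ℤ) : ℚ) := by simp
  rw [h3, h4, h5, h6, h1]
  by_cases h : (i : ℕ) ≤ j
  · rw [Finset.sum_eq_single (j - i)]
    · rw [if_pos (by omega), Nat.descFactorial_eq_factorial_mul_choose, Nat.choose_symm h]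
      have := Nat.factorial_ne_zero (j - i)
      have h7 : (((j - i)! : ℕ) : ℚ) ≠ 0 := by exact_mod_cast this
      push_cast
      field_simp
    · intro m _ hm
      rw [if_neg (by omega), mul_zero]
    · intro h'
      exact absurd (Finset.mem_range.2 (by omega)) h'
  · rw [Nat.choose_eq_zero_of_lt (by omega)]
    symm
    rw [Nat.cast_zero, mul_zero]
    refine Finset.sum_eq_zero fun m _ => ?_
    rw [if_neg (by omega), mul_zero]

theorem act_LL (k : ℕ) : act k LL = IsNilpotent.exp (sl k (![-1, 0, 0, 0] : Fin 4 → ℚ)) := by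
  rw [IsNilpotent.exp_eq_sum (sl_R_pow k (k + 1) (by omega))]
  ext i ⟨j, hj⟩
  rw [Matrix.sum_apply]
  simp only [Matrix.smul_apply, sl_R_single', smul_eq_mul]
  unfold act
  rw [Matrix.of_apply]
  have h1 : ((Polynomial.C ((1 : ℤ) : ℚ) * Polynomial.X - Polynomial.C ((0 : ℤ) : ℚ)) ^ j *
      (Polynomial.C ((1 : ℤ) : ℚ) - Polynomial.C ((1 : ℤ) : ℚ) * Polynomial.X) ^ (k - j)).coeff
        (i : ℕ) = if j ≤ i then (-1) ^ (i - j) * ((k - j).choose (i - j) : ℚ) else 0 := by
    have h2 : (Polynomial.C ((1 : ℤ) : ℚ) * Polynomial.X - Polynomial.C ((0 : ℤ) : ℚ)) ^ j *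
      (Polynomial.C ((1 : ℤ) : ℚ) - Polynomial.C ((1 : ℤ) : ℚ) * Polynomial.X) ^ (k - j) =
        Polynomial.C ((-1 : ℚ) ^ (k - j)) * (Polynomial.X + Polynomial.C (-1 : ℚ)) ^ (k - j) *
          Polynomial.X ^ j := by
      rw [Polynomial.C_pow, ← mul_pow, mul_comm]
      congr 2
      · simp [sub_eq_add_neg]
      · simp
    rw [h2, Polynomial.coeff_mul_X_pow']
    by_cases h : j ≤ i
    · rw [if_pos h, if_pos h, Polynomial.coeff_C_mul, Polynomial.coeff_X_add_C_pow]
      have hi := i.2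
      have h8 : (-1 : ℚ) ^ (k - j) * (-1) ^ (k - j - (i - j)) = (-1) ^ (i - j) := by
        have h9 : k - j = (k - j - (i - j)) + (i - j) := by omega
        conv_lhs => rw [h9]
        rw [pow_add]
        have h10 : (-1 : ℚ) ^ (k - j - (i - j)) * (-1) ^ (k - j - (i - j)) = 1 := by
          rw [← mul_pow]
          simp
        rw [Nat.add_sub_cancel]
        linear_combination (-1 : ℚ) ^ ((i : ℕ) - j) * h10
      rw [← mul_assoc, h8]
    · rw [if_neg h, if_neg h]
  have h3 : (((LL : SL(2, ℤ)) 1 1 : ℤ) : ℚ) = ((1 : ℤ) : ℚ) := by simp [LL]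
  have h4 : (((LL : SL(2, ℤ)) 0 1 : ℤ) : ℚ) = ((0 : ℤ) : ℚ) := by simp [LL]
  have h5 : (((LL : SL(2, ℤ)) 0 0 : ℤ) : ℚ) = ((1 : ℤ) : ℚ) := by simp [LL]
  have h6 : (((LL : SL(2, ℤ)) 1 0 : ℤ) : ℚ) = ((1 : ℤ) : ℚ) := by simp [LL]
  rw [h3, h4, h5, h6, h1]
  by_cases h : j ≤ (i : ℕ)
  · rw [if_pos h, Finset.sum_eq_single (i - j)]
    · rw [if_pos (by omega), Nat.descFactorial_eq_factorial_mul_choose]
      have := Nat.factorial_ne_zero ((i : ℕ) - j)
      have h7 : (((((i : ℕ) - j)! : ℕ)) : ℚ) ≠ 0 := by exact_mod_cast this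
      push_cast
      field_simp
    · intro m _ hm
      rw [if_neg (by omega), mul_zero]
    · intro h'
      exact absurd (Finset.mem_range.2 (by have := i.2; omega)) h'
  · rw [if_neg h]
    symm
    refine Finset.sum_eq_zero fun m _ => ?_
    rw [if_neg (by omega), mul_zero]

end Pool.Agent.LibME94
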