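import Pool.Agent.LibME94.A5

/-!
# The adjoint action of `SL₂(ℤ)` (2)
-/

open Matrix
open scoped MatrixGroups Nat
open MW38 (Fl Tri)
open ZQ38 (Un Low cx Fend brk Stab)
open Pool.Agent.LibEis68 (sl sl_bracket act)
open Pool.Agent.LibSym94 (act_mul act_one)

namespace Pool.Agent.LibME94

section conj

variable {ι : Type} [Fintype ι] [DecidableEq ι] {R : Type*} [Field R] [CharZero R]

theorem exp_conj {N : Matrix ι ι R} (hN : IsNilpotent N) (B : Matrix ι ι R) :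
    IsNilpotent.exp (ad N) B = IsNilpotent.exp N * B * IsNilpotent.exp (-N) := by
  obtain ⟨k, hk⟩ := hN
  have hk' : (-N) ^ k = 0 := by rw [neg_pow, hk, mul_zero]
  have h1 : ad N = LinearMap.mulLeft R N + LinearMap.mulRight R (-N) := by
    ext1 M
    simp only [ad_apply, LinearMap.add_apply, LinearMap.mulLeft_apply, LinearMap.mulRight_apply,
      mul_neg]
    abel
  have h2 : LinearMap.mulLeft R N ^ k = 0 := by
    rw [LinearMap.pow_mulLeft, hk]
    ext1 M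
    simp
  have h3 : LinearMap.mulRight R (-N) ^ k = 0 := by
    rw [LinearMap.pow_mulRight, hk']
    ext1 M
    simp
  rw [h1, IsNilpotent.exp_add_of_commute (LinearMap.commute_mulLeft_right N (-N)) ⟨k, h2⟩
    ⟨k, h3⟩, Module.End.mul_apply, IsNilpotent.exp_eq_sum h2, IsNilpotent.exp_eq_sum h3,
    IsNilpotent.exp_eq_sum hk, IsNilpotent.exp_eq_sum hk']
  simp only [LinearMap.sum_apply, LinearMap.smul_apply, LinearMap.pow_mulLeft,
    LinearMap.pow_mulRight, LinearMap.mulLeft_apply, LinearMap.mulRight_apply]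
  rw [Finset.sum_mul, Finset.sum_mul]
  refine Finset.sum_congr rfl fun i _ => ?_
  rw [Finset.mul_sum, Finset.mul_sum, Finset.smul_sum]
  refine Finset.sum_congr rfl fun j _ => ?_
  simp only [smul_mul_assoc, mul_smul_comm, mul_assoc]
  rw [smul_comm]

theorem ad_nilp {N : Matrix ι ι R} (hN : IsNilpotent N) : ∃ k, ad N ^ k = 0 ∧ N ^ k = 0 := by
  have hl : IsNilpotent (LinearMap.mulLeft R N) := by rwa [LinearMap.isNilpotent_mulLeft_iff]
  have hr : IsNilpotent (LinearMap.mulRight R N) := by rwa [LinearMap.isNilpotent_mulRight_iff]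
  obtain ⟨k, hk⟩ := (LinearMap.commute_mulLeft_right N N).isNilpotent_sub hl hr
  obtain ⟨l, hl⟩ := hN
  exact ⟨k + l, pow_eq_zero_of_le (by omega) hk, pow_eq_zero_of_le (by omega) hl⟩

end conj

variable {J : Type} [DecidableEq J] {kk : J → ℕ} {nn : J → ℤ}

theorem exp_block [Fintype J] (M : (j : J) → Matrix (Fin (kk j + 1)) (Fin (kk j + 1)) ℚ) (N : ℕ)
    (h : ∀ j, M j ^ N = 0) : IsNilpotent.exp (Matrix.blockDiagonal' M) =
      Matrix.blockDiagonal' fun j => IsNilpotent.exp (M j) := by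
  have h1 : (Matrix.blockDiagonal' M) ^ N = 0 := by
    rw [← Matrix.blockDiagonal'_pow]
    have : M ^ N = 0 := by
      funext j
      exact h j
    rw [this, Matrix.blockDiagonal'_zero]
  rw [IsNilpotent.exp_eq_sum h1]
  ext ⟨i, x⟩ ⟨j, y⟩
  rw [Matrix.sum_apply]
  simp only [Matrix.smul_apply, ← Matrix.blockDiagonal'_pow, Matrix.blockDiagonal'_apply]
  by_cases hij : i = j
  · subst hij
    simp only [dite_true, cast_eq]
    rw [IsNilpotent.exp_eq_sum (h i), Matrix.sum_apply]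
    rfl
  · simp only [dif_neg hij, smul_zero, Finset.sum_const_zero]

variable [Fintype J]

theorem exists_pow_G (kk : J → ℕ) : ∃ N, ∀ j : J, (sl (kk j) (![0, 0, 1, 0] : Fin 4 → ℚ)) ^ N = 0 ∧
    (sl (kk j) (![-1, 0, 0, 0] : Fin 4 → ℚ)) ^ N = 0 := by
  refine ⟨∑ j, kk j + 1, fun j => ⟨sl_G_pow _ _ ?_, sl_R_pow _ _ ?_⟩⟩ <;>
  · have := Finset.single_le_sum (f := kk) (fun _ _ => Nat.zero_le _) (Finset.mem_univ j)
    omega

theorem dr_sl (t : Fin 4 → ℚ) (ht : t 3 = 0) :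
    dr kk nn t = Matrix.blockDiagonal' fun j => sl (kk j) t := by
  unfold dr
  congr 1
  funext j
  congr 1
  funext i
  fin_cases i <;> simp [ht]

theorem RR_T : RR kk ModularGroup.T = IsNilpotent.exp (dr kk nn (![0, 0, 1, 0] : Fin 4 → ℚ)) := by
  obtain ⟨N, hN⟩ := exists_pow_G kk
  rw [dr_sl _ (by simp), exp_block _ N (fun j => (hN j).1)]
  unfold RR
  congr 1
  funext j
  exact act_T _

theorem RR_LL : RR kk LL = IsNilpotent.exp (dr kk nn (![-1, 0, 0, 0] : Fin 4 → ℚ)) := by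
  obtain ⟨N, hN⟩ := exists_pow_G kk
  rw [dr_sl _ (by simp), exp_block _ N (fun j => (hN j).2)]
  unfold RR
  congr 1
  funext j
  exact act_LL _

theorem nil_T : IsNilpotent (dr kk nn (![0, 0, 1, 0] : Fin 4 → ℚ)) := by
  obtain ⟨N, hN⟩ := exists_pow_G kk
  refine ⟨N, ?_⟩
  rw [dr_sl _ (by simp), ← Matrix.blockDiagonal'_pow]
  have : (fun j => sl (kk j) (![0, 0, 1, 0] : Fin 4 → ℚ)) ^ N = 0 := by
    funext j
    exact (hN j).1
  rw [this, Matrix.blockDiagonal'_zero]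

theorem nil_LL : IsNilpotent (dr kk nn (![-1, 0, 0, 0] : Fin 4 → ℚ)) := by
  obtain ⟨N, hN⟩ := exists_pow_G kk
  refine ⟨N, ?_⟩
  rw [dr_sl _ (by simp), ← Matrix.blockDiagonal'_pow]
  have : (fun j => sl (kk j) (![-1, 0, 0, 0] : Fin 4 → ℚ)) ^ N = 0 := by
    funext j
    exact (hN j).2
  rw [this, Matrix.blockDiagonal'_zero]

theorem RR_mul (γ δ : SL(2, ℤ)) : RR kk (γ * δ) = RR kk γ * RR kk δ := by
  unfold RR
  rw [← Matrix.blockDiagonal'_mul]
  congr 1
  funext j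
  exact act_mul γ δ

omit [Fintype J] in
theorem RR_one : RR kk (1 : SL(2, ℤ)) = 1 := by
  unfold RR
  rw [← Matrix.blockDiagonal'_one]
  congr 1
  funext j
  exact act_one

theorem RR_inv (γ : SL(2, ℤ)) : RR kk γ⁻¹ = (RR kk γ)⁻¹ := by
  symm
  apply Matrix.inv_eq_right_inv
  rw [← RR_mul, mul_inv_cancel, RR_one]

theorem RR_isUnit (γ : SL(2, ℤ)) : IsUnit (RR kk γ) :=
  isUnit_iff_exists.2 ⟨RR kk γ⁻¹, by rw [← RR_mul, mul_inv_cancel, RR_one],
    by rw [← RR_mul, inv_mul_cancel, RR_one]⟩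

/-- the action of `γ` over a field -/
noncomputable def RRm (kk : J → ℕ) (R : Type*) [Field R] [CharZero R] (γ : SL(2, ℤ)) :
    Matrix (Ix kk) (Ix kk) R := (RR kk γ).map (algebraMap ℚ R)

variable {R : Type*} [Field R] [CharZero R]

theorem RRm_mul (γ δ : SL(2, ℤ)) : RRm kk R (γ * δ) = RRm kk R γ * RRm kk R δ := by
  unfold RRm
  rw [RR_mul, Matrix.map_mul]

theorem RRm_one : RRm kk R (1 : SL(2, ℤ)) = 1 := by
  unfold RRm
  rw [RR_one, Matrix.map_one _ (map_zero _) (map_one _)]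

theorem RRm_cancel (γ : SL(2, ℤ)) : RRm kk R γ * RRm kk R γ⁻¹ = 1 := by
  rw [← RRm_mul, mul_inv_cancel, RRm_one]

theorem RRm_cancel' (γ : SL(2, ℤ)) : RRm kk R γ⁻¹ * RRm kk R γ = 1 := by
  rw [← RRm_mul, inv_mul_cancel, RRm_one]

theorem dr_mapR (t : Fin 4 → ℚ) : (dr kk nn t).map (algebraMap ℚ R) =
    dr kk nn fun i => (algebraMap ℚ R (t i)) := by
  unfold dr
  rw [Matrix.blockDiagonal'_map _ _ (map_zero _)]
  congr 1
  funext j
  ext x y
  simp only [Matrix.map_apply, sl, Matrix.of_apply]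
  split_ifs <;> simp

theorem map_expM {ι : Type} [Fintype ι] [DecidableEq ι] {N : Matrix ι ι ℚ} (hN : IsNilpotent N) :
    (IsNilpotent.exp N).map (algebraMap ℚ R) = IsNilpotent.exp (N.map (algebraMap ℚ R)) := by
  have := IsNilpotent.map_exp hN ((algebraMap ℚ R).mapMatrix)
  exact this

/-- conjugation by an exponential -/
theorem exp_step {U : Submodule R (Matrix (Ix kk) (Ix kk) R)}
    (hU : ∀ t : Fin 4 → R, ∀ B ∈ U, ad (dr kk nn t) B ∈ U) {t : Fin 4 → R}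
    (ht : IsNilpotent (dr kk nn t)) {B : Matrix (Ix kk) (Ix kk) R} (hB : B ∈ U) :
    IsNilpotent.exp (dr kk nn t) * B * IsNilpotent.exp (-dr kk nn t) ∈ U := by
  obtain ⟨k, hk, -⟩ := ad_nilp ht
  rw [← exp_conj ht, IsNilpotent.exp_eq_sum hk, LinearMap.sum_apply]
  refine U.sum_mem fun i _ => ?_
  have h1 : ∀ i : ℕ, (ad (dr kk nn t) ^ i) B ∈ U := by
    intro i
    induction i with
    | zero => simpa using hB
    | succ i ih =>
      rw [pow_succ', Module.End.mul_apply]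
      exact hU _ _ ih
  rw [LinearMap.smul_apply]
  have h2 : ((i.factorial : ℚ)⁻¹) • (ad (dr kk nn t) ^ i) B =
      (((i.factorial : ℚ)⁻¹ : ℚ) : R) • (ad (dr kk nn t) ^ i) B := by
    rw [Rat.cast_smul_eq_qsmul]
  rw [h2]
  exact U.smul_mem _ (h1 i)

theorem exp_pr {U : Submodule R (Matrix (Ix kk) (Ix kk) R)} {w : ℤ} {κ : ℕ}
    {c : Matrix (Ix kk) (Ix kk) R} (h : Fu nn U w κ c) {t : Fin 4 → R} (ht3 : t 3 = 0)
    (ht : IsNilpotent (dr kk nn t)) (ht' : IsNilpotent (sl κ t))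
    {B : Matrix (Ix kk) (Ix kk) R} (hB : B ∈ U) :
    pr nn c κ (IsNilpotent.exp (dr kk nn t) * B * IsNilpotent.exp (-dr kk nn t)) =
      IsNilpotent.exp (sl κ t) *ᵥ pr nn c κ B := by
  obtain ⟨k, hk, -⟩ := ad_nilp ht
  obtain ⟨l, hl⟩ := ht'
  have hk' : ad (dr kk nn t) ^ (k + l) = 0 := pow_eq_zero_of_le (by omega) hk
  have hl' : sl κ t ^ (k + l) = 0 := pow_eq_zero_of_le (by omega) hl
  rw [← exp_conj ht, IsNilpotent.exp_eq_sum hk', LinearMap.sum_apply, map_sum,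
    IsNilpotent.exp_eq_sum hl', Matrix.sum_mulVec]
  refine Finset.sum_congr rfl fun i _ => ?_
  have h1 : ∀ i : ℕ, (ad (dr kk nn t) ^ i) B ∈ U := by
    intro i
    induction i with
    | zero => simpa using hB
    | succ i ih =>
      rw [pow_succ', Module.End.mul_apply]
      exact h.st _ _ ih
  have h3 : ∀ i : ℕ, pr nn c κ ((ad (dr kk nn t) ^ i) B) = (sl κ t ^ i) *ᵥ pr nn c κ B := by
    intro i
    induction i with
    | zero => simp
    | succ i ih =>
      rw [pow_succ', Module.End.mul_apply, h.pr_ad _ (h1 i), ih, pow_succ', ← Matrix.mulVec_mulVec]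
      congr 2
      funext a
      fin_cases a <;> simp [ht3]
  rw [LinearMap.smul_apply]
  have h2 : ((i.factorial : ℚ)⁻¹) • (ad (dr kk nn t) ^ i) B =
      (((i.factorial : ℚ)⁻¹ : ℚ) : R) • (ad (dr kk nn t) ^ i) B := by
    rw [Rat.cast_smul_eq_qsmul]
  have h4 : ((i.factorial : ℚ)⁻¹) • (sl κ t ^ i) =
      (((i.factorial : ℚ)⁻¹ : ℚ) : R) • (sl κ t ^ i) := by
    rw [Rat.cast_smul_eq_qsmul]
  rw [h2, map_smul, h3, h4, Matrix.smul_mulVec]

/-- the two generators and their inverses -/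
theorem gens (P : SL(2, ℤ) → Prop) (h1 : P 1) (hmul : ∀ γ δ, P γ → P δ → P (γ * δ))
    (hT : P ModularGroup.T) (hT' : P ModularGroup.T⁻¹) (hL : P LL) (hL' : P LL⁻¹) (γ : SL(2, ℤ)) :
    P γ := by
  have hS : ModularGroup.S = ModularGroup.T⁻¹ * LL * ModularGroup.T⁻¹ := by
    ext i j
    fin_cases i <;> fin_cases j <;>
      simp [ModularGroup.S, ModularGroup.T, LL, Matrix.mul_apply, Fin.sum_univ_two,
        Matrix.SpecialLinearGroup.coe_inv, Matrix.adjugate_fin_two]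
  have key : ∀ γ ∈ Subgroup.closure ({ModularGroup.S, ModularGroup.T} : Set SL(2, ℤ)),
      P γ ∧ P γ⁻¹ := by
    intro γ hγ
    induction hγ using Subgroup.closure_induction with
    | mem x hx =>
      rcases hx with rfl | rfl
      · rw [hS]
        refine ⟨hmul _ _ (hmul _ _ hT' hL) hT', ?_⟩
        rw [_root_.mul_inv_rev, _root_.mul_inv_rev, inv_inv, ← mul_assoc]
        exact hmul _ _ (hmul _ _ hT hL') hT
      · exact ⟨hT, hT'⟩
    | one => exact ⟨h1, by rwa [inv_one]⟩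
    | mul x y _ _ hx hy =>
      refine ⟨hmul _ _ hx.1 hy.1, ?_⟩
      rw [_root_.mul_inv_rev]
      exact hmul _ _ hy.2 hx.2
    | inv x _ hx => exact ⟨hx.2, by rw [inv_inv]; exact hx.1⟩
  exact (key γ (by rw [SpecialLinearGroup.SL2Z_generators]; trivial)).1

theorem RRm_T : RRm kk R ModularGroup.T = IsNilpotent.exp (dr kk nn (R := R) ![0, 0, 1, 0]) := by
  unfold RRm
  rw [RR_T (nn := nn), map_expM nil_T, dr_mapR]
  congr 2
  funext i
  fin_cases i <;> simp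

theorem RRm_LL : RRm kk R LL = IsNilpotent.exp (dr kk nn (R := R) ![-1, 0, 0, 0]) := by
  unfold RRm
  rw [RR_LL (nn := nn), map_expM nil_LL, dr_mapR]
  congr 2
  funext i
  fin_cases i <;> simp

theorem nilR {t : Fin 4 → ℚ} (h : IsNilpotent (dr kk nn t)) {t' : Fin 4 → R}
    (ht : t' = fun i => algebraMap ℚ R (t i)) : IsNilpotent (dr kk nn t') := by
  have h1 := h.map ((algebraMap ℚ R).mapMatrix)
  have h2 : ((algebraMap ℚ R).mapMatrix) (dr kk nn t) = dr kk nn t' := by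
    rw [ht]
    exact dr_mapR t
  rwa [h2] at h1

theorem RRm_Tinv : RRm kk R ModularGroup.T⁻¹ =
    IsNilpotent.exp (-dr kk nn (R := R) ![0, 0, 1, 0]) := by
  have hn : IsNilpotent (dr kk nn (R := R) ![0, 0, 1, 0]) := nilR nil_T (by
    funext i
    fin_cases i <;> simp)
  have h1 := IsNilpotent.exp_mul_exp_neg_self hn
  have h2 := RRm_cancel' (kk := kk) (R := R) ModularGroup.T
  rw [RRm_T (nn := nn)] at h2
  calc RRm kk R ModularGroup.T⁻¹ = RRm kk R ModularGroup.T⁻¹ *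
        (IsNilpotent.exp (dr kk nn (R := R) ![0, 0, 1, 0]) *
          IsNilpotent.exp (-dr kk nn (R := R) ![0, 0, 1, 0])) := by rw [h1, mul_one]
    _ = _ := by rw [← mul_assoc, h2, one_mul]

theorem RRm_LLinv : RRm kk R LL⁻¹ =
    IsNilpotent.exp (-dr kk nn (R := R) ![-1, 0, 0, 0]) := by
  have hn : IsNilpotent (dr kk nn (R := R) ![-1, 0, 0, 0]) := nilR nil_LL (by
    funext i
    fin_cases i <;> simp)
  have h1 := IsNilpotent.exp_mul_exp_neg_self hn
  have h2 := RRm_cancel' (kk := kk) (R := R) LL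
  rw [RRm_LL (nn := nn)] at h2
  calc RRm kk R LL⁻¹ = RRm kk R LL⁻¹ *
        (IsNilpotent.exp (dr kk nn (R := R) ![-1, 0, 0, 0]) *
          IsNilpotent.exp (-dr kk nn (R := R) ![-1, 0, 0, 0])) := by rw [h1, mul_one]
    _ = _ := by rw [← mul_assoc, h2, one_mul]

/-- stable subspaces are stable under `SL₂(ℤ)` -/
theorem conj_mem {U : Submodule R (Matrix (Ix kk) (Ix kk) R)}
    (hU : ∀ t : Fin 4 → R, ∀ B ∈ U, ad (dr kk nn t) B ∈ U) (γ : SL(2, ℤ)) :
    ∀ B ∈ U, RRm kk R γ * B * RRm kk R γ⁻¹ ∈ U := by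
  have hnT : IsNilpotent (dr kk nn (R := R) ![0, 0, 1, 0]) := nilR nil_T (by
    funext i
    fin_cases i <;> simp)
  have hnL : IsNilpotent (dr kk nn (R := R) ![-1, 0, 0, 0]) := nilR nil_LL (by
    funext i
    fin_cases i <;> simp)
  refine gens (fun γ => ∀ B ∈ U, RRm kk R γ * B * RRm kk R γ⁻¹ ∈ U) ?_ ?_ ?_ ?_ ?_ ?_ γ
  · intro B hB
    rw [inv_one, RRm_one, one_mul, mul_one]
    exact hB
  · intro γ δ hγ hδ B hB
    have := hγ _ (hδ B hB)
    rw [_root_.mul_inv_rev, RRm_mul, RRm_mul]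
    simpa only [mul_assoc] using this
  · intro B hB
    rw [RRm_T (nn := nn), RRm_Tinv (nn := nn)]
    exact exp_step hU hnT hB
  · intro B hB
    rw [inv_inv, RRm_T (nn := nn), RRm_Tinv (nn := nn)]
    have := exp_step hU (t := -![0, 0, 1, 0]) (by rw [dr_neg]; exact hnT.neg) hB
    rwa [dr_neg, neg_neg] at this
  · intro B hB
    rw [RRm_LL (nn := nn), RRm_LLinv (nn := nn)]
    exact exp_step hU hnL hB
  · intro B hB
    rw [inv_inv, RRm_LL (nn := nn), RRm_LLinv (nn := nn)]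
    have := exp_step hU (t := -![-1, 0, 0, 0]) (by rw [dr_neg]; exact hnL.neg) hB
    rwa [dr_neg, neg_neg] at this

/-- the action on one block over a field -/
noncomputable def actm (κ : ℕ) (R : Type*) [Field R] [CharZero R] (γ : SL(2, ℤ)) :
    Matrix (Fin (κ + 1)) (Fin (κ + 1)) R := (act κ γ).map (algebraMap ℚ R)

theorem actm_mul (κ : ℕ) (γ δ : SL(2, ℤ)) : actm κ R (γ * δ) = actm κ R γ * actm κ R δ := by
  unfold actm
  rw [act_mul, Matrix.map_mul]

theorem actm_one (κ : ℕ) : actm κ R (1 : SL(2, ℤ)) = 1 := by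
  unfold actm
  rw [act_one, Matrix.map_one _ (map_zero _) (map_one _)]

theorem sl_mapR (κ : ℕ) (t : Fin 4 → ℚ) : (sl κ t).map (algebraMap ℚ R) =
    sl κ fun i => (algebraMap ℚ R (t i)) := by
  ext x y
  simp only [Matrix.map_apply, sl, Matrix.of_apply]
  split_ifs <;> simp

theorem sl_neg (κ : ℕ) (t : Fin 4 → R) : sl κ (-t) = -sl κ t := by
  have := sl_smul κ (-1 : R) t
  simpa using this

theorem actm_T (κ : ℕ) : actm κ R ModularGroup.T = IsNilpotent.exp (sl κ (![0, 0, 1, 0] : Fin 4 → R)) := by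
  unfold actm
  rw [act_T, map_expM ⟨κ + 1, sl_G_pow κ (κ + 1) (by omega)⟩, sl_mapR]
  congr 2
  funext i
  fin_cases i <;> simp

theorem actm_LL (κ : ℕ) : actm κ R LL = IsNilpotent.exp (sl κ (![-1, 0, 0, 0] : Fin 4 → R)) := by
  unfold actm
  rw [act_LL, map_expM ⟨κ + 1, sl_R_pow κ (κ + 1) (by omega)⟩, sl_mapR]
  congr 2
  funext i
  fin_cases i <;> simp

theorem nil_slT (κ : ℕ) : IsNilpotent (sl κ (![0, 0, 1, 0] : Fin 4 → R)) := by
  have h : IsNilpotent (sl κ (![0, 0, 1, 0] : Fin 4 → ℚ)) := ⟨κ + 1, sl_G_pow κ (κ + 1) (by omega)⟩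
  have h1 := h.map ((algebraMap ℚ R).mapMatrix)
  have h2 : ((algebraMap ℚ R).mapMatrix) (sl κ (![0, 0, 1, 0] : Fin 4 → ℚ)) =
      sl κ (![0, 0, 1, 0] : Fin 4 → R) := by
    have := sl_mapR (R := R) κ ![0, 0, 1, 0]
    rw [RingHom.mapMatrix_apply, this]
    congr 1
    funext i
    fin_cases i <;> simp
  rwa [h2] at h1

theorem nil_slL (κ : ℕ) : IsNilpotent (sl κ (![-1, 0, 0, 0] : Fin 4 → R)) := by
  have h : IsNilpotent (sl κ (![-1, 0, 0, 0] : Fin 4 → ℚ)) :=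
    ⟨κ + 1, sl_R_pow κ (κ + 1) (by omega)⟩
  have h1 := h.map ((algebraMap ℚ R).mapMatrix)
  have h2 : ((algebraMap ℚ R).mapMatrix) (sl κ (![-1, 0, 0, 0] : Fin 4 → ℚ)) =
      sl κ (![-1, 0, 0, 0] : Fin 4 → R) := by
    have := sl_mapR (R := R) κ ![-1, 0, 0, 0]
    rw [RingHom.mapMatrix_apply, this]
    congr 1
    funext i
    fin_cases i <;> simp
  rwa [h2] at h1

theorem actm_Tinv (κ : ℕ) : actm κ R ModularGroup.T⁻¹ =
    IsNilpotent.exp (sl κ (-![0, 0, 1, 0] : Fin 4 → R)) := by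
  have h1 := IsNilpotent.exp_mul_exp_neg_self (nil_slT (R := R) κ)
  have h2 : actm κ R ModularGroup.T⁻¹ * actm κ R ModularGroup.T = 1 := by
    rw [← actm_mul, inv_mul_cancel, actm_one]
  rw [actm_T] at h2
  rw [sl_neg]
  calc actm κ R ModularGroup.T⁻¹ = actm κ R ModularGroup.T⁻¹ *
        (IsNilpotent.exp (sl κ (![0, 0, 1, 0] : Fin 4 → R)) *
          IsNilpotent.exp (-sl κ (![0, 0, 1, 0] : Fin 4 → R))) := by rw [h1, mul_one]
    _ = _ := by rw [← mul_assoc, h2, one_mul]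

theorem actm_LLinv (κ : ℕ) : actm κ R LL⁻¹ =
    IsNilpotent.exp (sl κ (-![-1, 0, 0, 0] : Fin 4 → R)) := by
  have h1 := IsNilpotent.exp_mul_exp_neg_self (nil_slL (R := R) κ)
  have h2 : actm κ R LL⁻¹ * actm κ R LL = 1 := by
    rw [← actm_mul, inv_mul_cancel, actm_one]
  rw [actm_LL] at h2
  rw [sl_neg]
  calc actm κ R LL⁻¹ = actm κ R LL⁻¹ *
        (IsNilpotent.exp (sl κ (![-1, 0, 0, 0] : Fin 4 → R)) *
          IsNilpotent.exp (-sl κ (![-1, 0, 0, 0] : Fin 4 → R))) := by rw [h1, mul_one]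
    _ = _ := by rw [← mul_assoc, h2, one_mul]

/-- equivariance of the projection under `SL₂(ℤ)` -/
theorem Fu.pr_conj {U : Submodule R (Matrix (Ix kk) (Ix kk) R)} {w : ℤ} {κ : ℕ}
    {c : Matrix (Ix kk) (Ix kk) R} (h : Fu nn U w κ c) (γ : SL(2, ℤ)) : ∀ B ∈ U,
      pr nn c κ (RRm kk R γ * B * RRm kk R γ⁻¹) = actm κ R γ *ᵥ pr nn c κ B := by
  have hnT : IsNilpotent (dr kk nn (R := R) ![0, 0, 1, 0]) := nilR nil_T (by
    funext i
    fin_cases i <;> simp)
  have hnL : IsNilpotent (dr kk nn (R := R) ![-1, 0, 0, 0]) := nilR nil_LL (by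
    funext i
    fin_cases i <;> simp)
  refine gens (fun γ => ∀ B ∈ U,
      pr nn c κ (RRm kk R γ * B * RRm kk R γ⁻¹) = actm κ R γ *ᵥ pr nn c κ B) ?_ ?_ ?_ ?_ ?_ ?_ γ
  · intro B hB
    rw [inv_one, RRm_one, one_mul, mul_one, actm_one, Matrix.one_mulVec]
  · intro γ δ hγ hδ B hB
    have := hγ _ (conj_mem h.st δ B hB)
    rw [_root_.mul_inv_rev, RRm_mul, RRm_mul, actm_mul, ← Matrix.mulVec_mulVec, ← hδ B hB, ← this]
    simp only [mul_assoc]
  · intro B hB
    rw [RRm_T (nn := nn), RRm_Tinv (nn := nn), actm_T]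
    exact exp_pr h (by simp) hnT (nil_slT κ) hB
  · intro B hB
    rw [inv_inv, RRm_T (nn := nn), RRm_Tinv (nn := nn), actm_Tinv]
    have := exp_pr h (t := -![0, 0, 1, 0]) (by simp) (by rw [dr_neg]; exact hnT.neg)
      (by rw [sl_neg]; exact (nil_slT κ).neg) hB
    rwa [dr_neg, neg_neg] at this
  · intro B hB
    rw [RRm_LL (nn := nn), RRm_LLinv (nn := nn), actm_LL]
    exact exp_pr h (by simp) hnL (nil_slL κ) hB
  · intro B hB
    rw [inv_inv, RRm_LL (nn := nn), RRm_LLinv (nn := nn), actm_LLinv]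
    have := exp_pr h (t := -![-1, 0, 0, 0]) (by simp) (by rw [dr_neg]; exact hnL.neg)
      (by rw [sl_neg]; exact (nil_slL κ).neg) hB
    rwa [dr_neg, neg_neg] at this

end Pool.Agent.LibME94
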