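import Pool.Agent.LibME94.Defs
import Pool.Agent.LibEis68.B06
import Pool.Agent.LibZQ38.B13

/-!
# The action of `𝔤𝔩₂` and graded components
-/

open Matrix
open MW38 (Fl Tri)
open ZQ38 (Un Low cx Fend brk Stab)
open Pool.Agent.LibEis68 (sl)

namespace Pool.Agent.LibME94

/-- the commutator with `A` -/
def ad {ι : Type} [Fintype ι] [DecidableEq ι] {R : Type*} [CommRing R] (A : Matrix ι ι R) :
    Matrix ι ι R →ₗ[R] Matrix ι ι R :=
  LinearMap.mulLeft R A - LinearMap.mulRight R A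

/-- the component of degree `w` for the grading `d` -/
def cmp {ι : Type} {R : Type*} [CommRing R] (d : ι → ℤ) (w : ℤ) :
    Matrix ι ι R →ₗ[R] Matrix ι ι R where
  toFun B := Matrix.of fun x y => if d x - d y = w then B x y else 0
  map_add' A B := by
    ext x y
    simp only [Matrix.of_apply, Matrix.add_apply]
    split_ifs <;> simp
  map_smul' c A := by
    ext x y
    simp only [Matrix.of_apply, Matrix.smul_apply, RingHom.id_apply]
    split_ifs <;> simp

/-- the linear functional with coefficients `c` -/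
def fn {ι : Type} [Fintype ι] {R : Type*} [CommRing R] (c : Matrix ι ι R) :
    Matrix ι ι R →ₗ[R] R where
  toFun B := ∑ x, ∑ y, c x y * B x y
  map_add' A B := by
    simp only [Matrix.add_apply, mul_add, Finset.sum_add_distrib]
  map_smul' r A := by
    simp only [Matrix.smul_apply, smul_eq_mul, RingHom.id_apply, Finset.mul_sum]
    refine Finset.sum_congr rfl fun x _ => Finset.sum_congr rfl fun y _ => by ring

variable {J : Type}

/-- the weights of `X∂_X - Y∂_Y` -/
def hw (kk : J → ℕ) (x : Ix kk) : ℤ := 2 * ((x.2 : ℕ) : ℤ) - kk x.1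

/-- the action of `t₀ X∂_Y + t₁ (X∂_X - Y∂_Y) - t₂ Y∂_X`, plus `t₃` times the weight -/
def dr (kk : J → ℕ) (nn : J → ℤ) [DecidableEq J] {R : Type*} [CommRing R] (t : Fin 4 → R) :
    Matrix (Ix kk) (Ix kk) R :=
  Matrix.blockDiagonal' fun j => sl (kk j) ![t 0, t 1, t 2, t 3 * ((kk j : R) - 2 * (nn j : R))]

variable [Fintype J] [DecidableEq J] {kk : J → ℕ} {nn : J → ℤ}

/-- stable under the action of `𝔤𝔩₂` -/
def GlSt (kk : J → ℕ) (nn : J → ℤ) (u : Submodule ℚ (Matrix (Ix kk) (Ix kk) ℚ)) : Prop :=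
  ∀ t : Fin 4 → ℚ, ∀ B ∈ u, ad (dr kk nn t) B ∈ u

/-- a functional on `u` killing `K` and the image of the raising operator, of given weights -/
structure IsFun (nn : J → ℤ) (u K : Submodule ℚ (Matrix (Ix kk) (Ix kk) ℚ)) (w : ℤ) (κ : ℕ)
    (c : Matrix (Ix kk) (Ix kk) ℚ) : Prop where
  supp : ∀ x y, c x y ≠ 0 → wt kk nn x - wt kk nn y = w ∧ hw kk x - hw kk y = -κ
  ker : ∀ B ∈ K, fn c B = 0
  low : ∀ B ∈ u, fn c (ad (dr kk nn ![1, 0, 0, 0]) B) = 0
  ne : ∃ B ∈ u, fn c B ≠ 0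

/-- the projection onto `Sym^κ` defined by the functional `c` -/
noncomputable def pr {R : Type*} [Field R] (nn : J → ℤ) (c : Matrix (Ix kk) (Ix kk) R) (κ : ℕ) :
    Matrix (Ix kk) (Ix kk) R →ₗ[R] (Fin (κ + 1) → R) :=
  LinearMap.pi fun j =>
    ((Nat.factorial j : ℕ) : R)⁻¹ • (fn c ∘ₗ (ad (dr kk nn (R := R) ![0, 0, -1, 0])) ^ (j : ℕ))

end Pool.Agent.LibME94
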