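import Pool.Agent.LibME94.A1
import Pool.Agent.LibSym94.Main
import Pool.Agent.LibEis68.B15
import Pool.Agent.LibZQ38.B13

/-!
# The Hodge decomposition of the graded pieces
-/

open Matrix Polynomial
open scoped MatrixGroups ComplexConjugate
open MW38 (Fl Tri dg)
open ZQ38 (Un Low cx Fend brk Stab GrP PG Dwt)
open Pool.Agent.LibEis68 (sl sl_bracket act form hvec form_linearIndependent sl_mulVec_form)

namespace Pool.Agent.LibME94

section block

/-- the vector of coefficients of `(X - s)^i` -/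
noncomputable def fcol (k : ℕ) (s : ℂ) (i : ℕ) : Fin (k + 1) → ℂ :=
  fun l => ((X - C s : ℂ[X]) ^ i).coeff l

theorem form_eq_sum (k : ℕ) (s t : ℂ) (i : ℕ) : form k s t i =
    ∑ m ∈ Finset.range (k - i + 1),
      ((s - t) ^ (k - i - m) * ((k - i).choose m : ℂ)) • fcol k s (i + m) := by
  funext l
  rw [Finset.sum_apply]
  unfold form
  have h1 : (X - C t : ℂ[X]) = (X - C s) + C (s - t) := by
    rw [C_sub]
    ring
  rw [h1, add_pow, Finset.mul_sum, finset_sum_coeff]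
  refine Finset.sum_congr rfl fun m _ => ?_
  rw [Pi.smul_apply, smul_eq_mul, fcol, ← coeff_C_mul]
  congr 1
  rw [C_mul, C_pow, pow_add]
  have h2 : (C ((k - i).choose m : ℂ) : ℂ[X]) = (((k - i).choose m : ℕ) : ℂ[X]) := by
    rw [← C_eq_natCast]
  rw [h2]
  ring

theorem fcol_eq_sum (k : ℕ) {s t : ℂ} (hst : s ≠ t) (i : ℕ) (hi : i ≤ k) : fcol k s i =
    ∑ m ∈ Finset.range (k - i + 1),
      ((s - t)⁻¹ ^ (k - i) * (-1) ^ m * ((k - i).choose m : ℂ)) • form k s t (i + m) := by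
  funext l
  rw [Finset.sum_apply]
  have hd : s - t ≠ 0 := sub_ne_zero.2 hst
  have h0 : (1 : ℂ[X]) = C (s - t)⁻¹ * ((X - C t) - (X - C s)) := by
    have : (X - C t : ℂ[X]) - (X - C s) = C (s - t) := by
      rw [C_sub]
      ring
    rw [this, ← C_mul, inv_mul_cancel₀ hd, C_1]
  have h1 : (X - C s : ℂ[X]) ^ i = (X - C s) ^ i *
      (C (s - t)⁻¹ * ((-(X - C s)) + (X - C t))) ^ (k - i) := by
    have : (C (s - t)⁻¹ * ((-(X - C s)) + (X - C t)) : ℂ[X]) = 1 := by
      rw [h0]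
      ring
    rw [this, one_pow, mul_one]
  unfold fcol
  rw [h1, mul_pow, add_pow, Finset.mul_sum, Finset.mul_sum, finset_sum_coeff]
  refine Finset.sum_congr rfl fun m hm => ?_
  rw [Finset.mem_range] at hm
  rw [Pi.smul_apply, smul_eq_mul, form, ← coeff_C_mul]
  congr 1
  rw [C_mul, C_mul, C_pow, C_pow, pow_add]
  have h2 : (C ((k - i).choose m : ℂ) : ℂ[X]) = (((k - i).choose m : ℕ) : ℂ[X]) := by
    rw [← C_eq_natCast]
  have h3 : k - (i + m) = k - i - m := by omega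
  rw [h2, h3, neg_pow (X - C s) m, C_neg, C_1]
  ring

theorem form_conj (k : ℕ) (s : ℂ) (i : ℕ) (hi : i ≤ k) (l : Fin (k + 1)) :
    (starRingEnd ℂ) (form k s (conj s) i l) = form k s (conj s) (k - i) l := by
  unfold form
  rw [← Polynomial.coeff_map]
  congr 1
  rw [Polynomial.map_mul, Polynomial.map_pow, Polynomial.map_pow, Polynomial.map_sub,
    Polynomial.map_sub, Polynomial.map_X, Polynomial.map_C, Polynomial.map_C]
  have : k - (k - i) = i := by omega
  rw [this]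
  simp [mul_comm]

end block

variable {J : Type} [DecidableEq J] {kk : J → ℕ} {nn : J → ℤ}

/-- the basis of forms -/
noncomputable def Sf (kk : J → ℕ) (s : ℂ) : Matrix (Ix kk) (Ix kk) ℂ :=
  Matrix.blockDiagonal' fun j => Matrix.of fun (l i : Fin (kk j + 1)) =>
    form (kk j) s (conj s) i l

theorem Sf_apply (s : ℂ) (j : J) (l i : Fin (kk j + 1)) :
    Sf kk s ⟨j, l⟩ ⟨j, i⟩ = form (kk j) s (conj s) i l := by
  unfold Sf
  rw [Matrix.blockDiagonal'_apply_eq]
  rfl

theorem Sf_ne (s : ℂ) (x y : Ix kk) (h : x.1 ≠ y.1) : Sf kk s x y = 0 := by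
  obtain ⟨i, x⟩ := x
  obtain ⟨j, y⟩ := y
  unfold Sf
  rw [Matrix.blockDiagonal'_apply_ne _ _ _ h]

theorem fr_apply (s : ℂ) (j : J) (l i : Fin (kk j + 1)) :
    fr kk s ⟨j, l⟩ ⟨j, i⟩ = fcol (kk j) s i l := by
  unfold fr
  rw [Matrix.blockDiagonal'_apply_eq]
  rfl

theorem fr_ne (s : ℂ) (x y : Ix kk) (h : x.1 ≠ y.1) : fr kk s x y = 0 := by
  obtain ⟨i, x⟩ := x
  obtain ⟨j, y⟩ := y
  unfold fr
  rw [Matrix.blockDiagonal'_apply_ne _ _ _ h]

/-- the coordinates of the forms in the holomorphic frame -/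
noncomputable def Bm (kk : J → ℕ) (s : ℂ) : Matrix (Ix kk) (Ix kk) ℂ :=
  Matrix.blockDiagonal' fun j => Matrix.of fun (l i : Fin (kk j + 1)) =>
    if i ≤ l then (s - conj s) ^ (kk j - (l : ℕ)) * ((kk j - (i : ℕ)).choose (l - i) : ℂ) else 0

/-- the coordinates of the holomorphic frame in the forms -/
noncomputable def Bm' (kk : J → ℕ) (s : ℂ) : Matrix (Ix kk) (Ix kk) ℂ :=
  Matrix.blockDiagonal' fun j => Matrix.of fun (l i : Fin (kk j + 1)) =>
    if i ≤ l then (s - conj s)⁻¹ ^ (kk j - (i : ℕ)) * (-1) ^ ((l : ℕ) - i) *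
      ((kk j - (i : ℕ)).choose (l - i) : ℂ) else 0

variable [Fintype J]

theorem Sf_eq (s : ℂ) : Sf kk s = fr kk s * Bm kk s := by
  unfold Sf fr Bm
  rw [← Matrix.blockDiagonal'_mul]
  congr 1
  funext j
  ext l i
  rw [Matrix.of_apply, Matrix.mul_apply, form_eq_sum, Finset.sum_apply]
  have hi := i.2
  rw [← Finset.sum_subset (s₁ := Finset.univ.filter fun r : Fin (kk j + 1) => i ≤ r)
    (Finset.subset_univ _)]
  · symm
    refine Finset.sum_bij' (fun r _ => (r : ℕ) - i) (fun m hm => ⟨i + m, by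
      rw [Finset.mem_range] at hm; omega⟩) ?_ ?_ ?_ ?_ ?_
    · intro r _
      rw [Finset.mem_range]
      have := r.2
      omega
    · intro m hm
      rw [Finset.mem_filter]
      exact ⟨Finset.mem_univ _, Fin.mk_le_mk.2 (by omega)⟩
    · intro r hr
      rw [Finset.mem_filter] at hr
      ext
      have : (i : ℕ) ≤ r := hr.2
      simp only
      omega
    · intro m hm
      simp only
      omega
    · intro r hr
      rw [Finset.mem_filter] at hr
      have h1 : (i : ℕ) ≤ r := hr.2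
      rw [Matrix.of_apply, Matrix.of_apply, if_pos hr.2, Pi.smul_apply, smul_eq_mul, fcol]
      have h2 : kk j - (i : ℕ) - ((r : ℕ) - i) = kk j - r := by omega
      have h3 : (i : ℕ) + ((r : ℕ) - i) = r := by omega
      rw [h2, h3]
      ring
  · intro r _ hr
    rw [Matrix.of_apply, Matrix.of_apply, if_neg, mul_zero]
    intro h'
    exact hr (Finset.mem_filter.2 ⟨Finset.mem_univ _, h'⟩)

theorem fr_eq {s : ℂ} (hs : s ≠ conj s) : fr kk s = Sf kk s * Bm' kk s := by
  unfold Sf fr Bm'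
  rw [← Matrix.blockDiagonal'_mul]
  congr 1
  funext j
  ext l i
  have hi := i.2
  have h0 : (Matrix.of fun (l i : Fin (kk j + 1)) => ((X - C s : ℂ[X]) ^ (i : ℕ)).coeff l) l i =
    fcol (kk j) s i l := rfl
  rw [h0, Matrix.mul_apply, fcol_eq_sum _ hs _ (by omega), Finset.sum_apply]
  rw [← Finset.sum_subset (s₁ := Finset.univ.filter fun r : Fin (kk j + 1) => i ≤ r)
    (Finset.subset_univ _)]
  · symm
    refine Finset.sum_bij' (fun r _ => (r : ℕ) - i) (fun m hm => ⟨i + m, by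
      rw [Finset.mem_range] at hm; omega⟩) ?_ ?_ ?_ ?_ ?_
    · intro r _
      rw [Finset.mem_range]
      have := r.2
      omega
    · intro m hm
      rw [Finset.mem_filter]
      exact ⟨Finset.mem_univ _, Fin.mk_le_mk.2 (by omega)⟩
    · intro r hr
      rw [Finset.mem_filter] at hr
      ext
      have : (i : ℕ) ≤ r := hr.2
      simp only
      omega
    · intro m hm
      simp only
      omega
    · intro r hr
      rw [Finset.mem_filter] at hr
      have h1 : (i : ℕ) ≤ r := hr.2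
      rw [Matrix.of_apply, Matrix.of_apply, if_pos hr.2, Pi.smul_apply, smul_eq_mul]
      have h3 : (i : ℕ) + ((r : ℕ) - i) = r := by omega
      rw [h3]
      ring
  · intro r _ hr
    rw [Matrix.of_apply, Matrix.of_apply, if_neg, mul_zero]
    intro h'
    exact hr (Finset.mem_filter.2 ⟨Finset.mem_univ _, h'⟩)

omit [Fintype J] in
theorem Bm_supp (nn : J → ℤ) (s : ℂ) (x y : Ix kk) (h : pp kk nn x < pp kk nn y) :
    Bm kk s x y = 0 ∧ Bm' kk s x y = 0 := by
  obtain ⟨i, x⟩ := x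
  obtain ⟨j, y⟩ := y
  unfold Bm Bm'
  rw [Matrix.blockDiagonal'_apply, Matrix.blockDiagonal'_apply]
  by_cases hij : i = j
  · subst hij
    simp only [dite_true, cast_eq, Matrix.of_apply]
    have h1 : ¬ (y ≤ x) := by
      intro h2
      have h3 : (y : ℕ) ≤ x := h2
      simp only [pp] at h
      omega
    rw [if_neg h1, if_neg h1]
    exact ⟨rfl, rfl⟩
  · rw [dif_neg hij, dif_neg hij]
    exact ⟨rfl, rfl⟩

omit [Fintype J] [DecidableEq J] in
theorem blk_unit (kk : J → ℕ) {s : ℂ} (hs : 0 < s.im) (j : J) : IsUnit (Matrix.of fun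
    (l i : Fin (kk j + 1)) => form (kk j) s (conj s) i l).det := by
  rw [← det_transpose, ← isUnit_iff_isUnit_det, ← linearIndependent_rows_iff_isUnit]
  exact form_linearIndependent (kk j) hs

/-- the inverse -/
noncomputable def Sfi (kk : J → ℕ) (s : ℂ) : Matrix (Ix kk) (Ix kk) ℂ :=
  Matrix.blockDiagonal' fun j => (Matrix.of fun (l i : Fin (kk j + 1)) =>
    form (kk j) s (conj s) i l)⁻¹

theorem Sf_mul_Sfi {s : ℂ} (hs : 0 < s.im) : Sf kk s * Sfi kk s = 1 := by
  unfold Sf Sfi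
  rw [← Matrix.blockDiagonal'_mul, ← Matrix.blockDiagonal'_one]
  congr 1
  funext j
  exact Matrix.mul_nonsing_inv _ (blk_unit kk hs j)

theorem Sf_isUnit {s : ℂ} (hs : 0 < s.im) : IsUnit (Sf kk s) := by
  rw [Matrix.isUnit_iff_isUnit_det]
  apply Matrix.isUnit_det_of_right_inverse (Sf_mul_Sfi hs)

theorem fr_isUnit {s : ℂ} (hs : 0 < s.im) : IsUnit (fr kk s) := by
  have h1 := Sf_isUnit (kk := kk) hs
  rw [Sf_eq, Matrix.isUnit_iff_isUnit_det, Matrix.det_mul] at h1
  rw [Matrix.isUnit_iff_isUnit_det]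
  exact isUnit_of_mul_isUnit_left h1

/-- the coordinates of multiplication by `p` -/
noncomputable def hv (s : ℂ) : Fin 4 → ℂ := ![hvec s 0 / 2, hvec s 1 / 2, hvec s 2 / 2, 1 / 2]

theorem dr_hv {s : ℂ} (hs : 0 < s.im) :
    dr kk nn (hv s) * Sf kk s = Sf kk s * Matrix.diagonal fun x => (pp kk nn x : ℂ) := by
  ext ⟨i, x⟩ ⟨j, y⟩
  rw [Matrix.mul_diagonal]
  by_cases hij : i = j
  · subst hij
    unfold dr Sf
    rw [← Matrix.blockDiagonal'_mul, Matrix.blockDiagonal'_apply_eq,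
      Matrix.blockDiagonal'_apply_eq]
    have h1 := sl_mulVec_form (kk i) hs y
    have h2 : sl (kk i) ![hv s 0, hv s 1, hv s 2, hv s 3 * ((kk i : ℂ) - 2 * (nn i : ℂ))] =
        (1 / 2 : ℂ) • (sl (kk i) (hvec s) + ((kk i : ℂ) - 2 * (nn i : ℂ)) •
          (1 : Matrix (Fin (kk i + 1)) (Fin (kk i + 1)) ℂ)) := by
      ext a b
      simp only [sl, hv, hvec, Matrix.of_apply, Matrix.smul_apply, Matrix.add_apply,
        Matrix.one_apply, Matrix.cons_val_zero, Matrix.cons_val_one, Matrix.cons_val, smul_eq_mul]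
      split_ifs <;> ring
    have h3 : (sl (kk i) ![hv s 0, hv s 1, hv s 2, hv s 3 * ((kk i : ℂ) - 2 * (nn i : ℂ))] *
        Matrix.of fun (l i' : Fin (kk i + 1)) => form (kk i) s (conj s) i' l) x y =
        (sl (kk i) ![hv s 0, hv s 1, hv s 2, hv s 3 * ((kk i : ℂ) - 2 * (nn i : ℂ))] *ᵥ
          form (kk i) s (conj s) y) x := rfl
    rw [h3, h2, Matrix.smul_mulVec, Matrix.add_mulVec, h1, Matrix.smul_mulVec,
      Matrix.one_mulVec, Matrix.of_apply]
    simp only [Pi.smul_apply, Pi.add_apply, smul_eq_mul, pp]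
    push_cast
    ring
  · rw [Sf_ne s ⟨i, x⟩ ⟨j, y⟩ hij, zero_mul]
    unfold dr Sf
    rw [← Matrix.blockDiagonal'_mul, Matrix.blockDiagonal'_apply_ne _ _ _ hij]

/-- the projectors -/
noncomputable def PP (kk : J → ℕ) (nn : J → ℤ) (s : ℂ) (a : ℤ) : Matrix (Ix kk) (Ix kk) ℂ :=
  Sf kk s * Matrix.diagonal (fun x => if pp kk nn x = a then 1 else 0) * (Sf kk s)⁻¹

/-- a bound for the Hodge numbers -/
def KK (kk : J → ℕ) (nn : J → ℤ) : ℕ := ∑ x : Ix kk, (pp kk nn x).natAbs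

theorem pp_le (x : Ix kk) : |pp kk nn x| ≤ KK kk nn := by
  rw [Int.abs_eq_natAbs, Nat.cast_le]
  exact Finset.single_le_sum (f := fun x => (pp kk nn x).natAbs) (fun _ _ => Nat.zero_le _)
    (Finset.mem_univ x)

theorem dr_eq_conj {s : ℂ} (hs : 0 < s.im) : dr kk nn (hv s) =
    Sf kk s * (Matrix.diagonal fun x => (pp kk nn x : ℂ)) * (Sf kk s)⁻¹ := by
  have hu := (Matrix.isUnit_iff_isUnit_det _).1 (Sf_isUnit (kk := kk) hs)
  rw [← dr_hv hs, Matrix.mul_nonsing_inv_cancel_right _ _ hu]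

theorem Sf_inv_ne {s : ℂ} (hs : 0 < s.im) (x y : Ix kk) (h : x.1 ≠ y.1) :
    (Sf kk s)⁻¹ x y = 0 := by
  obtain ⟨i, x⟩ := x
  obtain ⟨j, y⟩ := y
  rw [Matrix.inv_eq_right_inv (Sf_mul_Sfi hs)]
  unfold Sfi
  rw [Matrix.blockDiagonal'_apply_ne _ _ _ h]

theorem PG_eq {s : ℂ} (hs : 0 < s.im) : PG (KK kk nn) (PP kk nn s) = dr kk nn (hv s) := by
  rw [dr_eq_conj hs]
  unfold PG PP
  have h1 : ∀ a : ℤ, (a : ℂ) • (Sf kk s *
      Matrix.diagonal (fun x => if pp kk nn x = a then (1 : ℂ) else 0) * (Sf kk s)⁻¹) =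
      Sf kk s * ((a : ℂ) • Matrix.diagonal (fun x => if pp kk nn x = a then (1 : ℂ) else 0)) *
        (Sf kk s)⁻¹ := by
    intro a
    rw [Matrix.mul_smul, Matrix.smul_mul]
  simp only [h1]
  rw [← Finset.sum_mul, ← Finset.mul_sum]
  congr 2
  ext x y
  rw [Matrix.sum_apply]
  simp only [Matrix.smul_apply, Matrix.diagonal_apply, smul_eq_mul]
  by_cases hxy : x = y
  · subst hxy
    simp only [if_true, mul_ite, mul_one, mul_zero]
    rw [Finset.sum_ite_eq, if_pos]
    rw [Finset.mem_Icc]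
    exact abs_le.1 (pp_le x)
  · simp [hxy]

theorem Fl_mem_iff {ι : Type} [Fintype ι] [DecidableEq ι] {p : ι → ℤ} {G : Matrix ι ι ℂ} (a : ℤ)
    (v : ι → ℂ) : v ∈ Fl p G a ↔ ∃ u : ι → ℂ, (∀ x, p x < a → u x = 0) ∧ v = G *ᵥ u := by
  constructor
  · intro hv
    unfold Fl at hv
    induction hv using Submodule.span_induction with
    | mem v hv =>
      obtain ⟨j, hj, rfl⟩ := hv
      refine ⟨Pi.single j 1, ?_, ?_⟩
      · intro x hx
        rw [Pi.single_eq_of_ne]
        rintro rfl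
        omega
      · rw [Matrix.mulVec_single_one]
        rfl
    | zero => exact ⟨0, fun _ _ => rfl, by rw [Matrix.mulVec_zero]⟩
    | add v w _ _ hv hw =>
      obtain ⟨u, hu, rfl⟩ := hv
      obtain ⟨u', hu', rfl⟩ := hw
      exact ⟨u + u', fun x hx => by rw [Pi.add_apply, hu x hx, hu' x hx, add_zero],
        by rw [Matrix.mulVec_add]⟩
    | smul c v _ hv =>
      obtain ⟨u, hu, rfl⟩ := hv
      exact ⟨c • u, fun x hx => by rw [Pi.smul_apply, hu x hx, smul_zero],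
        by rw [Matrix.mulVec_smul]⟩
  · rintro ⟨u, hu, rfl⟩
    have h1 : G *ᵥ u = ∑ j, u j • (fun i => G i j) := by
      funext i
      rw [Matrix.mulVec, dotProduct, Finset.sum_apply]
      refine Finset.sum_congr rfl fun j _ => ?_
      rw [Pi.smul_apply, smul_eq_mul, mul_comm]
    rw [h1]
    refine Submodule.sum_mem _ fun j _ => ?_
    by_cases hj : a ≤ p j
    · exact Submodule.smul_mem _ _ (Submodule.subset_span ⟨j, hj, rfl⟩)
    · rw [hu j (by omega), zero_smul]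
      exact Submodule.zero_mem _

theorem fil_fr {s : ℂ} (hs : 0 < s.im) (a : ℤ) (v : Ix kk → ℂ) :
    v ∈ Fl (pp kk nn) (fr kk s) a ↔ ∀ b < a, PP kk nn s b *ᵥ v = 0 := by
  have hu := (Matrix.isUnit_iff_isUnit_det _).1 (Sf_isUnit (kk := kk) hs)
  have hne : s ≠ conj s := by
    intro h
    have := congrArg Complex.im h
    rw [Complex.conj_im] at this
    linarith
  rw [Fl_mem_iff]
  constructor
  · rintro ⟨u, hu0, rfl⟩ b hb
    unfold PP
    rw [fr_eq hne, Matrix.mulVec_mulVec, ← Matrix.mul_assoc _ (Sf kk s) (Bm' kk s),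
      Matrix.nonsing_inv_mul_cancel_right _ _ hu, ← Matrix.mulVec_mulVec, ← Matrix.mulVec_mulVec]
    have : (Matrix.diagonal (fun x => if pp kk nn x = b then (1 : ℂ) else 0)) *ᵥ
        (Bm' kk s *ᵥ u) = 0 := by
      funext x
      rw [Matrix.mulVec_diagonal, Pi.zero_apply]
      by_cases hx : pp kk nn x = b
      · rw [if_pos hx, one_mul, Matrix.mulVec, dotProduct]
        refine Finset.sum_eq_zero fun y _ => ?_
        by_cases hy : pp kk nn y < a
        · rw [hu0 y hy, mul_zero]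
        · rw [(Bm_supp nn s x y (by omega)).2, zero_mul]
      · rw [if_neg hx, zero_mul]
    rw [this, Matrix.mulVec_zero]
  · intro h
    have hw : ∀ x, pp kk nn x < a → ((Sf kk s)⁻¹ *ᵥ v) x = 0 := by
      intro x hx
      have h1 := h (pp kk nn x) hx
      unfold PP at h1
      have h2 : (Sf kk s)⁻¹ *ᵥ ((Sf kk s * Matrix.diagonal
          (fun y => if pp kk nn y = pp kk nn x then (1 : ℂ) else 0) * (Sf kk s)⁻¹) *ᵥ v) = 0 := by
        rw [h1, Matrix.mulVec_zero]
      rw [Matrix.mulVec_mulVec, ← Matrix.mul_assoc, Matrix.nonsing_inv_mul_cancel_left _ _ hu,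
        ← Matrix.mulVec_mulVec] at h2
      have h3 := congrFun h2 x
      rw [Matrix.mulVec_diagonal, if_pos rfl, one_mul] at h3
      exact h3
    refine ⟨Bm kk s *ᵥ ((Sf kk s)⁻¹ *ᵥ v), ?_, ?_⟩
    · intro x hx
      rw [Matrix.mulVec, dotProduct]
      refine Finset.sum_eq_zero fun y _ => ?_
      by_cases hy : pp kk nn y < a
      · rw [hw y hy, mul_zero]
      · rw [(Bm_supp nn s x y (by omega)).1, zero_mul]
    · rw [Matrix.mulVec_mulVec, ← Sf_eq, Matrix.mulVec_mulVec, Matrix.mul_nonsing_inv _ hu,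
        Matrix.one_mulVec]

end Pool.Agent.LibME94
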