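import Pool.Agent.LibME94.B1
import Pool.Agent.LibZQ38.B04b

/-!
# The Hodge decomposition of the graded pieces (2)
-/

open Matrix Polynomial
open scoped MatrixGroups ComplexConjugate
open MW38 (Fl Tri dg)
open ZQ38 (Un Low cx Fend brk Stab GrP PG Dwt)
open Pool.Agent.LibEis68 (sl sl_bracket act form hvec form_linearIndependent sl_mulVec_form)

namespace Pool.Agent.LibME94

variable {J : Type} [Fintype J] [DecidableEq J] {kk : J → ℕ} {nn : J → ℤ}

theorem PP_ne {s : ℂ} (hs : 0 < s.im) (a : ℤ) (x y : Ix kk) (h : x.1 ≠ y.1) :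
    PP kk nn s a x y = 0 := by
  unfold PP
  rw [Matrix.mul_apply]
  refine Finset.sum_eq_zero fun z _ => ?_
  rw [Matrix.mul_diagonal]
  by_cases hz : x.1 = z.1
  · rw [Sf_inv_ne hs z y (by rw [← hz]; exact h), mul_zero]
  · rw [Sf_ne s x z hz, zero_mul, zero_mul]

theorem dg_fr {s : ℂ} {g : Matrix (Ix kk) (Ix kk) ℂ} (hg : Un (wt kk nn) g) :
    dg (wt kk nn) (g * fr kk s) = fr kk s := by
  ext x y
  unfold dg
  by_cases h : wt kk nn x = wt kk nn y
  · rw [if_pos h, Matrix.mul_apply, Finset.sum_eq_single x]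
    · rw [hg x x le_rfl, if_pos rfl, one_mul]
    · intro z _ hz
      by_cases hzy : z.1 = y.1
      · have h1 : wt kk nn z = wt kk nn y := by
          obtain ⟨i, z⟩ := z
          obtain ⟨j, y⟩ := y
          simp only at hzy
          subst hzy
          rfl
        rw [hg x z (by omega), if_neg (fun h' => hz h'.symm), zero_mul]
      · rw [fr_ne s z y hzy, mul_zero]
    · intro h'
      exact absurd (Finset.mem_univ _) h'
  · rw [if_neg h]
    symm
    apply fr_ne
    intro h'
    apply h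
    obtain ⟨i, x⟩ := x
    obtain ⟨j, y⟩ := y
    simp only at h'
    subst h'
    rfl

theorem wt_eq_of_fst {x y : Ix kk} (h : x.1 = y.1) : wt kk nn x = wt kk nn y := by
  obtain ⟨i, x⟩ := x
  obtain ⟨j, y⟩ := y
  simp only at h
  subst h
  rfl

theorem PP_mul {s : ℂ} (hs : 0 < s.im) (a b : ℤ) :
    PP kk nn s a * PP kk nn s b = if a = b then PP kk nn s a else 0 := by
  have hu := (Matrix.isUnit_iff_isUnit_det _).1 (Sf_isUnit (kk := kk) hs)
  unfold PP
  rw [Matrix.mul_assoc _ (Sf kk s)⁻¹, Matrix.mul_assoc (Sf kk s) (Matrix.diagonal _) (Sf kk s)⁻¹,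
    Matrix.nonsing_inv_mul_cancel_left _ _ hu, Matrix.mul_assoc (Sf kk s),
    ← Matrix.mul_assoc (Matrix.diagonal _) (Matrix.diagonal _), Matrix.diagonal_mul_diagonal]
  by_cases hab : a = b
  · subst hab
    rw [if_pos rfl, Matrix.mul_assoc]
    congr 3
    funext x
    split_ifs <;> simp
  · rw [if_neg hab]
    have : (fun x => (if pp kk nn x = a then (1 : ℂ) else 0) * if pp kk nn x = b then 1 else 0) =
        fun _ => 0 := by
      funext x
      by_cases h1 : pp kk nn x = a
      · rw [if_pos h1, if_neg (by omega), mul_zero]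
      · rw [if_neg h1, zero_mul]
    rw [this, Matrix.diagonal_zero, Matrix.zero_mul, Matrix.mul_zero]

/-- the involution of the index set -/
def sg (x : Ix kk) : Ix kk := ⟨x.1, ⟨kk x.1 - x.2, by omega⟩⟩

omit [Fintype J] [DecidableEq J] in
theorem sg_sg (x : Ix kk) : sg (sg x) = x := by
  obtain ⟨j, i⟩ := x
  unfold sg
  simp only [Sigma.mk.injEq, heq_eq_eq, true_and]
  ext
  simp only
  omega

omit [Fintype J] [DecidableEq J] in
theorem pp_sg (x : Ix kk) : pp kk nn (sg x) = wt kk nn x - pp kk nn x := by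
  obtain ⟨j, i⟩ := x
  simp only [sg, pp, wt]
  have := i.2
  omega

theorem conj_Sf (s : ℂ) (x y : Ix kk) : (starRingEnd ℂ) (Sf kk s x y) = Sf kk s x (sg y) := by
  obtain ⟨i, x⟩ := x
  obtain ⟨j, y⟩ := y
  by_cases h : i = j
  · subst h
    have h1 : sg (⟨i, y⟩ : Ix kk) = ⟨i, ⟨kk i - y, by omega⟩⟩ := rfl
    rw [h1, Sf_apply, Sf_apply, form_conj _ _ _ (by omega)]
  · rw [Sf_ne s _ _ h, Sf_ne s _ _ (show (⟨i, x⟩ : Ix kk).1 ≠ (sg (⟨j, y⟩ : Ix kk)).1 from h),
      map_zero]

theorem conj_Sf_inv {s : ℂ} (hs : 0 < s.im) (x y : Ix kk) :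
    (starRingEnd ℂ) ((Sf kk s)⁻¹ x y) = (Sf kk s)⁻¹ (sg x) y := by
  have hu := (Matrix.isUnit_iff_isUnit_det _).1 (Sf_isUnit (kk := kk) hs)
  have h1 : ((Sf kk s).map (starRingEnd ℂ)) * ((Sf kk s)⁻¹.map (starRingEnd ℂ)) = 1 := by
    rw [← Matrix.map_mul, Matrix.mul_nonsing_inv _ hu, Matrix.map_one _ (map_zero _) (map_one _)]
  have h2 : ((Sf kk s).map (starRingEnd ℂ)) * ((Sf kk s)⁻¹.submatrix sg id) = 1 := by
    ext a b
    rw [Matrix.mul_apply]
    have h3 : ∀ z, (Sf kk s).map (starRingEnd ℂ) a z * (Sf kk s)⁻¹.submatrix sg id z b =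
        (fun z => Sf kk s a z * (Sf kk s)⁻¹ z b) (sg z) := by
      intro z
      rw [Matrix.map_apply, conj_Sf]
      rfl
    simp only [h3]
    rw [Function.Bijective.sum_comp (Function.Involutive.bijective sg_sg)
      (fun z => Sf kk s a z * (Sf kk s)⁻¹ z b), ← Matrix.mul_apply, Matrix.mul_nonsing_inv _ hu]
  have h4 : (Sf kk s)⁻¹.map (starRingEnd ℂ) = (Sf kk s)⁻¹.submatrix sg id := by
    rw [← Matrix.inv_eq_right_inv h1, ← Matrix.inv_eq_right_inv h2]
  have := congrFun (congrFun h4 x) y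
  simpa using this

theorem grP {s : ℂ} (hs : 0 < s.im) {g : Matrix (Ix kk) (Ix kk) ℂ} (hg : Un (wt kk nn) g) :
    GrP (wt kk nn) (pp kk nn) (KK kk nn) (g * fr kk s) (PP kk nn s) := by
  refine ⟨(ZQ38.Un.isUnit hg).mul (fr_isUnit hs), ?_, ?_, PP_mul hs, ?_, ?_, ?_, ?_⟩
  · -- tri
    intro x y hxy
    rw [Matrix.mul_apply]
    refine Finset.sum_eq_zero fun z _ => ?_
    by_cases hz : z.1 = y.1
    · have := wt_eq_of_fst (nn := nn) hz
      rw [hg x z (by omega), if_neg, zero_mul]
      rintro rfl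
      omega
    · rw [fr_ne s z y hz, mul_zero]
  · -- diag
    intro a x y hxy
    exact PP_ne hs a x y fun h => hxy (wt_eq_of_fst h)
  · -- supp
    intro a ha
    unfold PP
    have : (fun x : Ix kk => if pp kk nn x = a then (1 : ℂ) else 0) = fun _ => 0 := by
      funext x
      rw [if_neg]
      intro h
      have := pp_le (kk := kk) (nn := nn) x
      rw [h] at this
      omega
    rw [this, Matrix.diagonal_zero, Matrix.mul_zero, Matrix.zero_mul]
  · -- sum
    have hu := (Matrix.isUnit_iff_isUnit_det _).1 (Sf_isUnit (kk := kk) hs)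
    unfold PP
    rw [← Finset.sum_mul, ← Finset.mul_sum]
    have : ∑ a ∈ Finset.Icc (-(KK kk nn : ℤ)) (KK kk nn),
        Matrix.diagonal (fun x : Ix kk => if pp kk nn x = a then (1 : ℂ) else 0) = 1 := by
      ext x y
      rw [Matrix.sum_apply, Matrix.one_apply]
      simp only [Matrix.diagonal_apply]
      by_cases hxy : x = y
      · subst hxy
        simp only [if_true]
        rw [Finset.sum_ite_eq, if_pos]
        rw [Finset.mem_Icc]
        exact abs_le.1 (pp_le x)
      · simp [hxy]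
    rw [this, Matrix.mul_one, Matrix.mul_nonsing_inv _ hu]
  · -- conj
    intro a x y
    unfold PP
    rw [Matrix.mul_apply, Matrix.mul_apply, map_sum]
    rw [← Function.Bijective.sum_comp (Function.Involutive.bijective (sg_sg (kk := kk)))]
    refine Finset.sum_congr rfl fun z _ => ?_
    rw [Matrix.mul_diagonal, Matrix.mul_diagonal, map_mul, map_mul, conj_Sf, conj_Sf_inv hs,
      sg_sg]
    by_cases hz : x.1 = z.1
    · have h1 := wt_eq_of_fst (nn := nn) hz
      congr 2
      rw [pp_sg]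
      by_cases h2 : wt kk nn z - pp kk nn z = a
      · rw [if_pos h2, if_pos (by omega), map_one]
      · rw [if_neg h2, if_neg (by omega), map_zero]
    · rw [Sf_ne s x z hz]
      simp
  · -- fil
    intro a v
    rw [dg_fr hg]
    exact fil_fr hs a v

end Pool.Agent.LibME94
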