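import Pool.Agent.LibME94.B2
import Pool.Agent.LibZQ38.B05b

/-!
# Analyticity and growth of the projectors
-/

open Matrix Polynomial
open scoped MatrixGroups ComplexConjugate
open MW38 (Fl Tri dg)
open ZQ38 (Un Low cx Fend brk Stab GrP PG Dwt An)
open Pool.Agent.LibEis68 (sl sl_bracket act form hvec form_linearIndependent sl_mulVec_form)

namespace Pool.Agent.LibME94

section gen

variable {ι : Type} [Fintype ι] [DecidableEq ι]

theorem aeval_conj {S : Matrix ι ι ℂ} (hu : IsUnit S.det) (D : Matrix ι ι ℂ) (q : ℂ[X]) :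
    aeval (S * D * S⁻¹) q = S * aeval D q * S⁻¹ := by
  have hpow : ∀ n : ℕ, (S * D * S⁻¹) ^ n = S * D ^ n * S⁻¹ := by
    intro n
    induction n with
    | zero => rw [pow_zero, pow_zero, Matrix.mul_one, Matrix.mul_nonsing_inv _ hu]
    | succ n ih =>
      rw [pow_succ, ih, pow_succ]
      simp only [Matrix.mul_assoc]
      rw [Matrix.nonsing_inv_mul_cancel_left _ _ hu]
  induction q using Polynomial.induction_on' with
  | add p q hp hq => rw [map_add, hp, hq, map_add, Matrix.mul_add, Matrix.add_mul]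
  | monomial n a =>
    rw [aeval_monomial, aeval_monomial, hpow, Algebra.algebraMap_eq_smul_one,
      Matrix.smul_mul, Matrix.one_mul, Matrix.smul_mul, Matrix.one_mul, Matrix.mul_smul,
      Matrix.smul_mul]

theorem aeval_diag (d : ι → ℂ) (q : ℂ[X]) :
    aeval (Matrix.diagonal d) q = Matrix.diagonal fun x => q.eval (d x) := by
  induction q using Polynomial.induction_on' with
  | add p q hp hq =>
    rw [map_add, hp, hq, Matrix.diagonal_add]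
    simp only [eval_add]
  | monomial n a =>
    rw [aeval_monomial, Matrix.diagonal_pow, Algebra.algebraMap_eq_smul_one, Matrix.smul_mul,
      Matrix.one_mul, ← Matrix.diagonal_smul]
    congr 1
    funext x
    simp [eval_monomial]

theorem An_aeval {Ω : Set ℂ} {A : ℂ → Matrix ι ι ℂ} (hA : An Ω A) (q : ℂ[X]) :
    An Ω (fun z => aeval (A z) q) := by
  have hpow : ∀ n : ℕ, An Ω (fun z => A z ^ n) := by
    intro n
    induction n with
    | zero => simpa using ZQ38.An.const (Ω := Ω) (1 : Matrix ι ι ℂ)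
    | succ n ih =>
      simp only [pow_succ]
      exact ih.mul hA
  induction q using Polynomial.induction_on' with
  | add p q hp hq =>
    simp only [map_add]
    exact hp.add hq
  | monomial n a =>
    simp only [aeval_monomial, Algebra.algebraMap_eq_smul_one, Matrix.smul_mul, Matrix.one_mul]
    exact (hpow n).smul a

theorem bd_mul (ι : Type) [Fintype ι] [DecidableEq ι] : ∀ (A B : Matrix ι ι ℂ) (a b : ℝ),
    0 ≤ a → (∀ x y, ‖A x y‖ ≤ a) → (∀ x y, ‖B x y‖ ≤ b) →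
    ∀ x y, ‖(A * B) x y‖ ≤ Fintype.card ι * (a * b) := by
  intro A B a b ha hA hB x y
  rw [Matrix.mul_apply]
  refine (norm_sum_le _ _).trans ?_
  calc ∑ i, ‖A x i * B i y‖ ≤ ∑ _i : ι, a * b := by
        refine Finset.sum_le_sum fun i _ => ?_
        rw [norm_mul]
        exact mul_le_mul (hA x i) (hB i y) (norm_nonneg _) ha
    _ = _ := by
      rw [Finset.sum_const, nsmul_eq_mul]
      rfl

theorem bd_aeval (q : ℂ[X]) : ∃ (C : ℝ) (N : ℕ), 0 ≤ C ∧ ∀ (A : Matrix ι ι ℂ) (X : ℝ), 1 ≤ X →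
    (∀ x y, ‖A x y‖ ≤ X) → ∀ x y, ‖aeval A q x y‖ ≤ C * X ^ N := by
  have hpow : ∀ n : ℕ, ∃ (C : ℝ), 0 ≤ C ∧ ∀ (A : Matrix ι ι ℂ) (X : ℝ), 1 ≤ X →
      (∀ x y, ‖A x y‖ ≤ X) → ∀ x y, ‖(A ^ n) x y‖ ≤ C * X ^ n := by
    intro n
    induction n with
    | zero =>
      refine ⟨1, zero_le_one, fun A X hX _ x y => ?_⟩
      rw [pow_zero, pow_zero, mul_one, Matrix.one_apply]
      split_ifs <;> simp
    | succ n ih =>
      obtain ⟨C, hC, h⟩ := ih
      refine ⟨Fintype.card ι * C, by positivity, fun A X hX hA x y => ?_⟩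
      rw [pow_succ]
      have := bd_mul ι (A ^ n) A (C * X ^ n) X (by positivity) (h A X hX hA) hA x y
      refine this.trans (le_of_eq ?_)
      ring
  induction q using Polynomial.induction_on' with
  | add p q hp hq =>
    obtain ⟨C, N, hC, h⟩ := hp
    obtain ⟨C', N', hC', h'⟩ := hq
    refine ⟨C + C', N + N', by positivity, fun A X hX hA x y => ?_⟩
    rw [map_add, Matrix.add_apply]
    refine (norm_add_le _ _).trans ?_
    have h1 := h A X hX hA x y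
    have h2 := h' A X hX hA x y
    have h3 : X ^ N ≤ X ^ (N + N') := pow_le_pow_right₀ hX (by omega)
    have h4 : X ^ N' ≤ X ^ (N + N') := pow_le_pow_right₀ hX (by omega)
    calc _ ≤ C * X ^ N + C' * X ^ N' := add_le_add h1 h2
      _ ≤ C * X ^ (N + N') + C' * X ^ (N + N') := by gcongr
      _ = _ := by ring
  | monomial n a =>
    obtain ⟨C, hC, h⟩ := hpow n
    refine ⟨‖a‖ * C, n, by positivity, fun A X hX hA x y => ?_⟩
    rw [aeval_monomial, Algebra.algebraMap_eq_smul_one, Matrix.smul_mul, Matrix.one_mul,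
      Matrix.smul_apply, smul_eq_mul, norm_mul, mul_assoc]
    exact mul_le_mul_of_nonneg_left (h A X hX hA x y) (norm_nonneg _)

end gen

variable {J : Type} [Fintype J] [DecidableEq J] {kk : J → ℕ} {nn : J → ℤ}

/-- the Lagrange polynomial -/
noncomputable def lag (kk : J → ℕ) (nn : J → ℤ) (a : ℤ) : ℂ[X] :=
  Lagrange.basis (Finset.Icc (-(KK kk nn : ℤ)) (KK kk nn)) (fun b : ℤ => (b : ℂ)) a

theorem PP_eq {s : ℂ} (hs : 0 < s.im) {a : ℤ}
    (ha : a ∈ Finset.Icc (-(KK kk nn : ℤ)) (KK kk nn)) :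
    PP kk nn s a = aeval (dr kk nn (hv s)) (lag kk nn a) := by
  have hu := (Matrix.isUnit_iff_isUnit_det _).1 (Sf_isUnit (kk := kk) hs)
  rw [dr_eq_conj hs, aeval_conj hu, aeval_diag]
  unfold PP
  congr 3
  funext x
  have hinj : Set.InjOn (fun b : ℤ => (b : ℂ)) (Finset.Icc (-(KK kk nn : ℤ)) (KK kk nn)) :=
    fun b _ c _ h => Int.cast_injective h
  by_cases h : pp kk nn x = a
  · rw [if_pos h, h]
    unfold lag
    exact (Lagrange.eval_basis_self hinj ha).symm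
  · rw [if_neg h]
    unfold lag
    exact (Lagrange.eval_basis_of_ne (fun h' => h h'.symm)
      (Finset.mem_Icc.2 (abs_le.1 (pp_le x)))).symm

theorem PP_supp {s : ℂ} {a : ℤ}
    (ha : a ∉ Finset.Icc (-(KK kk nn : ℤ)) (KK kk nn)) : PP kk nn s a = 0 := by
  unfold PP
  have : (fun x : Ix kk => if pp kk nn x = a then (1 : ℂ) else 0) = fun _ => 0 := by
    funext x
    rw [if_neg]
    intro h
    apply ha
    rw [← h]
    exact Finset.mem_Icc.2 (abs_le.1 (pp_le x))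
  rw [this, Matrix.diagonal_zero, Matrix.mul_zero, Matrix.zero_mul]

theorem an_re {Ω : Set ℂ} {τ : ℂ → ℂ} (hτ : AnalyticOnNhd ℝ τ Ω) :
    AnalyticOnNhd ℝ (fun z => ((τ z).re : ℂ)) Ω ∧ AnalyticOnNhd ℝ (fun z => ((τ z).im : ℂ)) Ω := by
  constructor
  · exact (Complex.ofRealCLM.analyticOnNhd Set.univ).comp
      ((Complex.reCLM.analyticOnNhd Set.univ).comp hτ (Set.mapsTo_univ _ _)) (Set.mapsTo_univ _ _)
  · exact (Complex.ofRealCLM.analyticOnNhd Set.univ).comp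
      ((Complex.imCLM.analyticOnNhd Set.univ).comp hτ (Set.mapsTo_univ _ _)) (Set.mapsTo_univ _ _)

theorem an_hv {Ω : Set ℂ} {τ : ℂ → ℂ} (hτ : AnalyticOnNhd ℝ τ Ω) (him : ∀ z ∈ Ω, 0 < (τ z).im)
    (i : Fin 4) : AnalyticOnNhd ℝ (fun z => hv (τ z) i) Ω := by
  obtain ⟨h1, h2⟩ := an_re hτ
  have h3 : ∀ z ∈ Ω, ((τ z).im : ℂ) ≠ 0 := fun z hz => by
    exact_mod_cast (him z hz).ne'
  have hc : ∀ c : ℂ, AnalyticOnNhd ℝ (fun _ : ℂ => c) Ω := fun c => analyticOnNhd_const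
  have h4 : ∀ z ∈ Ω, (2 : ℂ) ≠ 0 := fun _ _ => two_ne_zero
  fin_cases i
  · exact ((hc Complex.I).div h2 h3).div (hc 2) h4
  · exact (((hc Complex.I).mul h1).div h2 h3).div (hc 2) h4
  · exact (((hc Complex.I).mul ((h1.pow 2).add (h2.pow 2))).div h2 h3).div (hc 2) h4
  · exact hc (1 / 2)

theorem An_dr {Ω : Set ℂ} {t : ℂ → Fin 4 → ℂ} (ht : ∀ i, AnalyticOnNhd ℝ (fun z => t z i) Ω) :
    An Ω (fun z => dr kk nn (t z)) := by
  intro x y
  have h1 : (fun z => dr kk nn (t z) x y) = fun z => t z 0 * dr kk nn (R := ℂ) ![1, 0, 0, 0] x y +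
      t z 1 * dr kk nn (R := ℂ) ![0, 1, 0, 0] x y - t z 2 * dr kk nn (R := ℂ) ![0, 0, -1, 0] x y +
      t z 3 * dr kk nn (R := ℂ) ![0, 0, 0, 1] x y := by
    funext z
    conv_lhs => rw [dr_comb]
    rfl
  rw [h1]
  have hc : ∀ c : ℂ, AnalyticOnNhd ℝ (fun _ : ℂ => c) Ω := fun c => analyticOnNhd_const
  exact ((((ht 0).mul (hc _)).add ((ht 1).mul (hc _))).sub ((ht 2).mul (hc _))).add
    ((ht 3).mul (hc _))

theorem An_PP {Ω : Set ℂ} (hΩ : IsOpen Ω) {τ : ℂ → ℂ} (hτ : AnalyticOnNhd ℝ τ Ω) (him : ∀ z ∈ Ω, 0 < (τ z).im)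
    (a : ℤ) : An Ω (fun z => PP kk nn (τ z) a) := by
  by_cases ha : a ∈ Finset.Icc (-(KK kk nn : ℤ)) (KK kk nn)
  · have h1 := An_aeval (An_dr (kk := kk) (nn := nn) (an_hv hτ him)) (lag kk nn a)
    intro x y
    refine (h1 x y).congr hΩ ?_
    intro z hz
    simp only
    rw [PP_eq (him z hz) ha]
  · have h1 : (fun z => PP kk nn (τ z) a) = fun _ => 0 := by
      funext z
      exact PP_supp ha
    rw [h1]
    exact ZQ38.An.const 0

theorem bd_dr : ∃ C : ℝ, 0 ≤ C ∧ ∀ (t : Fin 4 → ℂ) (X : ℝ), (∀ i, ‖t i‖ ≤ X) →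
    ∀ x y, ‖dr kk nn t x y‖ ≤ C * X := by
  refine ⟨∑ x, ∑ y, (‖dr kk nn (R := ℂ) ![1, 0, 0, 0] x y‖ +
    ‖dr kk nn (R := ℂ) ![0, 1, 0, 0] x y‖ + ‖dr kk nn (R := ℂ) ![0, 0, -1, 0] x y‖ +
    ‖dr kk nn (R := ℂ) ![0, 0, 0, 1] x y‖), by positivity, fun t X hX x y => ?_⟩
  have h1 : ‖dr kk nn (R := ℂ) ![1, 0, 0, 0] x y‖ +
    ‖dr kk nn (R := ℂ) ![0, 1, 0, 0] x y‖ + ‖dr kk nn (R := ℂ) ![0, 0, -1, 0] x y‖ +
    ‖dr kk nn (R := ℂ) ![0, 0, 0, 1] x y‖ ≤ ∑ x, ∑ y, (‖dr kk nn (R := ℂ) ![1, 0, 0, 0] x y‖ +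
    ‖dr kk nn (R := ℂ) ![0, 1, 0, 0] x y‖ + ‖dr kk nn (R := ℂ) ![0, 0, -1, 0] x y‖ +
    ‖dr kk nn (R := ℂ) ![0, 0, 0, 1] x y‖) := by
    refine (Finset.single_le_sum (f := fun y => ‖dr kk nn (R := ℂ) ![1, 0, 0, 0] x y‖ +
      ‖dr kk nn (R := ℂ) ![0, 1, 0, 0] x y‖ + ‖dr kk nn (R := ℂ) ![0, 0, -1, 0] x y‖ +
      ‖dr kk nn (R := ℂ) ![0, 0, 0, 1] x y‖) (fun _ _ => by positivity)
      (Finset.mem_univ y)).trans ?_
    exact Finset.single_le_sum (f := fun x => ∑ y, (‖dr kk nn (R := ℂ) ![1, 0, 0, 0] x y‖ +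
      ‖dr kk nn (R := ℂ) ![0, 1, 0, 0] x y‖ + ‖dr kk nn (R := ℂ) ![0, 0, -1, 0] x y‖ +
      ‖dr kk nn (R := ℂ) ![0, 0, 0, 1] x y‖)) (fun _ _ => by positivity) (Finset.mem_univ x)
  have hX0 : 0 ≤ X := (norm_nonneg _).trans (hX 0)
  rw [dr_comb t]
  simp only [Matrix.add_apply, Matrix.sub_apply, Matrix.smul_apply, smul_eq_mul]
  calc _ ≤ ‖t 0‖ * ‖dr kk nn (R := ℂ) ![1, 0, 0, 0] x y‖ +
      ‖t 1‖ * ‖dr kk nn (R := ℂ) ![0, 1, 0, 0] x y‖ +
      ‖t 2‖ * ‖dr kk nn (R := ℂ) ![0, 0, -1, 0] x y‖ +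
      ‖t 3‖ * ‖dr kk nn (R := ℂ) ![0, 0, 0, 1] x y‖ := by
        refine (norm_add_le _ _).trans ?_
        rw [norm_mul]
        gcongr
        refine (norm_sub_le _ _).trans ?_
        rw [norm_mul]
        gcongr
        refine (norm_add_le _ _).trans ?_
        rw [norm_mul, norm_mul]
    _ ≤ X * ‖dr kk nn (R := ℂ) ![1, 0, 0, 0] x y‖ +
      X * ‖dr kk nn (R := ℂ) ![0, 1, 0, 0] x y‖ +
      X * ‖dr kk nn (R := ℂ) ![0, 0, -1, 0] x y‖ +
      X * ‖dr kk nn (R := ℂ) ![0, 0, 0, 1] x y‖ := by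
        have := hX 0
        have := hX 1
        have := hX 2
        have := hX 3
        gcongr
    _ = X * (‖dr kk nn (R := ℂ) ![1, 0, 0, 0] x y‖ + ‖dr kk nn (R := ℂ) ![0, 1, 0, 0] x y‖ +
      ‖dr kk nn (R := ℂ) ![0, 0, -1, 0] x y‖ + ‖dr kk nn (R := ℂ) ![0, 0, 0, 1] x y‖) := by ring
    _ ≤ _ := by
      rw [mul_comm]
      exact mul_le_mul_of_nonneg_right h1 hX0

theorem hv_bound {s : ℂ} {X : ℝ} (hs : 0 < s.im) (hX : 1 ≤ X) (h1 : ‖s‖ ≤ X) (h2 : 1 / s.im ≤ X)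
    (i : Fin 4) : ‖hv s i‖ ≤ X ^ 3 := by
  have hX0 : 0 ≤ X := by linarith
  have hX3 : X ≤ X ^ 3 := by
    calc X = X ^ 1 := (pow_one X).symm
      _ ≤ X ^ 3 := pow_le_pow_right₀ hX (by omega)
  have hX23 : X ^ 2 ≤ X ^ 3 := pow_le_pow_right₀ hX (by omega)
  have hre : |s.re| ≤ X := (Complex.abs_re_le_norm s).trans h1
  have hinv : 0 < 1 / s.im := by positivity
  fin_cases i
  · show ‖Complex.I / (s.im : ℂ) / 2‖ ≤ X ^ 3
    rw [norm_div, norm_div, Complex.norm_I, Complex.norm_real, Real.norm_of_nonneg hs.le]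
    simp only [Complex.norm_ofNat]
    linarith
  · show ‖Complex.I * (s.re : ℂ) / (s.im : ℂ) / 2‖ ≤ X ^ 3
    rw [norm_div, norm_div, norm_mul, Complex.norm_I, Complex.norm_real, Complex.norm_real,
      Real.norm_of_nonneg hs.le, one_mul, Real.norm_eq_abs]
    simp only [Complex.norm_ofNat]
    have h3 : |s.re| / s.im ≤ X * X := by
      rw [div_eq_mul_one_div]
      exact mul_le_mul hre h2 hinv.le hX0
    have h4 : 0 ≤ |s.re| / s.im := by positivity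
    nlinarith
  · show ‖Complex.I * ((s.re : ℂ) ^ 2 + (s.im : ℂ) ^ 2) / (s.im : ℂ) / 2‖ ≤ X ^ 3
    have h5 : ((s.re : ℂ) ^ 2 + (s.im : ℂ) ^ 2) = ((‖s‖ ^ 2 : ℝ) : ℂ) := by
      rw [← Complex.normSq_eq_norm_sq, Complex.normSq_apply]
      push_cast
      ring
    rw [h5, norm_div, norm_div, norm_mul, Complex.norm_I, Complex.norm_real, Complex.norm_real,
      Real.norm_of_nonneg hs.le, one_mul, Real.norm_of_nonneg (by positivity)]
    simp only [Complex.norm_ofNat]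
    have h3 : ‖s‖ ^ 2 / s.im ≤ X ^ 2 * X := by
      rw [div_eq_mul_one_div]
      exact mul_le_mul (pow_le_pow_left₀ (norm_nonneg _) h1 2) h2 hinv.le (by positivity)
    have h4 : 0 ≤ ‖s‖ ^ 2 / s.im := by positivity
    nlinarith
  · show ‖(1 / 2 : ℂ)‖ ≤ X ^ 3
    rw [norm_div, norm_one]
    simp only [Complex.norm_ofNat]
    linarith

theorem PP_bound : ∃ (C : ℝ) (N : ℕ), 0 ≤ C ∧ ∀ (s : ℂ) (X : ℝ), 0 < s.im → 1 ≤ X → ‖s‖ ≤ X →
    1 / s.im ≤ X → ∀ a x y, ‖PP kk nn s a x y‖ ≤ C * X ^ N := by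
  obtain ⟨C, hC, hdr⟩ := bd_dr (kk := kk) (nn := nn)
  have hq : ∀ a : ℤ, ∃ (C' : ℝ) (N : ℕ), 0 ≤ C' ∧ ∀ (A : Matrix (Ix kk) (Ix kk) ℂ) (X : ℝ),
    1 ≤ X → (∀ x y, ‖A x y‖ ≤ X) → ∀ x y, ‖aeval A (lag kk nn a) x y‖ ≤ C' * X ^ N :=
    fun a => bd_aeval _
  choose C' N hC' hN using hq
  set S := Finset.Icc (-(KK kk nn : ℤ)) (KK kk nn) with hS
  refine ⟨(∑ a ∈ S, C' a) * (C + 1) ^ (∑ a ∈ S, N a), 3 * ∑ a ∈ S, N a, by
    have : 0 ≤ ∑ a ∈ S, C' a := Finset.sum_nonneg fun a _ => hC' a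
    positivity, fun s X hs hX h1 h2 a x y => ?_⟩
  by_cases ha : a ∈ S
  · rw [PP_eq hs ha]
    have hX3 : 1 ≤ X ^ 3 := one_le_pow₀ hX
    have hbig : 1 ≤ (C + 1) * X ^ 3 := by nlinarith
    have h3 := hN a (dr kk nn (hv s)) ((C + 1) * X ^ 3) hbig (fun x y =>
      (hdr (hv s) (X ^ 3) (hv_bound hs hX h1 h2) x y).trans (by nlinarith)) x y
    refine h3.trans ?_
    have h4 : C' a ≤ ∑ a ∈ S, C' a := Finset.single_le_sum (fun a _ => hC' a) ha
    have h5 : N a ≤ ∑ a ∈ S, N a := Finset.single_le_sum (fun _ _ => Nat.zero_le _) ha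
    have h6 : ((C + 1) * X ^ 3) ^ N a ≤ ((C + 1) * X ^ 3) ^ (∑ a ∈ S, N a) :=
      pow_le_pow_right₀ hbig h5
    calc C' a * ((C + 1) * X ^ 3) ^ N a ≤
        (∑ a ∈ S, C' a) * ((C + 1) * X ^ 3) ^ (∑ a ∈ S, N a) :=
          mul_le_mul h4 h6 (by positivity) (Finset.sum_nonneg fun a _ => hC' a)
      _ = _ := by
        rw [mul_pow, ← pow_mul]
        ring
  · rw [PP_supp ha, Matrix.zero_apply, norm_zero]
    have : 0 ≤ ∑ a ∈ S, C' a := Finset.sum_nonneg fun a _ => hC' a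
    positivity

end Pool.Agent.LibME94
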