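import Pool.Agent.LibME94.B3
import Pool.Agent.LibME94.A4
import Pool.Agent.LibME94.A6
import Pool.Agent.LibZQ38.B10
import Pool.Agent.LibZQ38.B13
import Pool.Agent.LibEis68.B15

/-!
# The Mumford-Tate Lie algebras of the fibres
-/

open Matrix Polynomial UpperHalfPlane
open scoped MatrixGroups ComplexConjugate
open MW38 (Fl Tri dg)
open ZQ38 (Un Low cx Fend brk Stab GrP PG Dwt An DelH IsLie mtLie oP oQ dgR mem_cx_iff)
open Pool.Agent.LibUB33 (Curve)
open Pool.Agent.LibEis68 (sl sl_bracket act form hvec form_linearIndependent sl_mulVec_form)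

namespace Pool.Agent.LibME94

variable {J : Type} [Fintype J] [DecidableEq J] {kk : J → ℕ} {nn : J → ℤ}

/-- the upper half plane -/
abbrev Om : Set ℂ := {z : ℂ | 0 < z.im}

theorem Om_open : IsOpen Om := isOpen_lt continuous_const Complex.continuous_im

theorem Om_preconn : IsPreconnected Om := (convex_halfSpace_im_gt 0).isPreconnected

/-! ### the space of the `dr t` -/

/-- `dr` as a linear map -/
def drL (kk : J → ℕ) (nn : J → ℤ) (R : Type*) [CommRing R] :
    (Fin 4 → R) →ₗ[R] Matrix (Ix kk) (Ix kk) R where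
  toFun := dr kk nn
  map_add' := dr_add
  map_smul' := dr_smul

/-- the rational space of the `dr t` -/
def drS (kk : J → ℕ) (nn : J → ℤ) : Submodule ℚ (Matrix (Ix kk) (Ix kk) ℚ) :=
  LinearMap.range (drL kk nn ℚ)

theorem mem_drS {A : Matrix (Ix kk) (Ix kk) ℚ} : A ∈ drS kk nn ↔ ∃ t, dr kk nn t = A := Iff.rfl

theorem drS_isLie : IsLie (drS kk nn) := by
  rintro _ ⟨t, rfl⟩ _ ⟨t', rfl⟩
  exact ⟨_, (dr_bracket t t').symm⟩

/-- rational functionals commute with `dr` -/
theorem dr_mapf (t : Fin 4 → ℂ) (f : ℂ →ₗ[ℚ] ℚ) :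
    (dr kk nn t).map f = dr kk nn fun i => f (t i) := by
  have hm : ∀ (q : ℚ) (z : ℂ), f (z * (q : ℂ)) = f z * q := by
    intro q z
    have : z * (q : ℂ) = q • z := by rw [Rat.smul_def, mul_comm]
    rw [this, map_smul, smul_eq_mul, mul_comm]
  ext x y
  have h1 : ∀ (R : Type) [CommRing R] (t : Fin 4 → R), dr kk nn t x y =
      t 0 * dr kk nn (R := R) ![1, 0, 0, 0] x y + t 1 * dr kk nn (R := R) ![0, 1, 0, 0] x y -
      t 2 * dr kk nn (R := R) ![0, 0, -1, 0] x y + t 3 * dr kk nn (R := R) ![0, 0, 0, 1] x y := by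
    intro R _ t
    conv_lhs => rw [dr_comb]
    rfl
  have h2 : ∀ t : Fin 4 → ℚ, ∀ t' : Fin 4 → ℂ, (t' = fun i => (algebraMap ℚ ℂ (t i))) →
      dr kk nn t' x y = ((dr kk nn t x y : ℚ) : ℂ) := by
    intro t t' ht
    rw [ht, ← dr_map]
    rfl
  rw [Matrix.map_apply, h1 ℂ t, h1 ℚ (fun i => f (t i)), map_add, map_sub, map_add,
    h2 ![1, 0, 0, 0] ![1, 0, 0, 0] (by funext i; fin_cases i <;> simp),
    h2 ![0, 1, 0, 0] ![0, 1, 0, 0] (by funext i; fin_cases i <;> simp),
    h2 ![0, 0, -1, 0] ![0, 0, -1, 0] (by funext i; fin_cases i <;> simp),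
    h2 ![0, 0, 0, 1] ![0, 0, 0, 1] (by funext i; fin_cases i <;> simp),
    hm, hm, hm, hm]

theorem dr_mem_cx {L : Submodule ℚ (Matrix (Ix kk) (Ix kk) ℚ)} (hL : ∀ t, dr kk nn t ∈ L)
    (t : Fin 4 → ℂ) : dr kk nn t ∈ cx L := by
  rw [mem_cx_iff]
  intro f
  rw [dr_mapf]
  exact hL _

/-! ### the graded pieces -/

theorem oP_gr {s : ℂ} (hs : 0 < s.im) : oP (KK kk nn) (PP kk nn s) 1 = dr kk nn (hv s) := by
  unfold oP
  rw [PG_eq hs]
  simp

theorem oQ_gr {s : ℂ} (hs : 0 < s.im) : oQ (wt kk nn) (KK kk nn) (PP kk nn s) 1 =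
    dr kk nn (![0, 0, 0, 1] - hv s) := by
  unfold oQ
  rw [PG_eq hs, sub_eq_add_neg ![0, 0, 0, 1], dr_add, dr_neg, dr_D]
  simp [Dwt, sub_eq_add_neg]

theorem mtLie_gr_le {s : ℂ} (hs : 0 < s.im) {g : Matrix (Ix kk) (Ix kk) ℂ}
    (hg : Un (wt kk nn) g) :
    mtLie (wt kk nn) (pp kk nn) (dg (wt kk nn) (g * fr kk s)) ≤ drS kk nn := by
  have hP := grP (kk := kk) (nn := nn) hs hg
  rw [ZQ38.mtLie_le_iff (ZQ38.grP_gr hP) (ZQ38.delH_gr hP) drS_isLie, oP_gr hs, oQ_gr hs]
  have h : ∀ t, dr kk nn t ∈ drS kk nn := fun t => mem_drS.2 ⟨t, rfl⟩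
  exact ⟨dr_mem_cx h _, dr_mem_cx h _⟩

theorem mtLie_gr_eq {s : ℂ} (hs : 0 < s.im) (hcm : ¬ LibEis68.IsCM s)
    {g : Matrix (Ix kk) (Ix kk) ℂ} (hg : Un (wt kk nn) g) :
    mtLie (wt kk nn) (pp kk nn) (dg (wt kk nn) (g * fr kk s)) = drS kk nn := by
  apply le_antisymm (mtLie_gr_le hs hg)
  have hP := grP (kk := kk) (nn := nn) hs hg
  have h1 := (ZQ38.mtLie_le_iff (ZQ38.grP_gr hP) (ZQ38.delH_gr hP)
    (ZQ38.mtLie_isLie (wt := wt kk nn) (p := pp kk nn)
      (Φ := dg (wt kk nn) (g * fr kk s)))).1 le_rfl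
  set L := mtLie (wt kk nn) (pp kk nn) (dg (wt kk nn) (g * fr kk s)) with hL
  rw [oP_gr hs, oQ_gr hs] at h1
  have hLie : IsLie L := ZQ38.mtLie_isLie
  -- the weight
  have hD : ∀ r : ℚ, dr kk nn (![0, 0, 0, r] : Fin 4 → ℚ) ∈ L := by
    intro r
    have h2 := (cx L).add_mem h1.1 h1.2
    rw [← dr_add, add_sub_cancel] at h2
    have h3 : (dr kk nn (![0, 0, 0, 1] : Fin 4 → ℚ)).map (algebraMap ℚ ℂ) ∈ cx L := by
      rw [dr_map]
      convert h2 using 2
      funext i
      fin_cases i <;> simp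
    have h4 := L.smul_mem r (ZQ38.mem_of_mem_cx h3)
    rw [← dr_smul] at h4
    convert h4 using 2
    funext i
    fin_cases i <;> simp
  set M : Submodule ℚ (Fin 3 → ℚ) :=
    { carrier := {a | dr kk nn ![a 0, a 1, a 2, 0] ∈ L}
      add_mem' := by
        intro a b ha hb
        have := L.add_mem ha hb
        rw [← dr_add] at this
        show dr kk nn ![(a + b) 0, (a + b) 1, (a + b) 2, 0] ∈ L
        convert this using 2
        funext i
        fin_cases i <;> simp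
      zero_mem' := by
        show dr kk nn ![(0 : Fin 3 → ℚ) 0, (0 : Fin 3 → ℚ) 1, (0 : Fin 3 → ℚ) 2, 0] ∈ L
        convert L.zero_mem
        convert dr_zero (kk := kk) (nn := nn) (R := ℚ) using 2
        funext i
        fin_cases i <;> simp
      smul_mem' := by
        intro c a ha
        have := L.smul_mem c ha
        rw [← dr_smul] at this
        show dr kk nn ![(c • a) 0, (c • a) 1, (c • a) 2, 0] ∈ L
        convert this using 2
        funext i
        fin_cases i <;> simp } with hM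
  have hMm : ∀ a, a ∈ M ↔ dr kk nn ![a 0, a 1, a 2, 0] ∈ L := fun a => Iff.rfl
  have htop : M = ⊤ := by
    apply LibEis68.hull_top hs hcm M
    · intro a ha b hb
      rw [hMm] at ha hb ⊢
      have h2 := hLie _ ha _ hb
      have h3 := dr_bracket (kk := kk) (nn := nn) ![a 0, a 1, a 2, 0] ![b 0, b 1, b 2, 0]
      rw [ad_apply] at h3
      rw [h3] at h2
      convert h2 using 2
      funext i
      fin_cases i <;> simp
    · intro f
      rw [hMm]
      have h2 := (mem_cx_iff L _).1 h1.1 f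
      rw [dr_mapf] at h2
      have h3 := L.smul_mem (2 : ℚ) h2
      rw [← dr_smul] at h3
      have h4 := L.sub_mem h3 (hD (2 * f (1 / 2 : ℂ)))
      rw [sub_eq_add_neg, ← dr_neg, ← dr_add] at h4
      convert h4 using 2
      have hf2 : ∀ z : ℂ, f (z / 2) = f z / 2 := by
        intro z
        have : z / 2 = (1 / 2 : ℚ) • z := by
          rw [Rat.smul_def]
          push_cast
          ring
        rw [this, map_smul, smul_eq_mul]
        ring
      funext i
      fin_cases i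
      · simp [hv, hf2]
        ring
      · simp [hv, hf2]
        ring
      · simp [hv, hf2]
        ring
      · simp [hv]
  rintro _ ⟨t, rfl⟩
  have h5 : (![t 0, t 1, t 2] : Fin 3 → ℚ) ∈ M := by rw [htop]; trivial
  rw [hMm] at h5
  have h6 := L.add_mem h5 (hD (t 3))
  rw [← dr_add] at h6
  show dr kk nn t ∈ L
  convert h6 using 2
  funext i
  fin_cases i <;> simp

end Pool.Agent.LibME94
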