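import Pool.Agent.LibME94.Place

/-!
# The middle component when there is one place of multiplicative reduction
-/

open Matrix Filter Topology Polynomial UpperHalfPlane
open scoped MatrixGroups ComplexConjugate
open Pool.Agent.LibUB33 (Curve ee)
open Pool.Agent.LibEis68 (form act)
open Pool.Agent.LibSym94

namespace Pool.Agent.LibME94

variable {k : ℕ} {X : Curve}

/-- The middle component at an infinite end. -/
theorem middle_asymp (V : Variation k X) (hk : Even k) (hk1 : 1 ≤ k) (hns : ¬ V.Split)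
    {s : ℂ → ℍ} {Y : ℝ} (hE : X.IsEnd s Y) (E : EndForm V s Y) (hm : 0 < E.m) :
    ∃ (rr : ℝ) (e : ℕ) (Y' : ℝ), ∀ ζ : ℂ, Y' < ζ.im →
      |V.middle (s ζ) - rr * ((E.M • V.τ (s ζ) : ℍ) : ℂ).im ^ e| ≤ 1 := by
  obtain ⟨c, Y1, H⟩ := V.cuspD hk1 hns hE E hm
  obtain ⟨Y2, rr, N, c₀, u, hY12, HN⟩ := H.nform
  obtain ⟨h, rfl⟩ : ∃ h, k = 2 * h := by
    obtain ⟨h, hh⟩ := hk
    exact ⟨h, by omega⟩
  have hh : 1 ≤ h := by omega
  set T : ℂ → ℂ := fun ζ => ((E.M • V.τ (s ζ) : ℍ) : ℂ) with hT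
  set W : Fin (2 * h + 1) → ℂ → ℂ :=
    fun j ζ => ((act (2 * h) E.M).map (algebraMap ℚ ℂ) *ᵥ V.v (s ζ)) j with hW
  have hTim : ∀ ζ, 0 < (T ζ).im := fun ζ => (E.M • V.τ (s ζ) : ℍ).im_pos
  -- the middle component in terms of T and W
  have hmid : ∀ ζ, V.middle (s ζ) = mF (2 * h) (T ζ) (fun j => W j ζ) := by
    intro ζ
    rw [(V.middle_eq hk (s ζ)).1]
    have h1 := mF_smul hk E.M (s := (V.τ (s ζ) : ℂ)) (s' := T ζ) (V.τ (s ζ)).im_pos
      (by
        have h2 : T ζ = ((E.M 0 0 : ℂ) * (V.τ (s ζ) : ℂ) + E.M 0 1) /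
            ((E.M 1 0 : ℂ) * (V.τ (s ζ) : ℂ) + E.M 1 1) := by
          simp only [hT]
          rw [UpperHalfPlane.specialLinearGroup_apply]
          simp
        have h3 : (E.M 1 0 : ℂ) * (V.τ (s ζ) : ℂ) + E.M 1 1 ≠ 0 := by
          have := UpperHalfPlane.denom_ne_zero (E.M : GL (Fin 2) ℝ) (V.τ (s ζ))
          simpa [UpperHalfPlane.denom] using this
        rw [h2, div_mul_cancel₀ _ h3])
      (V.v (s ζ)) (0 : Fin (2 * h + 1) → ℝ)
    rw [← h1]
    congr 1
    funext j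
    simp [hW]
  -- the key estimate
  set A : ℂ := (c₀ - conj c₀) * (-1) ^ h * ((2 * h).choose h : ℂ) with hA
  have key : ∀ η : ℝ, 0 < η → ∃ Y' : ℝ, ∀ ζ : ℂ, Y' < ζ.im →
      η⁻¹ < ‖T ζ - conj (T ζ)‖ ∧
      |V.middle (s ζ) - rr / ((2 * h : ℕ) + 1) * (T ζ).im ^ (h + 1)| ≤ η := by
    intro η hη
    set K : ℝ := ‖A‖ + 2 ^ (2 * h + 1) * (h + 1) with hK
    have hK0 : 0 < K := by positivity
    set δ : ℝ := min (min 1 η) (η / K) with hδ
    have hδ0 : 0 < δ := by positivity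
    obtain ⟨Y3, hY3⟩ := EV9_unif (Finset.range (h + 1))
      (fun m ζ => δ⁻¹ < ‖T ζ - conj (T ζ)‖ ∧
        ‖u m (ee (ζ / E.n))‖ * ‖T ζ - conj (T ζ)‖ ^ 0 ≤ δ)
      (fun m _ => small_at_cusp H.hn H.hm H.F_an H.hT (HN.u_an m) (HN.u_zero m) 0 hδ0)
    refine ⟨max Y2 Y3, fun ζ hζ => ?_⟩
    have hζ2 : Y2 < ζ.im := lt_of_le_of_lt (le_max_left _ _) hζ
    have hζ3 : Y3 < ζ.im := lt_of_le_of_lt (le_max_right _ _) hζ
    have h0 := hY3 0 (by simp) ζ hζ3
    have ht1 : 1 ≤ ‖T ζ - conj (T ζ)‖ := by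
      have : (1 : ℝ) ≤ δ⁻¹ := by
        rw [one_le_inv₀ hδ0]
        exact (min_le_left _ _).trans (min_le_left _ _)
      linarith [h0.1]
    have hin : ‖T ζ - conj (T ζ)‖⁻¹ ≤ δ := by
      rw [inv_le_comm₀ (by linarith) hδ0]
      exact h0.1.le
    refine ⟨lt_of_le_of_lt ?_ h0.1, ?_⟩
    · exact inv_anti₀ hδ0 ((min_le_left _ _).trans (min_le_right _ _))
    · rw [hmid ζ]
      have hgn := gco_nform (2 * h) HN.hN (c₀ := c₀) (u := fun j => u j (ee (ζ / E.n)))
        (hTim ζ) (HN.eq ζ hζ2) (i := h) (by omega)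
      have hest := EV9_est h hh (rr := rr) (hTim ζ) ht1 (A := A)
        (u := fun j => u j (ee (ζ / E.n))) (p := fun j => W j ζ) hδ0.le
        (fun m hm => by simpa using (hY3 m hm ζ hζ3).2) hin (by rw [hgn])
      refine hest.trans ?_
      calc K * δ ≤ K * (η / K) := mul_le_mul_of_nonneg_left (min_le_right _ _) hK0.le
        _ = η := by field_simp
  obtain ⟨Y', h'⟩ := key 1 one_pos
  exact ⟨rr / ((2 * h : ℕ) + 1), h + 1, Y', fun ζ hζ => (h' ζ hζ).2⟩

theorem middle_cont (V : Variation k X) (hk : Even k) : Continuous V.middle :=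
  EV10_mid_cont V hk

/-- The middle component is bounded near a filled end. -/
theorem middle_filled (V : Variation k X) (hk : Even k) (hk1 : 1 ≤ k) {s : ℂ → ℍ} {Y : ℝ}
    (hE : X.IsEnd s Y) (E : EndForm V s Y) (hm : E.m = 0) :
    ∃ C Y' : ℝ, ∀ ζ : ℂ, Y' < ζ.im → |V.middle (s ζ)| ≤ C := by
  obtain ⟨W, Y', hW, hWe⟩ := V.filled hk1 hE E hm
  have key : ∀ ζ : ℂ, max Y' E.Y' < ζ.im →
      mF k (E.F (ee (ζ / E.n))) (fun j => W j (ee (ζ / E.n))) = V.middle (s ζ) := by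
    intro ζ hζ
    have h1 := hWe ζ ((le_max_left _ _).trans_lt hζ)
    have h2 := E.hτ ζ ((le_max_right _ _).trans_lt hζ)
    rw [hm, Nat.cast_zero, zero_mul, zero_add] at h2
    have h3 : (fun j => W j (ee (ζ / E.n))) = (act k E.M).map (algebraMap ℚ ℂ) *ᵥ V.v (s ζ) +
        fun _ => ((0 : ℝ) : ℂ) := by
      funext j
      rw [h1 j, Pi.add_apply, Complex.ofReal_zero, add_zero]
    rw [h3, ← h2, (V.middle_eq hk (s ζ)).1]
    exact mF_smul hk E.M (V.τ (s ζ)).im_pos (EV10_mob E.M (V.τ (s ζ))) (V.v (s ζ)) (fun _ => 0)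
  have hcont : ContinuousAt (fun u : ℂ => mF k (E.F u) (fun j => W j u)) 0 :=
    EV10_mF E.hF.continuousAt (E.hF0 hm) fun j => (hW j).continuousAt
  have h1 : ∀ᶠ u in 𝓝 (0 : ℂ), |mF k (E.F u) (fun j => W j u)| <
      |mF k (E.F 0) (fun j => W j 0)| + 1 :=
    hcont.abs.eventually (gt_mem_nhds (by
      show |mF k (E.F 0) (fun j => W j 0)| < _
      linarith))
  obtain ⟨Y'', h2⟩ := EV10_tend E.hn h1
  refine ⟨|mF k (E.F 0) (fun j => W j 0)| + 1, max Y'' (max Y' E.Y'), fun ζ hζ => ?_⟩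
  have h3 : |mF k (E.F (ee (ζ / E.n))) (fun j => W j (ee (ζ / E.n)))| <
    |mF k (E.F 0) (fun j => W j 0)| + 1 := h2 ζ ((le_max_left _ _).trans_lt hζ)
  rw [key ζ ((le_max_right _ _).trans_lt hζ)] at h3
  exact h3.le

/-- **One place.** The middle component is bounded on one side. -/
theorem middle_one_sided (V : Variation k X) (hk : Even k) (hk1 : 1 ≤ k) (hns : ¬ V.Split)
    (hone : OnePlace X V.ρ) :
    ∃ C : ℝ, (∀ z, C ≤ V.middle z) ∨ ∀ z, V.middle z ≤ C := by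
  obtain ⟨s, Y, hE, E, hm⟩ := V.exists_infinite_end
  obtain ⟨rr, e, Y1, h1⟩ := middle_asymp V hk hk1 hns hE E hm
  have him : ∀ ζ, 0 ≤ ((E.M • V.τ (s ζ) : ℍ) : ℂ).im := fun ζ =>
    (E.M • V.τ (s ζ) : ℍ).im_pos.le
  rcases le_or_gt 0 rr with hr | hr
  · obtain ⟨C, hC⟩ := bounded_below X V.middle (middle_cont V hk)
      (fun g hg z => V.middle_smul hk ⟨g, hg⟩ z) (by
        intro s' Y' hE'
        obtain ⟨E'⟩ := V.nonempty_endForm hE'
        rcases Nat.eq_zero_or_pos E'.m with hm' | hm'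
        · obtain ⟨C, Y'', h⟩ := middle_filled V hk hk1 hE' E' hm'
          exact ⟨-C, Y'', fun ζ hζ => (abs_le.1 (h ζ hζ)).1⟩
        · obtain ⟨d, c, Y'', h⟩ := hone s s' Y Y' (infEnd_of_pos V hE E hm)
            (infEnd_of_pos V hE' E' hm')
          refine ⟨-1, max Y'' Y1, fun ζ hζ => ?_⟩
          rw [h ζ ((le_max_left _ _).trans_lt hζ), V.middle_smul hk]
          have h2 := h1 (ζ + c) (by
            rw [Complex.add_im, Complex.intCast_im, add_zero]
            exact (le_max_right _ _).trans_lt hζ)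
          have h3 := (abs_le.1 h2).1
          have h4 : 0 ≤ rr * ((E.M • V.τ (s (ζ + c)) : ℍ) : ℂ).im ^ e :=
            mul_nonneg hr (pow_nonneg (him _) _)
          linarith)
    exact ⟨C, Or.inl hC⟩
  · obtain ⟨C, hC⟩ := bounded_below X (fun z => -V.middle z) (middle_cont V hk).neg
      (fun g hg z => by rw [V.middle_smul hk ⟨g, hg⟩ z]) (by
        intro s' Y' hE'
        obtain ⟨E'⟩ := V.nonempty_endForm hE'
        rcases Nat.eq_zero_or_pos E'.m with hm' | hm'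
        · obtain ⟨C, Y'', h⟩ := middle_filled V hk hk1 hE' E' hm'
          exact ⟨-C, Y'', fun ζ hζ => neg_le_neg (abs_le.1 (h ζ hζ)).2⟩
        · obtain ⟨d, c, Y'', h⟩ := hone s s' Y Y' (infEnd_of_pos V hE E hm)
            (infEnd_of_pos V hE' E' hm')
          refine ⟨-1, max Y'' Y1, fun ζ hζ => ?_⟩
          rw [h ζ ((le_max_left _ _).trans_lt hζ), V.middle_smul hk]
          have h2 := h1 (ζ + c) (by
            rw [Complex.add_im, Complex.intCast_im, add_zero]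
            exact (le_max_right _ _).trans_lt hζ)
          have h3 := (abs_le.1 h2).2
          have h4 : rr * ((E.M • V.τ (s (ζ + c)) : ℍ) : ℂ).im ^ e ≤ 0 :=
            mul_nonpos_of_nonpos_of_nonneg hr.le (pow_nonneg (him _) _)
          linarith)
    exact ⟨-C, Or.inr fun z => by have := hC z; linarith⟩

/-- **One place.** The zeros of every component are finite in number. -/
theorem comp_zeros (V : Variation k X) (hk1 : 1 ≤ k) (hns : ¬ V.Split)
    (hone : OnePlace X V.ρ) (i : Fin (k + 1)) :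
    ((fun z : ℍ => (Quotient.mk'' z : X.Pts)) '' {z | V.comp z i = 0}).Finite := by
  by_cases hi : 2 * (i : ℕ) = k
  · have hk : Even k := ⟨i, by omega⟩
    have hset : ∀ z, V.comp z i = 0 → V.middle z = 0 := by
      intro z hz
      rw [(V.middle_eq hk z).2]
      have h1 := ((V.comp_spec z).2.2 i).1 hz
      have h2 : (i : ℕ) = k / 2 := by omega
      rwa [h2] at h1
    obtain ⟨C, hC | hC⟩ := middle_one_sided V hk hk1 hns hone
    · refine (V.middle_zeros hk hk1 hns hC).subset (Set.image_mono fun z hz => hset z hz)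
    · have hns' : ¬ V.neg.Split := fun h => hns ((V.neg_middle UpperHalfPlane.I).2 h)
      have h1 := V.neg.middle_zeros hk hk1 hns' (C := -C) fun z => by
        rw [(V.neg_middle z).1]
        exact neg_le_neg (hC z)
      refine h1.subset (Set.image_mono fun z hz => ?_)
      show V.neg.middle z = 0
      rw [(V.neg_middle z).1, hset z hz, neg_zero]
  · exact V.zeros_finite hk1 hns i hi

end Pool.Agent.LibME94
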