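import Pool.Agent.LibME94.C9
import Pool.Agent.LibME94.Side

/-!
# The variation attached to a functional does not split
-/

open Matrix Polynomial UpperHalfPlane
open scoped MatrixGroups ComplexConjugate
open MW38 (Fl Tri dg)
open ZQ38 (Un Low cx Fend brk Stab GrP PG Dwt An DelH IsLie mtLie oP oQ dgR mem_cx_iff adm Lm HH)
open Pool.Agent.LibUB33 (Curve)
open Pool.Agent.LibEis68 (sl sl_bracket act form hvec form_linearIndependent sl_mulVec_form
  form_span)

namespace Pool.Agent.LibME94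

variable {J : Type} [Fintype J] [DecidableEq J] {kk : J → ℕ} {nn : J → ℤ} {X : Curve}

theorem qc_single {ι : Type} [Fintype ι] [DecidableEq ι] (x y : ι) :
    qc (Matrix.single x y (1 : ℚ)) = Matrix.single x y (1 : ℂ) := by
  ext a b
  simp only [qc, Matrix.map_apply, Matrix.single_apply]
  split_ifs <;> simp

theorem lin_mul' (f : ℂ →ₗ[ℚ] ℚ) (q : ℚ) (z : ℂ) : f ((q : ℂ) * z) = q * f z := by
  have : (q : ℂ) * z = q • z := by rw [Rat.smul_def]
  rw [this, map_smul, smul_eq_mul]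

/-- rational functionals commute with the projection -/
theorem pr_mapf (c : Matrix (Ix kk) (Ix kk) ℚ) (κ : ℕ) (x : Matrix (Ix kk) (Ix kk) ℂ)
    (f : ℂ →ₗ[ℚ] ℚ) : pr nn c κ (x.map f) = fun j => f (pr nn (qc c) κ x j) := by
  funext j
  obtain ⟨cj, hcj⟩ := exists_fn ((LinearMap.proj j).comp (pr nn c κ))
  obtain ⟨dj, hdj⟩ := exists_fn ((LinearMap.proj j).comp (pr nn (qc c) κ))
  have h1 : ∀ B, pr nn c κ B j = fn cj B := fun B => by rw [← hcj]; rfl
  have h2 : ∀ B, pr nn (qc c) κ B j = fn dj B := fun B => by rw [← hdj]; rfl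
  have hfs : ∀ {R : Type} [CommRing R] (e : Matrix (Ix kk) (Ix kk) R) (a b : Ix kk),
      fn e (Matrix.single a b 1) = e a b := by
    intro R _ e a b
    rw [fn_apply, Finset.sum_eq_single a, Finset.sum_eq_single b]
    · simp
    · intro y _ hy
      rw [Matrix.single_apply, if_neg (by tauto), mul_zero]
    · intro h
      exact absurd (Finset.mem_univ _) h
    · intro y _ hy
      refine Finset.sum_eq_zero fun z _ => ?_
      rw [Matrix.single_apply, if_neg (by tauto), mul_zero]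
    · intro h
      exact absurd (Finset.mem_univ _) h
  have h3 : dj = qc cj := by
    ext a b
    rw [← hfs dj a b, ← h2, ← qc_single, pr_qc]
    show ((pr nn c κ (Matrix.single a b 1) j : ℚ) : ℂ) = ((cj a b : ℚ) : ℂ)
    rw [h1, hfs]
  rw [h1, h2, h3, fn_apply, fn_apply, map_sum]
  refine Finset.sum_congr rfl fun a _ => ?_
  rw [map_sum]
  refine Finset.sum_congr rfl fun b _ => ?_
  rw [Matrix.map_apply, qc, Matrix.map_apply]
  exact (lin_mul' f (cj a b) (x a b)).symm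

/-- rational matrices commute with functionals -/
theorem ad_mapf {ι : Type} [Fintype ι] [DecidableEq ι] (e : Matrix ι ι ℚ) (x : Matrix ι ι ℂ)
    (f : ℂ →ₗ[ℚ] ℚ) : ad e (x.map f) = (ad (qc e) x).map f := by
  ext a b
  rw [ad_apply, ad_apply, Matrix.map_apply, Matrix.sub_apply, Matrix.sub_apply, map_sub,
    Matrix.mul_apply, Matrix.mul_apply, Matrix.mul_apply, Matrix.mul_apply, map_sum, map_sum]
  congr 1
  · refine Finset.sum_congr rfl fun i _ => ?_
    rw [Matrix.map_apply, qc, Matrix.map_apply]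
    exact (lin_mul' f _ _).symm
  · refine Finset.sum_congr rfl fun i _ => ?_
    rw [Matrix.map_apply, qc, Matrix.map_apply, mul_comm, mul_comm (x a i)]
    exact (lin_mul' f _ _).symm

namespace EllVar

variable {V : EllVar X kk nn} {w : ℤ} {κ : ℕ} {c : Matrix (Ix kk) (Ix kk) ℚ}

/-- the variation attached to a functional -/
noncomputable def var (hN : V.Nice) (hT : V.NegTypes)
    (hc : IsFun nn V.uni (brk V.uni V.uni) w κ c) : LibSym94.Variation κ X where
  ρ := V.ρ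
  c := fun δ => pr nn c κ (V.coc δ)
  τ := V.τ
  v := fun z => V.per c κ z
  τ_hol := V.τ_hol
  τ_nonconst := V.τ_nonconst
  τ_equiv := V.τ_equiv
  v_equiv := fun δ z => hN.per_equiv hc δ z
  transversal := by
    intro z
    have hz : (z : ℂ) ∈ Om := z.im_pos
    obtain ⟨⟨g, hg⟩, -⟩ := hN.pr_trans hT hc hz (hN.DZ_Y hz).1 (hN.DZ_Y hz).2
    refine ⟨g, ?_⟩
    have h1 := hN.per_deriv hT c κ hz
    rw [hg] at h1
    have htC : V.tC z = (V.τ z : ℂ) := by
      unfold tC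
      rw [ofComplex_apply]
    rw [htC] at h1
    refine h1.congr_of_eventuallyEq ?_
    filter_upwards [Om_open.mem_nhds hz] with x hx
    rw [ofComplex_apply_of_im_pos hx]
  growth := fun s Y hE M => V.per_growth c κ hE M

/-- the kernel of the projection, as an ideal -/
noncomputable def kerI (V : EllVar X kk nn) (c : Matrix (Ix kk) (Ix kk) ℚ) (κ : ℕ) :
    Submodule ℚ (Matrix (Ix kk) (Ix kk) ℚ) := V.uni ⊓ LinearMap.ker (pr nn c κ)

theorem mem_kerI {B : Matrix (Ix kk) (Ix kk) ℚ} :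
    B ∈ V.kerI c κ ↔ B ∈ V.uni ∧ pr nn c κ B = 0 := Iff.rfl

theorem Nice.brk_kerI (hN : V.Nice) (hc : IsFun nn V.uni (brk V.uni V.uni) w κ c) :
    brk V.uni V.uni ≤ V.kerI c κ := fun _ hB => ⟨V.brk_le hB, hc.pr_ker hN.glSt_brk hB⟩

theorem Nice.stab_kerI (hN : V.Nice) (hc : IsFun nn V.uni (brk V.uni V.uni) w κ c) :
    Stab V.gen (V.kerI c κ) := by
  intro A hA B hB
  obtain ⟨t, ht⟩ := hN.decomp hA
  have h1 : A * B - B * A = ad (dr kk nn t) B + ad (A - dr kk nn t) B := by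
    rw [ad_sub, LinearMap.sub_apply, add_sub_cancel, ad_apply]
  rw [h1]
  refine Submodule.add_mem _ ⟨hN.glSt t B hB.1, ?_⟩ ?_
  · show pr nn c κ (ad (dr kk nn t) B) = 0
    rw [(hc.fu hN.glSt).pr_ad t hB.1]
    have h2 : pr nn c κ B = 0 := hB.2
    rw [h2, Matrix.mulVec_zero]
  · exact hN.brk_kerI hc (Submodule.subset_span ⟨_, ht, B, hB.1, rfl⟩)

theorem mem_cx_kerI {x : Matrix (Ix kk) (Ix kk) ℂ} (hx : x ∈ cx V.uni)
    (h0 : pr nn (qc c) κ x = 0) : x ∈ cx (V.kerI c κ) := by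
  rw [mem_cx_iff] at hx ⊢
  intro f
  refine ⟨hx f, ?_⟩
  show pr nn c κ (x.map f) = 0
  rw [pr_mapf, h0]
  funext j
  simp

theorem PY_comm (V : EllVar X kk nn) {z : ℂ} (hz : z ∈ Om) : ad (V.Pz z) (V.Yz z) = 0 ∧
    ad (V.Qz z) (V.Yz z) = 0 := by
  have hu : IsUnit (V.h z) := ZQ38.Un.isUnit (V.h_del hz).un
  have hd := (Matrix.isUnit_iff_isUnit_det _).1 hu
  have hD : Dwt (wt kk nn) = dr kk nn ![0, 0, 0, 1] := by rw [dr_D]; rfl
  have h1 : PG (KK kk nn) (PP kk nn (V.tC z)) * Dwt (wt kk nn) =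
      Dwt (wt kk nn) * PG (KK kk nn) (PP kk nn (V.tC z)) := by
    rw [PG_eq (V.tC_pos z), hD]
    have h2 := dr_bracket (kk := kk) (nn := nn) (hv (V.tC z)) ![0, 0, 0, 1]
    rw [ad_apply] at h2
    have h3 : ![2 * (hv (V.tC z) 1 * (![0, 0, 0, 1] : Fin 4 → ℂ) 0 -
        hv (V.tC z) 0 * (![0, 0, 0, 1] : Fin 4 → ℂ) 1),
        hv (V.tC z) 2 * (![0, 0, 0, 1] : Fin 4 → ℂ) 0 -
        hv (V.tC z) 0 * (![0, 0, 0, 1] : Fin 4 → ℂ) 2,
        2 * (hv (V.tC z) 2 * (![0, 0, 0, 1] : Fin 4 → ℂ) 1 -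
        hv (V.tC z) 1 * (![0, 0, 0, 1] : Fin 4 → ℂ) 2), (0 : ℂ)] = 0 := by
      funext i
      fin_cases i <;> simp
    rw [h3, dr_zero, sub_eq_zero] at h2
    exact h2
  have h4 : ad (V.Pz z) (V.Yz z) = 0 := by
    rw [ad_apply]
    unfold Pz Yz oP
    generalize PG (KK kk nn) (PP kk nn (V.tC z)) = A at h1
    have e1 : V.h z * A * (V.h z)⁻¹ * (V.h z * Dwt (wt kk nn) * (V.h z)⁻¹) =
        V.h z * (A * Dwt (wt kk nn)) * (V.h z)⁻¹ := by
      simp only [Matrix.mul_assoc]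
      rw [Matrix.nonsing_inv_mul_cancel_left _ _ hd]
    have e2 : V.h z * Dwt (wt kk nn) * (V.h z)⁻¹ * (V.h z * A * (V.h z)⁻¹) =
        V.h z * (Dwt (wt kk nn) * A) * (V.h z)⁻¹ := by
      simp only [Matrix.mul_assoc]
      rw [Matrix.nonsing_inv_mul_cancel_left _ _ hd]
    rw [e1, e2, h1, sub_self]
  refine ⟨h4, ?_⟩
  have h5 : V.Qz z = V.Yz z - V.Pz z := by rw [← V.Pz_add_Qz]; abel
  rw [h5, ad_sub, LinearMap.sub_apply, h4, sub_zero, ad_apply, sub_self]

theorem Nice.not_split (hN : V.Nice) (hT : V.NegTypes)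
    (hc : IsFun nn V.uni (brk V.uni V.uni) w κ c) : ¬ (var hN hT hc).Split := by
  rintro ⟨r, hr⟩
  obtain ⟨rt, hrt, hrtw, hprt⟩ := hc.surj hN.glSt r
  set e : Matrix (Ix kk) (Ix kk) ℚ := dr kk nn ![0, 0, 0, 1] + rt with he
  have hst := hN.stab_kerI hc
  -- `Y - e` lies in the ideal
  have hYe : ∀ z ∈ Om, V.Yz z - qc e ∈ cx (V.kerI c κ) := by
    intro z hz
    have h1 : V.Yz z - qc e = (V.Yz z - dr kk nn ![0, 0, 0, 1]) - qc rt := by
      rw [he]
      have : qc (dr kk nn ![0, 0, 0, 1] + rt) = dr kk nn ![0, 0, 0, 1] + qc rt := by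
        rw [← qc_e3]
        exact Matrix.map_add _ (fun a b => map_add _ a b) _ _
      rw [this]
      abel
    rw [h1]
    apply mem_cx_kerI (Submodule.sub_mem _ (hN.Y_sub hz) (ZQ38.mem_cx_of_mem hrt))
    rw [map_sub, pr_qc, hprt, sub_eq_zero]
    funext i
    exact hr ⟨z, hz⟩ i
  set S : Submodule ℚ (Matrix (Ix kk) (Ix kk) ℚ) := V.gen ⊓ (V.kerI c κ).comap (ad e) with hS
  have hSLie : IsLie S := by
    intro A hA B hB
    refine ⟨V.gen_isLie A hA.1 B hB.1, ?_⟩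
    have hA2 : ad e A ∈ V.kerI c κ := hA.2
    have hB2 : ad e B ∈ V.kerI c κ := hB.2
    show ad e (A * B - B * A) ∈ V.kerI c κ
    have h1 : ad e (A * B - B * A) = (A * ad e B - ad e B * A) - (B * ad e A - ad e A * B) := by
      simp only [ad_apply]
      noncomm_ring
    rw [h1]
    exact Submodule.sub_mem _ (hst A hA.1 _ hB2) (hst B hB.1 _ hA2)
  have hop : ∀ z ∈ Om, ∀ T : Matrix (Ix kk) (Ix kk) ℂ, T ∈ cx V.gen → ad T (V.Yz z) = 0 →
      T ∈ cx S := by
    intro z hz T hT' hTY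
    rw [hS, ZQ38.cx_inf]
    refine ⟨hT', ?_⟩
    rw [SetLike.mem_coe, mem_cx_iff]
    intro f
    rw [Submodule.mem_comap, ad_mapf]
    have h1 : ad (qc e) T ∈ cx (V.kerI c κ) := by
      have h2 : ad (qc e) T = ad T (V.Yz z - qc e) - ad T (V.Yz z) := by
        rw [map_sub]
        simp only [ad_apply]
        abel
      rw [h2, hTY, sub_zero]
      exact ZQ38.cx_stab hst _ hT' _ (hYe z hz)
    exact (mem_cx_iff _ _).1 h1 f
  have hgen : V.gen ≤ S := by
    unfold gen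
    refine iSup_le fun z => ?_
    rw [ZQ38.mtLie_le_iff (V.grP' z.im_pos) (V.h_del z.im_pos) hSLie]
    exact ⟨hop z z.im_pos _ (V.Pz_gen z.im_pos) (V.PY_comm z.im_pos).1,
      hop z z.im_pos _ (V.Qz_gen z.im_pos) (V.PY_comm z.im_pos).2⟩
  obtain ⟨A, hA, hcA, hAw, -⟩ := hc.exists_low hN.glSt
  have h1 : ad e A ∈ V.kerI c κ := (hgen (V.uni_le hA)).2
  have h2 : pr nn c κ (ad e A) = 0 := h1.2
  rw [he, ad_add, LinearMap.add_apply, map_add,
    hc.pr_ker hN.glSt_brk (B := ad rt A) (Submodule.subset_span ⟨rt, hrt, A, hA, rfl⟩),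
    add_zero] at h2
  have h3 := (eig_iff (R := ℚ) (wt kk nn) w A).2 hAw
  rw [← dr_D] at h3
  rw [h3, map_smul] at h2
  obtain ⟨e', he'⟩ := hN.exists_e hT hc
  have h4 : (w : ℚ) ≠ 0 := by
    rw [Int.cast_ne_zero]
    omega
  rcases smul_eq_zero.1 h2 with h5 | h5
  · exact h4 h5
  · apply hcA
    have h6 := congrFun h5 0
    rw [pr_apply] at h6
    simpa using h6

end EllVar

end Pool.Agent.LibME94
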