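import Pool.Agent.LibME94.C10

/-!
# Weights and multiplicities
-/

open Matrix Polynomial UpperHalfPlane
open scoped MatrixGroups ComplexConjugate
open MW38 (Fl Tri dg)
open ZQ38 (Un Low cx Fend brk Stab GrP PG Dwt An DelH IsLie mtLie oP oQ dgR mem_cx_iff adm Lm HH)
open Pool.Agent.LibUB33 (Curve)
open Pool.Agent.LibEis68 (sl sl_bracket act form hvec form_linearIndependent sl_mulVec_form
  form_span)
open Pool.Agent.LibSym94 (Variation EndForm act_mul act_one)

namespace Pool.Agent.LibME94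

variable {J : Type} [Fintype J] [DecidableEq J] {kk : J → ℕ} {nn : J → ℤ} {X : Curve}

/-- a constant variation has no residues -/
theorem resid_const {k : ℕ} (W : Variation k X) (hconst : ∀ z z' : ℍ, W.v z = W.v z')
    {s : ℂ → ℍ} {Y : ℝ} (E : EndForm W s Y) : resid W E = 0 := by
  set z : ℍ := UpperHalfPlane.I with hz
  set v₀ := W.v z with hv
  have h1 := W.v_equiv E.p z
  rw [hconst (((E.p : X.P) : SL(2, ℝ)) • z) z, ← hv] at h1
  set A : SL(2, ℤ) → Matrix (Fin (k + 1)) (Fin (k + 1)) ℂ := fun γ =>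
    (act k γ).map (algebraMap ℚ ℂ) with hA
  have hAm : ∀ γ δ, A (γ * δ) = A γ * A δ := by
    intro γ δ
    simp only [hA]
    rw [act_mul, Matrix.map_mul]
  have h2 : A E.M *ᵥ v₀ = A (ModularGroup.T ^ E.m) *ᵥ (A E.M *ᵥ v₀) +
      A E.M *ᵥ fun j => (W.c E.p j : ℂ) := by
    conv_lhs => rw [h1]
    rw [Matrix.mulVec_add, Matrix.mulVec_mulVec, Matrix.mulVec_mulVec, ← hAm, ← hAm, E.hρ]
  have h3 := congrFun h2 (Fin.last k)
  rw [Pi.add_apply, act_T_last] at h3
  have h4 : (A E.M *ᵥ fun j => (W.c E.p j : ℂ)) (Fin.last k) = 0 := by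
    linear_combination -h3
  have h5 : (A E.M *ᵥ fun j => (W.c E.p j : ℂ)) (Fin.last k) = ((resid W E : ℚ) : ℂ) := by
    unfold resid
    simp only [hA, Matrix.mulVec, dotProduct, Matrix.map_apply]
    push_cast
    rfl
  rw [h5] at h4
  exact_mod_cast h4

theorem split_of_const {k : ℕ} (hk : 1 ≤ k) (W : Variation k X)
    (hconst : ∀ z z' : ℍ, W.v z = W.v z') : W.Split := by
  by_contra hns
  refine hns (split_of_ends W hk fun s Y hE E hm ε hε => ?_)
  exact SS_end W hk hns hE E hm (resid_const W hconst E) hε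

namespace EllVar

variable {V : EllVar X kk nn} {w : ℤ} {κ : ℕ} {c : Matrix (Ix kk) (Ix kk) ℚ}

theorem Nice.finrank_kerI (hN : V.Nice) (hc : IsFun nn V.uni (brk V.uni V.uni) w κ c) :
    Module.finrank ℚ (V.kerI c κ) + (κ + 1) = Module.finrank ℚ V.uni := by
  set L : V.uni →ₗ[ℚ] (Fin (κ + 1) → ℚ) := (pr nn c κ).domRestrict V.uni with hL
  have h1 := LinearMap.finrank_range_add_finrank_ker L
  have h2 : LinearMap.range L = ⊤ := by
    rw [LinearMap.range_eq_top]
    intro r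
    obtain ⟨B, hB, -, hB'⟩ := hc.surj hN.glSt r
    exact ⟨⟨B, hB⟩, hB'⟩
  have h3 : Module.finrank ℚ (LinearMap.ker L) = Module.finrank ℚ (V.kerI c κ) := by
    have h4 : LinearMap.ker L = Submodule.comap V.uni.subtype (LinearMap.ker (pr nn c κ)) := rfl
    rw [h4, ← Submodule.finrank_map_subtype_eq, Submodule.map_comap_subtype]
    rfl
  rw [h2, finrank_top, Module.finrank_fin_fun, h3] at h1
  omega

theorem Nice.kappa_pos (hN : V.Nice) (hT2 : V.NoConst)
    (hc : IsFun nn V.uni (brk V.uni V.uni) w κ c) : 1 ≤ κ := by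
  by_contra h
  have h0 : κ = 0 := by omega
  subst h0
  apply hT2
  refine ⟨V.kerI c 0, hN.brk_kerI hc, inf_le_left, hN.stab_kerI hc, ?_⟩
  have := hN.finrank_kerI hc
  omega

theorem Nice.w_eq (hN : V.Nice) (hT : V.NegTypes) (hT2 : V.NoConst)
    (hc : IsFun nn V.uni (brk V.uni V.uni) w κ c) : w = -κ - 2 := by
  by_contra hw
  apply hN.not_split hT hc
  apply split_of_const (hN.kappa_pos hT2 hc)
  have hd : ∀ z ∈ Om, HasDerivAt (V.per c κ) 0 z := by
    intro z hz
    have h1 := hN.per_deriv hT c κ hz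
    rwa [(hN.pr_trans hT hc hz (hN.DZ_Y hz).1 (hN.DZ_Y hz).2).2 hw] at h1
  intro z z'
  have hdiff : DifferentiableOn ℂ (V.per c κ) Om := fun z hz =>
    (hd z hz).differentiableAt.differentiableWithinAt
  have hder : Set.EqOn (deriv (V.per c κ)) 0 Om := fun z hz => (hd z hz).deriv
  exact Om_open.is_const_of_deriv_eq_zero Om_preconn hdiff hder z.im_pos z'.im_pos

/-- the normal form of the period at an end, transported -/
def endOf {κ κ' : ℕ} {W : Variation κ X} {W' : Variation κ' X} (hρ : W.ρ = W'.ρ)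
    (hτ : W.τ = W'.τ) {s : ℂ → ℍ} {Y : ℝ} (E : EndForm W s Y) : EndForm W' s Y where
  n := E.n
  hn := E.hn
  p := E.p
  hp := E.hp
  M := E.M
  m := E.m
  hρ := by rw [← hρ]; exact E.hρ
  F := E.F
  hF := E.hF
  hF0 := E.hF0
  Y' := E.Y'
  hY := E.hY
  hτ := by rw [← hτ]; exact E.hτ

theorem pr_comb (c c' : Matrix (Ix kk) (Ix kk) ℚ) (a b : ℚ) (κ : ℕ)
    (B : Matrix (Ix kk) (Ix kk) ℚ) :
    pr nn (a • c + b • c') κ B = a • pr nn c κ B + b • pr nn c' κ B := by
  funext j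
  rw [pr_apply, Pi.add_apply, Pi.smul_apply, Pi.smul_apply, pr_apply, pr_apply, fn_add, fn_smul,
    fn_smul, smul_eq_mul, smul_eq_mul]
  ring

/-- a linear combination of functionals -/
theorem isFun_comb {u K : Submodule ℚ (Matrix (Ix kk) (Ix kk) ℚ)}
    {c' : Matrix (Ix kk) (Ix kk) ℚ} (hc : IsFun nn u K w κ c)
    (hc' : IsFun nn u K w κ c') (a b : ℚ) (hne : ∃ B ∈ u, a * fn c B + b * fn c' B ≠ 0) :
    IsFun nn u K w κ (a • c + b • c') := by
  refine ⟨?_, ?_, ?_, ?_⟩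
  · intro x y hxy
    by_cases h : c x y = 0
    · apply hc'.supp
      intro h'
      apply hxy
      simp [h, h']
    · exact hc.supp x y h
  · intro B hB
    rw [fn_add, fn_smul, fn_smul, hc.ker B hB, hc'.ker B hB]
    ring
  · intro B hB
    rw [fn_add, fn_smul, fn_smul, hc.low B hB, hc'.low B hB]
    ring
  · obtain ⟨B, hB, h⟩ := hne
    refine ⟨B, hB, ?_⟩
    rw [fn_add, fn_smul, fn_smul]
    exact h

/-- multiplicity one when there is only one place with infinite monodromy -/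
theorem Nice.unique (hN : V.Nice) (hT : V.NegTypes) (hT2 : V.NoConst) (hone : OnePlace X V.ρ)
    (hc : IsFun nn V.uni (brk V.uni V.uni) w κ c) (κ' : ℕ) (c' : Matrix (Ix kk) (Ix kk) ℚ)
    (hc' : IsFun nn V.uni (brk V.uni V.uni) w κ' c') :
    κ' = κ ∧ ∃ a b : ℚ, (a ≠ 0 ∨ b ≠ 0) ∧ ∀ B ∈ V.uni, a * fn c B + b * fn c' B = 0 := by
  have h1 := hN.w_eq hT hT2 hc
  have h2 := hN.w_eq hT hT2 hc'
  have h3 : κ' = κ := by omega
  subst h3
  refine ⟨rfl, ?_⟩
  obtain ⟨s, Y, hE, E, hm⟩ := (V.base 0).exists_infinite_end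
  set r : ℚ := (act κ' E.M *ᵥ pr nn c κ' (V.coc E.p)) (Fin.last κ') with hr
  set r' : ℚ := (act κ' E.M *ᵥ pr nn c' κ' (V.coc E.p)) (Fin.last κ') with hr'
  obtain ⟨a, b, hab, habr⟩ : ∃ a b : ℚ, (a ≠ 0 ∨ b ≠ 0) ∧ a * r + b * r' = 0 := by
    by_cases h0 : r = 0
    · exact ⟨1, 0, Or.inl one_ne_zero, by rw [h0]; ring⟩
    · exact ⟨-r', r, Or.inr h0, by ring⟩
  refine ⟨a, b, hab, ?_⟩
  by_contra hne
  push Not at hne
  have hcc := isFun_comb hc hc' a b hne
  set W := var hN hT hcc with hW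
  set E' : EndForm W s Y := endOf (W := V.base 0) (W' := W) rfl rfl E with hE'
  have h4 : resid W E' = 0 := by
    have h5 : resid W E' = (act κ' E.M *ᵥ pr nn (a • c + b • c') κ' (V.coc E.p))
        (Fin.last κ') := rfl
    rw [h5, pr_comb, Matrix.mulVec_add, Matrix.mulVec_smul, Matrix.mulVec_smul, Pi.add_apply,
      Pi.smul_apply, Pi.smul_apply, smul_eq_mul, smul_eq_mul]
    exact habr
  exact hN.not_split hT hcc (split_of_resid W (hN.kappa_pos hT2 hcc) hone hE E' hm h4)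

end EllVar

end Pool.Agent.LibME94
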