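import Pool.Agent.LibME94.C1
import Pool.Agent.LibZQ38.B09
import Pool.Agent.LibZQ38.B11

/-!
# Variations: the Deligne splitting and the generic Mumford-Tate Lie algebra
-/

open Matrix Polynomial UpperHalfPlane
open scoped MatrixGroups ComplexConjugate
open MW38 (Fl Tri dg)
open ZQ38 (Un Low cx Fend brk Stab GrP PG Dwt An DelH IsLie mtLie oP oQ dgR mem_cx_iff)
open Pool.Agent.LibUB33 (Curve)
open Pool.Agent.LibEis68 (sl sl_bracket act form hvec form_linearIndependent sl_mulVec_form)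

namespace Pool.Agent.LibME94

variable {J : Type} [Fintype J] [DecidableEq J] {kk : J → ℕ} {nn : J → ℤ} {X : Curve}

namespace EllVar

variable (V : EllVar X kk nn)

/-- a split variation with the given elliptic curve -/
noncomputable def base (κ : ℕ) : LibSym94.Variation κ X where
  ρ := V.ρ
  c := fun _ _ => 0
  τ := V.τ
  v := fun _ _ => 0
  τ_hol := V.τ_hol
  τ_nonconst := V.τ_nonconst
  τ_equiv := V.τ_equiv
  v_equiv := by
    intro δ z
    funext i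
    simp [Matrix.mulVec, dotProduct]
  transversal := by
    intro z
    refine ⟨0, ?_⟩
    rw [zero_smul]
    exact hasDerivAt_const _ _
  growth := by
    intro s Y _ M
    refine ⟨0, 0, fun ζ _ _ => ?_⟩
    simp only [zero_mul]
    exact (norm_le_zero_iff.2 rfl)

theorem exists_not_cm : ∃ z : ℍ, ¬ LibEis68.IsCM (V.τ z : ℂ) := by
  obtain ⟨z, hz⟩ := (V.base 0).pure.exists_not_cm
  exact ⟨z, hz⟩

/-- the period as a function on `ℂ` -/
noncomputable def tC (z : ℂ) : ℂ := (V.τ (ofComplex z) : ℂ)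

theorem tC_pos (z : ℂ) : 0 < (V.tC z).im := (V.τ (ofComplex z)).im_pos

theorem tC_hol : DifferentiableOn ℂ V.tC Om := by
  intro z hz
  have := V.τ_hol ⟨z, hz⟩
  exact this.differentiableWithinAt

theorem tC_an : AnalyticOnNhd ℝ V.tC Om :=
  fun z hz => ((V.tC_hol.analyticOnNhd Om_open) z hz).restrictScalars

theorem Φ_eq (z : ℂ) : V.Φ z = V.g z * fr kk (V.tC z) := rfl

theorem grP' {z : ℂ} (hz : z ∈ Om) :
    GrP (wt kk nn) (pp kk nn) (KK kk nn) (V.Φ z) (PP kk nn (V.tC z)) :=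
  grP (V.tC_pos z) (V.g_un z hz)

theorem fr_hol (i j : Ix kk) : DifferentiableOn ℂ (fun z => fr kk (V.tC z) i j) Om := by
  by_cases h : i.1 = j.1
  · obtain ⟨a, i⟩ := i
    obtain ⟨b, j⟩ := j
    simp only at h
    subst h
    have h1 : ∀ z, fr kk (V.tC z) ⟨a, i⟩ ⟨a, j⟩ =
        (-V.tC z) ^ ((j : ℕ) - (i : ℕ)) * (((j : ℕ).choose i : ℕ) : ℂ) := by
      intro z
      rw [fr_apply, fcol, sub_eq_add_neg, ← C_neg, Polynomial.coeff_X_add_C_pow]
    simp only [h1]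
    exact (V.tC_hol.neg.pow _).mul_const _
  · simp only [fr_ne _ i j h]
    exact differentiableOn_const _

theorem Φ_hol (i j : Ix kk) : DifferentiableOn ℂ (fun z => V.Φ z i j) Om := by
  simp only [V.Φ_eq, Matrix.mul_apply]
  exact DifferentiableOn.fun_sum fun k _ => (V.g_hol i k).mul (V.fr_hol k j)

theorem Φ_an : An Om V.Φ := ZQ38.An.of_holo Om_open V.Φ_hol

theorem PP_an (a : ℤ) : An Om (fun z => PP kk nn (V.tC z) a) :=
  An_PP Om_open V.tC_an (fun z _ => V.tC_pos z) a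

theorem exists_h : ∃ h : ℂ → Matrix (Ix kk) (Ix kk) ℂ, An Om h ∧
    ∀ z ∈ Om, DelH (wt kk nn) (pp kk nn) (V.Φ z) (PP kk nn (V.tC z)) (h z) :=
  ZQ38.exists_h (fun _ hz => V.grP' hz) V.Φ_an V.PP_an

/-- the Deligne splitting -/
noncomputable def h : ℂ → Matrix (Ix kk) (Ix kk) ℂ := Classical.choose V.exists_h

theorem h_an : An Om V.h := (Classical.choose_spec V.exists_h).1

theorem h_del {z : ℂ} (hz : z ∈ Om) :
    DelH (wt kk nn) (pp kk nn) (V.Φ z) (PP kk nn (V.tC z)) (V.h z) :=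
  (Classical.choose_spec V.exists_h).2 z hz

/-- multiplication by `p` -/
noncomputable def Pz (z : ℂ) : Matrix (Ix kk) (Ix kk) ℂ :=
  oP (KK kk nn) (PP kk nn (V.tC z)) (V.h z)

/-- multiplication by `q` -/
noncomputable def Qz (z : ℂ) : Matrix (Ix kk) (Ix kk) ℂ :=
  oQ (wt kk nn) (KK kk nn) (PP kk nn (V.tC z)) (V.h z)

/-- multiplication by the weight -/
noncomputable def Yz (z : ℂ) : Matrix (Ix kk) (Ix kk) ℂ :=
  V.h z * Dwt (wt kk nn) * (V.h z)⁻¹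

theorem Pz_add_Qz (z : ℂ) : V.Pz z + V.Qz z = V.Yz z := ZQ38.oP_add_oQ _ _ _

theorem gen_eq : ∃ z₀ ∈ Om, V.gen = mtLie (wt kk nn) (pp kk nn) (V.Φ z₀) := by
  obtain ⟨z₀, hz₀, h⟩ := ZQ38.exists_generic (wt := wt kk nn) (p := pp kk nn) (K := KK kk nn)
    Om_open Om_preconn ⟨Complex.I, by simp [Om]⟩ (fun _ hz => V.grP' hz)
    (fun _ hz => V.h_del hz) V.PP_an V.h_an
  refine ⟨z₀, hz₀, le_antisymm ?_ ?_⟩
  · exact iSup_le fun z => h z z.im_pos
  · exact le_iSup (fun z : ℍ => mtLie (wt kk nn) (pp kk nn) (V.Φ z)) ⟨z₀, hz₀⟩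

theorem le_gen {z : ℂ} (hz : z ∈ Om) : mtLie (wt kk nn) (pp kk nn) (V.Φ z) ≤ V.gen :=
  le_iSup (fun z : ℍ => mtLie (wt kk nn) (pp kk nn) (V.Φ z)) ⟨z, hz⟩

theorem gen_isLie : IsLie V.gen := by
  obtain ⟨z₀, -, h⟩ := V.gen_eq
  rw [h]
  exact ZQ38.mtLie_isLie

theorem gen_tri : ∀ A ∈ V.gen, Tri (wt kk nn) A := by
  obtain ⟨z₀, hz₀, h⟩ := V.gen_eq
  rw [h]
  exact ZQ38.mtLie_tri (V.grP' hz₀) (V.h_del hz₀)

theorem Pz_mem {z : ℂ} (hz : z ∈ Om) : V.Pz z ∈ cx (mtLie (wt kk nn) (pp kk nn) (V.Φ z)) :=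
  ZQ38.oP_mem (V.grP' hz) (V.h_del hz)

theorem Qz_mem {z : ℂ} (hz : z ∈ Om) : V.Qz z ∈ cx (mtLie (wt kk nn) (pp kk nn) (V.Φ z)) :=
  ZQ38.oQ_mem (V.grP' hz) (V.h_del hz)

theorem Pz_gen {z : ℂ} (hz : z ∈ Om) : V.Pz z ∈ cx V.gen :=
  ZQ38.cx_mono (V.le_gen hz) (V.Pz_mem hz)

theorem Qz_gen {z : ℂ} (hz : z ∈ Om) : V.Qz z ∈ cx V.gen :=
  ZQ38.cx_mono (V.le_gen hz) (V.Qz_mem hz)

/-- the graded part of an element of the generic Lie algebra -/
theorem gr_gen {A : Matrix (Ix kk) (Ix kk) ℚ} (hA : A ∈ V.gen) :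
    ∃ t, dr kk nn t = dgR (wt kk nn) A := by
  obtain ⟨z₀, hz₀, h⟩ := V.gen_eq
  rw [h] at hA
  have h1 := (ZQ38.mtLie_gr (V.grP' hz₀) (V.h_del hz₀) _).2 ⟨A, hA, rfl⟩
  exact mtLie_gr_le (V.tC_pos z₀) (V.g_un z₀ hz₀) h1

theorem gr_mt {z : ℂ} (hz : z ∈ Om) (hcm : ¬ LibEis68.IsCM (V.tC z)) (t : Fin 4 → ℚ) :
    ∃ A ∈ mtLie (wt kk nn) (pp kk nn) (V.Φ z), dgR (wt kk nn) A = dr kk nn t := by
  rw [← ZQ38.mtLie_gr (V.grP' hz) (V.h_del hz)]
  have h1 := mtLie_gr_eq (kk := kk) (nn := nn) (V.tC_pos z) hcm (V.g_un z hz)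
  have h2 : V.Φ z = V.g z * fr kk (V.tC z) := rfl
  rw [h2, h1]
  exact ⟨t, rfl⟩

theorem gen_gr (t : Fin 4 → ℚ) : ∃ A ∈ V.gen, dgR (wt kk nn) A = dr kk nn t := by
  obtain ⟨z, hz⟩ := V.exists_not_cm
  obtain ⟨A, hA, h⟩ := V.gr_mt (z := (z : ℂ)) z.im_pos (by
    unfold tC
    rw [ofComplex_apply]
    exact hz) t
  exact ⟨A, V.le_gen z.im_pos hA, h⟩

/-- the unipotent part of the Lie algebra of a fibre -/
noncomputable def uz (z : ℂ) : Submodule ℚ (Matrix (Ix kk) (Ix kk) ℚ) :=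
  mtLie (wt kk nn) (pp kk nn) (V.Φ z) ⊓ Low ℚ (wt kk nn)

theorem uz_le {z : ℂ} (hz : z ∈ Om) : V.uz z ≤ V.uni := inf_le_inf_right _ (V.le_gen hz)

end EllVar

/-! ### lower triangular matrices -/

section low

variable {ι : Type} [Fintype ι] [DecidableEq ι] {R : Type*} [CommRing R] {d : ι → ℤ}

theorem low_tri {A : Matrix ι ι R} (hA : A ∈ Low R d) : Tri d A := fun i j h => hA i j h.le

theorem low_mul_left {A B : Matrix ι ι R} (hA : Tri d A) (hB : B ∈ Low R d) :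
    A * B ∈ Low R d := by
  intro i j hij
  rw [Matrix.mul_apply]
  refine Finset.sum_eq_zero fun k _ => ?_
  by_cases h : d k < d i
  · rw [hA i k h, zero_mul]
  · rw [hB k j (by omega), mul_zero]

theorem low_mul_right {A B : Matrix ι ι R} (hA : Tri d A) (hB : B ∈ Low R d) :
    B * A ∈ Low R d := by
  intro i j hij
  rw [Matrix.mul_apply]
  refine Finset.sum_eq_zero fun k _ => ?_
  by_cases h : d j < d k
  · rw [hA k j h, mul_zero]
  · rw [hB i k (by omega), zero_mul]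

theorem low_ad {A B : Matrix ι ι R} (hA : Tri d A) (hB : B ∈ Low R d) : ad A B ∈ Low R d :=
  (Low R d).sub_mem (low_mul_left hA hB) (low_mul_right hA hB)

end low

namespace EllVar

variable (V : EllVar X kk nn)

theorem uni_le : V.uni ≤ V.gen := inf_le_left

theorem uni_low : V.uni ≤ Low ℚ (wt kk nn) := inf_le_right

theorem stab_uni : Stab V.gen V.uni := fun A hA B hB =>
  ⟨V.gen_isLie A hA B (V.uni_le hB), low_ad (V.gen_tri A hA) (V.uni_low hB)⟩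

theorem stab_uz {z : ℂ} (hz : z ∈ Om) : Stab (mtLie (wt kk nn) (pp kk nn) (V.Φ z)) (V.uz z) :=
  fun A hA B hB => ⟨ZQ38.mtLie_isLie A hA B hB.1,
    low_ad (V.gen_tri A (V.le_gen hz hA)) hB.2⟩

/-- `u` is stable under the generic Lie algebra, complexified -/
theorem ad_uni {A B : Matrix (Ix kk) (Ix kk) ℂ} (hA : A ∈ cx V.gen) (hB : B ∈ cx V.uni) :
    ad A B ∈ cx V.uni := ZQ38.cx_stab V.stab_uni A hA B hB

end EllVar

end Pool.Agent.LibME94
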