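import Pool.Agent.LibME94.C2

/-!
# Complexification, adapted variations
-/

open Matrix Polynomial UpperHalfPlane
open scoped MatrixGroups ComplexConjugate
open MW38 (Fl Tri dg)
open ZQ38 (Un Low cx Fend brk Stab GrP PG Dwt An DelH IsLie mtLie oP oQ dgR mem_cx_iff)
open Pool.Agent.LibUB33 (Curve)
open Pool.Agent.LibEis68 (sl sl_bracket act form hvec form_linearIndependent sl_mulVec_form)

namespace Pool.Agent.LibME94

variable {J : Type} [Fintype J] [DecidableEq J] {kk : J → ℕ} {nn : J → ℤ} {X : Curve}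

/-- base change -/
noncomputable abbrev qc {ι : Type} (M : Matrix ι ι ℚ) : Matrix ι ι ℂ := M.map (algebraMap ℚ ℂ)

theorem qc_ad {ι : Type} [Fintype ι] [DecidableEq ι] (A B : Matrix ι ι ℚ) :
    ad (qc A) (qc B) = qc (ad A B) := by
  rw [ad_apply, ad_apply, qc, qc, qc, ← Matrix.map_mul, ← Matrix.map_mul, ← Matrix.map_sub]
  exact fun a b => map_sub _ a b

theorem qc_dr (t : Fin 4 → ℚ) : qc (dr kk nn t) = dr kk nn fun i => ((t i : ℚ) : ℂ) := dr_map t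

theorem qc_e0 : qc (dr kk nn ![1, 0, 0, 0]) = dr kk nn ![1, 0, 0, 0] := by
  rw [qc_dr]
  congr 1
  funext i
  fin_cases i <;> simp

theorem qc_e1 : qc (dr kk nn ![0, 1, 0, 0]) = dr kk nn ![0, 1, 0, 0] := by
  rw [qc_dr]
  congr 1
  funext i
  fin_cases i <;> simp

theorem qc_e2 : qc (dr kk nn ![0, 0, -1, 0]) = dr kk nn ![0, 0, -1, 0] := by
  rw [qc_dr]
  congr 1
  funext i
  fin_cases i <;> simp

theorem qc_e3 : qc (dr kk nn ![0, 0, 0, 1]) = dr kk nn ![0, 0, 0, 1] := by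
  rw [qc_dr]
  congr 1
  funext i
  fin_cases i <;> simp

theorem fn_qc {ι : Type} [Fintype ι] [DecidableEq ι] (c B : Matrix ι ι ℚ) : fn (qc c) (qc B) = ((fn c B : ℚ) : ℂ) := by
  rw [fn_apply, fn_apply]
  push_cast
  rfl

theorem pr_qc (c : Matrix (Ix kk) (Ix kk) ℚ) (κ : ℕ) (B : Matrix (Ix kk) (Ix kk) ℚ) :
    pr nn (qc c) κ (qc B) = fun j => ((pr nn c κ B j : ℚ) : ℂ) := by
  funext j
  have h1 : ∀ l : ℕ, (ad (dr kk nn (R := ℂ) ![0, 0, -1, 0]) ^ l) (qc B) =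
      qc ((ad (dr kk nn (R := ℚ) ![0, 0, -1, 0]) ^ l) B) := by
    intro l
    induction l with
    | zero => simp
    | succ l ih =>
      rw [pow_succ', Module.End.mul_apply, ih, pow_succ', Module.End.mul_apply, ← qc_ad, qc_e2]
  rw [pr_apply, pr_apply, h1, fn_qc]
  push_cast
  rfl

/-- induction on the complexification -/
theorem cx_induction {ι : Type} [Fintype ι] [DecidableEq ι] {L : Submodule ℚ (Matrix ι ι ℚ)}
    {W : Submodule ℂ (Matrix ι ι ℂ)} (h : ∀ M ∈ L, qc M ∈ W) : cx L ≤ W := by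
  unfold cx
  rw [Submodule.span_le]
  rintro _ ⟨M, hM, rfl⟩
  exact h M hM

theorem GlSt.cx {u : Submodule ℚ (Matrix (Ix kk) (Ix kk) ℚ)} (hu : GlSt kk nn u)
    (t : Fin 4 → ℂ) {B : Matrix (Ix kk) (Ix kk) ℂ} (hB : B ∈ ZQ38.cx u) :
    ad (dr kk nn t) B ∈ ZQ38.cx u := by
  have h1 : Stab (drS kk nn) u := by
    rintro _ ⟨t, rfl⟩ B hB
    exact hu t B hB
  exact ZQ38.cx_stab h1 _ (dr_mem_cx (fun t => mem_drS.2 ⟨t, rfl⟩) t) _ hB

theorem IsFun.fuC {u K : Submodule ℚ (Matrix (Ix kk) (Ix kk) ℚ)} (hu : GlSt kk nn u)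
    {w : ℤ} {κ : ℕ} {c : Matrix (Ix kk) (Ix kk) ℚ} (h : IsFun nn u K w κ c) :
    Fu nn (cx u) w κ (qc c) := by
  refine ⟨fun t B hB => hu.cx t hB, ?_, ?_⟩
  · intro x y hxy
    apply h.supp
    intro h0
    apply hxy
    rw [qc, Matrix.map_apply, h0, map_zero]
  · intro B hB
    have h1 : cx u ≤ LinearMap.ker (fn (qc c) ∘ₗ ad (dr kk nn ![1, 0, 0, 0])) := by
      apply cx_induction
      intro M hM
      rw [LinearMap.mem_ker, LinearMap.comp_apply, ← qc_e0, qc_ad, fn_qc, h.low M hM]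
      simp
    exact LinearMap.mem_ker.1 (h1 hB)

theorem IsFun.pr_kerC {u K : Submodule ℚ (Matrix (Ix kk) (Ix kk) ℚ)} (hK : GlSt kk nn K)
    {w : ℤ} {κ : ℕ} {c : Matrix (Ix kk) (Ix kk) ℚ} (h : IsFun nn u K w κ c)
    {B : Matrix (Ix kk) (Ix kk) ℂ} (hB : B ∈ cx K) : pr nn (qc c) κ B = 0 := by
  have h1 : cx K ≤ LinearMap.ker (pr nn (qc c) κ) := by
    apply cx_induction
    intro M hM
    rw [LinearMap.mem_ker, pr_qc, h.pr_ker hK hM]
    funext j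
    simp
  exact LinearMap.mem_ker.1 (h1 hB)

/-- a triangular matrix with vanishing graded part -/
theorem low_of_dgR {ι : Type} {R : Type*} [CommRing R] {d : ι → ℤ}
    {A B : Matrix ι ι R} (hA : Tri d A) (hB : Tri d B) (h : dgR d A = dgR d B) :
    A - B ∈ Low R d := by
  intro i j hij
  rw [Matrix.sub_apply]
  rcases hij.lt_or_eq with h1 | h1
  · rw [hA i j h1, hB i j h1, sub_zero]
  · have h2 := congrFun (congrFun h i) j
    unfold dgR at h2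
    rw [if_pos h1.symm, if_pos h1.symm] at h2
    rw [h2, sub_self]

theorem dr_tri {R : Type*} [CommRing R] (t : Fin 4 → R) : Tri (wt kk nn) (dr kk nn t) :=
  fun x y h => dr_off t x y (by omega)

theorem dgR_dr {R : Type*} [CommRing R] (t : Fin 4 → R) :
    dgR (wt kk nn) (dr kk nn t) = dr kk nn t := by
  ext x y
  unfold dgR
  by_cases h : wt kk nn x = wt kk nn y
  · rw [if_pos h]
  · rw [if_neg h, dr_off t x y h]

theorem cmp_zero_eq {ι : Type} [Fintype ι] [DecidableEq ι] {R : Type*} [CommRing R] (d : ι → ℤ) (A : Matrix ι ι R) :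
    cmp d 0 A = dgR d A := by
  ext x y
  rw [cmp_apply]
  unfold dgR
  by_cases h : d x = d y
  · rw [if_pos h, if_pos (by omega)]
  · rw [if_neg h, if_neg (by omega)]

theorem brk_mono_left {ι : Type} [Fintype ι] [DecidableEq ι] {R : Type*} [CommRing R]
    {A : Submodule R (Matrix ι ι R)} (hA : ∀ X ∈ A, ∀ Y ∈ A, X * Y - Y * X ∈ A) : brk A A ≤ A := by
  unfold brk
  rw [Submodule.span_le]
  rintro _ ⟨X, hX, Y, hY, rfl⟩
  exact hA X hX Y hY

theorem brk_stab {ι : Type} [Fintype ι] [DecidableEq ι] {M u : Submodule ℚ (Matrix ι ι ℚ)}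
    (h : Stab M u) : Stab M (brk u u) := by
  intro A hA B hB
  have h1 : brk u u ≤ (brk u u).comap (ad A) := by
    unfold brk
    rw [Submodule.span_le]
    rintro _ ⟨X, hX, Y, hY, rfl⟩
    show ad A (X * Y - Y * X) ∈ Submodule.span ℚ _
    have h2 : ad A (X * Y - Y * X) = (ad A X * Y - Y * ad A X) + (X * ad A Y - ad A Y * X) := by
      simp only [ad_apply]
      noncomm_ring
    rw [h2]
    exact Submodule.add_mem _ (Submodule.subset_span ⟨_, h A hA X hX, Y, hY, rfl⟩)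
      (Submodule.subset_span ⟨X, hX, _, h A hA Y hY, rfl⟩)
  exact h1 hB

namespace EllVar

variable (V : EllVar X kk nn)

/-- adapted: the generic Lie algebra contains the weight -/
def Nice : Prop := dr kk nn (![0, 0, 0, 1] : Fin 4 → ℚ) ∈ V.gen

variable {V}

theorem Nice.dr_mem (hN : V.Nice) (t : Fin 4 → ℚ) : dr kk nn t ∈ V.gen := by
  obtain ⟨A, hA, h⟩ := V.gen_gr t
  have h1 := cmp_mem (V := V.gen) (wt kk nn) (fun B hB => by
    rw [← dr_D]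
    exact V.gen_isLie _ hN B hB) 0 hA
  rwa [cmp_zero_eq, h] at h1

theorem Nice.glSt (hN : V.Nice) : GlSt kk nn V.uni := fun t B hB =>
  V.stab_uni _ (hN.dr_mem t) B hB

theorem uni_isLie (V : EllVar X kk nn) : ∀ A ∈ V.uni, ∀ B ∈ V.uni, A * B - B * A ∈ V.uni :=
  fun A hA B hB => V.stab_uni A (V.uni_le hA) B hB

theorem brk_le (V : EllVar X kk nn) : brk V.uni V.uni ≤ V.uni := brk_mono_left V.uni_isLie

theorem Nice.glSt_brk (hN : V.Nice) : GlSt kk nn (brk V.uni V.uni) := fun t B hB =>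
  brk_stab V.stab_uni _ (hN.dr_mem t) B hB

theorem Nice.dr_cx (hN : V.Nice) (t : Fin 4 → ℂ) : dr kk nn t ∈ cx V.gen :=
  dr_mem_cx hN.dr_mem t

theorem cx_uni (V : EllVar X kk nn) : cx V.uni = cx V.gen ⊓ Low ℂ (wt kk nn) := by
  unfold uni
  rw [ZQ38.cx_inf, ZQ38.cx_low]

theorem dgR_Pz (V : EllVar X kk nn) {z : ℂ} (hz : z ∈ Om) :
    dgR (wt kk nn) (V.Pz z) = dr kk nn (hv (V.tC z)) := by
  unfold Pz
  rw [ZQ38.B13_oP (V.grP' hz) (V.h_del hz).un, oP_gr (V.tC_pos z)]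

theorem dgR_Qz (V : EllVar X kk nn) {z : ℂ} (hz : z ∈ Om) :
    dgR (wt kk nn) (V.Qz z) = dr kk nn (![0, 0, 0, 1] - hv (V.tC z)) := by
  unfold Qz
  rw [ZQ38.B13_oQ (V.grP' hz) (V.h_del hz).un, oQ_gr (V.tC_pos z)]

theorem Pz_tri (V : EllVar X kk nn) {z : ℂ} (hz : z ∈ Om) : Tri (wt kk nn) (V.Pz z) :=
  ZQ38.B13_tri_oP (V.grP' hz) (V.h_del hz).un

theorem Qz_tri (V : EllVar X kk nn) {z : ℂ} (hz : z ∈ Om) : Tri (wt kk nn) (V.Qz z) :=
  ZQ38.B13_tri_oQ (V.grP' hz) (V.h_del hz).un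

theorem Nice.P_sub (hN : V.Nice) {z : ℂ} (hz : z ∈ Om) :
    V.Pz z - dr kk nn (hv (V.tC z)) ∈ cx V.uni := by
  rw [V.cx_uni]
  refine ⟨(cx V.gen).sub_mem (V.Pz_gen hz) (hN.dr_cx _), ?_⟩
  apply low_of_dgR (V.Pz_tri hz) (dr_tri _)
  rw [V.dgR_Pz hz, dgR_dr]

theorem Nice.Q_sub (hN : V.Nice) {z : ℂ} (hz : z ∈ Om) :
    V.Qz z - dr kk nn (![0, 0, 0, 1] - hv (V.tC z)) ∈ cx V.uni := by
  rw [V.cx_uni]
  refine ⟨(cx V.gen).sub_mem (V.Qz_gen hz) (hN.dr_cx _), ?_⟩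
  apply low_of_dgR (V.Qz_tri hz) (dr_tri _)
  rw [V.dgR_Qz hz, dgR_dr]

theorem Nice.Y_sub (hN : V.Nice) {z : ℂ} (hz : z ∈ Om) :
    V.Yz z - dr kk nn ![0, 0, 0, 1] ∈ cx V.uni := by
  have h := (cx V.uni).add_mem (hN.P_sub hz) (hN.Q_sub hz)
  convert h using 1
  rw [← V.Pz_add_Qz, sub_eq_add_neg (![0, 0, 0, 1] : Fin 4 → ℂ), dr_add, dr_neg]
  abel

/-- an element of the generic Lie algebra is the sum of some `dr t` and an element of `u` -/
theorem Nice.decomp (hN : V.Nice) {A : Matrix (Ix kk) (Ix kk) ℚ} (hA : A ∈ V.gen) :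
    ∃ t, A - dr kk nn t ∈ V.uni := by
  obtain ⟨t, ht⟩ := V.gr_gen hA
  refine ⟨t, V.gen.sub_mem hA (hN.dr_mem t), ?_⟩
  apply low_of_dgR (V.gen_tri A hA) (dr_tri _)
  rw [dgR_dr, ht]

end EllVar

end Pool.Agent.LibME94
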