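import Pool.Agent.LibME94.C3
import Pool.Agent.LibZQ38.B08b

/-!
# Eigencomponents
-/

open Matrix Polynomial UpperHalfPlane
open scoped MatrixGroups ComplexConjugate
open MW38 (Fl Tri dg)
open ZQ38 (Un Low cx Fend brk Stab GrP PG Dwt An DelH IsLie mtLie oP oQ dgR mem_cx_iff adm)
open Pool.Agent.LibUB33 (Curve)
open Pool.Agent.LibEis68 (sl sl_bracket act form hvec form_linearIndependent sl_mulVec_form)

namespace Pool.Agent.LibME94

section gen

variable {ι : Type} [Fintype ι] [DecidableEq ι] {wt p : ι → ℤ} {K : ℕ} {Φ : Matrix ι ι ℂ}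
  {P : ℤ → Matrix ι ι ℂ} {h : Matrix ι ι ℂ}

theorem mat_zero_of_vec {A : Matrix ι ι ℂ} (hA : ∀ w, A *ᵥ w = 0) : A = 0 := by
  ext i j
  have h1 := congrFun (hA (Pi.single j 1)) i
  rw [Matrix.mulVec_single_one] at h1
  exact h1

theorem Fend_comp (hP : GrP wt p K Φ P) (hh : DelH wt p Φ P h) (c : ℤ) (M : Matrix ι ι ℂ) :
    M ∈ Fend p Φ c ↔ ∀ a b : ℤ, b < a + c → P b * (h⁻¹ * M * h) * P a = 0 := by
  have hu : IsUnit h.det := (Matrix.isUnit_iff_isUnit_det _).1 (ZQ38.Un.isUnit hh.un)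
  constructor
  · intro hM a b hb
    apply mat_zero_of_vec
    intro v
    have h1 : h *ᵥ (P a *ᵥ v) ∈ Fl p Φ a := by
      rw [ZQ38.fil_h hP hh, Matrix.mulVec_mulVec, Matrix.nonsing_inv_mul _ hu,
        Matrix.one_mulVec, hP.fil]
      intro b hb
      rw [Matrix.mulVec_mulVec, hP.mul, if_neg (by omega), Matrix.zero_mulVec]
    have h2 := hM a _ h1
    rw [ZQ38.fil_h hP hh, hP.fil] at h2
    have h3 := h2 b hb
    simpa only [Matrix.mulVec_mulVec, Matrix.mul_assoc] using h3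
  · intro hM a v hv
    rw [ZQ38.fil_h hP hh, hP.fil] at hv ⊢
    intro b hb
    set u := h⁻¹ *ᵥ v with hu'
    have h1 : v = h *ᵥ u := by
      rw [hu', Matrix.mulVec_mulVec, Matrix.mul_nonsing_inv _ hu, Matrix.one_mulVec]
    have h2 : u = ∑ a ∈ Finset.Icc (-(K : ℤ)) K, P a *ᵥ u := by
      rw [← Matrix.sum_mulVec, hP.sum, Matrix.one_mulVec]
    have h3 : P b *ᵥ (h⁻¹ *ᵥ (M *ᵥ v)) = (P b * (h⁻¹ * M * h)) *ᵥ u := by
      rw [h1]
      simp only [Matrix.mulVec_mulVec, Matrix.mul_assoc]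
    rw [h3, h2, Matrix.mulVec_sum]
    refine Finset.sum_eq_zero fun a' _ => ?_
    by_cases ha : a' < a
    · rw [hv a' ha, Matrix.mulVec_zero]
    · rw [Matrix.mulVec_mulVec, hM a' b (by omega), Matrix.zero_mulVec]

theorem comp_ad (hP : GrP wt p K Φ P) (hh : Un wt h) (a b : ℤ) (M : Matrix ι ι ℂ) :
    P b * (h⁻¹ * ad (oP K P h) M * h) * P a = ((b : ℂ) - a) • (P b * (h⁻¹ * M * h) * P a) := by
  have hu : IsUnit h := ZQ38.Un.isUnit hh
  have hd : IsUnit h.det := (Matrix.isUnit_iff_isUnit_det _).1 hu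
  have h1 : h⁻¹ * ad (oP K P h) M * h = PG K P * (h⁻¹ * M * h) - (h⁻¹ * M * h) * PG K P := by
    have := ZQ38.B08b_adm_conj hu (PG K P) M
    exact this
  rw [h1]
  generalize h⁻¹ * M * h = N
  rw [Matrix.mul_sub, Matrix.sub_mul, ← Matrix.mul_assoc (P b) (PG K P),
    ZQ38.B08b_mul_PG hP, Matrix.smul_mul, Matrix.smul_mul, Matrix.mul_assoc (P b) (N * PG K P) (P a),
    Matrix.mul_assoc N (PG K P) (P a), ZQ38.B08b_PG_mul hP, Matrix.mul_smul,
    Matrix.mul_smul, sub_smul, Matrix.mul_assoc (P b) N (P a)]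

/-- one step -/
theorem Fend_step (hP : GrP wt p K Φ P) (hh : DelH wt p Φ P h) (c : ℤ) {M : Matrix ι ι ℂ}
    (hM : M ∈ Fend p Φ c) : ad (oP K P h) M - (c : ℂ) • M ∈ Fend p Φ (c + 1) := by
  rw [Fend_comp hP hh] at hM ⊢
  intro a b hb
  have h1 : P b * (h⁻¹ * (ad (oP K P h) M - (c : ℂ) • M) * h) * P a =
      ((b : ℂ) - a - c) • (P b * (h⁻¹ * M * h) * P a) := by
    rw [Matrix.mul_sub, Matrix.sub_mul, Matrix.mul_sub, Matrix.sub_mul, comp_ad hP hh.un,
      Matrix.mul_smul, Matrix.smul_mul, Matrix.mul_smul, Matrix.smul_mul, ← sub_smul]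
  rw [h1]
  by_cases h2 : b < a + c
  · rw [hM a b h2, smul_zero]
  · have h3 : b = a + c := by omega
    have h4 : (b : ℂ) - a - c = 0 := by
      rw [h3]
      push_cast
      ring
    rw [h4, zero_smul]

theorem Fend_all (hP : GrP wt p K Φ P) (hh : DelH wt p Φ P h) (M : Matrix ι ι ℂ) :
    M ∈ Fend p Φ (-(2 * K : ℕ) : ℤ) := by
  rw [Fend_comp hP hh]
  intro a b hb
  by_cases ha : (K : ℤ) < |a|
  · rw [hP.supp a ha, Matrix.mul_zero]
  · by_cases hb' : (K : ℤ) < |b|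
    · rw [hP.supp b hb', Matrix.zero_mul, Matrix.zero_mul]
    · rw [not_lt, abs_le] at ha hb'
      push_cast at hb
      omega

theorem Fend_mono {c c' : ℤ} (hcc : c ≤ c') : Fend p Φ c' ≤ Fend p Φ c := by
  intro M hM a v hv
  have := hM a v hv
  have hle : Fl p Φ (a + c') ≤ Fl p Φ (a + c) := by
    unfold Fl
    apply Submodule.span_mono
    rintro w ⟨j, hj, rfl⟩
    exact ⟨j, by omega, rfl⟩
  exact hle this

/-- many steps -/
theorem Fend_steps (hP : GrP wt p K Φ P) (hh : DelH wt p Φ P h) (N : ℕ) (c : ℤ)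
    {M : Matrix ι ι ℂ} (hM : M ∈ Fend p Φ (c - N)) :
    aeval (ad (oP K P h)) (∏ r ∈ Finset.range N, (X - C ((c : ℂ) - (r + 1)))) M ∈ Fend p Φ c := by
  induction N generalizing M with
  | zero => simpa using hM
  | succ N ih =>
    rw [Finset.prod_range_succ, map_mul, Module.End.mul_apply]
    apply ih
    have h1 := Fend_step hP hh _ hM
    rw [map_sub, aeval_X, aeval_C, LinearMap.sub_apply, Module.algebraMap_end_apply]
    convert h1 using 3
    all_goals
      push_cast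
      ring

end gen

end Pool.Agent.LibME94
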