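import Pool.Agent.LibME94.C4

/-!
# Consequences of the hypothesis on types
-/

open Matrix Polynomial UpperHalfPlane
open scoped MatrixGroups ComplexConjugate
open MW38 (Fl Tri dg)
open ZQ38 (Un Low cx Fend brk Stab GrP PG Dwt An DelH IsLie mtLie oP oQ dgR mem_cx_iff adm)
open Pool.Agent.LibUB33 (Curve)
open Pool.Agent.LibEis68 (sl sl_bracket act form hvec form_linearIndependent sl_mulVec_form
  form_span)

namespace Pool.Agent.LibME94

variable {J : Type} [Fintype J] [DecidableEq J] {kk : J → ℕ} {nn : J → ℤ} {X : Curve}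

theorem cx_brk {ι : Type} [Fintype ι] [DecidableEq ι] {u : Submodule ℚ (Matrix ι ι ℚ)}
    {A B : Matrix ι ι ℂ} (hA : A ∈ cx u) (hB : B ∈ cx u) : ad A B ∈ cx (brk u u) := by
  have h1 : ∀ M ∈ u, ∀ B ∈ cx u, ad (qc M) B ∈ cx (brk u u) := by
    intro M hM B hB
    have h2 : cx u ≤ (cx (brk u u)).comap (ad (qc M)) := by
      apply cx_induction
      intro N hN
      rw [Submodule.mem_comap, qc_ad]
      apply ZQ38.mem_cx_of_mem
      exact Submodule.subset_span ⟨M, hM, N, hN, rfl⟩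
    exact h2 hB
  have h3 : ∀ N : Matrix ι ι ℂ, ad A B = -ad B A := by
    intro _
    simp only [ad_apply]
    abel
  rw [h3 0]
  apply Submodule.neg_mem
  have h4 : cx u ≤ (cx (brk u u)).comap (ad B) := by
    apply cx_induction
    intro N hN
    rw [Submodule.mem_comap]
    have h5 : ad B (qc N) = -ad (qc N) B := by
      simp only [ad_apply]
      abel
    rw [h5]
    exact Submodule.neg_mem _ (h1 N hN B hB)
  exact h4 hA

/-- multiplication by `p` on `Sym^κ` of weight `w` -/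
noncomputable def Hm (κ : ℕ) (w : ℤ) (s : ℂ) : Matrix (Fin (κ + 1)) (Fin (κ + 1)) ℂ :=
  sl κ ![hv s 0, hv s 1, hv s 2, hv s 3 * w]

theorem Hm_form (κ : ℕ) (w : ℤ) {s : ℂ} (hs : 0 < s.im) (i : Fin (κ + 1)) :
    Hm κ w s *ᵥ form κ s (conj s) i =
      (((i : ℕ) : ℂ) + ((w : ℂ) - κ) / 2) • form κ s (conj s) i := by
  have h1 := sl_mulVec_form κ hs i
  have h2 : Hm κ w s = (1 / 2 : ℂ) • (sl κ (hvec s) + (w : ℂ) •
      (1 : Matrix (Fin (κ + 1)) (Fin (κ + 1)) ℂ)) := by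
    ext a b
    simp only [Hm, sl, hv, hvec, Matrix.of_apply, Matrix.smul_apply, Matrix.add_apply,
      Matrix.one_apply, Matrix.cons_val_zero, Matrix.cons_val_one, Matrix.cons_val, smul_eq_mul]
    split_ifs <;> ring
  rw [h2, Matrix.smul_mulVec, Matrix.add_mulVec, h1, Matrix.smul_mulVec, Matrix.one_mulVec,
    ← add_smul, smul_smul]
  congr 1
  ring

theorem exists_coord (κ : ℕ) {s : ℂ} (hs : 0 < s.im) (v : Fin (κ + 1) → ℂ) :
    ∃ c : Fin (κ + 1) → ℂ, v = ∑ i, c i • form κ s (conj s) i := by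
  have h1 : v ∈ Submodule.span ℂ (Set.range fun i : Fin (κ + 1) => form κ s (conj s) i) := by
    rw [form_span κ hs]
    trivial
  rw [Submodule.mem_span_range_iff_exists_fun] at h1
  obtain ⟨c, hc⟩ := h1
  exact ⟨c, hc.symm⟩

/-- eigenvectors -/
theorem Hm_eig (κ : ℕ) (w : ℤ) {s : ℂ} (hs : 0 < s.im) {m : ℂ} {v : Fin (κ + 1) → ℂ}
    {c : Fin (κ + 1) → ℂ} (hv : v = ∑ i, c i • form κ s (conj s) i)
    (hm : Hm κ w s *ᵥ v = m • v) (i : Fin (κ + 1))
    (hi : ((i : ℕ) : ℂ) + ((w : ℂ) - κ) / 2 ≠ m) : c i = 0 := by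
  have h1 : ∑ i : Fin (κ + 1), ((((i : ℕ) : ℂ) + ((w : ℂ) - κ) / 2 - m) * c i) •
      form κ s (conj s) i = 0 := by
    have h2 : Hm κ w s *ᵥ v - m • v = 0 := by rw [hm, sub_self]
    rw [hv, Matrix.mulVec_sum, Finset.smul_sum, ← Finset.sum_sub_distrib] at h2
    rw [← h2]
    refine Finset.sum_congr rfl fun j _ => ?_
    rw [Matrix.mulVec_smul, Hm_form κ w hs, smul_smul, smul_smul, ← sub_smul]
    congr 1
    ring
  have h3 := Fintype.linearIndependent_iff.1 (form_linearIndependent κ hs) _ h1 i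
  exact (mul_eq_zero.1 h3).resolve_left (sub_ne_zero.2 hi)

namespace EllVar

variable (V : EllVar X kk nn)

variable {V} {w : ℤ} {κ : ℕ} {c : Matrix (Ix kk) (Ix kk) ℚ}

theorem NegTypes.eq (hT : V.NegTypes) {z : ℂ} (hz : z ∈ Om) {A : Matrix (Ix kk) (Ix kk) ℂ}
    (hA : A ∈ cx V.uni) (hF : A ∈ Fend (pp kk nn) (V.Φ z) 0) : A = 0 := hT ⟨z, hz⟩ A hA hF

theorem Nice.ad_brk (hN : V.Nice) (hc : IsFun nn V.uni (brk V.uni V.uni) w κ c)
    {A B : Matrix (Ix kk) (Ix kk) ℂ} (hA : A ∈ cx V.uni) (hB : B ∈ cx V.uni) :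
    pr nn (qc c) κ (ad A B) = 0 := hc.pr_kerC hN.glSt_brk (cx_brk hA hB)

theorem Nice.pr_P (hN : V.Nice) (hc : IsFun nn V.uni (brk V.uni V.uni) w κ c) {z : ℂ}
    (hz : z ∈ Om) {x : Matrix (Ix kk) (Ix kk) ℂ} (hx : x ∈ cx V.uni) :
    pr nn (qc c) κ (ad (V.Pz z) x) = Hm κ w (V.tC z) *ᵥ pr nn (qc c) κ x := by
  have h1 : ad (V.Pz z) x = ad (V.Pz z - dr kk nn (hv (V.tC z))) x +
      ad (dr kk nn (hv (V.tC z))) x := by
    rw [ad_sub, LinearMap.sub_apply, sub_add_cancel]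
  rw [h1, map_add, hN.ad_brk hc (hN.P_sub hz) hx, zero_add, (hc.fuC hN.glSt).pr_ad _ hx]
  rfl

theorem Nice.surjC (hN : V.Nice) (hc : IsFun nn V.uni (brk V.uni V.uni) w κ c)
    (r : Fin (κ + 1) → ℂ) : ∃ x ∈ cx V.uni, pr nn (qc c) κ x = r := by
  have h1 : ∀ j : Fin (κ + 1), ∃ B ∈ V.uni, pr nn c κ B = Pi.single j 1 := by
    intro j
    obtain ⟨B, hB, -, h2⟩ := hc.surj hN.glSt (Pi.single j 1)
    exact ⟨B, hB, h2⟩
  choose B hB hB' using h1
  refine ⟨∑ j, r j • qc (B j), ?_, ?_⟩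
  · exact Submodule.sum_mem _ fun j _ => Submodule.smul_mem _ _ (ZQ38.mem_cx_of_mem (hB j))
  · rw [map_sum]
    funext i
    rw [Finset.sum_apply]
    simp only [map_smul, pr_qc, hB', Pi.smul_apply, smul_eq_mul, Pi.single_apply]
    rw [Finset.sum_eq_single i]
    · simp
    · intro j _ hj
      rw [if_neg (fun h => hj h.symm)]
      simp
    · intro h
      exact absurd (Finset.mem_univ _) h

theorem parity (hc : IsFun nn V.uni (brk V.uni V.uni) w κ c) : ∃ e : ℤ, w = -κ - 2 - 2 * e := by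
  obtain ⟨B, -, hB⟩ := hc.ne
  have h1 : ∃ x y, c x y ≠ 0 := by
    by_contra h
    push Not at h
    apply hB
    rw [fn_apply]
    refine Finset.sum_eq_zero fun x _ => Finset.sum_eq_zero fun y _ => ?_
    rw [h, zero_mul]
  obtain ⟨x, y, hxy⟩ := h1
  obtain ⟨h2, h3⟩ := hc.supp x y hxy
  simp only [wt, hw] at h2 h3
  refine ⟨nn x.1 - nn y.1 - ((x.2 : ℕ) : ℤ) + ((y.2 : ℕ) : ℤ) - κ - 1, ?_⟩
  omega

theorem Nice.pr_aeval (hN : V.Nice) (hc : IsFun nn V.uni (brk V.uni V.uni) w κ c) {z : ℂ}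
    (hz : z ∈ Om) {x : Matrix (Ix kk) (Ix kk) ℂ} (hx : x ∈ cx V.uni) {m : ℂ}
    (hm : Hm κ w (V.tC z) *ᵥ pr nn (qc c) κ x = m • pr nn (qc c) κ x) (N : ℕ) (a : ℂ) :
    aeval (ad (V.Pz z)) (∏ r ∈ Finset.range N, (Polynomial.X - C (a - (r + 1)))) x ∈ cx V.uni ∧
    pr nn (qc c) κ (aeval (ad (V.Pz z))
      (∏ r ∈ Finset.range N, (Polynomial.X - C (a - (r + 1)))) x) =
      (∏ r ∈ Finset.range N, (m - (a - (r + 1)))) • pr nn (qc c) κ x := by
  induction N with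
  | zero => simpa using hx
  | succ N ih =>
    obtain ⟨h1, h2⟩ := ih
    rw [Finset.prod_range_succ, mul_comm, map_mul, Module.End.mul_apply, map_sub, aeval_X,
      aeval_C, LinearMap.sub_apply, Module.algebraMap_end_apply]
    refine ⟨Submodule.sub_mem _ (V.ad_uni (V.Pz_gen hz) h1) (Submodule.smul_mem _ _ h1), ?_⟩
    rw [map_sub, map_smul, hN.pr_P hc hz h1, h2, Matrix.mulVec_smul, hm, smul_smul, smul_smul,
      ← sub_smul, Finset.prod_range_succ]
    congr 1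
    ring

/-- the Hodge numbers of the quotient are negative -/
theorem Nice.exists_e (hN : V.Nice) (hT : V.NegTypes)
    (hc : IsFun nn V.uni (brk V.uni V.uni) w κ c) : ∃ e : ℕ, w = -κ - 2 - 2 * e := by
  obtain ⟨e, he⟩ := parity hc
  by_cases h0 : 0 ≤ e
  · obtain ⟨e', rfl⟩ := Int.eq_ofNat_of_zero_le h0
    exact ⟨e', he⟩
  exfalso
  set z : ℂ := Complex.I with hz'
  have hz : z ∈ Om := by simp [Om, hz']
  have hs := V.tC_pos z
  obtain ⟨x, hx, hpx⟩ := hN.surjC hc (form κ (V.tC z) (conj (V.tC z)) κ)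
  have hm := Hm_form κ w hs (Fin.last κ)
  simp only [Fin.val_last] at hm
  rw [← hpx] at hm
  obtain ⟨h1, h2⟩ := hN.pr_aeval hc hz hx hm (2 * KK kk nn) 0
  have h3 : aeval (ad (V.Pz z)) (∏ r ∈ Finset.range (2 * KK kk nn),
      (Polynomial.X - C ((0 : ℂ) - (r + 1)))) x ∈ Fend (pp kk nn) (V.Φ z) 0 := by
    have h4 := Fend_steps (V.grP' hz) (V.h_del hz) (2 * KK kk nn) 0 (M := x) (by
      have := Fend_all (V.grP' hz) (V.h_del hz) x
      rwa [zero_sub])
    rw [Int.cast_zero] at h4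
    exact h4
  rw [hT.eq hz h1 h3, map_zero] at h2
  have h5 : (∏ r ∈ Finset.range (2 * KK kk nn), ((κ : ℂ) + ((w : ℂ) - κ) / 2 -
      ((0 : ℂ) - (r + 1)))) ≠ 0 := by
    rw [Finset.prod_ne_zero_iff]
    intro r _
    have h6 : (κ : ℂ) + ((w : ℂ) - κ) / 2 - ((0 : ℂ) - (r + 1)) = ((-1 - e + (r + 1) : ℤ) : ℂ) := by
      rw [he]
      push_cast
      ring
    rw [h6, Int.cast_ne_zero]
    omega
  rcases smul_eq_zero.1 h2.symm with h7 | h7
  · exact h5 h7
  · rw [hpx] at h7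
    have h8 := (form_linearIndependent κ hs).ne_zero (Fin.last κ)
    exact h8 h7

/-- the derivative lies in the smallest step of the filtration -/
theorem Nice.pr_trans (hN : V.Nice) (hT : V.NegTypes)
    (hc : IsFun nn V.uni (brk V.uni V.uni) w κ c) {z : ℂ} (hz : z ∈ Om)
    {x : Matrix (Ix kk) (Ix kk) ℂ} (hx : x ∈ cx V.uni) (hF : x ∈ Fend (pp kk nn) (V.Φ z) (-1)) :
    (∃ g : ℂ, pr nn (qc c) κ x = g • form κ (V.tC z) (V.tC z) κ) ∧
      (w ≠ -κ - 2 → pr nn (qc c) κ x = 0) := by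
  have hs := V.tC_pos z
  have h1 := Fend_step (V.grP' hz) (V.h_del hz) (-1) hF
  have h2 : ad (V.Pz z) x - ((-1 : ℤ) : ℂ) • x = 0 := by
    refine hT.eq hz (Submodule.sub_mem _ (V.ad_uni (V.Pz_gen hz) hx)
      (Submodule.smul_mem _ _ hx)) ?_
    exact h1
  have h3 : Hm κ w (V.tC z) *ᵥ pr nn (qc c) κ x = (-1 : ℂ) • pr nn (qc c) κ x := by
    rw [← hN.pr_P hc hz hx, ← map_smul]
    congr 1
    rw [sub_eq_zero] at h2
    rw [h2]
    simp
  obtain ⟨cc, hcc⟩ := exists_coord κ hs (pr nn (qc c) κ x)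
  obtain ⟨e, he⟩ := hN.exists_e hT hc
  have h4 : ∀ i : Fin (κ + 1), (i : ℕ) ≠ κ + e → cc i = 0 := by
    intro i hi
    apply Hm_eig κ w hs hcc h3 i
    intro h5
    apply hi
    have h6 : (((i : ℕ) : ℤ) : ℂ) = ((κ + e : ℕ) : ℤ) := by
      rw [he] at h5
      push_cast at h5 ⊢
      linear_combination h5
    exact_mod_cast h6
  constructor
  · refine ⟨cc (Fin.last κ), ?_⟩
    have h7 : form κ (V.tC z) (V.tC z) κ = form κ (V.tC z) (conj (V.tC z)) (Fin.last κ) := by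
      funext l
      simp [form]
    rw [h7, hcc, Finset.sum_eq_single (Fin.last κ)]
    · intro i _ hi
      rw [h4 i, zero_smul]
      intro h8
      apply hi
      ext
      rw [Fin.val_last]
      omega
    · intro h
      exact absurd (Finset.mem_univ _) h
  · intro hw
    rw [hcc]
    refine Finset.sum_eq_zero fun i _ => ?_
    rw [h4 i, zero_smul]
    have h9 : e ≠ 0 := by
      rintro rfl
      apply hw
      rw [he]
      simp
    omega

end EllVar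

end Pool.Agent.LibME94
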