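import Pool.Agent.LibME94.C5
import Pool.Agent.LibZQ38.B09

/-!
# The weight operator is holomorphic
-/

open Matrix Polynomial UpperHalfPlane
open scoped MatrixGroups ComplexConjugate
open MW38 (Fl Tri dg)
open ZQ38 (Un Low cx Fend brk Stab GrP PG Dwt An DelH IsLie mtLie oP oQ dgR mem_cx_iff adm)
open Pool.Agent.LibUB33 (Curve)
open Pool.Agent.LibEis68 (sl sl_bracket act form hvec form_linearIndependent sl_mulVec_form
  form_span)

namespace Pool.Agent.LibME94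

section gen

variable {ι : Type} [Fintype ι] [DecidableEq ι] {Ω : Set ℂ}

/-- every linear functional is of the form `fn c` -/
theorem exists_fn {R : Type*} [CommRing R] (φ : Matrix ι ι R →ₗ[R] R) :
    ∃ c : Matrix ι ι R, φ = fn c := by
  refine ⟨Matrix.of fun x y => φ (Matrix.single x y 1), ?_⟩
  ext1 B
  rw [fn_apply]
  conv_lhs => rw [Matrix.matrix_eq_sum_single B]
  rw [map_sum]
  refine Finset.sum_congr rfl fun x _ => ?_
  rw [map_sum]
  refine Finset.sum_congr rfl fun y _ => ?_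
  have h : Matrix.single x y (B x y) = B x y • Matrix.single x y (1 : R) := by
    rw [Matrix.smul_single, smul_eq_mul, mul_one]
  rw [h, map_smul, smul_eq_mul, mul_comm, Matrix.of_apply]

theorem fn_DZ (hΩ : IsOpen Ω) {F : ℂ → Matrix ι ι ℂ} (hF : SP38.Sm Ω F) {z : ℂ} (hz : z ∈ Ω)
    (c : Matrix ι ι ℂ) : fn c (SP38.DZ F z) = SP38.dz (fun z => fn c (F z)) z ∧
      fn c (SP38.DB F z) = SP38.dzb (fun z => fn c (F z)) z := by
  have hd : ∀ x y, DifferentiableAt ℝ (fun z => F z x y) z := fun x y =>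
    SP38.SmS.differentiableAt hΩ (hF x y) hz
  have hd' : ∀ x y, DifferentiableAt ℝ (fun z => c x y * F z x y) z := fun x y =>
    (differentiableAt_const _).mul (hd x y)
  constructor
  · simp only [fn_apply]
    rw [SP38.WirtM_dz_sum _ fun x _ => DifferentiableAt.fun_sum fun y _ => hd' x y]
    refine Finset.sum_congr rfl fun x _ => ?_
    rw [SP38.WirtM_dz_sum _ fun y _ => hd' x y]
    refine Finset.sum_congr rfl fun y _ => ?_
    rw [SP38.WirtM_dz_smul _ (hd x y)]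
    rfl
  · simp only [fn_apply]
    rw [SP38.WirtM_dzb_sum _ fun x _ => DifferentiableAt.fun_sum fun y _ => hd' x y]
    refine Finset.sum_congr rfl fun x _ => ?_
    rw [SP38.WirtM_dzb_sum _ fun y _ => hd' x y]
    refine Finset.sum_congr rfl fun y _ => ?_
    rw [SP38.WirtM_dzb_smul _ (hd x y)]
    rfl

/-- derivatives of a function with values in a translate of a subspace -/
theorem deriv_mem (hΩ : IsOpen Ω) {F : ℂ → Matrix ι ι ℂ} (hF : SP38.Sm Ω F) {A₀ : Matrix ι ι ℂ}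
    {W : Submodule ℂ (Matrix ι ι ℂ)} (hW : ∀ z ∈ Ω, F z - A₀ ∈ W) {z : ℂ} (hz : z ∈ Ω) :
    SP38.DZ F z ∈ W ∧ SP38.DB F z ∈ W := by
  have key : ∀ B : Matrix ι ι ℂ, (∀ c : Matrix ι ι ℂ, (∀ D ∈ W, fn c D = 0) → fn c B = 0) →
      B ∈ W := by
    intro B hB
    by_contra hn
    obtain ⟨φ, hφ1, hφ2⟩ := Submodule.exists_le_ker_of_notMem hn
    obtain ⟨c, rfl⟩ := exists_fn φ
    exact hφ1 (hB c fun D hD => hφ2 hD)
  have hev : ∀ c : Matrix ι ι ℂ, (∀ D ∈ W, fn c D = 0) →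
      (fun z => fn c (F z)) =ᶠ[nhds z] fun _ => fn c A₀ := by
    intro c hc
    filter_upwards [hΩ.mem_nhds hz] with x hx
    have := hc _ (hW x hx)
    rw [map_sub, sub_eq_zero] at this
    exact this
  constructor
  · apply key
    intro c hc
    rw [(fn_DZ hΩ hF hz c).1, SP38.dz_congr (hev c hc), SP38.dz_const]
  · apply key
    intro c hc
    rw [(fn_DZ hΩ hF hz c).2, SP38.dzb_congr (hev c hc), SP38.dzb_const]

theorem hasDerivAt_of_dzb {f : ℂ → ℂ} {z : ℂ} (hf : DifferentiableAt ℝ f z)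
    (h : SP38.dzb f z = 0) : HasDerivAt f (SP38.dz f z) z := by
  have h1 : DifferentiableAt ℂ f z := by
    rw [differentiableAt_iff_restrictScalars ℝ hf]
    refine ⟨(ContinuousLinearMap.toSpanSingleton ℂ (SP38.dz f z)), ?_⟩
    ext1 w
    rw [SP38.fderiv_eq_dz hf w, h]
    simp [mul_comm]
  rw [SP38.dz_of_holo h1]
  exact h1.hasDerivAt

end gen

variable {J : Type} [Fintype J] [DecidableEq J] {kk : J → ℕ} {nn : J → ℤ} {X : Curve}

namespace EllVar

variable (V : EllVar X kk nn)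

theorem Yz_an : An Om V.Yz := by
  have h1 : An Om (fun z => (V.h z)⁻¹) :=
    V.h_an.inv fun z hz => ZQ38.Un.isUnit (V.h_del hz).un
  exact (V.h_an.mul (ZQ38.An.const (Dwt (wt kk nn)))).mul h1

theorem Yz_sm : SP38.Sm Om V.Yz := V.Yz_an.sm

theorem holTr : ZQ38.HolTr (pp kk nn) Om V.Φ where
  unit := fun z hz => (V.grP' hz).unit
  hol := V.Φ_hol
  tr := fun z hz j => V.transversal z hz j

theorem Yz_Fend {z : ℂ} (hz : z ∈ Om) : V.Yz z ∈ Fend (pp kk nn) (V.Φ z) 0 :=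
  (ZQ38.oP_mem_Fend (V.grP' hz) (V.h_del hz)).2

variable {V}

theorem Nice.DB_Y (hN : V.Nice) (hT : V.NegTypes) {z : ℂ} (hz : z ∈ Om) : SP38.DB V.Yz z = 0 :=
  hT.eq hz (deriv_mem Om_open V.Yz_sm (fun _ hz => hN.Y_sub hz) hz).2
    (ZQ38.deriv_Fend Om_open V.holTr V.Yz_sm (fun _ hz => V.Yz_Fend hz) hz).1

theorem Nice.DZ_Y (hN : V.Nice) {z : ℂ} (hz : z ∈ Om) :
    SP38.DZ V.Yz z ∈ cx V.uni ∧ SP38.DZ V.Yz z ∈ Fend (pp kk nn) (V.Φ z) (-1) := by
  refine ⟨(deriv_mem Om_open V.Yz_sm (fun _ hz => hN.Y_sub hz) hz).1, ?_⟩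
  have := (ZQ38.deriv_Fend Om_open V.holTr V.Yz_sm (fun _ hz => V.Yz_Fend hz) hz).2
  simpa using this

theorem Nice.hasDerivAt (hN : V.Nice) (hT : V.NegTypes) {z : ℂ} (hz : z ∈ Om) (i j : Ix kk) :
    HasDerivAt (fun z => V.Yz z i j) (SP38.DZ V.Yz z i j) z := by
  apply hasDerivAt_of_dzb (SP38.SmS.differentiableAt Om_open (V.Yz_sm i j) hz)
  have := congrFun (congrFun (hN.DB_Y hT hz) i) j
  exact this

theorem Nice.hasDerivAt_fn (hN : V.Nice) (hT : V.NegTypes) {z : ℂ} (hz : z ∈ Om)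
    (φ : Matrix (Ix kk) (Ix kk) ℂ →ₗ[ℂ] ℂ) :
    HasDerivAt (fun z => φ (V.Yz z)) (φ (SP38.DZ V.Yz z)) z := by
  obtain ⟨c, rfl⟩ := exists_fn φ
  simp only [fn_apply]
  refine HasDerivAt.fun_sum fun x _ => HasDerivAt.fun_sum fun y _ => ?_
  exact (hN.hasDerivAt hT hz x y).const_mul _

/-- the period attached to a functional -/
noncomputable def per (V : EllVar X kk nn) (c : Matrix (Ix kk) (Ix kk) ℚ) (κ : ℕ) (z : ℂ) :
    Fin (κ + 1) → ℂ := pr nn (qc c) κ (V.Yz z - dr kk nn ![0, 0, 0, 1])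

theorem Nice.per_deriv (hN : V.Nice) (hT : V.NegTypes) (c : Matrix (Ix kk) (Ix kk) ℚ) (κ : ℕ) {z : ℂ}
    (hz : z ∈ Om) : HasDerivAt (V.per c κ) (pr nn (qc c) κ (SP38.DZ V.Yz z)) z := by
  rw [hasDerivAt_pi]
  intro j
  have h1 := (hN.hasDerivAt_fn hT hz ((LinearMap.proj j).comp (pr nn (qc c) κ))).sub_const
    (pr nn (qc c) κ (dr kk nn ![0, 0, 0, 1]) j)
  have h2 : (fun z => V.per c κ z j) = fun z =>
      ((LinearMap.proj j).comp (pr nn (qc c) κ)) (V.Yz z) -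
        pr nn (qc c) κ (dr kk nn ![0, 0, 0, 1]) j := by
    funext z
    unfold per
    rw [map_sub]
    rfl
  rw [h2]
  exact h1

end EllVar

end Pool.Agent.LibME94
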