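import Pool.Agent.LibME94.C6
import Pool.Agent.LibZQ38.B11

/-!
# Monodromy
-/

open Matrix Polynomial UpperHalfPlane
open scoped MatrixGroups ComplexConjugate
open MW38 (Fl Tri dg)
open ZQ38 (Un Low cx Fend brk Stab GrP PG Dwt An DelH IsLie mtLie oP oQ dgR mem_cx_iff adm)
open Pool.Agent.LibUB33 (Curve)
open Pool.Agent.LibEis68 (sl sl_bracket act form hvec form_linearIndependent sl_mulVec_form
  form_span)

namespace Pool.Agent.LibME94

section le

variable {ι : Type} [Fintype ι] [DecidableEq ι] {R : Type*} [CommRing R] {d : ι → ℤ}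

/-- raises the grading by at most `v` -/
def LE (d : ι → ℤ) (v : ℤ) (B : Matrix ι ι R) : Prop := ∀ x y, v < d x - d y → B x y = 0

omit [DecidableEq ι] in
theorem LE.mul {v v' : ℤ} {A B : Matrix ι ι R} (hA : LE d v A) (hB : LE d v' B) :
    LE d (v + v') (A * B) := by
  intro x y h
  rw [Matrix.mul_apply]
  refine Finset.sum_eq_zero fun z _ => ?_
  by_cases h1 : v < d x - d z
  · rw [hA x z h1, zero_mul]
  · rw [hB z y (by omega), mul_zero]

omit [Fintype ι] [DecidableEq ι] in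
theorem LE.mono {v v' : ℤ} {A : Matrix ι ι R} (hA : LE d v A) (h : v ≤ v') : LE d v' A :=
  fun x y h1 => hA x y (by omega)

omit [Fintype ι] [DecidableEq ι] in
theorem LE.add {v : ℤ} {A B : Matrix ι ι R} (hA : LE d v A) (hB : LE d v B) :
    LE d v (A + B) := fun x y h => by rw [Matrix.add_apply, hA x y h, hB x y h, add_zero]

omit [Fintype ι] [DecidableEq ι] in
theorem LE.sub {v : ℤ} {A B : Matrix ι ι R} (hA : LE d v A) (hB : LE d v B) :
    LE d v (A - B) := fun x y h => by rw [Matrix.sub_apply, hA x y h, hB x y h, sub_zero]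

theorem LE_of_low {A : Matrix ι ι R} (hA : A ∈ Low R d) : LE d (-1) A :=
  fun x y h => hA x y (by omega)

theorem low_of_LE {A : Matrix ι ι R} (hA : LE d (-1) A) : A ∈ Low R d :=
  fun x y h => hA x y (by omega)

theorem LE_of_cmp {v : ℤ} {A : Matrix ι ι R} (hA : cmp d v A = A) : LE d v A := by
  intro x y h
  rw [← hA, cmp_apply, if_neg (by omega)]

theorem cmp_of_LE {v v' : ℤ} {A : Matrix ι ι R} (hA : LE d v' A) (h : v' < v) :
    cmp d v A = 0 := by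
  ext x y
  rw [cmp_apply]
  split_ifs with h1
  · exact hA x y (by omega)
  · rfl

theorem Un_sub_one {m : Matrix ι ι R} (hm : Un d m) : m - 1 ∈ Low R d := by
  intro x y hxy
  rw [Matrix.sub_apply, hm x y hxy, Matrix.one_apply, sub_self]

theorem un_of_low {n : Matrix ι ι R} (hn : n ∈ Low R d) : Un d (1 + n) := by
  intro x y hxy
  rw [Matrix.add_apply, hn x y hxy, add_zero, Matrix.one_apply]

theorem Un_mul {m m' : Matrix ι ι R} (hm : Un d m) (hm' : Un d m') : Un d (m * m') := by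
  have h1 : m * m' = 1 + ((m - 1) + (m' - 1) + (m - 1) * (m' - 1)) := by noncomm_ring
  rw [h1]
  apply un_of_low
  refine (Low R d).add_mem ((Low R d).add_mem (Un_sub_one hm) (Un_sub_one hm')) ?_
  exact low_mul_left (low_tri (Un_sub_one hm)) (Un_sub_one hm')

theorem Un_tri {m : Matrix ι ι R} (hm : Un d m) : Tri d m := by
  intro x y hxy
  rw [hm x y hxy.le, if_neg]
  rintro rfl
  omega

/-- inverse of a unipotent matrix -/
theorem Un_inv {m : Matrix ι ι R} (hm : Un d m) : Un d m⁻¹ := by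
  have hu : IsUnit m := ZQ38.Un.isUnit hm
  have hd := (Matrix.isUnit_iff_isUnit_det _).1 hu
  -- `m⁻¹ = 1 - (m - 1) m⁻¹`
  have h1 : m⁻¹ = 1 + (-((m - 1) * m⁻¹)) := by
    rw [Matrix.sub_mul, Matrix.mul_nonsing_inv _ hd, Matrix.one_mul]
    abel
  have hle : ∀ N : ℕ, ∀ v : ℤ, (∀ x y : ι, d x - d y ≤ v) → ∀ x y, v - N < d x - d y →
      0 < d x - d y → m⁻¹ x y = 0 := by
    intro N
    induction N with
    | zero =>
      intro v hv x y h1 _
      have := hv x y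
      push_cast at h1
      omega
    | succ N ih =>
      intro v hv x y h2 h3
      rw [h1, Matrix.add_apply, Matrix.one_apply, if_neg (by rintro rfl; omega), zero_add,
        Matrix.neg_apply, Matrix.mul_apply, neg_eq_zero]
      refine Finset.sum_eq_zero fun z _ => ?_
      by_cases h4 : d z ≤ d x
      · rw [Un_sub_one hm x z h4, zero_mul]
      · rw [ih v hv z y (by push_cast at h2; omega) (by omega), mul_zero]
  have htri : Tri d m⁻¹ := by
    intro x y hxy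
    obtain ⟨v, hv⟩ : ∃ v : ℤ, ∀ x y : ι, d x - d y ≤ v := by
      obtain ⟨N, hN⟩ := ZQ38.B05b_J d
      exact ⟨N, fun x y => (hN x y).le⟩
    refine hle (v.toNat + 1) v hv x y ?_ (by omega)
    push_cast
    have := Int.self_le_toNat v
    omega
  rw [h1]
  apply un_of_low
  refine (Low R d).neg_mem ?_
  exact low_mul_right htri (Un_sub_one hm)

end le

variable {J : Type} [Fintype J] [DecidableEq J] {kk : J → ℕ} {nn : J → ℤ} {X : Curve}

theorem RR_off (γ : SL(2, ℤ)) (x y : Ix kk) (h : x.1 ≠ y.1) : RR kk γ x y = 0 := by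
  obtain ⟨i, x⟩ := x
  obtain ⟨j, y⟩ := y
  unfold RR
  rw [Matrix.blockDiagonal'_apply_ne _ _ _ h]

theorem RR_comm_D (γ : SL(2, ℤ)) : RR kk γ * dr kk nn (![0, 0, 0, 1] : Fin 4 → ℚ) =
    dr kk nn (![0, 0, 0, 1] : Fin 4 → ℚ) * RR kk γ := by
  rw [dr_D]
  ext x y
  rw [Matrix.mul_diagonal, Matrix.diagonal_mul]
  by_cases h : x.1 = y.1
  · rw [wt_eq_of_fst (nn := nn) h, mul_comm]
  · rw [RR_off γ x y h, zero_mul, mul_zero]

namespace EllVar

variable (V : EllVar X kk nn)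

/-- the unipotent part of the monodromy -/
noncomputable def mu (δ : X.P) : Matrix (Ix kk) (Ix kk) ℚ := V.M δ * RR kk (V.ρ δ)⁻¹

theorem M_eq (δ : X.P) : V.M δ = V.mu δ * RR kk (V.ρ δ) := by
  unfold mu
  rw [Matrix.mul_assoc, ← RR_mul, inv_mul_cancel, RR_one, Matrix.mul_one]

theorem mu_un (δ : X.P) : Un (wt kk nn) (V.mu δ) := by
  intro x y hxy
  have h1 : (RR kk (V.ρ δ) * RR kk (V.ρ δ)⁻¹) x y = if x = y then 1 else 0 := by
    rw [← RR_mul, mul_inv_cancel, RR_one, Matrix.one_apply]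
  rw [← h1]
  unfold mu
  rw [Matrix.mul_apply, Matrix.mul_apply]
  refine Finset.sum_congr rfl fun z _ => ?_
  by_cases hz : z.1 = y.1
  · have h2 := wt_eq_of_fst (nn := nn) hz
    rw [V.M_gr δ x z (by omega)]
  · rw [RR_off _ z y hz, mul_zero, mul_zero]

theorem M_unit (δ : X.P) : IsUnit (V.M δ) := by
  rw [V.M_eq]
  exact (ZQ38.Un.isUnit (V.mu_un δ)).mul (RR_isUnit _)

theorem M_tri (δ : X.P) : Tri (wt kk nn) (V.M δ) := by
  intro x y hxy
  rw [V.M_gr δ x y hxy.le, RR_off]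
  intro h
  have := wt_eq_of_fst (nn := nn) h
  omega

/-- the point `δ z` -/
noncomputable def sm (δ : X.P) (z : ℍ) : ℂ := (((δ : SL(2, ℝ)) • z : ℍ) : ℂ)

theorem sm_mem (δ : X.P) (z : ℍ) : sm δ z ∈ Om := ((δ : SL(2, ℝ)) • z : ℍ).im_pos

theorem Φ_equiv (δ : X.P) (z : ℍ) (a : ℤ) : Fl (pp kk nn) (V.Φ (sm δ z)) a =
    (Fl (pp kk nn) (V.Φ z) a).map (Matrix.mulVecLin (qc (V.M δ))) := by
  have h1 := V.equiv δ z a
  unfold Φ sm
  rw [ofComplex_apply, ofComplex_apply]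
  exact h1

theorem M_gen (δ : X.P) {A : Matrix (Ix kk) (Ix kk) ℚ} (hA : A ∈ V.gen) :
    V.M δ * A * (V.M δ)⁻¹ ∈ V.gen := by
  obtain ⟨z₀, hz₀, h⟩ := V.gen_eq
  have h1 := ZQ38.mtLie_conj (wt := wt kk nn) (p := pp kk nn) (Φ := V.Φ z₀)
    (Φ' := V.Φ (sm δ ⟨z₀, hz₀⟩)) (V.M_unit δ) (V.M_tri δ) (fun a => V.Φ_equiv δ ⟨z₀, hz₀⟩ a)
    (V.M δ * A * (V.M δ)⁻¹)
  apply V.le_gen (sm_mem δ ⟨z₀, hz₀⟩)
  rw [h1, ← h]
  have hd := (Matrix.isUnit_iff_isUnit_det _).1 (V.M_unit δ)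
  have h2 : (V.M δ)⁻¹ * (V.M δ * A * (V.M δ)⁻¹) * V.M δ = A := by
    rw [Matrix.mul_assoc (V.M δ) A, Matrix.nonsing_inv_mul_cancel_left _ _ hd,
      Matrix.nonsing_inv_mul_cancel_right _ _ hd]
  rw [h2]
  exact hA

theorem Y_equiv (δ : X.P) (z : ℍ) : V.Yz (sm δ z) = qc (V.M δ) * V.Yz z * (qc (V.M δ))⁻¹ := by
  have h1 := ZQ38.oP_conj (V.grP' z.im_pos) (V.h_del z.im_pos) (V.grP' (sm_mem δ z))
    (V.h_del (sm_mem δ z)) (V.M_unit δ) (V.M_tri δ) (fun a => V.Φ_equiv δ z a)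
  rw [← V.Pz_add_Qz, ← V.Pz_add_Qz]
  unfold Pz Qz
  rw [h1.1, h1.2, Matrix.mul_add, Matrix.add_mul]

variable {V}

theorem Nice.RR_gen (hN : V.Nice) (γ : SL(2, ℤ)) {A : Matrix (Ix kk) (Ix kk) ℚ} (hA : A ∈ V.gen) :
    RR kk γ * A * RR kk γ⁻¹ ∈ V.gen := by
  have h1 : ∀ t : Fin 4 → ℚ, ∀ B ∈ V.gen, ad (dr kk nn t) B ∈ V.gen := fun t B hB =>
    V.gen_isLie _ (hN.dr_mem t) B hB
  have h2 := conj_mem h1 γ A hA
  have h3 : ∀ γ, RRm kk ℚ γ = RR kk γ := by
    intro γ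
    unfold RRm
    ext x y
    simp
  rwa [h3, h3] at h2

theorem mu_inv (V : EllVar X kk nn) (δ : X.P) :
    (V.mu δ)⁻¹ = RR kk (V.ρ δ) * (V.M δ)⁻¹ := by
  apply Matrix.inv_eq_left_inv
  unfold mu
  have hd := (Matrix.isUnit_iff_isUnit_det _).1 (V.M_unit δ)
  rw [Matrix.mul_assoc, Matrix.nonsing_inv_mul_cancel_left _ _ hd, ← RR_mul, mul_inv_cancel,
    RR_one]

theorem Nice.mu_gen (hN : V.Nice) (δ : X.P) {A : Matrix (Ix kk) (Ix kk) ℚ} (hA : A ∈ V.gen) :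
    V.mu δ * A * (V.mu δ)⁻¹ ∈ V.gen := by
  have h1 := V.M_gen δ (hN.RR_gen (V.ρ δ)⁻¹ hA)
  rw [inv_inv] at h1
  rw [V.mu_inv]
  unfold mu
  convert h1 using 1
  simp only [Matrix.mul_assoc]

theorem low_conj {d : Ix kk → ℤ} {m A : Matrix (Ix kk) (Ix kk) ℚ} (hm : Un d m)
    (hA : A ∈ Low ℚ d) : m * A * m⁻¹ ∈ Low ℚ d :=
  low_mul_right (Un_tri (Un_inv hm)) (low_mul_left (Un_tri hm) hA)

theorem Nice.mu_uni (hN : V.Nice) (δ : X.P) {A : Matrix (Ix kk) (Ix kk) ℚ} (hA : A ∈ V.uni) :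
    V.mu δ * A * (V.mu δ)⁻¹ ∈ V.uni :=
  ⟨hN.mu_gen δ (V.uni_le hA), low_conj (V.mu_un δ) (V.uni_low hA)⟩

/-- the cocycle in `u` -/
noncomputable def coc (V : EllVar X kk nn) (δ : X.P) : Matrix (Ix kk) (Ix kk) ℚ :=
  V.mu δ * dr kk nn ![0, 0, 0, 1] * (V.mu δ)⁻¹ - dr kk nn ![0, 0, 0, 1]

theorem Nice.coc_mem (hN : V.Nice) (δ : X.P) : V.coc δ ∈ V.uni := by
  refine ⟨V.gen.sub_mem (hN.mu_gen δ hN) hN, ?_⟩
  set m := V.mu δ with hm
  have hu := V.mu_un δ
  have hd := (Matrix.isUnit_iff_isUnit_det _).1 (ZQ38.Un.isUnit hu)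
  have h1 : V.coc δ = ((m - 1) * dr kk nn ![0, 0, 0, 1] -
      dr kk nn ![0, 0, 0, 1] * (m - 1)) * m⁻¹ := by
    unfold coc
    rw [← hm]
    have h2 : dr kk nn (![0, 0, 0, 1] : Fin 4 → ℚ) = dr kk nn ![0, 0, 0, 1] * m * m⁻¹ := by
      rw [Matrix.mul_nonsing_inv_cancel_right _ _ hd]
    conv_lhs => rw [h2]
    rw [← h2]
    noncomm_ring
    rw [Matrix.mul_nonsing_inv _ hd]
    noncomm_ring
  rw [h1]
  have h3 := Un_sub_one hu
  refine low_mul_right (Un_tri (Un_inv hu)) ((Low ℚ (wt kk nn)).sub_mem ?_ ?_)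
  · exact low_mul_right (dr_tri _) h3
  · exact low_mul_left (dr_tri _) h3

/-- the unipotent part of the monodromy acts trivially on `u / [u, u]` -/
theorem Nice.mu_triv (hN : V.Nice) (δ : X.P) {B : Matrix (Ix kk) (Ix kk) ℚ} (hB : B ∈ V.uni) :
    V.mu δ * B * (V.mu δ)⁻¹ - B ∈ brk V.uni V.uni := by
  set m := V.mu δ with hm
  have hu : Un (wt kk nn) m := V.mu_un δ
  have hd := (Matrix.isUnit_iff_isUnit_det _).1 (ZQ38.Un.isUnit hu)
  have key : ∀ w' : ℤ, ∀ B ∈ V.uni, cmp (wt kk nn) w' B = B → m * B * m⁻¹ - B ∈ brk V.uni V.uni := by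
    intro w' B hB hw
    set D : Matrix (Ix kk) (Ix kk) ℚ := dr kk nn ![0, 0, 0, 1] with hD
    have hαB : m * B * m⁻¹ ∈ V.uni := hN.mu_uni δ hB
    have hy : V.coc δ ∈ V.uni := hN.coc_mem δ
    have heig : ad D B = (w' : ℚ) • B := by
      rw [hD, dr_D, eig_iff, hw]
    have h1 : m * D * m⁻¹ = D + V.coc δ := by
      unfold coc
      abel
    have h2 : ad (m * D * m⁻¹) (m * B * m⁻¹) = (w' : ℚ) • (m * B * m⁻¹) := by
      have h3 : ad (m * D * m⁻¹) (m * B * m⁻¹) = m * ad D B * m⁻¹ := by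
        simp only [ad_apply]
        have e1 : m * D * m⁻¹ * (m * B * m⁻¹) = m * (D * B) * m⁻¹ := by
          simp only [Matrix.mul_assoc]
          rw [Matrix.nonsing_inv_mul_cancel_left _ _ hd]
        have e2 : m * B * m⁻¹ * (m * D * m⁻¹) = m * (B * D) * m⁻¹ := by
          simp only [Matrix.mul_assoc]
          rw [Matrix.nonsing_inv_mul_cancel_left _ _ hd]
        rw [e1, e2, Matrix.mul_sub, Matrix.sub_mul]
      rw [h3, heig, Matrix.mul_smul, Matrix.smul_mul]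
    rw [h1, ad_add, LinearMap.add_apply] at h2
    have h4 : ad D (m * B * m⁻¹ - B) - (w' : ℚ) • (m * B * m⁻¹ - B) ∈ brk V.uni V.uni := by
      have h5 : ad D (m * B * m⁻¹ - B) - (w' : ℚ) • (m * B * m⁻¹ - B) =
          -ad (V.coc δ) (m * B * m⁻¹) := by
        rw [map_sub, heig, smul_sub, ← h2]
        abel
      rw [h5]
      exact Submodule.neg_mem _ (Submodule.subset_span ⟨_, hy, _, hαB, rfl⟩)
    have h6 : cmp (wt kk nn) w' (m * B * m⁻¹ - B) = 0 := by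
      have h7 : m * B * m⁻¹ - B = (m - 1) * B + B * (m⁻¹ - 1) + (m - 1) * B * (m⁻¹ - 1) := by
        noncomm_ring
      have h8 := LE_of_low (Un_sub_one hu)
      have h9 := LE_of_low (Un_sub_one (Un_inv hu))
      have h10 := LE_of_cmp hw
      rw [h7]
      refine cmp_of_LE (v' := w' - 1) ?_ (by omega)
      refine ((h8.mul h10).mono (by omega)).add ((h10.mul h9).mono (by omega)) |>.add ?_
      exact ((h8.mul h10).mul h9).mono (by omega)
    obtain ⟨s, hs, -⟩ := sum_cmp (wt kk nn) (m * B * m⁻¹ - B)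
    rw [← hs]
    refine Submodule.sum_mem _ fun v _ => ?_
    by_cases hv : v = w'
    · rw [hv, h6]
      exact Submodule.zero_mem _
    · have h11 := hN.glSt_brk.cmp_wt v h4
      have h12 : cmp (wt kk nn) v (ad D (m * B * m⁻¹ - B) - (w' : ℚ) • (m * B * m⁻¹ - B)) =
          ((v : ℚ) - w') • cmp (wt kk nn) v (m * B * m⁻¹ - B) := by
        have h13 := cmp_ad (R := ℚ) (m := 0) (sup_dr (kk := kk) (nn := nn) ![0, 0, 0, 1]) v
          (m * B * m⁻¹ - B)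
        rw [add_zero] at h13
        have h14 := (eig_iff (R := ℚ) (wt kk nn) v (cmp (wt kk nn) v (m * B * m⁻¹ - B))).2
          (cmp_cmp _ _ _)
        rw [← dr_D] at h14
        rw [map_sub, h13, map_smul, h14, sub_smul]
      rw [h12] at h11
      refine (Submodule.smul_mem_iff _ ?_).1 h11
      rw [sub_ne_zero]
      intro h
      exact hv (by exact_mod_cast h)
  obtain ⟨s, hs, -⟩ := sum_cmp (wt kk nn) B
  have h15 : m * B * m⁻¹ - B = ∑ w ∈ s, (m * cmp (wt kk nn) w B * m⁻¹ - cmp (wt kk nn) w B) := by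
    rw [Finset.sum_sub_distrib, hs, ← Finset.sum_mul, ← Finset.mul_sum, hs]
  rw [h15]
  exact Submodule.sum_mem _ fun w _ => key w _ (hN.glSt.cmp_wt w hB) (cmp_cmp _ _ _)

end EllVar

end Pool.Agent.LibME94
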