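import Pool.Agent.LibME94.C7

/-!
# Equivariance of the period
-/

open Matrix Polynomial UpperHalfPlane
open scoped MatrixGroups ComplexConjugate
open MW38 (Fl Tri dg)
open ZQ38 (Un Low cx Fend brk Stab GrP PG Dwt An DelH IsLie mtLie oP oQ dgR mem_cx_iff adm)
open Pool.Agent.LibUB33 (Curve)
open Pool.Agent.LibEis68 (sl sl_bracket act form hvec form_linearIndependent sl_mulVec_form
  form_span)

namespace Pool.Agent.LibME94

variable {J : Type} [Fintype J] [DecidableEq J] {kk : J → ℕ} {nn : J → ℤ} {X : Curve}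

theorem qc_mul {ι : Type} [Fintype ι] [DecidableEq ι] (A B : Matrix ι ι ℚ) :
    qc (A * B) = qc A * qc B := Matrix.map_mul

theorem qc_one {ι : Type} [Fintype ι] [DecidableEq ι] : qc (1 : Matrix ι ι ℚ) = 1 :=
  Matrix.map_one _ (map_zero _) (map_one _)

theorem qc_sub {ι : Type} [Fintype ι] [DecidableEq ι] (A B : Matrix ι ι ℚ) :
    qc (A - B) = qc A - qc B := Matrix.map_sub _ (fun a b => map_sub _ a b) _ _

theorem qc_inv {ι : Type} [Fintype ι] [DecidableEq ι] {A : Matrix ι ι ℚ} (hA : IsUnit A) :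
    qc A⁻¹ = (qc A)⁻¹ := by
  symm
  apply Matrix.inv_eq_right_inv
  rw [← qc_mul, Matrix.mul_nonsing_inv _ ((Matrix.isUnit_iff_isUnit_det _).1 hA), qc_one]

namespace EllVar

variable {V : EllVar X kk nn} {w : ℤ} {κ : ℕ} {c : Matrix (Ix kk) (Ix kk) ℚ}

theorem Nice.pr_mu (hN : V.Nice) (hc : IsFun nn V.uni (brk V.uni V.uni) w κ c) (δ : X.P)
    {y : Matrix (Ix kk) (Ix kk) ℂ} (hy : y ∈ cx V.uni) :
    pr nn (qc c) κ (qc (V.mu δ) * y * qc (V.mu δ)⁻¹) = pr nn (qc c) κ y := by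
  set L : Matrix (Ix kk) (Ix kk) ℂ →ₗ[ℂ] Matrix (Ix kk) (Ix kk) ℂ :=
    (LinearMap.mulLeft ℂ (qc (V.mu δ))).comp (LinearMap.mulRight ℂ (qc (V.mu δ)⁻¹)) -
      LinearMap.id with hL
  have h1 : cx V.uni ≤ (cx (brk V.uni V.uni)).comap L := by
    apply cx_induction
    intro M hM
    rw [Submodule.mem_comap]
    have h2 : L (qc M) = qc (V.mu δ * M * (V.mu δ)⁻¹ - M) := by
      rw [hL, LinearMap.sub_apply, LinearMap.comp_apply, LinearMap.mulLeft_apply,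
        LinearMap.mulRight_apply, LinearMap.id_apply, qc_sub, qc_mul, qc_mul, Matrix.mul_assoc]
    rw [h2]
    exact ZQ38.mem_cx_of_mem (hN.mu_triv δ hM)
  have h3 := hc.pr_kerC hN.glSt_brk (Submodule.mem_comap.1 (h1 hy))
  rw [hL, LinearMap.sub_apply, LinearMap.comp_apply, LinearMap.mulLeft_apply,
    LinearMap.mulRight_apply, LinearMap.id_apply, map_sub, sub_eq_zero] at h3
  rw [Matrix.mul_assoc]
  exact h3

theorem Nice.per_equiv (hN : V.Nice) (hc : IsFun nn V.uni (brk V.uni V.uni) w κ c) (δ : X.P)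
    (z : ℍ) : V.per c κ (sm δ z) = actm κ ℂ (V.ρ δ) *ᵥ V.per c κ z +
      fun j => ((pr nn c κ (V.coc δ) j : ℚ) : ℂ) := by
  set D : Matrix (Ix kk) (Ix kk) ℂ := dr kk nn ![0, 0, 0, 1] with hD
  set x : Matrix (Ix kk) (Ix kk) ℂ := V.Yz z - D with hx
  have hxm : x ∈ cx V.uni := hN.Y_sub z.im_pos
  have hdM : IsUnit (V.M δ) := V.M_unit δ
  have hM : qc (V.M δ) = qc (V.mu δ) * RRm kk ℂ (V.ρ δ) := by
    rw [V.M_eq, qc_mul]
    rfl
  have hMi : (qc (V.M δ))⁻¹ = RRm kk ℂ (V.ρ δ)⁻¹ * qc (V.mu δ)⁻¹ := by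
    apply Matrix.inv_eq_right_inv
    have hd := (Matrix.isUnit_iff_isUnit_det _).1 (ZQ38.Un.isUnit (V.mu_un δ))
    rw [hM, Matrix.mul_assoc, ← Matrix.mul_assoc (RRm kk ℂ (V.ρ δ)), RRm_cancel, Matrix.one_mul,
      ← qc_mul, Matrix.mul_nonsing_inv _ hd, qc_one]
  have hRD : RRm kk ℂ (V.ρ δ) * D * RRm kk ℂ (V.ρ δ)⁻¹ = D := by
    have h1 : RRm kk ℂ (V.ρ δ) * D = D * RRm kk ℂ (V.ρ δ) := by
      have := congrArg qc (RR_comm_D (kk := kk) (nn := nn) (V.ρ δ))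
      rw [qc_mul, qc_mul, qc_e3] at this
      exact this
    rw [h1, Matrix.mul_assoc, RRm_cancel, Matrix.mul_one]
  have hY : V.Yz z = D + x := by rw [hx]; abel
  have h2 : V.Yz (sm δ z) - D = qc (V.coc δ) +
      qc (V.mu δ) * (RRm kk ℂ (V.ρ δ) * x * RRm kk ℂ (V.ρ δ)⁻¹) * qc (V.mu δ)⁻¹ := by
    rw [V.Y_equiv, hM, ← hM, hMi, hM, hY]
    have h3 : qc (V.coc δ) = qc (V.mu δ) * D * qc (V.mu δ)⁻¹ - D := by
      unfold coc
      rw [qc_sub, qc_mul, qc_mul, qc_e3]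
    rw [h3]
    have h4 : qc (V.mu δ) * RRm kk ℂ (V.ρ δ) * (D + x) * (RRm kk ℂ (V.ρ δ)⁻¹ * qc (V.mu δ)⁻¹) =
        qc (V.mu δ) * (RRm kk ℂ (V.ρ δ) * D * RRm kk ℂ (V.ρ δ)⁻¹) * qc (V.mu δ)⁻¹ +
        qc (V.mu δ) * (RRm kk ℂ (V.ρ δ) * x * RRm kk ℂ (V.ρ δ)⁻¹) * qc (V.mu δ)⁻¹ := by
      simp only [Matrix.mul_assoc, Matrix.mul_add, Matrix.add_mul]
    rw [h4, hRD]
    abel
  have hfu := hc.fuC hN.glSt
  have h5 : RRm kk ℂ (V.ρ δ) * x * RRm kk ℂ (V.ρ δ)⁻¹ ∈ cx V.uni :=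
    conj_mem hfu.st _ _ hxm
  unfold per
  rw [← hD, h2, map_add, pr_qc, hN.pr_mu hc δ h5, hfu.pr_conj _ _ hxm]
  exact add_comm _ _

end EllVar

end Pool.Agent.LibME94
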