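import Pool.Agent.LibME94.C8
import Pool.Agent.LibZQ38.B12a
import Pool.Agent.LibZQ38.B12c

/-!
# Growth of the period
-/

open Matrix Polynomial UpperHalfPlane
open scoped MatrixGroups ComplexConjugate
open MW38 (Fl Tri dg)
open ZQ38 (Un Low cx Fend brk Stab GrP PG Dwt An DelH IsLie mtLie oP oQ dgR mem_cx_iff adm Lm HH)
open Pool.Agent.LibUB33 (Curve)
open Pool.Agent.LibEis68 (sl sl_bracket act form hvec form_linearIndependent sl_mulVec_form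
  form_span)

namespace Pool.Agent.LibME94

variable {J : Type} [Fintype J] [DecidableEq J] {kk : J → ℕ} {nn : J → ℤ} {X : Curve}

namespace EllVar

variable (V : EllVar X kk nn)

theorem tau_cont : Continuous fun z : ℍ => (V.τ z : ℂ) := by
  rw [continuous_iff_continuousAt]
  intro z
  have h1 : ContinuousAt (fun w : ℂ => (V.τ (ofComplex w) : ℂ)) z := (V.τ_hol z).continuousAt
  have h2 : ContinuousAt (fun w : ℍ => (w : ℂ)) z := continuous_coe.continuousAt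
  have h3 := ContinuousAt.comp (f := fun w : ℍ => (w : ℂ)) h1 h2
  have h4 : (fun w : ℂ => (V.τ (ofComplex w) : ℂ)) ∘ (fun w : ℍ => (w : ℂ)) =
      fun z : ℍ => (V.τ z : ℂ) := by
    funext w
    simp [ofComplex_apply]
  rwa [h4] at h3

theorem tau_growth {s : ℂ → ℍ} {Y : ℝ} (hE : X.IsEnd s Y) (M : ℝ) : ∃ (C : ℝ), 1 ≤ C ∧
    ∀ ζ : ℂ, |ζ.re| ≤ M → Y + 1 ≤ ζ.im → ‖(V.τ (s ζ) : ℂ)‖ ≤ C * (1 + |ζ.im|) ^ 2 ∧
      1 / (V.τ (s ζ)).im ≤ C * (1 + |ζ.im|) ^ 2 := by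
  obtain ⟨E⟩ := (V.base 0).nonempty_endForm hE
  obtain ⟨K, δ, Y1, hK, hδ, hY1, hYY, h⟩ := LibSym94.BA8_tau (V.base 0) E
  have hcomp : IsCompact {ζ : ℂ | ζ.re ∈ Set.Icc (-M) M ∧ ζ.im ∈ Set.Icc (Y + 1) (Y1 + 1)} :=
    isCompact_Icc.reProdIm isCompact_Icc
  have hcont : ContinuousOn (fun ζ : ℂ => ‖(V.τ (s ζ) : ℂ)‖ + 1 / (V.τ (s ζ)).im)
      {ζ : ℂ | ζ.re ∈ Set.Icc (-M) M ∧ ζ.im ∈ Set.Icc (Y + 1) (Y1 + 1)} := by
    have h1 : ContinuousOn s {ζ : ℂ | ζ.re ∈ Set.Icc (-M) M ∧ ζ.im ∈ Set.Icc (Y + 1) (Y1 + 1)} :=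
      hE.1.mono fun ζ hζ => by
        have := hζ.2.1
        show Y < ζ.im
        linarith
    have h2 : ContinuousOn (fun ζ : ℂ => (V.τ (s ζ) : ℂ))
        {ζ : ℂ | ζ.re ∈ Set.Icc (-M) M ∧ ζ.im ∈ Set.Icc (Y + 1) (Y1 + 1)} :=
      V.tau_cont.comp_continuousOn h1
    refine h2.norm.add (continuousOn_const.div (Complex.continuous_im.comp_continuousOn h2) ?_)
    intro ζ _
    exact (V.τ (s ζ)).im_pos.ne'
  obtain ⟨B, hB⟩ := hcomp.bddAbove_image hcont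
  refine ⟨1 + |B| + K * (1 + |M|) + (1 + |M|) ^ 2 / δ, by
    have : 0 ≤ |B| := abs_nonneg _
    have : 0 ≤ K * (1 + |M|) := by positivity
    have : 0 ≤ (1 + |M|) ^ 2 / δ := by positivity
    linarith, fun ζ hre him => ?_⟩
  have hB0 : 0 ≤ |B| := abs_nonneg _
  have hKM : 0 ≤ K * (1 + |M|) := by positivity
  have hMd : 0 ≤ (1 + |M|) ^ 2 / δ := by positivity
  have ht : 1 ≤ 1 + |ζ.im| := by
    have := abs_nonneg ζ.im
    linarith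
  have ht2 : 1 ≤ (1 + |ζ.im|) ^ 2 := one_le_pow₀ ht
  have himpos : 0 < 1 / (V.τ (s ζ)).im := by
    have := (V.τ (s ζ)).im_pos
    positivity
  by_cases hζ : ζ.im ≤ Y1 + 1
  · have h1 : ‖(V.τ (s ζ) : ℂ)‖ + 1 / (V.τ (s ζ)).im ≤ B :=
      hB ⟨ζ, ⟨abs_le.1 hre, him, hζ⟩, rfl⟩
    have h2 : B ≤ |B| := le_abs_self B
    have h3 := norm_nonneg (V.τ (s ζ) : ℂ)
    constructor <;> nlinarith
  · have h1 := h ζ (by linarith)
    have h2 : ‖(V.τ (s ζ) : ℂ)‖ ≤ K * (1 + ‖ζ‖) := h1.1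
    have h3 : δ / (1 + ‖ζ‖) ^ 2 ≤ (V.τ (s ζ)).im := h1.2
    have h4 : 1 + ‖ζ‖ ≤ (1 + |M|) * (1 + |ζ.im|) := by
      have h5 := Complex.norm_le_abs_re_add_abs_im ζ
      have h6 : |ζ.re| ≤ |M| := hre.trans (le_abs_self M)
      have h7 : 0 ≤ |M| * |ζ.im| := by positivity
      nlinarith
    have h0 : 0 ≤ 1 + ‖ζ‖ := by positivity
    constructor
    · have h5 : K * (1 + ‖ζ‖) ≤ K * ((1 + |M|) * (1 + |ζ.im|)) := by gcongr
      have h6 : (1 + |ζ.im|) ≤ (1 + |ζ.im|) ^ 2 := by nlinarith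
      have h7 : K * ((1 + |M|) * (1 + |ζ.im|)) ≤ K * (1 + |M|) * (1 + |ζ.im|) ^ 2 := by
        rw [← mul_assoc]
        exact mul_le_mul_of_nonneg_left h6 hKM
      nlinarith
    · have h5 : 1 / (V.τ (s ζ)).im ≤ (1 + ‖ζ‖) ^ 2 / δ := by
        have h6 : 0 < δ / (1 + ‖ζ‖) ^ 2 := by positivity
        have h7 := one_div_le_one_div_of_le h6 h3
        rwa [one_div_div] at h7
      have h6 : (1 + ‖ζ‖) ^ 2 ≤ ((1 + |M|) * (1 + |ζ.im|)) ^ 2 := pow_le_pow_left₀ h0 h4 2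
      have h7 : (1 + ‖ζ‖) ^ 2 / δ ≤ (1 + |M|) ^ 2 / δ * (1 + |ζ.im|) ^ 2 := by
        rw [div_mul_eq_mul_div, ← mul_pow]
        gcongr
      nlinarith

theorem Lm_eq {s : ℂ} (hs : 0 < s.im) {A : Matrix (Ix kk) (Ix kk) ℂ} (hA : Un (wt kk nn) A) :
    Lm (wt kk nn) (A * fr kk s) = A := by
  unfold Lm
  rw [dg_fr hA, Matrix.mul_nonsing_inv_cancel_right _ _
    ((Matrix.isUnit_iff_isUnit_det _).1 (fr_isUnit hs))]

/-- a bound for linear functionals -/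
theorem bd_fn {ι : Type} [Fintype ι] [DecidableEq ι] (φ : Matrix ι ι ℂ →ₗ[ℂ] ℂ) :
    ∃ C : ℝ, 0 ≤ C ∧ ∀ (B : Matrix ι ι ℂ) (b : ℝ), (∀ x y, ‖B x y‖ ≤ b) → ‖φ B‖ ≤ C * b := by
  obtain ⟨c, rfl⟩ := exists_fn φ
  refine ⟨∑ x, ∑ y, ‖c x y‖, by positivity, fun B b hB => ?_⟩
  rw [fn_apply, Finset.sum_mul]
  refine (norm_sum_le _ _).trans (Finset.sum_le_sum fun x _ => ?_)
  rw [Finset.sum_mul]
  refine (norm_sum_le _ _).trans (Finset.sum_le_sum fun y _ => ?_)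
  rw [norm_mul]
  exact mul_le_mul_of_nonneg_left (hB x y) (norm_nonneg _)

theorem per_growth (c : Matrix (Ix kk) (Ix kk) ℚ) (κ : ℕ) {s : ℂ → ℍ} {Y : ℝ}
    (hE : X.IsEnd s Y) (M : ℝ) : ∃ (C : ℝ) (N : ℕ), ∀ ζ : ℂ, |ζ.re| ≤ M → Y + 1 ≤ ζ.im →
      ‖V.per c κ (s ζ)‖ ≤ C * (1 + |ζ.im|) ^ N := by
  obtain ⟨C1, hC1, h1⟩ := V.tau_growth hE M
  obtain ⟨C2, N2, h2⟩ := V.growth s Y hE M
  obtain ⟨C3, N3, hC3, h3⟩ := PP_bound (kk := kk) (nn := nn)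
  obtain ⟨J', hJ⟩ := ZQ38.B05b_J (wt kk nn)
  obtain ⟨c4, m4, h4⟩ := ZQ38.HH_bound (wt kk nn) (KK kk nn) J'
  -- the bound for the splitting
  have hhb : ∃ (C : ℝ) (N : ℕ), 1 ≤ C ∧ ∀ ζ : ℂ, |ζ.re| ≤ M → Y + 1 ≤ ζ.im → ∀ i j,
      ‖V.h (s ζ) i j‖ ≤ C * (1 + |ζ.im|) ^ N ∧ ‖(V.h (s ζ))⁻¹ i j‖ ≤ C * (1 + |ζ.im|) ^ N := by
    set C' : ℝ := 1 + |C2| + C3 * C1 ^ N3 with hC'
    set N' : ℕ := N2 + 2 * N3 with hN'
    refine ⟨1 + |c4| * C' ^ m4, N' * m4, by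
      have : 0 ≤ |c4| * C' ^ m4 := by positivity
      linarith, fun ζ hre him i j => ?_⟩
    have ht : 1 ≤ 1 + |ζ.im| := by
      have := abs_nonneg ζ.im
      linarith
    obtain ⟨A, hA, hF, hbd⟩ := h2 ζ hre him
    have hz : ((s ζ : ℍ) : ℂ) ∈ Om := (s ζ).im_pos
    have htC : V.tC (s ζ) = (V.τ (s ζ) : ℂ) := by
      unfold tC
      rw [ofComplex_apply]
    have hs := (V.τ (s ζ)).im_pos
    set X' : ℝ := C' * (1 + |ζ.im|) ^ N' with hX'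
    have hC'1 : 1 ≤ C' := by
      have : 0 ≤ |C2| := abs_nonneg _
      have : 0 ≤ C3 * C1 ^ N3 := by positivity
      linarith
    have hX1 : 1 ≤ X' := one_le_mul_of_one_le_of_one_le hC'1 (one_le_pow₀ ht)
    have hg' : GrP (wt kk nn) (pp kk nn) (KK kk nn) (A * fr kk (V.τ (s ζ))) (PP kk nn (V.τ (s ζ))) :=
      grP hs hA
    have hLm : ∀ i j, ‖Lm (wt kk nn) (A * fr kk (V.τ (s ζ))) i j‖ ≤ X' := by
      intro i j
      rw [Lm_eq hs hA]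
      refine (hbd i j).trans ?_
      have e1 : C2 ≤ C' := by
        have : C2 ≤ |C2| := le_abs_self C2
        have : 0 ≤ C3 * C1 ^ N3 := by positivity
        linarith
      have e2 : (1 + |ζ.im|) ^ N2 ≤ (1 + |ζ.im|) ^ N' := pow_le_pow_right₀ ht (by omega)
      exact mul_le_mul e1 e2 (by positivity) (by linarith)
    have hPP : ∀ a i j, ‖PP kk nn (V.τ (s ζ)) a i j‖ ≤ X' := by
      intro a i j
      have e0 : 1 ≤ C1 * (1 + |ζ.im|) ^ 2 :=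
        one_le_mul_of_one_le_of_one_le hC1 (one_le_pow₀ ht)
      refine (h3 (V.τ (s ζ)) (C1 * (1 + |ζ.im|) ^ 2) hs e0 (h1 ζ hre him).1 (h1 ζ hre him).2
        a i j).trans ?_
      have e1 : C3 * (C1 * (1 + |ζ.im|) ^ 2) ^ N3 = C3 * C1 ^ N3 * (1 + |ζ.im|) ^ (2 * N3) := by
        rw [mul_pow, ← pow_mul]
        ring
      rw [e1]
      have e2 : C3 * C1 ^ N3 ≤ C' := by
        have : 0 ≤ |C2| := abs_nonneg _
        linarith
      have e3 : (1 + |ζ.im|) ^ (2 * N3) ≤ (1 + |ζ.im|) ^ N' := pow_le_pow_right₀ ht (by omega)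
      exact mul_le_mul e2 e3 (by positivity) (by linarith)
    have h5 := h4 (A * fr kk (V.τ (s ζ))) (PP kk nn (V.τ (s ζ))) X' hX1 hg'.unit hg'.tri hg' hLm
      hPP i j
    have h6 : V.h (s ζ) = HH (wt kk nn) (KK kk nn) (A * fr kk (V.τ (s ζ)))
        (PP kk nn (V.τ (s ζ))) J' := by
      have hd := ZQ38.HH_delH hg' hJ
      have hF' : ∀ a, Fl (pp kk nn) (A * fr kk (V.τ (s ζ))) a =
          Fl (pp kk nn) (V.Φ (s ζ)) a := by
        intro a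
        rw [hF a]
        unfold Φ
        rw [ofComplex_apply]
      have hd' := ZQ38.delH_congr hF' hd
      have hd2 := V.h_del hz
      rw [htC] at hd2
      have hP2 := V.grP' hz
      rw [htC] at hP2
      exact ZQ38.delH_unique hP2 hd2 hd'
    rw [h6]
    have h7 : c4 * X' ^ m4 ≤ (1 + |c4| * C' ^ m4) * (1 + |ζ.im|) ^ (N' * m4) := by
      rw [hX', mul_pow, ← pow_mul]
      have e1 : c4 ≤ |c4| := le_abs_self c4
      have e2 : 0 ≤ C' ^ m4 * (1 + |ζ.im|) ^ (N' * m4) := by positivity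
      have e3 : 0 ≤ (1 + |ζ.im|) ^ (N' * m4) := by positivity
      nlinarith
    exact ⟨h5.1.trans h7, h5.2.trans h7⟩
  obtain ⟨C5, N5, hC5, h5⟩ := hhb
  -- the bound for `Y`
  obtain ⟨CD, hCD⟩ : ∃ CD : ℝ, 0 ≤ CD ∧ ∀ i j, ‖Dwt (wt kk nn) i j‖ ≤ CD := by
    refine ⟨∑ i, ∑ j, ‖Dwt (wt kk nn) i j‖, by positivity, fun i j => ?_⟩
    refine (Finset.single_le_sum (f := fun j => ‖Dwt (wt kk nn) i j‖)
      (fun _ _ => norm_nonneg _) (Finset.mem_univ j)).trans ?_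
    exact Finset.single_le_sum (f := fun i => ∑ j, ‖Dwt (wt kk nn) i j‖)
      (fun _ _ => by positivity) (Finset.mem_univ i)
  set n : ℝ := ((Fintype.card (Ix kk) : ℕ) : ℝ) with hn
  have hn0 : 0 ≤ n := by rw [hn]; positivity
  have hYb : ∀ ζ : ℂ, |ζ.re| ≤ M → Y + 1 ≤ ζ.im → ∀ i j,
      ‖V.Yz (s ζ) i j‖ ≤ n * (n * (C5 * CD) * C5) * (1 + |ζ.im|) ^ (N5 + N5) := by
    intro ζ hre him i j
    have e1 := bd_mul (Ix kk) (V.h (s ζ)) (Dwt (wt kk nn)) (C5 * (1 + |ζ.im|) ^ N5) CD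
      (by positivity) (fun i j => (h5 ζ hre him i j).1) hCD.2
    have e2 := bd_mul (Ix kk) (V.h (s ζ) * Dwt (wt kk nn)) (V.h (s ζ))⁻¹
      (n * ((C5 * (1 + |ζ.im|) ^ N5) * CD)) (C5 * (1 + |ζ.im|) ^ N5)
      (by have := hCD.1; positivity) e1 (fun i j => (h5 ζ hre him i j).2) i j
    refine e2.trans (le_of_eq ?_)
    rw [pow_add]
    ring
  -- the functionals
  have hφ : ∀ j : Fin (κ + 1), ∃ C : ℝ, 0 ≤ C ∧ ∀ (B : Matrix (Ix kk) (Ix kk) ℂ) (b : ℝ),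
      (∀ x y, ‖B x y‖ ≤ b) → ‖pr nn (qc c) κ B j‖ ≤ C * b := by
    intro j
    obtain ⟨C, hC, h⟩ := bd_fn ((LinearMap.proj j).comp (pr nn (qc c) κ))
    exact ⟨C, hC, h⟩
  choose Cj hCj hj using hφ
  set Cs : ℝ := ∑ j, Cj j with hCs
  have hCs0 : 0 ≤ Cs := Finset.sum_nonneg fun j _ => hCj j
  set CY : ℝ := n * (n * (C5 * CD) * C5) with hCY
  have hCY0 : 0 ≤ CY := by have := hCD.1; positivity
  refine ⟨Cs * CY + ‖pr nn (qc c) κ (dr kk nn ![0, 0, 0, 1])‖, N5 + N5, fun ζ hre him => ?_⟩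
  have ht : 1 ≤ 1 + |ζ.im| := by
    have := abs_nonneg ζ.im
    linarith
  have ht1 : 1 ≤ (1 + |ζ.im|) ^ (N5 + N5) := one_le_pow₀ ht
  have h8 : ‖pr nn (qc c) κ (V.Yz (s ζ))‖ ≤ Cs * (CY * (1 + |ζ.im|) ^ (N5 + N5)) := by
    rw [pi_norm_le_iff_of_nonneg (by positivity)]
    intro j
    refine (hj j _ _ (hYb ζ hre him)).trans ?_
    have : Cj j ≤ Cs := Finset.single_le_sum (fun j _ => hCj j) (Finset.mem_univ j)
    gcongr
  unfold per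
  rw [map_sub]
  refine (norm_sub_le _ _).trans ?_
  have h9 := norm_nonneg (pr nn (qc c) κ (dr kk nn ![0, 0, 0, 1]))
  nlinarith

end EllVar

end Pool.Agent.LibME94
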