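import Pool.Agent.LibME94.C11

/-!
# The radical is generated by its abelianization
-/

open Matrix Polynomial UpperHalfPlane
open scoped MatrixGroups ComplexConjugate
open MW38 (Fl Tri dg)
open ZQ38 (Un Low cx Fend brk Stab GrP PG Dwt An DelH IsLie mtLie oP oQ dgR mem_cx_iff adm Lm HH)
open Pool.Agent.LibUB33 (Curve)
open Pool.Agent.LibEis68 (sl sl_bracket act form hvec form_linearIndependent sl_mulVec_form
  form_span)

namespace Pool.Agent.LibME94

variable {ι : Type} [Fintype ι] [DecidableEq ι]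

theorem frattini_aux {d : ι → ℤ} {u u' : Submodule ℚ (Matrix ι ι ℚ)} (hu : u ≤ Low ℚ d)
    (h' : u' ≤ u) (hL : ∀ A ∈ u', ∀ B ∈ u', A * B - B * A ∈ u') (h : u ≤ u' ⊔ brk u u) (m : ℕ) :
    ∀ B ∈ u, ∃ A ∈ u', LE d (-(m + 1 : ℕ) : ℤ) (B - A) := by
  induction m with
  | zero =>
    intro B hB
    refine ⟨0, u'.zero_mem, ?_⟩
    rw [sub_zero]
    have := LE_of_low (hu hB)
    simpa using this
  | succ m ih =>
    have h1 : ∀ C ∈ brk u u, ∃ A ∈ u', LE d (-(m + 1 + 1 : ℕ) : ℤ) (C - A) := by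
      intro C hC
      unfold brk at hC
      induction hC using Submodule.span_induction with
      | mem C hC =>
        obtain ⟨X, hX, Y, hY, rfl⟩ := hC
        obtain ⟨X', hX', hx⟩ := ih X hX
        obtain ⟨Y', hY', hy⟩ := ih Y hY
        refine ⟨X' * Y' - Y' * X', hL X' hX' Y' hY', ?_⟩
        have e1 : X * Y - Y * X - (X' * Y' - Y' * X') =
            (X * (Y - Y') + (X - X') * Y') - ((Y - Y') * X + Y' * (X - X')) := by
          noncomm_ring
        rw [e1]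
        have k1 : LE d (-1) X := LE_of_low (hu hX)
        have k2 : LE d (-1) Y' := LE_of_low (hu (h' hY'))
        have k3 : ((-1 : ℤ) + (-(m + 1 : ℕ) : ℤ)) = (-(m + 1 + 1 : ℕ) : ℤ) := by push_cast; ring
        have k4 : ((-(m + 1 : ℕ) : ℤ) + (-1 : ℤ)) = (-(m + 1 + 1 : ℕ) : ℤ) := by push_cast; ring
        refine ((k3 ▸ k1.mul hy).add (k4 ▸ hx.mul k2)).sub ((k4 ▸ hy.mul k1).add (k3 ▸ k2.mul hx))
      | zero =>
        exact ⟨0, u'.zero_mem, by
          rw [sub_zero]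
          intro x y _
          rfl⟩
      | add C C' _ _ h1 h2 =>
        obtain ⟨A, hA, hA'⟩ := h1
        obtain ⟨A', hA1, hA1'⟩ := h2
        refine ⟨A + A', u'.add_mem hA hA1, ?_⟩
        have := hA'.add hA1'
        rwa [show C - A + (C' - A') = C + C' - (A + A') by abel] at this
      | smul r C _ h1 =>
        obtain ⟨A, hA, hA'⟩ := h1
        refine ⟨r • A, u'.smul_mem r hA, ?_⟩
        intro x y hxy
        have := hA' x y hxy
        rw [← smul_sub, Matrix.smul_apply, this, smul_zero]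
    intro B hB
    obtain ⟨A, hA, C, hC, rfl⟩ := Submodule.mem_sup.1 (h hB)
    obtain ⟨A', hA', hle⟩ := h1 C hC
    refine ⟨A + A', u'.add_mem hA hA', ?_⟩
    rwa [show A + C - (A + A') = C - A' by abel]

/-- a subalgebra of a nilpotent Lie algebra which generates modulo commutators is everything -/
theorem frattini {d : ι → ℤ} {u u' : Submodule ℚ (Matrix ι ι ℚ)} (hu : u ≤ Low ℚ d)
    (h' : u' ≤ u) (hL : ∀ A ∈ u', ∀ B ∈ u', A * B - B * A ∈ u') (h : u ≤ u' ⊔ brk u u) :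
    u ≤ u' := by
  intro B hB
  obtain ⟨A, hA, hle⟩ := frattini_aux hu h' hL h (∑ x, ∑ y, (d y - d x).natAbs) B hB
  have h2 : B - A = 0 := by
    ext x y
    apply hle
    have k1 : (d y - d x).natAbs ≤ ∑ y, (d y - d x).natAbs :=
      Finset.single_le_sum (f := fun y => (d y - d x).natAbs) (fun _ _ => Nat.zero_le _)
        (Finset.mem_univ y)
    have k2 : ∑ y, (d y - d x).natAbs ≤ ∑ x, ∑ y, (d y - d x).natAbs :=
      Finset.single_le_sum (f := fun x => ∑ y, (d y - d x).natAbs) (fun _ _ => Nat.zero_le _)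
        (Finset.mem_univ x)
    omega
  rw [sub_eq_zero] at h2
  rw [h2]
  exact hA

variable {J : Type} [Fintype J] [DecidableEq J] {kk : J → ℕ} {nn : J → ℤ} {X : Curve}

namespace EllVar

variable {V : EllVar X kk nn} {w : ℤ} {κ : ℕ} {c : Matrix (Ix kk) (Ix kk) ℚ}

/-- multiplicity one -/
def Uniq (V : EllVar X kk nn) : Prop := ∀ (w : ℤ) (κ : ℕ) (c : Matrix (Ix kk) (Ix kk) ℚ),
  IsFun nn V.uni (brk V.uni V.uni) w κ c → ∀ (κ' : ℕ) (c' : Matrix (Ix kk) (Ix kk) ℚ),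
    IsFun nn V.uni (brk V.uni V.uni) w κ' c' →
      κ' = κ ∧ ∃ a b : ℚ, (a ≠ 0 ∨ b ≠ 0) ∧ ∀ B ∈ V.uni, a * fn c B + b * fn c' B = 0

theorem cmp_mapf {ι : Type} {d : ι → ℤ} (w : ℤ) (x : Matrix ι ι ℂ) (f : ℂ →ₗ[ℚ] ℚ) :
    cmp d w (x.map f) = (cmp d w x).map f := by
  ext i j
  simp only [cmp, LinearMap.coe_mk, AddHom.coe_mk, Matrix.of_apply, Matrix.map_apply]
  split_ifs
  · rfl
  · rw [map_zero]

theorem Nice.injC (hN : V.Nice) (hU : V.Uniq)
    (hc : IsFun nn V.uni (brk V.uni V.uni) w κ c) {x : Matrix (Ix kk) (Ix kk) ℂ}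
    (hx : x ∈ cx V.uni) (hw : cmp (wt kk nn) w x = x) (h0 : pr nn (qc c) κ x = 0) :
    x ∈ cx (brk V.uni V.uni) := by
  rw [mem_cx_iff] at hx ⊢
  intro f
  refine inj_of_unique hN.glSt hN.glSt_brk hc (hU w κ c hc) (hx f) ?_ ?_
  · rw [cmp_mapf, hw]
  · rw [pr_mapf, h0]
    funext j
    exact map_zero f

theorem pr_bar (c : Matrix (Ix kk) (Ix kk) ℚ) (κ : ℕ) (x : Matrix (Ix kk) (Ix kk) ℂ)
    (j : Fin (κ + 1)) : pr nn (qc c) κ (ZQ38.bar x) j = conj (pr nn (qc c) κ x j) := by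
  have h1 : ∀ (B : Matrix (Ix kk) (Ix kk) ℂ),
      ad (dr kk nn (R := ℂ) ![0, 0, -1, 0]) (ZQ38.bar B) =
        ZQ38.bar (ad (dr kk nn (R := ℂ) ![0, 0, -1, 0]) B) := by
    intro B
    have h2 : ZQ38.bar (dr kk nn (R := ℂ) ![0, 0, -1, 0]) = dr kk nn ![0, 0, -1, 0] := by
      rw [← qc_e2]
      ext x y
      simp [ZQ38.bar, qc]
    rw [ad_apply, ad_apply]
    conv_lhs => rw [← h2]
    unfold ZQ38.bar
    rw [Matrix.map_sub (starRingEnd ℂ) (fun a b => map_sub _ a b), Matrix.map_mul, Matrix.map_mul]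
  have h3 : ∀ (l : ℕ) (B : Matrix (Ix kk) (Ix kk) ℂ),
      (ad (dr kk nn (R := ℂ) ![0, 0, -1, 0]) ^ l) (ZQ38.bar B) =
        ZQ38.bar ((ad (dr kk nn (R := ℂ) ![0, 0, -1, 0]) ^ l) B) := by
    intro l
    induction l with
    | zero => intro B; rfl
    | succ l ih =>
      intro B
      rw [pow_succ, Module.End.mul_apply, Module.End.mul_apply, h1, ih]
  have h4 : ∀ B : Matrix (Ix kk) (Ix kk) ℂ, fn (qc c) (ZQ38.bar B) = conj (fn (qc c) B) := by
    intro B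
    rw [fn_apply, fn_apply, map_sum]
    refine Finset.sum_congr rfl fun x _ => ?_
    rw [map_sum]
    refine Finset.sum_congr rfl fun y _ => ?_
    rw [map_mul]
    congr 1
    simp [qc]
  rw [pr_apply, pr_apply, h3, h4, map_mul, map_inv₀, map_natCast]

theorem bar_add {ι : Type} (A B : Matrix ι ι ℂ) :
    ZQ38.bar (A + B) = ZQ38.bar A + ZQ38.bar B := by
  ext x y
  simp [ZQ38.bar]

theorem bar_sub {ι : Type} (A B : Matrix ι ι ℂ) :
    ZQ38.bar (A - B) = ZQ38.bar A - ZQ38.bar B := by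
  ext x y
  simp [ZQ38.bar]

theorem bar_D : ZQ38.bar (dr kk nn (R := ℂ) ![0, 0, 0, 1]) = dr kk nn ![0, 0, 0, 1] := by
  rw [← qc_e3]
  ext x y
  simp [ZQ38.bar, qc]

/-- the imaginary part of the weight operator -/
theorem Y_bar (V : EllVar X kk nn) {z : ℂ} (hz : z ∈ Om) :
    V.Yz z - ZQ38.bar (V.Yz z) ∈ cx (V.uz z) := by
  have h1 : V.Yz z ∈ cx (mtLie (wt kk nn) (pp kk nn) (V.Φ z)) := by
    rw [← V.Pz_add_Qz]
    exact Submodule.add_mem _ (V.Pz_mem hz) (V.Qz_mem hz)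
  have h2 := Submodule.sub_mem _ h1 (ZQ38.bar_mem_cx h1)
  unfold uz
  rw [ZQ38.cx_inf, ZQ38.cx_low]
  refine ⟨h2, ?_⟩
  have h3 : V.Yz z - dr kk nn ![0, 0, 0, 1] ∈ Low ℂ (wt kk nn) := by
    have hP := V.Pz_tri hz
    have hQ := V.Qz_tri hz
    have hY : Tri (wt kk nn) (V.Yz z) := by
      rw [← V.Pz_add_Qz]
      intro i j hij
      rw [Matrix.add_apply, hP i j hij, hQ i j hij, add_zero]
    apply low_of_dgR hY (dr_tri _)
    rw [dgR_dr, ← V.Pz_add_Qz]
    have : dgR (wt kk nn) (V.Pz z + V.Qz z) =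
        dgR (wt kk nn) (V.Pz z) + dgR (wt kk nn) (V.Qz z) := by
      ext x y
      unfold dgR
      simp only [Matrix.add_apply]
      split_ifs <;> simp
    rw [this, V.dgR_Pz hz, V.dgR_Qz hz, ← dr_add]
    congr 1
    abel
  have h4 : ZQ38.bar (V.Yz z - dr kk nn ![0, 0, 0, 1]) ∈ Low ℂ (wt kk nn) := by
    intro i j hij
    have := h3 i j hij
    unfold ZQ38.bar
    rw [Matrix.map_apply, this, map_zero]
  rw [bar_sub, bar_D] at h4
  have h5 := Submodule.sub_mem _ h3 h4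
  rwa [sub_sub_sub_cancel_right] at h5

end EllVar

end Pool.Agent.LibME94
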