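import Pool.Agent.LibME94.D1
import Pool.Agent.LibEis68.B08
import Pool.Agent.LibEis68.B05

/-!
# Points with a smaller unipotent radical
-/

open Matrix Polynomial UpperHalfPlane
open scoped MatrixGroups ComplexConjugate
open MW38 (Fl Tri dg)
open ZQ38 (Un Low cx Fend brk Stab GrP PG Dwt An DelH IsLie mtLie oP oQ dgR mem_cx_iff adm Lm HH)
open Pool.Agent.LibUB33 (Curve)
open Pool.Agent.LibEis68 (sl sl_bracket act form hvec form_linearIndependent sl_mulVec_form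
  form_span)

namespace Pool.Agent.LibME94

theorem Hm_eq (κ : ℕ) (w : ℤ) (s : ℂ) (v : Fin (κ + 1) → ℂ) :
    sl κ (hvec s) *ᵥ v = (2 : ℂ) • (Hm κ w s *ᵥ v) - (w : ℂ) • v := by
  have h1 : sl κ (![hv s 0, hv s 1, hv s 2, hv s 3 * w] : Fin 4 → ℂ) =
      (1 / 2 : ℂ) • sl κ (hvec s) + sl κ (![0, 0, 0, (w : ℂ) / 2] : Fin 4 → ℂ) := by
    rw [← sl_smul, ← sl_add]
    congr 1
    funext i
    fin_cases i
    · simp [hv]; ring
    · simp [hv]; ring
    · simp [hv]; ring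
    · simp [hv, hvec]; ring
  unfold Hm
  rw [h1, Matrix.add_mulVec, Matrix.smul_mulVec, LibEis68.B05aux.sl_scalar, smul_add, smul_smul,
    smul_smul]
  norm_num
  rw [show (2 : ℂ) * ((w : ℂ) / 2) = w by ring]
  abel

/-- a proper subspace stable under the Hodge operator misses one of the forms -/
theorem missing {κ : ℕ} {w : ℤ} {s : ℂ} (hs : 0 < s.im) {T : Submodule ℂ (Fin (κ + 1) → ℂ)}
    (hT : ∀ v ∈ T, Hm κ w s *ᵥ v ∈ T) (hne : T ≠ ⊤) :
    ∃ i : Fin (κ + 1), ∀ c : Fin (κ + 1) → ℂ, ∑ i, c i • form κ s (conj s) i ∈ T → c i = 0 := by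
  have h1 : ∃ i : Fin (κ + 1), form κ s (conj s) i ∉ T := by
    by_contra hcon
    push Not at hcon
    apply hne
    rw [eq_top_iff, ← form_span κ hs, Submodule.span_le]
    rintro _ ⟨i, rfl⟩
    exact hcon i
  obtain ⟨i, hi⟩ := h1
  refine ⟨i, fun c hc => ?_⟩
  by_contra hci
  apply hi
  refine LibEis68.component_mem hs T (fun v hv' => ?_) c hc i hci
  rw [Hm_eq κ w s v]
  exact Submodule.sub_mem _ (Submodule.smul_mem _ _ (hT v hv')) (Submodule.smul_mem _ _ hv')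

variable {J : Type} [Fintype J] [DecidableEq J] {kk : J → ℕ} {nn : J → ℤ} {X : Curve}

theorem qc_cmp {ι : Type} {d : ι → ℤ} (w : ℤ) (B : Matrix ι ι ℚ) :
    qc (cmp d w B) = cmp d w (qc B) := by
  ext i j
  simp only [cmp, qc, LinearMap.coe_mk, AddHom.coe_mk, Matrix.of_apply, Matrix.map_apply]
  split_ifs
  · rfl
  · rw [map_zero]

theorem pr_cmp {R : Type*} [Field R] {w : ℤ} {κ : ℕ} {c : Matrix (Ix kk) (Ix kk) R}
    (hc : ∀ x y, c x y ≠ 0 → wt kk nn x - wt kk nn y = w) (B : Matrix (Ix kk) (Ix kk) R) :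
    pr nn c κ (cmp (wt kk nn) w B) = pr nn c κ B := by
  have h1 : ∀ (l : ℕ) (B : Matrix (Ix kk) (Ix kk) R),
      cmp (wt kk nn) w ((ad (dr kk nn (R := R) ![0, 0, -1, 0]) ^ l) B) =
        (ad (dr kk nn (R := R) ![0, 0, -1, 0]) ^ l) (cmp (wt kk nn) w B) := by
    intro l
    induction l with
    | zero => intro B; rfl
    | succ l ih =>
      intro B
      rw [pow_succ, Module.End.mul_apply, Module.End.mul_apply, ih]
      congr 1
      have := cmp_ad (d := wt kk nn) (m := 0) (X := dr kk nn (R := R) ![0, 0, -1, 0])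
        (fun x y h => sup_dr _ x y h) w B
      rwa [add_zero] at this
  funext j
  rw [pr_apply, pr_apply, ← h1, fn_cmp hc]

namespace EllVar

variable {V : EllVar X kk nn} {w : ℤ} {κ : ℕ} {c : Matrix (Ix kk) (Ix kk) ℚ}

omit [Fintype J] [DecidableEq J] in
theorem qcs {c : Matrix (Ix kk) (Ix kk) ℚ} (x y : Ix kk) (h : qc c x y ≠ 0) : c x y ≠ 0 := by
  intro h'
  apply h
  simp [qc, h']

/-- the key step: if the unipotent radical of the Mumford-Tate group at `z` is smaller, some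
component of the imaginary part of one of the periods vanishes at `z` -/
theorem Nice.exists_zero (hN : V.Nice) (hT : V.NegTypes) (hU : V.Uniq) {z : ℍ}
    (hz : V.uz z ≠ V.uni) : ∃ w : ℤ,
    (∃ (κ : ℕ) (c : Matrix (Ix kk) (Ix kk) ℚ), IsFun nn V.uni (brk V.uni V.uni) w κ c) ∧
    ∀ (κ : ℕ) (c : Matrix (Ix kk) (Ix kk) ℚ) (hc : IsFun nn V.uni (brk V.uni V.uni) w κ c),
      ∃ i : Fin (κ + 1), (var hN hT hc).comp z i = 0 := by
  have hzm : (z : ℂ) ∈ Om := z.im_pos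
  set K := brk V.uni V.uni with hK
  set N := V.uz z ⊔ K with hNd
  have hNle : N ≤ V.uni := sup_le (V.uz_le hzm) V.brk_le
  have hcN : cx N = cx (V.uz z) ⊔ cx K := ZQ38.cx_sup _ _
  -- `cx N` is stable
  have hst : ∀ A : Matrix (Ix kk) (Ix kk) ℂ,
      A ∈ cx (mtLie (wt kk nn) (pp kk nn) (V.Φ z)) → ∀ x ∈ cx N, ad A x ∈ cx N := by
    intro A hA x hx
    rw [hcN] at hx ⊢
    obtain ⟨x₁, h1, x₂, h2, rfl⟩ := Submodule.mem_sup.1 hx
    rw [map_add]
    refine Submodule.add_mem_sup (ZQ38.cx_stab (V.stab_uz hzm) A hA x₁ h1) ?_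
    exact ZQ38.cx_stab (brk_stab V.stab_uni) A (ZQ38.cx_mono (V.le_gen hzm) hA) x₂ h2
  have hbr : ∀ A ∈ cx V.uni, ∀ x ∈ cx N, ad A x ∈ cx N := by
    intro A hA x hx
    rw [hcN]
    exact Submodule.mem_sup_right (cx_brk hA (ZQ38.cx_mono hNle hx))
  have hstD : ∀ x ∈ cx N, ad (dr kk nn (R := ℂ) ![0, 0, 0, 1]) x ∈ cx N := by
    intro x hx
    have h1 : dr kk nn (R := ℂ) ![0, 0, 0, 1] =
        V.Yz z - (V.Yz z - dr kk nn ![0, 0, 0, 1]) := by abel
    rw [h1, ad_sub, LinearMap.sub_apply]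
    refine Submodule.sub_mem _ ?_ (hbr _ (hN.Y_sub hzm) x hx)
    rw [← V.Pz_add_Qz, ad_add, LinearMap.add_apply]
    exact Submodule.add_mem _ (hst _ (V.Pz_mem hzm) x hx) (hst _ (V.Qz_mem hzm) x hx)
  have hcmp : ∀ (w : ℤ), ∀ x ∈ cx N, cmp (wt kk nn) w x ∈ cx N := by
    intro w x hx
    refine cmp_mem (wt kk nn) (fun B hB => ?_) w hx
    rw [← dr_D]
    exact hstD B hB
  -- a rational element outside
  have hne : ¬ V.uni ≤ N := by
    intro hle
    apply hz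
    refine le_antisymm (V.uz_le hzm) (frattini V.uni_low (V.uz_le hzm) ?_ hle)
    intro A hA B hB
    exact V.stab_uz hzm A hA.1 B hB
  obtain ⟨B, hB, hBN⟩ := Set.not_subset.1 hne
  have hex : ∃ w : ℤ, cmp (wt kk nn) w (qc B) ∉ cx N := by
    by_contra hcon
    push Not at hcon
    obtain ⟨s, hs, -⟩ := sum_cmp (wt kk nn) (qc B)
    have h1 : qc B ∈ cx N := by
      rw [← hs]
      exact Submodule.sum_mem _ fun w _ => hcon w
    exact hBN (ZQ38.mem_of_mem_cx h1)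
  obtain ⟨w, hw⟩ := hex
  have hBw : cmp (wt kk nn) w B ∈ V.uni := hN.glSt.cmp_wt w hB
  have hBwN : cmp (wt kk nn) w B ∉ N := by
    intro h
    apply hw
    rw [← qc_cmp]
    exact ZQ38.mem_cx_of_mem h
  have hBwK : cmp (wt kk nn) w B ∉ K := fun h => hBwN (le_sup_right (a := V.uz z) h)
  refine ⟨w, exists_fun_wt hN.glSt hN.glSt_brk hB hBwK, ?_⟩
  intro κ c hc
  have hsupp : ∀ x y, qc c x y ≠ 0 → wt kk nn x - wt kk nn y = w := fun x y h =>
    (hc.supp x y (qcs x y h)).1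
  set T : Submodule ℂ (Fin (κ + 1) → ℂ) := (cx N).map (pr nn (qc c) κ) with hTd
  have hNu : cx N ≤ cx V.uni := ZQ38.cx_mono hNle
  have hTs : ∀ v ∈ T, Hm κ w (V.tC z) *ᵥ v ∈ T := by
    rintro _ ⟨x, hx, rfl⟩
    rw [← hN.pr_P hc hzm (hNu hx)]
    exact Submodule.mem_map_of_mem (hst _ (V.Pz_mem hzm) x hx)
  have hTne : T ≠ ⊤ := by
    intro htop
    have h1 : pr nn (qc c) κ (qc (cmp (wt kk nn) w B)) ∈ T := by
      rw [htop]
      exact Submodule.mem_top
    obtain ⟨y, hy, hyx⟩ := h1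
    have h2 : qc (cmp (wt kk nn) w B) - cmp (wt kk nn) w y ∈ cx K := by
      refine hN.injC hU hc ?_ ?_ ?_
      · exact Submodule.sub_mem _ (ZQ38.mem_cx_of_mem hBw) (hNu (hcmp w y hy))
      · rw [map_sub, qc_cmp, cmp_cmp, cmp_cmp]
      · rw [map_sub, pr_cmp hsupp, hyx, sub_self]
    have h3 : qc (cmp (wt kk nn) w B) ∈ cx N := by
      have h4 : cx K ≤ cx N := by
        rw [hcN]
        exact le_sup_right
      have := Submodule.add_mem _ (h4 h2) (hcmp w y hy)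
      rwa [sub_add_cancel] at this
    rw [qc_cmp] at h3
    exact hw h3
  obtain ⟨i, hi⟩ := missing (V.tC_pos z) hTs hTne
  refine ⟨i, ?_⟩
  -- the imaginary part of the period
  have htC : V.tC z = (V.τ z : ℂ) := by
    unfold tC
    rw [ofComplex_apply]
  obtain ⟨h1, -, -⟩ := (var hN hT hc).comp_spec z
  have h2 : pr nn (qc c) κ (V.Yz z - ZQ38.bar (V.Yz z)) =
      (2 * Complex.I) • fun j => (((var hN hT hc).v z j).im : ℂ) := by
    have e1 : V.Yz z - ZQ38.bar (V.Yz z) = (V.Yz z - dr kk nn ![0, 0, 0, 1]) -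
        ZQ38.bar (V.Yz z - dr kk nn ![0, 0, 0, 1]) := by
      rw [bar_sub, bar_D]
      abel
    have e2 : (var hN hT hc).v z = pr nn (qc c) κ (V.Yz z - dr kk nn ![0, 0, 0, 1]) := rfl
    rw [e1, map_sub, e2]
    funext j
    rw [Pi.sub_apply, pr_bar, Complex.sub_conj, Pi.smul_apply, smul_eq_mul]
    push_cast
    ring
  have h3 : pr nn (qc c) κ (V.Yz z - ZQ38.bar (V.Yz z)) ∈ T := by
    refine Submodule.mem_map_of_mem ?_
    rw [hcN]
    exact Submodule.mem_sup_left (V.Y_bar hzm)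
  rw [h2, h1, Finset.smul_sum] at h3
  simp only [smul_smul] at h3
  have h4 := hi (fun i => 2 * Complex.I * (var hN hT hc).comp z i) (by
    rw [htC]
    exact h3)
  simpa using h4

end EllVar

end Pool.Agent.LibME94
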