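import Pool.Agent.LibME94.D2

/-!
# Finiteness of the points with a smaller unipotent radical
-/

open Matrix Polynomial UpperHalfPlane
open scoped MatrixGroups ComplexConjugate
open MW38 (Fl Tri dg)
open ZQ38 (Un Low cx Fend brk Stab GrP PG Dwt An DelH IsLie mtLie oP oQ dgR mem_cx_iff adm Lm HH)
open Pool.Agent.LibUB33 (Curve)
open Pool.Agent.LibEis68 (sl sl_bracket act form hvec form_linearIndependent sl_mulVec_form
  form_span)

namespace Pool.Agent.LibME94

variable {J : Type} [Fintype J] [DecidableEq J] {kk : J → ℕ} {nn : J → ℤ} {X : Curve}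

namespace EllVar

variable {V : EllVar X kk nn} {w : ℤ} {κ : ℕ} {c : Matrix (Ix kk) (Ix kk) ℚ}

theorem Nice.small_finite (hN : V.Nice) (hT : V.NegTypes) (hU : V.Uniq)
    (hZ : ∀ (w : ℤ) (κ : ℕ) (c : Matrix (Ix kk) (Ix kk) ℚ)
      (hc : IsFun nn V.uni (brk V.uni V.uni) w κ c) (i : Fin (κ + 1)),
      ((fun z : ℍ => (Quotient.mk'' z : X.Pts)) ''
        {z | (var hN hT hc).comp z i = 0}).Finite) :
    ((fun z : ℍ => (Quotient.mk'' z : X.Pts)) '' {z : ℍ | V.uz z ≠ V.uni}).Finite := by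
  set q : ℍ → X.Pts := fun z : ℍ => (Quotient.mk'' z : X.Pts) with hq
  set S : ℤ → Set ℍ := fun w => {z : ℍ |
    (∃ (κ : ℕ) (c : Matrix (Ix kk) (Ix kk) ℚ), IsFun nn V.uni (brk V.uni V.uni) w κ c) ∧
    ∀ (κ : ℕ) (c : Matrix (Ix kk) (Ix kk) ℚ) (hc : IsFun nn V.uni (brk V.uni V.uni) w κ c),
      ∃ i : Fin (κ + 1), (var hN hT hc).comp z i = 0} with hS
  have hfin : ∀ w, (q '' S w).Finite := by
    intro w
    by_cases h : ∃ (κ : ℕ) (c : Matrix (Ix kk) (Ix kk) ℚ),
        IsFun nn V.uni (brk V.uni V.uni) w κ c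
    · obtain ⟨κ, c, hc⟩ := h
      have h1 : q '' S w ⊆ ⋃ i : Fin (κ + 1), q '' {z | (var hN hT hc).comp z i = 0} := by
        rintro _ ⟨z, hz, rfl⟩
        obtain ⟨i, hi⟩ := hz.2 κ c hc
        exact Set.mem_iUnion.2 ⟨i, z, hi, rfl⟩
      exact (Set.finite_iUnion fun i => hZ w κ c hc i).subset h1
    · have h1 : S w = ∅ := by
        rw [Set.eq_empty_iff_forall_notMem]
        intro z hz
        exact h hz.1
      rw [h1, Set.image_empty]
      exact Set.finite_empty
  set W : Finset ℤ := (Finset.univ : Finset (Ix kk × Ix kk)).image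
    fun p => wt kk nn p.1 - wt kk nn p.2 with hW
  have h2 : q '' {z : ℍ | V.uz z ≠ V.uni} ⊆ ⋃ w ∈ W, q '' S w := by
    rintro _ ⟨z, hz, rfl⟩
    obtain ⟨w, h1, h2⟩ := hN.exists_zero hT hU hz
    have hwW : w ∈ W := by
      obtain ⟨κ, c, hc⟩ := h1
      obtain ⟨B, -, hB⟩ := hc.ne
      by_contra hcon
      apply hB
      rw [fn_apply]
      refine Finset.sum_eq_zero fun x _ => Finset.sum_eq_zero fun y _ => ?_
      by_cases hxy : c x y = 0
      · rw [hxy, zero_mul]
      · exfalso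
        apply hcon
        rw [hW, Finset.mem_image]
        exact ⟨(x, y), Finset.mem_univ _, (hc.supp x y hxy).1⟩
    exact Set.mem_biUnion hwW ⟨z, ⟨h1, h2⟩, rfl⟩
  exact (W.finite_toSet.biUnion fun w _ => hfin w).subset h2

/-- the points with a smaller unipotent radical are finite in number if there is one place -/
theorem Nice.small_one (hN : V.Nice) (hT : V.NegTypes) (hT2 : V.NoConst) (hone : OnePlace X V.ρ) :
    ((fun z : ℍ => (Quotient.mk'' z : X.Pts)) '' {z : ℍ | V.uz z ≠ V.uni}).Finite := by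
  refine hN.small_finite hT (fun w κ c hc κ' c' hc' => hN.unique hT hT2 hone hc κ' c' hc') ?_
  intro w κ c hc i
  exact comp_zeros _ (hN.kappa_pos hT2 hc) (hN.not_split hT hc) hone i

theorem Nice.isMax_kerI (hN : V.Nice) (hT : V.NegTypes) (hT2 : V.NoConst)
    (hc : IsFun nn V.uni (brk V.uni V.uni) w κ c) : V.IsMaxSub (V.kerI c κ) where
  brk_le := hN.brk_kerI hc
  le := inf_le_left
  stab := hN.stab_kerI hc
  ne := by
    intro h
    have h1 := hN.finrank_kerI hc
    rw [h] at h1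
    omega
  max := by
    intro N' h1 h2 h3
    by_cases hne : N' = V.uni
    · exact Or.inr hne
    left
    have hGl : GlSt kk nn N' := fun t B hB => h3 _ (hN.dr_mem t) B hB
    have hnle : ¬ V.uni ≤ N' := fun h => hne (le_antisymm h2 h)
    obtain ⟨B, hB, hBN⟩ := Set.not_subset.1 hnle
    have hex : ∃ v : ℤ, cmp (wt kk nn) v B ∉ N' := by
      by_contra hcon
      push Not at hcon
      obtain ⟨s, hs, -⟩ := sum_cmp (wt kk nn) B
      have h4 : B ∈ N' := by
        rw [← hs]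
        exact Submodule.sum_mem _ fun w _ => hcon w
      exact hBN h4
    obtain ⟨v, hv'⟩ := hex
    have hvw : v = w := by
      by_contra hvw
      apply hv'
      apply h1
      refine ⟨hN.glSt.cmp_wt v hB, ?_⟩
      show pr nn c κ (cmp (wt kk nn) v B) = 0
      have hsupp : ∀ x y, c x y ≠ 0 → wt kk nn x - wt kk nn y = w := fun x y h =>
        (hc.supp x y h).1
      rw [← pr_cmp hsupp]
      have h5 : cmp (wt kk nn) w (cmp (wt kk nn) v B) = 0 := by
        ext x y
        simp only [cmp, LinearMap.coe_mk, AddHom.coe_mk, Matrix.of_apply, Matrix.zero_apply]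
        split_ifs with h6 h7
        · exact absurd (h7.symm.trans h6) hvw
        · rfl
        · rfl
      rw [h5, map_zero]
    subst hvw
    obtain ⟨κ', c', hc'⟩ := exists_fun_wt hN.glSt hGl hB hv'
    have hc'' : IsFun nn V.uni (brk V.uni V.uni) v κ' c' :=
      hc'.mono ((hN.brk_kerI hc).trans h1)
    have e1 := hN.w_eq hT hT2 hc
    have e2 := hN.w_eq hT hT2 hc''
    have e3 : κ' = κ := by omega
    subst e3
    have f1 := hN.finrank_kerI hc
    have f2 := hN.finrank_kerI hc''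
    have h5 : N' ≤ V.kerI c' κ' := fun B hB => ⟨h2 hB, hc'.pr_ker hGl hB⟩
    have h6 : V.kerI c κ' = V.kerI c' κ' :=
      Submodule.eq_of_le_of_finrank_eq (h1.trans h5) (by omega)
    exact le_antisymm (h5.trans h6.ge) h1

theorem Nice.uniq_of_T3 (hN : V.Nice) (hT : V.NegTypes) (hT2 : V.NoConst) (hT3 : V.DistinctEven) : V.Uniq := by
  intro w κ c hc κ' c' hc'
  have e1 := hN.w_eq hT hT2 hc
  have e2 := hN.w_eq hT hT2 hc'
  have e3 : κ' = κ := by omega
  subst e3
  refine ⟨rfl, ?_⟩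
  have f1 := hN.finrank_kerI hc
  have f2 := hN.finrank_kerI hc'
  have h1 := hT3.1 _ _ (hN.isMax_kerI hT hT2 hc) (hN.isMax_kerI hT hT2 hc') (by omega)
  -- a combination which kills a lowest vector
  obtain ⟨B₀, hB₀, hne, hBw, hBh⟩ := hc.exists_low hN.glSt
  refine ⟨fn c' B₀, -fn c B₀, Or.inr (neg_ne_zero.2 hne), ?_⟩
  by_contra hcon
  push Not at hcon
  have hcc := isFun_comb hc hc' (fn c' B₀) (-fn c B₀) hcon
  have f3 := hN.finrank_kerI hcc
  have h2 := hT3.1 _ _ (hN.isMax_kerI hT hT2 hc) (hN.isMax_kerI hT hT2 hcc) (by omega)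
  -- `B₀` is in the kernel of the combination but not in the one of `c`
  have h3 : B₀ ∈ V.kerI (fn c' B₀ • c + -fn c B₀ • c') κ' := by
    refine ⟨hB₀, ?_⟩
    show pr nn _ κ' B₀ = 0
    rw [hcc.pr_low hBh, fn_add, fn_smul, fn_smul]
    rw [show fn c' B₀ * fn c B₀ + -fn c B₀ * fn c' B₀ = 0 by ring, zero_smul]
  rw [← h2] at h3
  have h4 : pr nn c κ' B₀ = 0 := h3.2
  rw [hc.pr_low hBh] at h4
  have h5 := congrFun h4 0
  simp at h5
  exact hne h5

/-- the same for distinct even dimensions -/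
theorem Nice.small_odd (hN : V.Nice) (hT : V.NegTypes) (hT2 : V.NoConst) (hT3 : V.DistinctEven) :
    ((fun z : ℍ => (Quotient.mk'' z : X.Pts)) '' {z : ℍ | V.uz z ≠ V.uni}).Finite := by
  refine hN.small_finite hT (hN.uniq_of_T3 hT hT2 hT3) ?_
  intro w κ c hc i
  refine (var hN hT hc).zeros_finite (hN.kappa_pos hT2 hc) (hN.not_split hT hc) i ?_
  intro h
  have h1 := hT3.2 _ (hN.isMax_kerI hT hT2 hc)
  have f1 := hN.finrank_kerI hc
  have h2 : Module.finrank ℚ V.uni - Module.finrank ℚ (V.kerI c κ) = κ + 1 := by omega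
  rw [h2] at h1
  obtain ⟨m, hm⟩ := h1
  omega

end EllVar

end Pool.Agent.LibME94
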