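import Pool.Agent.LibUB33.Defs

/-!
# Curves with one place of multiplicative reduction
-/

open UpperHalfPlane
open scoped MatrixGroups
open Pool.Agent.LibUB33 (Curve)

namespace Pool.Agent.LibME94

/-- `s` is an end of the curve `X` at which no power of the local monodromy of `ρ` is trivial (for
the monodromy of a family of elliptic curves: the reduction is potentially multiplicative). -/
def InfEnd (X : Curve) (ρ : X.P →* SL(2, ℤ)) (s : ℂ → ℍ) (Y : ℝ) : Prop :=
  X.IsEnd s Y ∧ ∀ n : ℕ, 0 < n → ∀ p : X.P,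
    (∀ ζ : ℂ, Y < ζ.im → s (ζ + n) = (p : SL(2, ℝ)) • s ζ) → ρ p ≠ 1

/-- One place: all ends with infinite local monodromy belong to one puncture of `X`. -/
def OnePlace (X : Curve) (ρ : X.P →* SL(2, ℤ)) : Prop :=
  ∀ (s s' : ℂ → ℍ) (Y Y' : ℝ), InfEnd X ρ s Y → InfEnd X ρ s' Y' →
    ∃ (d : X.P) (c : ℤ) (Y'' : ℝ), ∀ ζ : ℂ, Y'' < ζ.im → s' ζ = (d : SL(2, ℝ)) • s (ζ + c)

end Pool.Agent.LibME94
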