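import Pool.Agent.LibZQ38.Defs
import Pool.Agent.LibUB33.Defs
import Pool.Agent.LibEis68.Defs
import Pool.Agent.LibRk3.Defs
import Pool.Agent.LibME94.DefP

/-!
# Mixed variations with graded pieces `⊕ Sym^k H¹(E)(n)` over a curve

All definitions used by the statement, except those on curves (`LibUB33.Defs`), on a single mixed
Hodge structure (`LibZQ38.Defs`) and the action of `SL₂(ℤ)` on binary forms (`LibEis68.Defs`).
-/

open UpperHalfPlane Matrix Polynomial
open scoped MatrixGroups ComplexConjugate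
open MW38 (Fl Tri)
open ZQ38 (Un Low cx Fend brk Stab)
open Pool.Agent.LibUB33 (Curve)
open Pool.Agent.LibEis68 (act)

namespace Pool.Agent.LibME94

variable {J : Type}

/-- The index set of a basis of `⊕_j Sym^{k_j} ℚ²`: `(j, i)` stands for the form
`X^i Y^{k_j - i}` of the `j`-th summand. -/
abbrev Ix (kk : J → ℕ) : Type := Σ j : J, Fin (kk j + 1)

/-- The weight of the summand `Sym^{k_j} H¹(E)(n_j)`. -/
def wt (kk : J → ℕ) (nn : J → ℤ) (x : Ix kk) : ℤ := (kk x.1 : ℤ) - 2 * nn x.1

/-- The Hodge numbers: in `Sym^{k_j} H¹(E)(n_j)` the form `(X - τY)^i (X - τ̄Y)^{k_j - i}` has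
type `(i - n_j, k_j - i - n_j)`. -/
def pp (kk : J → ℕ) (nn : J → ℤ) (x : Ix kk) : ℤ := ((x.2 : ℕ) : ℤ) - nn x.1

/-- The Hodge filtration of `⊕_j Sym^{k_j} H¹(E_s)(n_j)` is spanned by the columns of this matrix:
column `(j, i)` is the form `(X - sY)^i Y^{k_j - i}`. -/
noncomputable def fr (kk : J → ℕ) [DecidableEq J] (s : ℂ) : Matrix (Ix kk) (Ix kk) ℂ :=
  Matrix.blockDiagonal' fun j => Matrix.of fun (l i : Fin (kk j + 1)) =>
    ((X - C s : ℂ[X]) ^ (i : ℕ)).coeff l

/-- The action of `γ` on `⊕_j Sym^{k_j} ℚ²`. -/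
noncomputable def RR (kk : J → ℕ) [DecidableEq J] (γ : SL(2, ℤ)) : Matrix (Ix kk) (Ix kk) ℚ :=
  Matrix.blockDiagonal' fun j => act (kk j) γ

variable [Fintype J] [DecidableEq J]

/-- An admissible variation of mixed Hodge structure `V` on the curve `X` whose graded pieces are
the sums of the `Sym^{k_j} H¹(E/X)(n_j)` with `k_j - 2 n_j` equal to the given weight, where `E/X`
is a family of elliptic curves with nonconstant period `τ`. In a flat rational basis of the pull
back to the upper half plane, adapted to the weight filtration, the Hodge filtration is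
`g F_Gr` with `F_Gr` the Hodge filtration of the graded pieces and `g` unipotent. -/
structure EllVar (X : Curve) (kk : J → ℕ) (nn : J → ℤ) where
  /-- The monodromy on `H¹(E)`. -/
  ρ : X.P →* SL(2, ℤ)
  /-- The period of the elliptic curve. -/
  τ : ℍ → ℍ
  /-- The lift of the graded pieces. -/
  g : ℂ → Matrix (Ix kk) (Ix kk) ℂ
  /-- The monodromy. -/
  M : X.P → Matrix (Ix kk) (Ix kk) ℚ
  τ_hol : ∀ z : ℍ, DifferentiableAt ℂ (fun w : ℂ => (τ (ofComplex w) : ℂ)) z
  τ_nonconst : ∃ z w : ℍ, τ z ≠ τ w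
  τ_equiv : ∀ (δ : X.P) (z : ℍ), τ ((δ : SL(2, ℝ)) • z) = ρ δ • τ z
  g_un : ∀ z : ℂ, 0 < z.im → Un (wt kk nn) (g z)
  g_hol : ∀ i j, DifferentiableOn ℂ (fun z => g z i j) {z : ℂ | 0 < z.im}
  /-- The monodromy preserves the weight filtration and acts by `ρ` on the graded pieces. -/
  M_gr : ∀ (δ : X.P) (x y : Ix kk), wt kk nn y ≤ wt kk nn x → M δ x y = RR kk (ρ δ) x y
  /-- The Hodge filtration descends to `X`. -/
  equiv : ∀ (δ : X.P) (z : ℍ) (a : ℤ),
    Fl (pp kk nn) (g (((δ : SL(2, ℝ)) • z : ℍ) : ℂ) *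
      fr kk (τ ((δ : SL(2, ℝ)) • z))) a =
    (Fl (pp kk nn) (g (z : ℂ) * fr kk (τ z)) a).map
      (Matrix.mulVecLin ((M δ).map (algebraMap ℚ ℂ)))
  /-- Griffiths transversality. -/
  transversal : ∀ z : ℂ, 0 < z.im → ∀ j,
    (fun i => deriv (fun w : ℂ => (g w * fr kk (τ (ofComplex w))) i j) z) ∈
      Fl (pp kk nn) (g z * fr kk (τ (ofComplex z))) (pp kk nn j - 1)
  /-- Admissibility: near each puncture, on every sector, the Hodge filtration is the image of the
  Hodge filtration of the graded pieces under a unipotent matrix which grows at most like a power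
  of the logarithm of the coordinate. -/
  growth : ∀ (s : ℂ → ℍ) (Y : ℝ), X.IsEnd s Y → ∀ M : ℝ, ∃ (C : ℝ) (N : ℕ), ∀ ζ : ℂ,
    |ζ.re| ≤ M → Y + 1 ≤ ζ.im → ∃ A : Matrix (Ix kk) (Ix kk) ℂ, Un (wt kk nn) A ∧
      (∀ a, Fl (pp kk nn) (A * fr kk (τ (s ζ))) a =
        Fl (pp kk nn) (g (s ζ : ℂ) * fr kk (τ (s ζ))) a) ∧
      ∀ x y, ‖A x y‖ ≤ C * (1 + |ζ.im|) ^ N

namespace EllVar

variable {X : Curve} {kk : J → ℕ} {nn : J → ℤ} (V : EllVar X kk nn)

/-- The period matrix: the Hodge filtration at `z` is spanned by its columns. -/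
noncomputable def Φ (z : ℂ) : Matrix (Ix kk) (Ix kk) ℂ := V.g z * fr kk (V.τ (ofComplex z))

/-- The dimension of the Mumford-Tate group of the fibre at `z`. -/
noncomputable def mtDim (z : ℍ) : ℕ := ZQ38.mtDim (wt kk nn) (pp kk nn) (V.Φ z)

/-- The dimension of the generic Mumford-Tate group. -/
noncomputable def genericMtDim : ℕ := ⨆ z : ℍ, V.mtDim z

/-- The dimension of the Mumford-Tate domain of the fibre at `z`. -/
noncomputable def domDim (z : ℍ) : ℕ := ZQ38.domDim (wt kk nn) (pp kk nn) (V.Φ z)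

/-- The dimension of the generic Mumford-Tate domain. -/
noncomputable def genericDomDim : ℕ := ⨆ z : ℍ, V.domDim z

/-- The Hodge locus (as a subset of the upper half plane invariant under `P`). -/
def hodgeLocus : Set ℍ := {z | V.mtDim z < V.genericMtDim}

/-- The atypical locus: the special points for which the codimension of the Mumford-Tate domain in
the generic one is not `1`, the codimension of the point in the image of the period map. -/
def atypicalLocus : Set ℍ := {z | z ∈ V.hodgeLocus ∧ V.genericDomDim - V.domDim z ≠ 1}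

/-- The Lie algebra of the generic Mumford-Tate group: the smallest rational space of matrices
which contains the Lie algebras of the Mumford-Tate groups of all fibres. -/
noncomputable def gen : Submodule ℚ (Matrix (Ix kk) (Ix kk) ℚ) :=
  ⨆ z : ℍ, ZQ38.mtLie (wt kk nn) (pp kk nn) (V.Φ z)

/-- The Lie algebra of the unipotent radical: the elements of negative weight. -/
noncomputable def uni : Submodule ℚ (Matrix (Ix kk) (Ix kk) ℚ) := V.gen ⊓ Low ℚ (wt kk nn)

/-- The Lie algebra `u` of the unipotent radical has only Hodge types `(p, q)` with `p < 0` and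
`q < 0`: it meets `F⁰` in `0` at every point. -/
def NegTypes : Prop := ∀ z : ℍ, ∀ A ∈ cx V.uni, A ∈ Fend (pp kk nn) (V.Φ z) 0 → A = 0

/-- The abelianization of `u` has no quotient `ℚ(n)`: there is no subrepresentation of codimension
one in `u` which contains the commutators. -/
def NoConst : Prop := ¬ ∃ N : Submodule ℚ (Matrix (Ix kk) (Ix kk) ℚ),
  brk V.uni V.uni ≤ N ∧ N ≤ V.uni ∧ Stab V.gen N ∧
    Module.finrank ℚ N + 1 = Module.finrank ℚ V.uni

/-- `N` is a maximal proper subrepresentation of `u` which contains the commutators: `u / N` is an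
irreducible quotient of the abelianization of `u`. -/
structure IsMaxSub (N : Submodule ℚ (Matrix (Ix kk) (Ix kk) ℚ)) : Prop where
  brk_le : brk V.uni V.uni ≤ N
  le : N ≤ V.uni
  stab : Stab V.gen N
  ne : N ≠ V.uni
  max : ∀ N' : Submodule ℚ (Matrix (Ix kk) (Ix kk) ℚ), N ≤ N' → N' ≤ V.uni → Stab V.gen N' →
    N' = N ∨ N' = V.uni

/-- The abelianization of `u` is a sum of irreducible representations of the generic Mumford-Tate
group of pairwise distinct, even dimensions. -/
def DistinctEven : Prop :=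
  (∀ N N' : Submodule ℚ (Matrix (Ix kk) (Ix kk) ℚ), V.IsMaxSub N → V.IsMaxSub N' →
    Module.finrank ℚ N = Module.finrank ℚ N' → N = N') ∧
  ∀ N : Submodule ℚ (Matrix (Ix kk) (Ix kk) ℚ), V.IsMaxSub N →
    Even (Module.finrank ℚ V.uni - Module.finrank ℚ N)

end EllVar

end Pool.Agent.LibME94
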