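import Pool.Agent.LibME94.C7

/-!
ROW [ME94 E1]. Conjugation of a variation by a rational unipotent matrix `t`: the fields.

PLAN.
* `fl_map`: `Fl p G a` is the span of the columns `j` of `G` with `a ≤ p j` (see
  `Pool.Agent.LibME94.Fl_mem_iff` in B1.lean, or `Submodule.map_span` and `Set.image`):
  the column `j` of `A * G` is `A *ᵥ` the column `j` of `G`.
* `conj_M_gr`: `t⁻¹` is `Un` (`Un_inv`), `V.M δ` is `Tri` (`V.M_tri δ`) with
  `V.M δ x y = RR kk (V.ρ δ) x y` for `wt y ≤ wt x` (`V.M_gr`). In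
  `(t⁻¹ * M * t) x y = ∑ u v, t⁻¹ x u * M u v * t v y` only the terms with
  `wt x ≤ wt u ≤ wt v ≤ wt y ≤ wt x` survive, so all weights are equal, hence u = x and v = y
  because `t`, `t⁻¹` are `Un`. (Two steps: first `(t⁻¹ * M) x y = M x y` for `wt y ≤ wt x`, and
  `t⁻¹ * M` vanishes for `wt y < wt x`; then the product with `t`.)
* `conj_equiv`: `V.equiv δ z a` + `fl_map` + `Submodule.map_comp`, `Matrix.mulVecLin_mul`:
  `qc (t⁻¹ * M * t) * (qc t⁻¹ * G) = qc t⁻¹ * (qc M * G)` (`qc_mul` is in C8.lean: do not import it,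
  use `Matrix.map_mul`; `ZQ38.Un.isUnit ht`).
-/

open Matrix Polynomial UpperHalfPlane
open scoped MatrixGroups ComplexConjugate
open MW38 (Fl Tri dg)
open ZQ38 (Un Low cx Fend brk Stab GrP PG Dwt An DelH IsLie mtLie oP oQ dgR mem_cx_iff adm Lm HH)
open Pool.Agent.LibUB33 (Curve)
open Pool.Agent.LibEis68 (sl sl_bracket act form hvec form_linearIndependent sl_mulVec_form
  form_span sl_raise sl_lower)

namespace Pool.Agent.LibME94

variable {J : Type} [Fintype J] [DecidableEq J] {kk : J → ℕ} {nn : J → ℤ} {X : Curve}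

theorem fl_map {ι : Type} [Fintype ι] [DecidableEq ι] (p : ι → ℤ) (A G : Matrix ι ι ℂ) (a : ℤ) :
    Fl p (A * G) a = (Fl p G a).map (Matrix.mulVecLin A) := by
  ext v
  rw [Submodule.mem_map, Fl_mem_iff]
  constructor
  · rintro ⟨u, hu, rfl⟩
    refine ⟨G *ᵥ u, (Fl_mem_iff a _).2 ⟨u, hu, rfl⟩, ?_⟩
    rw [Matrix.mulVecLin_apply, Matrix.mulVec_mulVec]
  · rintro ⟨w, hw, rfl⟩
    obtain ⟨u, hu, rfl⟩ := (Fl_mem_iff a _).1 hw
    refine ⟨u, hu, ?_⟩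
    rw [Matrix.mulVecLin_apply, Matrix.mulVec_mulVec]

namespace EllVar

variable (V : EllVar X kk nn)

theorem conj_M_gr {t : Matrix (Ix kk) (Ix kk) ℚ} (ht : Un (wt kk nn) t) (δ : X.P) (x y : Ix kk)
    (h : wt kk nn y ≤ wt kk nn x) : (t⁻¹ * V.M δ * t) x y = RR kk (V.ρ δ) x y := by
  have h1 : t⁻¹ * V.M δ * t = V.M δ + ((t⁻¹ - 1) * V.M δ * t + V.M δ * (t - 1)) := by
    noncomm_ring
  have h2 : (t⁻¹ - 1) * V.M δ * t + V.M δ * (t - 1) ∈ Low ℚ (wt kk nn) := by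
    refine (Low ℚ (wt kk nn)).add_mem ?_ ?_
    · exact low_mul_right (Un_tri ht) (low_mul_right (V.M_tri δ) (Un_sub_one (Un_inv ht)))
    · exact low_mul_left (V.M_tri δ) (Un_sub_one ht)
  rw [h1, Matrix.add_apply, h2 x y h, add_zero, V.M_gr δ x y h]

theorem conj_equiv {t : Matrix (Ix kk) (Ix kk) ℚ} (ht : Un (wt kk nn) t) (δ : X.P) (z : ℍ)
    (a : ℤ) :
    Fl (pp kk nn) (qc t⁻¹ * V.g (((δ : SL(2, ℝ)) • z : ℍ) : ℂ) *
      fr kk (V.τ ((δ : SL(2, ℝ)) • z))) a =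
    (Fl (pp kk nn) (qc t⁻¹ * V.g (z : ℂ) * fr kk (V.τ z)) a).map
      (Matrix.mulVecLin ((t⁻¹ * V.M δ * t).map (algebraMap ℚ ℂ))) := by
  have hu := (Matrix.isUnit_iff_isUnit_det _).1 (ZQ38.Un.isUnit ht)
  have h1 : (t⁻¹ * V.M δ * t).map (algebraMap ℚ ℂ) * qc t⁻¹ =
      qc t⁻¹ * (V.M δ).map (algebraMap ℚ ℂ) := by
    unfold qc
    rw [← Matrix.map_mul, ← Matrix.map_mul, Matrix.mul_nonsing_inv_cancel_right _ _ hu]
  rw [Matrix.mul_assoc (qc t⁻¹), Matrix.mul_assoc (qc t⁻¹), fl_map, V.equiv δ z a,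
    fl_map _ (qc t⁻¹), ← Submodule.map_comp, ← Submodule.map_comp, ← Matrix.mulVecLin_mul,
    ← Matrix.mulVecLin_mul, h1]

end EllVar

end Pool.Agent.LibME94
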