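import Pool.Agent.LibME94.C7
import Pool.Agent.LibME94.E1

/-!
ROW [ME94 E2]. Conjugation of a variation by a rational unipotent matrix `t`: the analytic fields.

PLAN.
* `qc_un`: entries; `qc A = A.map (algebraMap ℚ ℂ)` (see C7 / ADef for `qc`).
* `conj_trans`: `g` and `fr kk (τ (ofComplex w))` are entrywise differentiable at `z`
  (`V.Φ_hol` in C2.lean: `V.Φ z = V.g z * fr kk (V.τ (ofComplex z))`), so the derivative of
  `(qc t⁻¹ * g w * fr ..) i j = ∑ l, (qc t⁻¹) i l * (V.Φ w) l j` is `qc t⁻¹ *ᵥ` the derivative of the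
  column `j` of `Φ`; apply `V.transversal` and `fl_map` (from E1).
* `conj_growth`: `A' = qc t⁻¹ * A`; `bd_mul` in B3.lean bounds the entries of a product.
-/

open Matrix Polynomial UpperHalfPlane
open scoped MatrixGroups ComplexConjugate
open MW38 (Fl Tri dg)
open ZQ38 (Un Low cx Fend brk Stab GrP PG Dwt An DelH IsLie mtLie oP oQ dgR mem_cx_iff adm Lm HH)
open Pool.Agent.LibUB33 (Curve)
open Pool.Agent.LibEis68 (sl sl_bracket act form hvec form_linearIndependent sl_mulVec_form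
  form_span sl_raise sl_lower)

namespace Pool.Agent.LibME94

variable {J : Type} [Fintype J] [DecidableEq J] {kk : J → ℕ} {nn : J → ℤ} {X : Curve}

theorem qc_un {t : Matrix (Ix kk) (Ix kk) ℚ} (ht : Un (wt kk nn) t) : Un (wt kk nn) (qc t) := by
  intro i j h
  show algebraMap ℚ ℂ (t i j) = _
  rw [ht i j h]
  split_ifs
  · exact map_one _
  · exact map_zero _

namespace EllVar

variable (V : EllVar X kk nn)

theorem conj_hol (t : Matrix (Ix kk) (Ix kk) ℚ) (i j : Ix kk) :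
    DifferentiableOn ℂ (fun z => (qc t * V.g z) i j) {z : ℂ | 0 < z.im} := by
  simp only [Matrix.mul_apply]
  exact DifferentiableOn.fun_sum fun k _ => (V.g_hol k j).const_mul _

theorem conj_trans (t : Matrix (Ix kk) (Ix kk) ℚ) (z : ℂ) (hz : 0 < z.im) (j : Ix kk) :
    (fun i => deriv (fun w : ℂ => (qc t * V.g w * fr kk (V.τ (ofComplex w))) i j) z) ∈
      Fl (pp kk nn) (qc t * V.g z * fr kk (V.τ (ofComplex z))) (pp kk nn j - 1) := by
  have hopen : IsOpen {z : ℂ | 0 < z.im} := isOpen_lt continuous_const Complex.continuous_im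
  have hd : ∀ l : Ix kk, DifferentiableAt ℂ (fun w => V.Φ w l j) z := fun l =>
    (V.Φ_hol l j).differentiableAt (hopen.mem_nhds hz)
  have h1 : (fun i => deriv (fun w : ℂ => (qc t * V.g w * fr kk (V.τ (ofComplex w))) i j) z) =
      qc t *ᵥ fun l => deriv (fun w : ℂ => V.Φ w l j) z := by
    funext i
    have h2 : (fun w : ℂ => (qc t * V.g w * fr kk (V.τ (ofComplex w))) i j) =
        fun w => ∑ l, qc t i l * V.Φ w l j := by
      funext w
      rw [Matrix.mul_assoc, Matrix.mul_apply]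
      rfl
    have h3 : HasDerivAt (fun w => ∑ l, qc t i l * V.Φ w l j)
        (∑ l, qc t i l * deriv (fun w => V.Φ w l j) z) z :=
      HasDerivAt.fun_sum fun l _ => (hd l).hasDerivAt.const_mul _
    rw [h2, h3.deriv]
    rfl
  rw [h1, Matrix.mul_assoc, fl_map]
  exact ⟨_, V.transversal z hz j, rfl⟩

theorem conj_growth {t : Matrix (Ix kk) (Ix kk) ℚ} (ht : Un (wt kk nn) t) (s : ℂ → ℍ) (Y : ℝ)
    (hE : X.IsEnd s Y) (M : ℝ) : ∃ (C : ℝ) (N : ℕ), ∀ ζ : ℂ,
    |ζ.re| ≤ M → Y + 1 ≤ ζ.im → ∃ A : Matrix (Ix kk) (Ix kk) ℂ, Un (wt kk nn) A ∧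
      (∀ a, Fl (pp kk nn) (A * fr kk (V.τ (s ζ))) a =
        Fl (pp kk nn) (qc t * V.g (s ζ : ℂ) * fr kk (V.τ (s ζ))) a) ∧
      ∀ x y, ‖A x y‖ ≤ C * (1 + |ζ.im|) ^ N := by
  obtain ⟨C, N, h⟩ := V.growth s Y hE M
  set a : ℝ := ∑ x, ∑ y, ‖qc t x y‖ with ha
  have ha0 : 0 ≤ a := Finset.sum_nonneg fun x _ => Finset.sum_nonneg fun y _ => norm_nonneg _
  have ha1 : ∀ x y, ‖qc t x y‖ ≤ a := fun x y =>
    (Finset.single_le_sum (f := fun y => ‖qc t x y‖) (fun y _ => norm_nonneg _)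
      (Finset.mem_univ y)).trans
    (Finset.single_le_sum (f := fun x => ∑ y, ‖qc t x y‖)
      (fun x _ => Finset.sum_nonneg fun y _ => norm_nonneg _) (Finset.mem_univ x))
  refine ⟨Fintype.card (Ix kk) * (a * C), N, fun ζ h1 h2 => ?_⟩
  obtain ⟨A, hA, hF, hb⟩ := h ζ h1 h2
  refine ⟨qc t * A, Un_mul (qc_un ht) hA, fun b => ?_, fun x y => ?_⟩
  · rw [Matrix.mul_assoc, fl_map, hF b, ← fl_map, Matrix.mul_assoc]
  · have h3 := bd_mul (Ix kk) (qc t) A a (C * (1 + |ζ.im|) ^ N) ha0 ha1 hb x y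
    refine h3.trans (le_of_eq ?_)
    ring

end EllVar

end Pool.Agent.LibME94
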