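import Pool.Agent.LibME94.C7

/-!
ROW [ME94 E3]. A rational triangular matrix `A` whose graded part is the diagonal matrix of the
weights is conjugate to it by a unipotent rational matrix.

PLAN. By induction on `m : ℕ` (m ≥ 1) one has a unipotent `t` with `t⁻¹ * A * t - D` in
`LE d (-m)` (C7.lean: `LE d v B` means `B x y = 0` whenever `v < d x - d y`; `LE.mul`, `LE.add`,
`LE_of_cmp`, `un_of_low`, `Un_mul`, `Un_inv`), where `D = Matrix.diagonal fun x => (d x : ℚ)`.
m = 1: t = 1, `A - D` is in `Low` (entries). Step: let `C = t⁻¹ A t - D`, `n = (1/m) • cmp d (-m) C`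
(the weight `-m` part of `C`), `t' = t (1 + n)`. Since `D n - n D = -m n` (`ad_diag`/`eig_iff` in
A1.lean), `(D + C)(1+n) - (1+n)(D + [C - cmp (-m) C]) ` is in `LE (-m-1)`:
`(D+C)(1+n) - (1+n)D = C + C n + (D n - n D) = C - m n + C n = (C - cmp (-m) C) + C n` in `LE (-m-1)`,
so `t'⁻¹ A t' - D = (1+n)⁻¹ ((D+C)(1+n) - (1+n) D)` in `LE (-m-1)` (as `(1+n)⁻¹` is `Un`, hence
`LE 0`). Finally for `m` larger than all `d y - d x`, `LE d (-m) B` implies `B = 0`.
-/

open Matrix Polynomial UpperHalfPlane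
open scoped MatrixGroups ComplexConjugate
open MW38 (Fl Tri dg)
open ZQ38 (Un Low cx Fend brk Stab GrP PG Dwt An DelH IsLie mtLie oP oQ dgR mem_cx_iff adm Lm HH)
open Pool.Agent.LibUB33 (Curve)
open Pool.Agent.LibEis68 (sl sl_bracket act form hvec form_linearIndependent sl_mulVec_form
  form_span sl_raise sl_lower)

namespace Pool.Agent.LibME94

variable {J : Type} [Fintype J] [DecidableEq J] {kk : J → ℕ} {nn : J → ℤ} {X : Curve}

private theorem E3_le_of_un {ι : Type} [Fintype ι] [DecidableEq ι] {d : ι → ℤ}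
    {m : Matrix ι ι ℚ} (hm : Un d m) : LE d 0 m := by
  intro x y h
  rw [hm x y (by omega), if_neg]
  rintro rfl
  omega

private theorem E3_step {ι : Type} [Fintype ι] [DecidableEq ι] {d : ι → ℤ} {A : Matrix ι ι ℚ}
    (m : ℕ) (hm : 1 ≤ m) (t : Matrix ι ι ℚ) (ht : Un d t)
    (hC : LE d (-(m : ℤ)) (t⁻¹ * A * t - Matrix.diagonal (fun x => (d x : ℚ)))) :
    ∃ t' : Matrix ι ι ℚ, Un d t' ∧
      LE d (-((m + 1 : ℕ) : ℤ)) (t'⁻¹ * A * t' - Matrix.diagonal (fun x => (d x : ℚ))) := by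
  set D : Matrix ι ι ℚ := Matrix.diagonal (fun x => (d x : ℚ)) with hD
  set C := t⁻¹ * A * t - D with hCdef
  set n : Matrix ι ι ℚ := (m : ℚ)⁻¹ • cmp d (-(m : ℤ)) C with hn
  have hm0 : (m : ℚ) ≠ 0 := by
    have : m ≠ 0 := by omega
    exact_mod_cast this
  have hcn : cmp d (-(m : ℤ)) n = n := by
    ext x y
    rw [hn, cmp_apply, Matrix.smul_apply, cmp_apply]
    split_ifs <;> simp
  have hnle : LE d (-(m : ℤ)) n := LE_of_cmp hcn
  have hnlow : n ∈ Low ℚ d := low_of_LE (hnle.mono (by omega))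
  have hu : Un d (1 + n) := un_of_low hnlow
  have hd1 := (Matrix.isUnit_iff_isUnit_det _).1 (ZQ38.Un.isUnit hu)
  refine ⟨t * (1 + n), Un_mul ht hu, ?_⟩
  have had : D * n - n * D = -cmp d (-(m : ℤ)) C := by
    have h1 := (eig_iff (R := ℚ) d (-(m : ℤ)) n).2 hcn
    rw [ad_apply, ← hD] at h1
    rw [h1, hn, smul_smul]
    push_cast
    rw [neg_mul, mul_inv_cancel₀ hm0, neg_one_smul]
  have hA : t⁻¹ * A * t = D + C := by
    rw [hCdef]
    abel
  have e1 : (t * (1 + n))⁻¹ * A * (t * (1 + n)) - D =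
      (1 + n)⁻¹ * ((C - cmp d (-(m : ℤ)) C) + C * n) := by
    have e2 : (C - cmp d (-(m : ℤ)) C) + C * n = (D + C) * (1 + n) - (1 + n) * D := by
      have e3 : (D + C) * (1 + n) - (1 + n) * D = C + C * n + (D * n - n * D) := by
        noncomm_ring
      rw [e3, had]
      abel
    rw [e2, Matrix.mul_inv_rev, ← hA, Matrix.mul_sub, Matrix.nonsing_inv_mul_cancel_left _ _ hd1]
    simp only [Matrix.mul_assoc]
  rw [e1]
  have h2 : LE d (-((m + 1 : ℕ) : ℤ)) ((C - cmp d (-(m : ℤ)) C) + C * n) := by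
    refine LE.add ?_ ?_
    · intro x y hxy
      rw [Matrix.sub_apply, cmp_apply]
      push_cast at hxy
      split_ifs with h3
      · rw [sub_self]
      · rw [hC x y (by omega), sub_zero]
    · have h3 := LE.mul hC (LE_of_low hnlow)
      refine h3.mono ?_
      push_cast
      omega
  have h4 := LE.mul (E3_le_of_un (Un_inv hu)) h2
  exact h4.mono (by omega)

theorem exists_t {ι : Type} [Fintype ι] [DecidableEq ι] {d : ι → ℤ} {A : Matrix ι ι ℚ}
    (hA : A - Matrix.diagonal (fun x => (d x : ℚ)) ∈ Low ℚ d) :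
    ∃ t : Matrix ι ι ℚ, Un d t ∧ t⁻¹ * A * t = Matrix.diagonal (fun x => (d x : ℚ)) := by
  have key : ∀ m : ℕ, ∃ t : Matrix ι ι ℚ, Un d t ∧
      LE d (-((m + 1 : ℕ) : ℤ)) (t⁻¹ * A * t - Matrix.diagonal (fun x => (d x : ℚ))) := by
    intro m
    induction m with
    | zero =>
      refine ⟨1, ?_, ?_⟩
      · intro x y _
        rw [Matrix.one_apply]
      · rw [inv_one, Matrix.one_mul, Matrix.mul_one]
        refine (LE_of_low hA).mono ?_
        simp
    | succ m ih =>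
      obtain ⟨t, ht, hC⟩ := ih
      exact E3_step (m + 1) (by omega) t ht hC
  obtain ⟨N, hN⟩ := ZQ38.B05b_J d
  obtain ⟨t, ht, hC⟩ := key N
  refine ⟨t, ht, ?_⟩
  have h1 : t⁻¹ * A * t - Matrix.diagonal (fun x => (d x : ℚ)) = 0 := by
    ext x y
    rw [Matrix.zero_apply]
    refine hC x y ?_
    have h2 := hN y x
    push_cast
    omega
  exact sub_eq_zero.1 h1

end Pool.Agent.LibME94
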