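import Pool.Agent.LibME94.C11
import Pool.Agent.LibME94.E1
import Pool.Agent.LibME94.E2

/-!
ROW [ME94 E4]. Conjugation of a variation by a rational unipotent matrix `t`: the Mumford-Tate
Lie algebras.

PLAN. `(V.cj ht).Φ z = qc t⁻¹ * V.Φ z` (mul_assoc), so `fl_map` gives the hypothesis `hF` of
`ZQ38.mtLie_conj` with `g = t⁻¹`: `M ∈ mtLie (Φ') ↔ (t⁻¹)⁻¹ * M * t⁻¹ ∈ mtLie Φ`. (`t⁻¹` is `Un`
by `Un_inv`, so a unit by `ZQ38.Un.isUnit`, and `Tri` by `Un_tri`.)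
* `cj_gen`: `gen = ⨆ z : ℍ, mtLie (Φ z)`; easiest: both are attained/bounded: use
  `V.gen_eq` (C2.lean: `∃ z₀ ∈ Om, V.gen = mtLie (V.Φ z₀)`) and `V.le_gen` for `V` and for `V.cj ht`.
* `cj_uni`: `uni = gen ⊓ Low`; `low_conj` in C7.lean (`m * A * m⁻¹ ∈ Low` for `m` Un, `A ∈ Low`).
* `cj_dim`: `M ↦ t * M * t⁻¹` is a `ℚ`-linear bijection: `LinearEquiv.finrank_map_eq`,
  or `LinearEquiv.ofSubmodule..`.
* `cj_dom`: `domDim = finrank ℂ ((cx (mtLie ..)).map (Fend p Φ 0).mkQ)`. Complexify `cj_mt`: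
  `A ∈ cx (mtLie Φ') ↔ qc t * A * qc t⁻¹ ∈ cx (mtLie Φ)` (`mem_cx_iff`, B01.lean: for
  `f : ℂ →ₗ[ℚ] ℚ`, `(qc t * A * qc t⁻¹).map f = t * A.map f * t⁻¹`), and
  `A ∈ Fend p Φ' 0 ↔ qc t * A * qc t⁻¹ ∈ Fend p Φ 0` (from `fl_map`). Then use
  `finrank ((L).map W.mkQ) = finrank L - finrank (L ⊓ W)` (e.g. `LinearMap.finrank_range_add_finrank_ker`
  for `W.mkQ.domRestrict L`) or transport the quotient by the linear equivalence
  (`Submodule.Quotient.equiv`).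
-/

open Matrix Polynomial UpperHalfPlane
open scoped MatrixGroups ComplexConjugate
open MW38 (Fl Tri dg)
open ZQ38 (Un Low cx Fend brk Stab GrP PG Dwt An DelH IsLie mtLie oP oQ dgR mem_cx_iff adm Lm HH)
open Pool.Agent.LibUB33 (Curve)
open Pool.Agent.LibEis68 (sl sl_bracket act form hvec form_linearIndependent sl_mulVec_form
  form_span sl_raise sl_lower)

namespace Pool.Agent.LibME94

variable {J : Type} [Fintype J] [DecidableEq J] {kk : J → ℕ} {nn : J → ℤ} {X : Curve}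

/-- conjugation by a matrix -/
noncomputable def E4_eqv {R : Type*} [CommRing R] {ι : Type} [Fintype ι] [DecidableEq ι]
    (g h : Matrix ι ι R) (h1 : g * h = 1) (h2 : h * g = 1) :
    Matrix ι ι R ≃ₗ[R] Matrix ι ι R where
  toFun M := g * M * h
  map_add' M N := by rw [Matrix.mul_add, Matrix.add_mul]
  map_smul' c M := by rw [Matrix.mul_smul, Matrix.smul_mul, RingHom.id_apply]
  invFun M := h * M * g
  left_inv M := by
    calc h * (g * M * h) * g = (h * g) * M * (h * g) := by simp only [Matrix.mul_assoc]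
      _ = M := by rw [h2, Matrix.one_mul, Matrix.mul_one]
  right_inv M := by
    calc g * (h * M * g) * h = (g * h) * M * (g * h) := by simp only [Matrix.mul_assoc]
      _ = M := by rw [h1, Matrix.one_mul, Matrix.mul_one]

theorem E4_map {R : Type*} [CommRing R] {M : Type*} [AddCommGroup M] [Module R M]
    (e : M ≃ₗ[R] M) (P Q : Submodule R M) (h : ∀ A, A ∈ P ↔ e A ∈ Q) :
    P.map (e : M →ₗ[R] M) = Q := by
  ext B
  rw [Submodule.mem_map]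
  constructor
  · rintro ⟨A, hA, rfl⟩
    exact (h A).1 hA
  · intro hB
    refine ⟨e.symm B, (h _).2 ?_, e.apply_symm_apply B⟩
    rw [e.apply_symm_apply]
    exact hB

theorem E4_det {t : Matrix (Ix kk) (Ix kk) ℚ} (ht : Un (wt kk nn) t) : IsUnit t.det :=
  (Matrix.isUnit_iff_isUnit_det _).1 (ZQ38.Un.isUnit ht)

theorem E4_qc {t : Matrix (Ix kk) (Ix kk) ℚ} (ht : Un (wt kk nn) t) :
    qc t * qc t⁻¹ = 1 ∧ qc t⁻¹ * qc t = 1 := by
  constructor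
  · rw [← Matrix.map_mul, Matrix.mul_nonsing_inv _ (E4_det ht)]
    exact Matrix.map_one _ (map_zero _) (map_one _)
  · rw [← Matrix.map_mul, Matrix.nonsing_inv_mul _ (E4_det ht)]
    exact Matrix.map_one _ (map_zero _) (map_one _)

theorem E4_map_f {ι : Type} [Fintype ι] [DecidableEq ι] (A : Matrix ι ι ℂ) (g₁ g₂ : Matrix ι ι ℚ)
    (f : ℂ →ₗ[ℚ] ℚ) :
    (g₁.map (algebraMap ℚ ℂ) * A * g₂.map (algebraMap ℚ ℂ)).map f = g₁ * A.map f * g₂ := by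
  ext i j
  rw [Matrix.map_apply, Matrix.mul_apply, Matrix.mul_apply, map_sum]
  refine Finset.sum_congr rfl fun l _ => ?_
  rw [Matrix.mul_apply, Matrix.mul_apply, Finset.sum_mul, Finset.sum_mul, map_sum]
  refine Finset.sum_congr rfl fun m _ => ?_
  rw [Matrix.map_apply, Matrix.map_apply, Matrix.map_apply]
  have h1 : algebraMap ℚ ℂ (g₁ i m) * A m l * algebraMap ℚ ℂ (g₂ l j) =
      (g₁ i m * g₂ l j) • A m l := by
    rw [Algebra.smul_def, map_mul]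
    ring
  rw [h1, map_smul, smul_eq_mul]
  ring

namespace EllVar

variable (V : EllVar X kk nn) {t : Matrix (Ix kk) (Ix kk) ℚ}

/-- the same variation, written in the flat basis changed by `t` -/
noncomputable def cj (ht : Un (wt kk nn) t) : EllVar X kk nn where
  ρ := V.ρ
  τ := V.τ
  g := fun z => qc t⁻¹ * V.g z
  M := fun δ => t⁻¹ * V.M δ * t
  τ_hol := V.τ_hol
  τ_nonconst := V.τ_nonconst
  τ_equiv := V.τ_equiv
  g_un := fun z hz => Un_mul (qc_un (Un_inv ht)) (V.g_un z hz)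
  g_hol := V.conj_hol t⁻¹
  M_gr := V.conj_M_gr ht
  equiv := V.conj_equiv ht
  transversal := V.conj_trans t⁻¹
  growth := V.conj_growth (Un_inv ht)

theorem cj_Φ (ht : Un (wt kk nn) t) (z : ℂ) : (V.cj ht).Φ z = qc t⁻¹ * V.Φ z := by
  show qc t⁻¹ * V.g z * fr kk (V.τ (ofComplex z)) = qc t⁻¹ * (V.g z * fr kk (V.τ (ofComplex z)))
  exact Matrix.mul_assoc _ _ _

theorem E4_hF (ht : Un (wt kk nn) t) (z : ℂ) (a : ℤ) :
    Fl (pp kk nn) ((V.cj ht).Φ z) a =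
      (Fl (pp kk nn) (V.Φ z) a).map (Matrix.mulVecLin (qc t⁻¹)) := by
  rw [V.cj_Φ ht z]
  exact fl_map _ _ _ _

theorem cj_mt (ht : Un (wt kk nn) t) (z : ℂ) (A : Matrix (Ix kk) (Ix kk) ℚ) :
    A ∈ mtLie (wt kk nn) (pp kk nn) ((V.cj ht).Φ z) ↔
      t * A * t⁻¹ ∈ mtLie (wt kk nn) (pp kk nn) (V.Φ z) := by
  have h1 := ZQ38.mtLie_conj (wt := wt kk nn) (p := pp kk nn) (Φ := V.Φ z)
    (Φ' := (V.cj ht).Φ z) (ZQ38.Un.isUnit (Un_inv ht)) (Un_tri (Un_inv ht))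
    (fun a => V.E4_hF ht z a) A
  rw [Matrix.nonsing_inv_nonsing_inv t (E4_det ht)] at h1
  exact h1

theorem cj_gen (ht : Un (wt kk nn) t) (A : Matrix (Ix kk) (Ix kk) ℚ) :
    A ∈ (V.cj ht).gen ↔ t * A * t⁻¹ ∈ V.gen := by
  constructor
  · intro hA
    obtain ⟨z, hz, h⟩ := (V.cj ht).gen_eq
    rw [h] at hA
    exact V.le_gen hz ((V.cj_mt ht z A).1 hA)
  · intro hA
    obtain ⟨z, hz, h⟩ := V.gen_eq
    rw [h] at hA
    exact (V.cj ht).le_gen hz ((V.cj_mt ht z A).2 hA)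

theorem cj_uni (ht : Un (wt kk nn) t) (A : Matrix (Ix kk) (Ix kk) ℚ) :
    A ∈ (V.cj ht).uni ↔ t * A * t⁻¹ ∈ V.uni := by
  constructor
  · rintro ⟨h1, h2⟩
    exact ⟨(V.cj_gen ht A).1 h1, low_conj ht h2⟩
  · rintro ⟨h1, h2⟩
    refine ⟨(V.cj_gen ht A).2 h1, ?_⟩
    have h3 := low_conj (Un_inv ht) h2
    have h4 : t⁻¹ * (t * A * t⁻¹) * t⁻¹⁻¹ = A := by
      rw [Matrix.nonsing_inv_nonsing_inv t (E4_det ht)]
      calc t⁻¹ * (t * A * t⁻¹) * t = (t⁻¹ * t) * A * (t⁻¹ * t) := by simp only [Matrix.mul_assoc]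
        _ = A := by rw [Matrix.nonsing_inv_mul _ (E4_det ht), Matrix.one_mul, Matrix.mul_one]
    rw [h4] at h3
    exact h3

theorem cj_dim (ht : Un (wt kk nn) t) (z : ℍ) : (V.cj ht).mtDim z = V.mtDim z := by
  have h1 := E4_map (E4_eqv t t⁻¹ (Matrix.mul_nonsing_inv _ (E4_det ht))
    (Matrix.nonsing_inv_mul _ (E4_det ht)))
    (mtLie (wt kk nn) (pp kk nn) ((V.cj ht).Φ z)) (mtLie (wt kk nn) (pp kk nn) (V.Φ z))
    (V.cj_mt ht z)
  show Module.finrank ℚ (mtLie (wt kk nn) (pp kk nn) ((V.cj ht).Φ z)) =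
    Module.finrank ℚ (mtLie (wt kk nn) (pp kk nn) (V.Φ z))
  rw [← h1]
  exact (LinearEquiv.finrank_map_eq _ _).symm

theorem E4_cx (ht : Un (wt kk nn) t) (z : ℂ) (A : Matrix (Ix kk) (Ix kk) ℂ) :
    A ∈ cx (mtLie (wt kk nn) (pp kk nn) ((V.cj ht).Φ z)) ↔
      qc t * A * qc t⁻¹ ∈ cx (mtLie (wt kk nn) (pp kk nn) (V.Φ z)) := by
  rw [mem_cx_iff, mem_cx_iff]
  refine forall_congr' fun f => ?_
  rw [V.cj_mt ht z, E4_map_f]

theorem E4_fend (ht : Un (wt kk nn) t) (z : ℂ) (A : Matrix (Ix kk) (Ix kk) ℂ) :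
    A ∈ Fend (pp kk nn) ((V.cj ht).Φ z) 0 ↔
      qc t * A * qc t⁻¹ ∈ Fend (pp kk nn) (V.Φ z) 0 := by
  constructor
  · intro hA a v hv
    have h1 : qc t⁻¹ *ᵥ v ∈ Fl (pp kk nn) ((V.cj ht).Φ z) a := by
      rw [V.E4_hF ht z]
      exact ⟨v, hv, rfl⟩
    have h2 := hA a _ h1
    rw [V.E4_hF ht z] at h2
    obtain ⟨w, hw, h3⟩ := h2
    have h4 : (qc t * A * qc t⁻¹) *ᵥ v = w := by
      rw [← Matrix.mulVec_mulVec, ← Matrix.mulVec_mulVec, ← h3, Matrix.mulVecLin_apply,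
        Matrix.mulVec_mulVec, (E4_qc ht).1, Matrix.one_mulVec]
    rw [h4]
    exact hw
  · intro hA a v hv
    rw [V.E4_hF ht z] at hv ⊢
    obtain ⟨w, hw, rfl⟩ := hv
    refine ⟨(qc t * A * qc t⁻¹) *ᵥ w, hA a w hw, ?_⟩
    rw [Matrix.mulVecLin_apply, Matrix.mulVecLin_apply, Matrix.mulVec_mulVec,
      Matrix.mulVec_mulVec, ← Matrix.mul_assoc, ← Matrix.mul_assoc, (E4_qc ht).2, Matrix.one_mul]

theorem cj_dom (ht : Un (wt kk nn) t) (z : ℍ) : (V.cj ht).domDim z = V.domDim z := by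
  have hW := E4_map (E4_eqv (qc t) (qc t⁻¹) (E4_qc ht).1 (E4_qc ht).2)
    (Fend (pp kk nn) ((V.cj ht).Φ z) 0) (Fend (pp kk nn) (V.Φ z) 0) (V.E4_fend ht z)
  have hL := E4_map (E4_eqv (qc t) (qc t⁻¹) (E4_qc ht).1 (E4_qc ht).2)
    (cx (mtLie (wt kk nn) (pp kk nn) ((V.cj ht).Φ z)))
    (cx (mtLie (wt kk nn) (pp kk nn) (V.Φ z))) (V.E4_cx ht z)
  have hq : ((cx (mtLie (wt kk nn) (pp kk nn) ((V.cj ht).Φ z))).map
      (Fend (pp kk nn) ((V.cj ht).Φ z) 0).mkQ).map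
      ((Submodule.Quotient.equiv _ _ (E4_eqv (qc t) (qc t⁻¹) (E4_qc ht).1 (E4_qc ht).2) hW :
        (Matrix (Ix kk) (Ix kk) ℂ ⧸ Fend (pp kk nn) ((V.cj ht).Φ z) 0) ≃ₗ[ℂ]
          (Matrix (Ix kk) (Ix kk) ℂ ⧸ Fend (pp kk nn) (V.Φ z) 0)) :
        (Matrix (Ix kk) (Ix kk) ℂ ⧸ Fend (pp kk nn) ((V.cj ht).Φ z) 0) →ₗ[ℂ]
          (Matrix (Ix kk) (Ix kk) ℂ ⧸ Fend (pp kk nn) (V.Φ z) 0)) =
      (cx (mtLie (wt kk nn) (pp kk nn) (V.Φ z))).map (Fend (pp kk nn) (V.Φ z) 0).mkQ := by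
    rw [← hL, ← Submodule.map_comp, ← Submodule.map_comp]
    rfl
  show Module.finrank ℂ ((cx (mtLie (wt kk nn) (pp kk nn) ((V.cj ht).Φ z))).map
      (Fend (pp kk nn) ((V.cj ht).Φ z) 0).mkQ) =
    Module.finrank ℂ ((cx (mtLie (wt kk nn) (pp kk nn) (V.Φ z))).map
      (Fend (pp kk nn) (V.Φ z) 0).mkQ)
  rw [← hq]
  exact (LinearEquiv.finrank_map_eq _ _).symm

end EllVar

end Pool.Agent.LibME94
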