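import Pool.Agent.LibME94.E4
import Pool.Agent.LibME94.E3

/-!
ROW [ME94 E5]. The hypotheses (NegTypes), (NoConst) for the conjugate variation; existence of a nice one.

PLAN. `cj_gen`, `cj_uni`, `cj_Φ` are in E4.lean.
* `cj_T1`: for `A ∈ cx (V.cj ht).uni`, `qc t * A * qc t⁻¹ ∈ cx V.uni` (`mem_cx_iff` and `cj_uni`),
  and `A ∈ Fend p (qc t⁻¹ * Φ) 0` gives `qc t * A * qc t⁻¹ ∈ Fend p Φ 0` (`fl_map` from E1). So
  it vanishes, and `A = 0`.
* `cj_T2` (NoConst is defined in C11.lean): given `N` for `V.cj ht`, take the image `N'` of `N` under the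
  linear equivalence `A ↦ t * A * t⁻¹` of `Matrix` (it is multiplicative): `brk V.uni V.uni ≤ N'`
  (span induction: a commutator of elements of `V.uni` is the image of a commutator of elements of
  `(V.cj ht).uni`), `N' ≤ V.uni`, `Stab V.gen N'`, same `finrank`.
* `exists_nice`: `V.gen_gr ![0,0,0,1]` (C2.lean) gives `A ∈ V.gen` with `dgR A = dr ![0,0,0,1]`
  (`dr_D` in A1.lean: this is the diagonal matrix of the weights), so `A - diagonal` is in `Low`
  (`low_of_dgR`, C3.lean; `V.gen_tri`); `exists_t` (E3.lean) gives `t`; `cj_gen` with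
  `t * (t⁻¹ * A * t) * t⁻¹ = A`.
-/

open Matrix Polynomial UpperHalfPlane
open scoped MatrixGroups ComplexConjugate
open MW38 (Fl Tri dg)
open ZQ38 (Un Low cx Fend brk Stab GrP PG Dwt An DelH IsLie mtLie oP oQ dgR mem_cx_iff adm Lm HH)
open Pool.Agent.LibUB33 (Curve)
open Pool.Agent.LibEis68 (sl sl_bracket act form hvec form_linearIndependent sl_mulVec_form
  form_span sl_raise sl_lower)

namespace Pool.Agent.LibME94

variable {J : Type} [Fintype J] [DecidableEq J] {kk : J → ℕ} {nn : J → ℤ} {X : Curve}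

private theorem E5_map {ι : Type} [Fintype ι] (s t : Matrix ι ι ℚ) (A : Matrix ι ι ℂ)
    (f : ℂ →ₗ[ℚ] ℚ) : (qc s * A * qc t).map f = s * A.map f * t := by
  ext x y
  simp only [Matrix.map_apply, Matrix.mul_apply, map_sum, Finset.sum_mul, eq_ratCast]
  refine Finset.sum_congr rfl fun v _ => Finset.sum_congr rfl fun u _ => ?_
  have h1 : (s x u : ℂ) * A u v * (t v y : ℂ) = (s x u * t v y : ℚ) • A u v := by
    rw [Algebra.smul_def]
    simp only [eq_ratCast]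
    push_cast
    ring
  rw [h1, map_smul, smul_eq_mul]
  ring

namespace EllVar

variable (V : EllVar X kk nn) {t : Matrix (Ix kk) (Ix kk) ℚ}

private theorem E5_mul_inv (ht : Un (wt kk nn) t) : t * t⁻¹ = 1 :=
  Matrix.mul_nonsing_inv _ ((Matrix.isUnit_iff_isUnit_det _).1 (ZQ38.Un.isUnit ht))

private theorem E5_inv_mul (ht : Un (wt kk nn) t) : t⁻¹ * t = 1 :=
  Matrix.nonsing_inv_mul _ ((Matrix.isUnit_iff_isUnit_det _).1 (ZQ38.Un.isUnit ht))

private theorem E5_qc (ht : Un (wt kk nn) t) :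
    qc t * qc t⁻¹ = 1 ∧ qc t⁻¹ * qc t = 1 := by
  unfold qc
  rw [← Matrix.map_mul, ← Matrix.map_mul, E5_mul_inv ht, E5_inv_mul ht]
  exact ⟨Matrix.map_one _ (map_zero _) (map_one _), Matrix.map_one _ (map_zero _) (map_one _)⟩

theorem cj_T1 (ht : Un (wt kk nn) t) (h : V.NegTypes) : (V.cj ht).NegTypes := by
  intro z A hA hF
  obtain ⟨e1, e2⟩ := E5_qc ht
  have h1 : qc t * A * qc t⁻¹ ∈ cx V.uni := by
    rw [mem_cx_iff] at hA ⊢
    intro f
    rw [E5_map]
    exact (V.cj_uni ht _).1 (hA f)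
  have hΦ : ∀ a, Fl (pp kk nn) ((V.cj ht).Φ z) a =
      (Fl (pp kk nn) (V.Φ z) a).map (Matrix.mulVecLin (qc t⁻¹)) := by
    intro a
    rw [V.cj_Φ ht]
    exact fl_map _ _ _ _
  have h2 : qc t * A * qc t⁻¹ ∈ Fend (pp kk nn) (V.Φ z) 0 := by
    intro a v hv
    have h3 : qc t⁻¹ *ᵥ v ∈ Fl (pp kk nn) ((V.cj ht).Φ z) a := by
      rw [hΦ]
      exact ⟨v, hv, rfl⟩
    have h4 := hF a _ h3
    rw [hΦ] at h4
    obtain ⟨w, hw, hw'⟩ := h4
    have h5 : qc t *ᵥ (qc t⁻¹ *ᵥ w) = w := by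
      rw [Matrix.mulVec_mulVec, e1, Matrix.one_mulVec]
    have h6 : (qc t * A * qc t⁻¹) *ᵥ v = w := by
      rw [← h5]
      have h7 : qc t⁻¹ *ᵥ w = A *ᵥ (qc t⁻¹ *ᵥ v) := hw'
      rw [h7, Matrix.mulVec_mulVec, Matrix.mulVec_mulVec, Matrix.mul_assoc]
    rw [h6]
    exact hw
  have h3 := h z _ h1 h2
  calc A = (qc t⁻¹ * qc t) * A * (qc t⁻¹ * qc t) := by rw [e2]; simp
    _ = qc t⁻¹ * (qc t * A * qc t⁻¹) * qc t := by simp only [Matrix.mul_assoc]
    _ = 0 := by rw [h3]; simp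

/-- conjugation as a linear equivalence -/
private noncomputable def E5_e (t : Matrix (Ix kk) (Ix kk) ℚ) (h1 : t * t⁻¹ = 1)
    (h2 : t⁻¹ * t = 1) : Matrix (Ix kk) (Ix kk) ℚ ≃ₗ[ℚ] Matrix (Ix kk) (Ix kk) ℚ where
  toFun A := t * A * t⁻¹
  invFun A := t⁻¹ * A * t
  map_add' A B := by rw [Matrix.mul_add, Matrix.add_mul]
  map_smul' c A := by rw [Matrix.mul_smul, Matrix.smul_mul]; rfl
  left_inv A := by
    calc t⁻¹ * (t * A * t⁻¹) * t = (t⁻¹ * t) * A * (t⁻¹ * t) := by simp only [Matrix.mul_assoc]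
      _ = A := by rw [h2]; simp
  right_inv A := by
    calc t * (t⁻¹ * A * t) * t⁻¹ = (t * t⁻¹) * A * (t * t⁻¹) := by simp only [Matrix.mul_assoc]
      _ = A := by rw [h1]; simp

theorem cj_T2 (ht : Un (wt kk nn) t) (h : V.NoConst) : (V.cj ht).NoConst := by
  rintro ⟨N, h1, h2, h3, h4⟩
  apply h
  have e1 := E5_mul_inv ht
  have e2 := E5_inv_mul ht
  set e := E5_e t e1 e2 with he
  have hap : ∀ A, e A = t * A * t⁻¹ := fun A => rfl
  have hsy : ∀ A, e.symm A = t⁻¹ * A * t := fun A => rfl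
  have hes : ∀ A, e (e.symm A) = A := fun A => e.apply_symm_apply A
  have hmul : ∀ A B, e (A * B) = e A * e B := by
    intro A B
    rw [hap, hap, hap]
    calc t * (A * B) * t⁻¹ = t * A * (1 : Matrix (Ix kk) (Ix kk) ℚ) * B * t⁻¹ := by
          simp only [Matrix.mul_assoc, Matrix.one_mul]
      _ = t * A * (t⁻¹ * t) * B * t⁻¹ := by rw [e2]
      _ = t * A * t⁻¹ * (t * B * t⁻¹) := by simp only [Matrix.mul_assoc]
  have hbr : ∀ A B, e (A * B - B * A) = e A * e B - e B * e A := by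
    intro A B
    rw [map_sub, hmul, hmul]
  have huni : ∀ A, A ∈ (V.cj ht).uni ↔ e A ∈ V.uni := fun A => V.cj_uni ht A
  have hgen : ∀ A, A ∈ (V.cj ht).gen ↔ e A ∈ V.gen := fun A => V.cj_gen ht A
  have huni' : V.uni = (V.cj ht).uni.map e.toLinearMap := by
    ext A
    rw [Submodule.mem_map]
    constructor
    · intro hA
      refine ⟨e.symm A, ?_, hes A⟩
      rw [huni, hes]
      exact hA
    · rintro ⟨B, hB, rfl⟩
      exact (huni B).1 hB
  refine ⟨N.map e.toLinearMap, ?_, ?_, ?_, ?_⟩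
  · unfold brk
    rw [Submodule.span_le]
    rintro _ ⟨A, hA, B, hB, rfl⟩
    refine ⟨e.symm A * e.symm B - e.symm B * e.symm A, ?_, ?_⟩
    · apply h1
      refine Submodule.subset_span ⟨e.symm A, ?_, e.symm B, ?_, rfl⟩
      · rw [huni, hes]; exact hA
      · rw [huni, hes]; exact hB
    · show e _ = _
      rw [hbr, hes, hes]
  · rintro _ ⟨B, hB, rfl⟩
    exact (huni B).1 (h2 hB)
  · rintro A hA _ ⟨B, hB, rfl⟩
    refine ⟨e.symm A * B - B * e.symm A, ?_, ?_⟩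
    · apply h3 _ _ _ hB
      rw [hgen, hes]
      exact hA
    · show e _ = _
      rw [hbr, hes]
      rfl
  · rw [huni', LinearEquiv.finrank_map_eq, LinearEquiv.finrank_map_eq]
    exact h4

theorem exists_nice : ∃ (t : Matrix (Ix kk) (Ix kk) ℚ) (ht : Un (wt kk nn) t),
    (V.cj ht).Nice := by
  obtain ⟨A, hA, hdg⟩ := V.gen_gr ![0, 0, 0, 1]
  have h1 : A - Matrix.diagonal (fun x => (wt kk nn x : ℚ)) ∈ Low ℚ (wt kk nn) := by
    rw [← dr_D]
    apply low_of_dgR (V.gen_tri A hA) (dr_tri _)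
    rw [hdg, dgR_dr]
  obtain ⟨t, ht, h2⟩ := exists_t h1
  refine ⟨t, ht, ?_⟩
  unfold Nice
  rw [cj_gen, dr_D, ← h2]
  have e1 := E5_mul_inv ht
  have h3 : t * (t⁻¹ * A * t) * t⁻¹ = A := by
    calc t * (t⁻¹ * A * t) * t⁻¹ = (t * t⁻¹) * A * (t * t⁻¹) := by simp only [Matrix.mul_assoc]
      _ = A := by rw [e1]; simp
  rw [h3]
  exact hA

end EllVar

end Pool.Agent.LibME94
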