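import Pool.Agent.LibME94.E4
import Pool.Agent.LibME94.D3

/-!
# Conjugation and maximal subrepresentations
-/

open Matrix Polynomial UpperHalfPlane
open scoped MatrixGroups ComplexConjugate
open MW38 (Fl Tri dg)
open ZQ38 (Un Low cx Fend brk Stab GrP PG Dwt An DelH IsLie mtLie oP oQ dgR mem_cx_iff adm Lm HH)
open Pool.Agent.LibUB33 (Curve)
open Pool.Agent.LibEis68 (sl sl_bracket act form hvec form_linearIndependent sl_mulVec_form
  form_span)

namespace Pool.Agent.LibME94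

variable {ι : Type} [Fintype ι] [DecidableEq ι]

/-- conjugation by an invertible matrix -/
noncomputable def cjL {t : Matrix ι ι ℚ} (ht : IsUnit t) : Matrix ι ι ℚ ≃ₗ[ℚ] Matrix ι ι ℚ where
  toFun A := t * A * t⁻¹
  invFun A := t⁻¹ * A * t
  map_add' A B := by rw [Matrix.mul_add, Matrix.add_mul]
  map_smul' r A := by
    rw [Matrix.mul_smul, Matrix.smul_mul]
    rfl
  left_inv A := by
    have hd := (Matrix.isUnit_iff_isUnit_det _).1 ht
    show t⁻¹ * (t * A * t⁻¹) * t = A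
    rw [Matrix.mul_assoc t A, Matrix.nonsing_inv_mul_cancel_left _ _ hd,
      Matrix.nonsing_inv_mul_cancel_right _ _ hd]
  right_inv A := by
    have hd := (Matrix.isUnit_iff_isUnit_det _).1 ht
    show t * (t⁻¹ * A * t) * t⁻¹ = A
    rw [Matrix.mul_assoc t⁻¹ A, Matrix.mul_nonsing_inv_cancel_left _ _ hd,
      Matrix.mul_nonsing_inv_cancel_right _ _ hd]

theorem cjL_apply {t : Matrix ι ι ℚ} (ht : IsUnit t) (A : Matrix ι ι ℚ) :
    cjL ht A = t * A * t⁻¹ := rfl

theorem cjL_symm {t : Matrix ι ι ℚ} (ht : IsUnit t) (A : Matrix ι ι ℚ) :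
    (cjL ht).symm A = t⁻¹ * A * t := rfl

theorem cjL_brk {t : Matrix ι ι ℚ} (ht : IsUnit t) (A B : Matrix ι ι ℚ) :
    cjL ht (A * B - B * A) = cjL ht A * cjL ht B - cjL ht B * cjL ht A := by
  have hd := (Matrix.isUnit_iff_isUnit_det _).1 ht
  have h1 : ∀ A B : Matrix ι ι ℚ, cjL ht (A * B) = cjL ht A * cjL ht B := by
    intro A B
    rw [cjL_apply, cjL_apply, cjL_apply]
    rw [show t * A * t⁻¹ * (t * B * t⁻¹) = t * A * (t⁻¹ * (t * (B * t⁻¹))) by
      simp only [Matrix.mul_assoc]]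
    rw [Matrix.nonsing_inv_mul_cancel_left _ _ hd]
    simp only [Matrix.mul_assoc]
  rw [map_sub, h1, h1]

theorem map_brk {t : Matrix ι ι ℚ} (ht : IsUnit t) (L M : Submodule ℚ (Matrix ι ι ℚ)) :
    (brk L M).map (cjL ht).toLinearMap = brk (L.map (cjL ht).toLinearMap)
      (M.map (cjL ht).toLinearMap) := by
  unfold brk
  rw [Submodule.map_span]
  congr 1
  ext C
  constructor
  · rintro ⟨_, ⟨A, hA, B, hB, rfl⟩, rfl⟩
    exact ⟨cjL ht A, ⟨A, hA, rfl⟩, cjL ht B, ⟨B, hB, rfl⟩, cjL_brk ht A B⟩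
  · rintro ⟨_, ⟨A, hA, rfl⟩, _, ⟨B, hB, rfl⟩, rfl⟩
    exact ⟨A * B - B * A, ⟨A, hA, B, hB, rfl⟩, cjL_brk ht A B⟩

theorem map_stab {t : Matrix ι ι ℚ} (ht : IsUnit t) {L M : Submodule ℚ (Matrix ι ι ℚ)} :
    Stab (L.map (cjL ht).toLinearMap) (M.map (cjL ht).toLinearMap) ↔ Stab L M := by
  constructor
  · intro h A hA B hB
    obtain ⟨C, hC, h1⟩ := h (cjL ht A) ⟨A, hA, rfl⟩ (cjL ht B) ⟨B, hB, rfl⟩
    rw [← cjL_brk] at h1
    rwa [← (cjL ht).injective h1]
  · rintro h _ ⟨A, hA, rfl⟩ _ ⟨B, hB, rfl⟩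
    exact ⟨A * B - B * A, h A hA B hB, cjL_brk ht A B⟩

variable {J : Type} [Fintype J] [DecidableEq J] {kk : J → ℕ} {nn : J → ℤ} {X : Curve}

namespace EllVar

variable (V : EllVar X kk nn) {t : Matrix (Ix kk) (Ix kk) ℚ}

theorem map_gen (ht : Un (wt kk nn) t) :
    (V.cj ht).gen.map (cjL (ZQ38.Un.isUnit ht)).toLinearMap = V.gen := by
  ext A
  constructor
  · rintro ⟨B, hB, rfl⟩
    exact (V.cj_gen ht B).1 hB
  · intro hA
    refine ⟨(cjL (ZQ38.Un.isUnit ht)).symm A, ?_, (cjL (ZQ38.Un.isUnit ht)).apply_symm_apply A⟩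
    rw [SetLike.mem_coe, V.cj_gen ht]
    have := (cjL (ZQ38.Un.isUnit ht)).apply_symm_apply A
    rw [cjL_apply] at this
    rwa [this]

theorem map_uni (ht : Un (wt kk nn) t) :
    (V.cj ht).uni.map (cjL (ZQ38.Un.isUnit ht)).toLinearMap = V.uni := by
  ext A
  constructor
  · rintro ⟨B, hB, rfl⟩
    exact (V.cj_uni ht B).1 hB
  · intro hA
    refine ⟨(cjL (ZQ38.Un.isUnit ht)).symm A, ?_, (cjL (ZQ38.Un.isUnit ht)).apply_symm_apply A⟩
    rw [SetLike.mem_coe, V.cj_uni ht]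
    have := (cjL (ZQ38.Un.isUnit ht)).apply_symm_apply A
    rw [cjL_apply] at this
    rwa [this]

theorem map_max (ht : Un (wt kk nn) t) {N : Submodule ℚ (Matrix (Ix kk) (Ix kk) ℚ)}
    (h : (V.cj ht).IsMaxSub N) :
    V.IsMaxSub (N.map (cjL (ZQ38.Un.isUnit ht)).toLinearMap) where
  brk_le := by
    rw [← V.map_uni ht, ← map_brk]
    exact Submodule.map_mono h.brk_le
  le := by
    rw [← V.map_uni ht]
    exact Submodule.map_mono h.le
  stab := by
    rw [← V.map_gen ht, map_stab]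
    exact h.stab
  ne := by
    rw [← V.map_uni ht]
    intro h1
    exact h.ne (Submodule.map_injective_of_injective
      (f := (cjL (ZQ38.Un.isUnit ht)).toLinearMap) (cjL (ZQ38.Un.isUnit ht)).injective h1)
  max := by
    intro N' h1 h2 h3
    have hinj := Submodule.map_injective_of_injective
      (f := (cjL (ZQ38.Un.isUnit ht)).toLinearMap) (cjL (ZQ38.Un.isUnit ht)).injective
    have e1 : (N'.comap (cjL (ZQ38.Un.isUnit ht)).toLinearMap).map
        (cjL (ZQ38.Un.isUnit ht)).toLinearMap = N' :=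
      Submodule.map_comap_eq_of_surjective (cjL (ZQ38.Un.isUnit ht)).surjective _
    have h4 := h.max (N'.comap (cjL (ZQ38.Un.isUnit ht)).toLinearMap)
      (Submodule.map_le_iff_le_comap.1 h1) (by
        intro A hA
        have h5 : cjL (ZQ38.Un.isUnit ht) A ∈ V.uni := h2 hA
        exact (V.cj_uni ht A).2 h5) (by
        rw [← map_stab (ZQ38.Un.isUnit ht), e1, V.map_gen ht]
        exact h3)
    rcases h4 with h4 | h4
    · left
      rw [← h4, e1]
    · right
      rw [← e1, h4, V.map_uni ht]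

theorem cj_T3 (ht : Un (wt kk nn) t) (h : V.DistinctEven) : (V.cj ht).DistinctEven := by
  have hf : ∀ N : Submodule ℚ (Matrix (Ix kk) (Ix kk) ℚ), Module.finrank ℚ
      (N.map (cjL (ZQ38.Un.isUnit ht)).toLinearMap) = Module.finrank ℚ N := fun N =>
    LinearEquiv.finrank_map_eq (cjL (ZQ38.Un.isUnit ht)) N
  constructor
  · intro N N' h1 h2 h3
    have h4 := h.1 _ _ (V.map_max ht h1) (V.map_max ht h2) (by rw [hf, hf, h3])
    exact Submodule.map_injective_of_injective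
      (f := (cjL (ZQ38.Un.isUnit ht)).toLinearMap) (cjL (ZQ38.Un.isUnit ht)).injective h4
  · intro N h1
    have h4 := h.2 _ (V.map_max ht h1)
    rwa [hf, ← V.map_uni ht, hf] at h4

end EllVar

end Pool.Agent.LibME94
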