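import Pool.Agent.LibME94.C3

/-!
ROW [ME94 F1]. The decomposition of `𝔤𝔩₂(ℂ)` at a point `s` of the upper half plane.

PLAN. `hv s = ![hvec s 0 / 2, hvec s 1 / 2, hvec s 2 / 2, 1 / 2]` (B1.lean), `hvec` is defined in
`Pool.Agent.LibEis68.Defs` (`hvec s 0 = I / s.im`-like, `hvec s 1 = hvec s 0 * s.re`,
`hvec s 2 = hvec s 0 * (s * conj s)`). `decomp4`: `hv s`, `e3 - hv s`, `up s`, `dn s` are a basis of
`ℂ⁴` (the determinant is a nonzero multiple of `(s - conj s)^2`): solve the linear system by hand: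
the fourth coordinate and the 3 x 3 system with vectors `(1, s.re, s * conj s)`, `(1, s, s^2)`,
`(1, conj s, conj s ^ 2)`, determinant `± (s - conj s)^3 / 2`.
`up_brk`, `dn_brk`: `dr_bracket` in A1.lean and `hvec` (for instance
`2 * (hv s 1 * 1 - hv s 0 * s) = 1`).
-/

open Matrix Polynomial UpperHalfPlane
open scoped MatrixGroups ComplexConjugate
open MW38 (Fl Tri dg)
open ZQ38 (Un Low cx Fend brk Stab GrP PG Dwt An DelH IsLie mtLie oP oQ dgR mem_cx_iff adm Lm HH)
open Pool.Agent.LibUB33 (Curve)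
open Pool.Agent.LibEis68 (sl sl_bracket act form hvec form_linearIndependent sl_mulVec_form
  form_span sl_raise sl_lower)

namespace Pool.Agent.LibME94

variable {J : Type} [Fintype J] [DecidableEq J] {kk : J → ℕ} {nn : J → ℤ} {X : Curve}

noncomputable def up (s : ℂ) : Fin 4 → ℂ := ![1, s, s ^ 2, 0]

noncomputable def dn (s : ℂ) : Fin 4 → ℂ := ![1, conj s, conj s ^ 2, 0]

private theorem F1_w {s : ℂ} (hs : 0 < s.im) : s - conj s ≠ 0 := by
  rw [Complex.sub_conj]
  have h1 : (((2 * s.im : ℝ)) : ℂ) ≠ 0 := by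
    exact_mod_cast (by positivity : (2 * s.im : ℝ) ≠ 0)
  exact mul_ne_zero h1 Complex.I_ne_zero

private theorem F1_hv {s : ℂ} (hs : 0 < s.im) : hv s = ![-1 / (s - conj s),
    -(s + conj s) / (2 * (s - conj s)), -(s * conj s) / (s - conj s), 1 / 2] := by
  have hw := F1_w hs
  have hre : (s.re : ℂ) = (s + conj s) / 2 := Complex.re_eq_add_conj s
  have him : (s.im : ℂ) = (s - conj s) / (2 * Complex.I) := Complex.im_eq_sub_conj s
  have hI := Complex.I_ne_zero
  have hI2 : Complex.I ^ 2 = -1 := Complex.I_sq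
  funext i
  fin_cases i
  · simp only [hv, hvec, Fin.zero_eta, Matrix.cons_val_zero]
    rw [him]
    field_simp
    exact hI2
  · simp only [hv, hvec, Fin.mk_one, Matrix.cons_val_one, Matrix.cons_val_zero]
    rw [him, hre]
    field_simp
    linear_combination (s + conj s) * hI2
  · simp only [hv, hvec, Fin.reduceFinMk, Matrix.cons_val]
    rw [him, hre]
    field_simp
    linear_combination (s + conj s) ^ 2 * hI2
  · simp [hv]

theorem decomp4 {s : ℂ} (hs : 0 < s.im) (t : Fin 4 → ℂ) : ∃ a b c d : ℂ,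
    t = a • hv s + b • (![0, 0, 0, 1] - hv s) + c • up s + d • dn s := by
  have hw := F1_w hs
  rw [F1_hv hs]
  unfold up dn
  set u := conj s with hu
  refine ⟨t 3 - (s - u) * (t 0 - (t 0 * u ^ 2 - 2 * t 1 * u + t 2) / (s - u) ^ 2 -
      (t 0 * s ^ 2 - 2 * t 1 * s + t 2) / (s - u) ^ 2) / 2,
    t 3 + (s - u) * (t 0 - (t 0 * u ^ 2 - 2 * t 1 * u + t 2) / (s - u) ^ 2 -
      (t 0 * s ^ 2 - 2 * t 1 * s + t 2) / (s - u) ^ 2) / 2,
    (t 0 * u ^ 2 - 2 * t 1 * u + t 2) / (s - u) ^ 2,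
    (t 0 * s ^ 2 - 2 * t 1 * s + t 2) / (s - u) ^ 2, ?_⟩
  funext i
  fin_cases i
  · simp
    field_simp
    ring
  · simp
    field_simp
    ring
  · simp
    field_simp
    ring
  · simp
    ring

theorem up_brk {s : ℂ} (hs : 0 < s.im) :
    ad (dr kk nn (hv s)) (dr kk nn (up s)) = dr kk nn (up s) := by
  have hw := F1_w hs
  rw [dr_bracket, F1_hv hs]
  congr 1
  unfold up
  funext i
  fin_cases i
  · simp
    field_simp
    ring
  · simp
    field_simp
    ring
  · simp
    field_simp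
    ring
  · simp

theorem dn_brk {s : ℂ} (hs : 0 < s.im) :
    ad (dr kk nn (hv s)) (dr kk nn (dn s)) = -dr kk nn (dn s) := by
  have hw := F1_w hs
  rw [dr_bracket, F1_hv hs, ← dr_neg]
  congr 1
  unfold dn
  funext i
  fin_cases i
  · simp
    field_simp
    ring
  · simp
    field_simp
    ring
  · simp
    field_simp
    ring
  · simp

end Pool.Agent.LibME94
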