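import Pool.Agent.LibME94.F1
import Pool.Agent.LibME94.C4

/-!
ROW [ME94 F2]. Lifting `up` to an element of `F⁰` of the generic Lie algebra.

PLAN.
* `exists_lift`: `V.gen_gr` (C2.lean) complexified: every `dr t`, `t : Fin 4 → ℂ`, is `dgR A` with
  `A ∈ cx V.gen` (write `t` as a combination of the four rational unit vectors, `dr_comb` in A1,
  `dgR` additive).
* `exists_up`: take such an `A₀` for `up s`, `s = V.tC z`. By `Fend_all` (C4.lean) `A₀ ∈ Fend (-2K)`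
  with `K = KK kk nn`; `Fend_steps` (C4.lean) with `c = 0`, `N = 2K`: `A₁ := aeval (ad (V.Pz z))
  (∏ r ∈ range N, (X - C (0 - (r + 1)))) A₀ ∈ Fend 0`. `A₁ ∈ cx V.gen` (`cx V.gen` is stable under
  `ad (V.Pz z)`: `ZQ38.cx_isLie V.gen_isLie`, `V.Pz_gen hz`), and `dgR A₁ = (∏ (1 + (r + 1))) •
  dgR A₀`: `dgR` is multiplicative on `Tri` matrices, `dgR (V.Pz z) = dr (hv s)` (`dgR_Pz`, C3.lean)
  and `up_brk`; induct on the product as in `Nice.pr_aeval` (C5.lean). The product is not zero: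
  divide. (Elements of `cx V.gen` are `Tri`: `ZQ38.cx_tri V.gen_tri`.)
* `span4`: `A ∈ cx V.gen`: `dgR A = dr t` for some `t : Fin 4 → ℂ` (`V.gr_gen` complexified by
  `cx_induction`, C3.lean); `decomp4`; subtract `a • Pz + b • Qz + c • A₊ + d • A₋`
  (`dgR_Pz`, `dgR_Qz`); the difference is in `cx V.gen ⊓ Low = cx V.uni` (`cx_uni`, `low_of_dgR`).
-/

open Matrix Polynomial UpperHalfPlane
open scoped MatrixGroups ComplexConjugate
open MW38 (Fl Tri dg)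
open ZQ38 (Un Low cx Fend brk Stab GrP PG Dwt An DelH IsLie mtLie oP oQ dgR mem_cx_iff adm Lm HH)
open Pool.Agent.LibUB33 (Curve)
open Pool.Agent.LibEis68 (sl sl_bracket act form hvec form_linearIndependent sl_mulVec_form
  form_span sl_raise sl_lower)

namespace Pool.Agent.LibME94

variable {J : Type} [Fintype J] [DecidableEq J] {kk : J → ℕ} {nn : J → ℤ} {X : Curve}

theorem F2_dgR_qc {ι : Type} (d : ι → ℤ) (A : Matrix ι ι ℚ) : dgR d (qc A) = qc (dgR d A) := by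
  ext i j
  show (if d i = d j then algebraMap ℚ ℂ (A i j) else 0) =
    algebraMap ℚ ℂ (if d i = d j then A i j else 0)
  by_cases h : d i = d j
  · rw [if_pos h, if_pos h]
  · rw [if_neg h, if_neg h, map_zero]

theorem F2_dgR_smul {ι : Type} (d : ι → ℤ) (c : ℂ) (A : Matrix ι ι ℂ) :
    dgR d (c • A) = c • dgR d A := by
  ext i j
  rw [Matrix.smul_apply]
  show (if d i = d j then (c • A) i j else 0) = c • (if d i = d j then A i j else 0)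
  by_cases h : d i = d j
  · rw [if_pos h, if_pos h, Matrix.smul_apply]
  · rw [if_neg h, if_neg h, smul_zero]

theorem F2_dgR_add {ι : Type} (d : ι → ℤ) (A B : Matrix ι ι ℂ) :
    dgR d (A + B) = dgR d A + dgR d B := by
  ext i j
  rw [Matrix.add_apply]
  show (if d i = d j then (A + B) i j else 0) =
    (if d i = d j then A i j else 0) + (if d i = d j then B i j else 0)
  by_cases h : d i = d j
  · rw [if_pos h, if_pos h, if_pos h, Matrix.add_apply]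
  · rw [if_neg h, if_neg h, if_neg h, add_zero]

theorem F2_dgR_sub {ι : Type} (d : ι → ℤ) (A B : Matrix ι ι ℂ) :
    dgR d (A - B) = dgR d A - dgR d B := by
  ext i j
  rw [Matrix.sub_apply]
  show (if d i = d j then (A - B) i j else 0) =
    (if d i = d j then A i j else 0) - (if d i = d j then B i j else 0)
  by_cases h : d i = d j
  · rw [if_pos h, if_pos h, if_pos h, Matrix.sub_apply]
  · rw [if_neg h, if_neg h, if_neg h, sub_zero]

namespace EllVar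

variable (V : EllVar X kk nn)

theorem exists_lift (t : Fin 4 → ℂ) : ∃ A ∈ cx V.gen, dgR (wt kk nn) A = dr kk nn t := by
  obtain ⟨A0, h0, e0⟩ := V.gen_gr ![1, 0, 0, 0]
  obtain ⟨A1, h1, e1⟩ := V.gen_gr ![0, 1, 0, 0]
  obtain ⟨A2, h2, e2⟩ := V.gen_gr ![0, 0, -1, 0]
  obtain ⟨A3, h3, e3⟩ := V.gen_gr ![0, 0, 0, 1]
  refine ⟨t 0 • qc A0 + t 1 • qc A1 - t 2 • qc A2 + t 3 • qc A3, ?_, ?_⟩
  · exact (cx V.gen).add_mem ((cx V.gen).sub_mem ((cx V.gen).add_mem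
      ((cx V.gen).smul_mem _ (ZQ38.mem_cx_of_mem h0)) ((cx V.gen).smul_mem _ (ZQ38.mem_cx_of_mem h1)))
      ((cx V.gen).smul_mem _ (ZQ38.mem_cx_of_mem h2))) ((cx V.gen).smul_mem _ (ZQ38.mem_cx_of_mem h3))
  · rw [F2_dgR_add, F2_dgR_sub, F2_dgR_add, F2_dgR_smul, F2_dgR_smul, F2_dgR_smul, F2_dgR_smul,
      F2_dgR_qc, F2_dgR_qc, F2_dgR_qc, F2_dgR_qc, e0, e1, e2, e3, qc_e0, qc_e1, qc_e2, qc_e3]
    exact (dr_comb t).symm

theorem exists_gr {A : Matrix (Ix kk) (Ix kk) ℂ} (hA : A ∈ cx V.gen) :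
    ∃ t : Fin 4 → ℂ, dgR (wt kk nn) A = dr kk nn t := by
  have h1 : cx V.gen ≤ (LinearMap.range (drL kk nn ℂ)).comap (cmp (wt kk nn) 0) := by
    apply cx_induction
    intro M hM
    obtain ⟨t, ht⟩ := V.gr_gen hM
    have h2 : cmp (wt kk nn) 0 (qc M) = dr kk nn (fun i => ((t i : ℚ) : ℂ)) := by
      rw [cmp_zero_eq, F2_dgR_qc, ← ht, qc_dr]
    rw [Submodule.mem_comap, h2]
    exact LinearMap.mem_range.2 ⟨fun i => ((t i : ℚ) : ℂ), rfl⟩
  obtain ⟨t, ht⟩ := LinearMap.mem_range.1 (Submodule.mem_comap.1 (h1 hA))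
  refine ⟨t, ?_⟩
  rw [← cmp_zero_eq, ← ht]
  rfl

theorem F2_tri {A : Matrix (Ix kk) (Ix kk) ℂ} (hA : A ∈ cx V.gen) : Tri (wt kk nn) A :=
  ZQ38.cx_tri V.gen_tri hA

theorem F2_ad {z : ℂ} (hz : z ∈ Om) {A : Matrix (Ix kk) (Ix kk) ℂ} (hA : A ∈ cx V.gen) :
    ad (V.Pz z) A ∈ cx V.gen ∧
      dgR (wt kk nn) (ad (V.Pz z) A) = ad (dr kk nn (hv (V.tC z))) (dgR (wt kk nn) A) := by
  refine ⟨ZQ38.cx_isLie V.gen_isLie _ (V.Pz_gen hz) _ hA, ?_⟩
  rw [ad_apply, ad_apply, F2_dgR_sub, ZQ38.dgR_mul (V.Pz_tri hz) (V.F2_tri hA),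
    ZQ38.dgR_mul (V.F2_tri hA) (V.Pz_tri hz), V.dgR_Pz hz]

theorem F2_aeval {z : ℂ} (hz : z ∈ Om) {A : Matrix (Ix kk) (Ix kk) ℂ} (hA : A ∈ cx V.gen)
    (hA' : dgR (wt kk nn) A = dr kk nn (up (V.tC z))) (N : ℕ) :
    aeval (ad (V.Pz z)) (∏ r ∈ Finset.range N, (Polynomial.X - C ((0 : ℂ) - (r + 1)))) A ∈ cx V.gen ∧
    dgR (wt kk nn) (aeval (ad (V.Pz z))
      (∏ r ∈ Finset.range N, (Polynomial.X - C ((0 : ℂ) - (r + 1)))) A) =
      (∏ r ∈ Finset.range N, ((1 : ℂ) - ((0 : ℂ) - (r + 1)))) • dr kk nn (up (V.tC z)) := by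
  induction N with
  | zero => simpa using ⟨hA, hA'⟩
  | succ N ih =>
    obtain ⟨h1, h2⟩ := ih
    obtain ⟨h3, h4⟩ := V.F2_ad hz h1
    rw [Finset.prod_range_succ, mul_comm, map_mul, Module.End.mul_apply, map_sub, aeval_X,
      aeval_C, LinearMap.sub_apply, Module.algebraMap_end_apply]
    refine ⟨Submodule.sub_mem _ h3 (Submodule.smul_mem _ _ h1), ?_⟩
    rw [F2_dgR_sub, F2_dgR_smul, h4, h2, map_smul, up_brk (V.tC_pos z), smul_smul, ← sub_smul,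
      Finset.prod_range_succ]
    congr 1
    ring

theorem exists_up {z : ℂ} (hz : z ∈ Om) : ∃ A ∈ cx V.gen, A ∈ Fend (pp kk nn) (V.Φ z) 0 ∧
    dgR (wt kk nn) A = dr kk nn (up (V.tC z)) := by
  obtain ⟨A, hA, hA'⟩ := V.exists_lift (up (V.tC z))
  obtain ⟨h1, h2⟩ := V.F2_aeval hz hA hA' (2 * KK kk nn)
  have h3 : aeval (ad (V.Pz z)) (∏ r ∈ Finset.range (2 * KK kk nn),
      (Polynomial.X - C ((0 : ℂ) - (r + 1)))) A ∈ Fend (pp kk nn) (V.Φ z) 0 := by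
    have h4 := Fend_steps (V.grP' hz) (V.h_del hz) (2 * KK kk nn) 0 (M := A) (by
      have := Fend_all (V.grP' hz) (V.h_del hz) A
      rwa [zero_sub])
    rw [Int.cast_zero] at h4
    exact h4
  have h5 : (∏ r ∈ Finset.range (2 * KK kk nn), ((1 : ℂ) - ((0 : ℂ) - (r + 1)))) ≠ 0 := by
    rw [Finset.prod_ne_zero_iff]
    intro r _
    have h6 : (1 : ℂ) - ((0 : ℂ) - (r + 1)) = ((r + 2 : ℕ) : ℂ) := by
      push_cast
      ring
    rw [h6, Nat.cast_ne_zero]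
    omega
  refine ⟨(∏ r ∈ Finset.range (2 * KK kk nn), ((1 : ℂ) - ((0 : ℂ) - (r + 1))))⁻¹ •
    aeval (ad (V.Pz z)) (∏ r ∈ Finset.range (2 * KK kk nn),
      (Polynomial.X - C ((0 : ℂ) - (r + 1)))) A, (cx V.gen).smul_mem _ h1,
    Submodule.smul_mem _ _ h3, ?_⟩
  rw [F2_dgR_smul, h2, smul_smul, inv_mul_cancel₀ h5, one_smul]

theorem span4 {z : ℂ} (hz : z ∈ Om) {A₁ A₂ A : Matrix (Ix kk) (Ix kk) ℂ} (h₁ : A₁ ∈ cx V.gen)
    (h₁' : dgR (wt kk nn) A₁ = dr kk nn (up (V.tC z))) (h₂ : A₂ ∈ cx V.gen)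
    (h₂' : dgR (wt kk nn) A₂ = dr kk nn (dn (V.tC z))) (hA : A ∈ cx V.gen) :
    ∃ a b c d : ℂ, A - (a • V.Pz z + b • V.Qz z + c • A₁ + d • A₂) ∈ cx V.uni := by
  obtain ⟨t, ht⟩ := V.exists_gr hA
  obtain ⟨a, b, c, d, habcd⟩ := decomp4 (V.tC_pos z) t
  have hB : a • V.Pz z + b • V.Qz z + c • A₁ + d • A₂ ∈ cx V.gen :=
    (cx V.gen).add_mem ((cx V.gen).add_mem ((cx V.gen).add_mem
      ((cx V.gen).smul_mem _ (V.Pz_gen hz)) ((cx V.gen).smul_mem _ (V.Qz_gen hz)))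
      ((cx V.gen).smul_mem _ h₁)) ((cx V.gen).smul_mem _ h₂)
  refine ⟨a, b, c, d, ?_⟩
  rw [V.cx_uni]
  refine ⟨(cx V.gen).sub_mem hA hB, ?_⟩
  apply low_of_dgR (V.F2_tri hA) (V.F2_tri hB)
  rw [F2_dgR_add, F2_dgR_add, F2_dgR_add, F2_dgR_smul, F2_dgR_smul, F2_dgR_smul, F2_dgR_smul,
    V.dgR_Pz hz, V.dgR_Qz hz, h₁', h₂', ht, ← dr_smul, ← dr_smul, ← dr_smul, ← dr_smul, ← dr_add,
    ← dr_add, ← dr_add, habcd]

end EllVar

end Pool.Agent.LibME94
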