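import Pool.Agent.LibME94.F2
import Pool.Agent.LibME94.C5

/-!
ROW [ME94 F3]. The dimension of the generic Mumford-Tate domain is `dim u + 1`.

PLAN. Let `E = Fend (pp kk nn) (V.Φ z) 0`.
* `dom_le`: `(cx L).map E.mkQ ≤ (cx V.gen).map E.mkQ` (`ZQ38.cx_mono`) and, by `span4` (F2) with
  `A₁` from `exists_up` (in `E`), `Pz, Qz ∈ E` (see `NegTypes`/`Yz_Fend` in C6: `ZQ38` lemma
  `Fend`-membership of `oP`, `oQ`: look at the proof of `Yz_Fend` in C6.lean, which uses it; or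
  `Fend_comp` in C4.lean: `M ∈ Fend c ↔ ∀ a b, b < a + c → P b * (h⁻¹ * M * h) * P a = 0`),
  `(cx V.gen).map E.mkQ ≤ (cx V.uni).map E.mkQ ⊔ span {E.mkQ A₂}`; `finrank_map_le`,
  `Submodule.finrank_add_le_finrank_add_finrank`, `ZQ38.finrank_cx`, `finrank_span_singleton`-like
  `≤ 1`.
* `dn_not`: suppose `A₂ ∈ cx V.gen` with `dgR A₂ = dr (dn s)` and `A₂ - x ∈ E` with `x ∈ cx V.uni`.
  Then `M := A₂ - x ∈ Fend 0`, `dgR M = dr (dn s)` (`cx_uni`: `x ∈ Low`). By `Fend_comp` (C4.lean;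
  `P = PP kk nn s`, `h = V.h z`) `P b * (h⁻¹ * M * h) * P a = 0` for `b < a`; taking the weight 0 part
  (`h` is `Un`, `PP` preserves the weights): `P b * dr (dn s) * P a = 0` for `b < a`. But
  `dr (dn s)` maps the vector `form (k) s (conj s) k` of the block `j`, `k = kk j ≥ 1`, which is in the
  image of `P a`, `a = k - nn j`, to a nonzero multiple of `form (k) s (conj s) (k - 1)` (`sl_lower`),
  in the image of `P (a - 1)`. (`PP kk nn s a = Sf kk s * diagonal (pp = a) * (Sf kk s)⁻¹`, B1.lean;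
  equivalently `dr (dn s) * Sf = Sf * N` where `N` has a nonzero entry at
  `(⟨j, k-1⟩, ⟨j, k⟩)`.)
* `dom_ge`: `(cx V.uni).map E.mkQ` has finrank `finrank ℚ V.uni` (NegTypes: `cx V.uni ⊓ E = ⊥`, so
  `E.mkQ` is injective on it: `NegTypes.eq` in C5.lean, `Submodule.finrank_map_subtype..`,
  `LinearMap.finrank_range_of_inj` ..., `ZQ38.finrank_cx`), is contained in
  `(cx V.gen).map E.mkQ` and does not contain `E.mkQ A₂` (`dn_not`; `A₂` from `exists_lift`), so it is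
  strictly smaller: `Submodule.finrank_lt_finrank_of_lt`.
-/

open Matrix Polynomial UpperHalfPlane
open scoped MatrixGroups ComplexConjugate
open MW38 (Fl Tri dg)
open ZQ38 (Un Low cx Fend brk Stab GrP PG Dwt An DelH IsLie mtLie oP oQ dgR mem_cx_iff adm Lm HH)
open Pool.Agent.LibUB33 (Curve)
open Pool.Agent.LibEis68 (sl sl_bracket act form hvec form_linearIndependent sl_mulVec_form
  form_span sl_raise sl_lower)

namespace Pool.Agent.LibME94

variable {J : Type} [Fintype J] [DecidableEq J] {kk : J → ℕ} {nn : J → ℤ} {X : Curve}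

section F3aux

private theorem F3_dr_dn_col (s : ℂ) (hs : 0 < s.im) (j : J) (i : ℕ) (hi : i + 1 < kk j + 1)
    (x : Ix kk) :
    (dr kk nn (dn s) * Sf kk s) x ⟨j, ⟨i + 1, hi⟩⟩ =
      (-((i : ℂ) + 1) * (2 * Complex.I * s.im)) * Sf kk s x ⟨j, ⟨i, by omega⟩⟩ := by
  obtain ⟨l, x⟩ := x
  by_cases hl : l = j
  · subst hl
    unfold dr Sf
    rw [← Matrix.blockDiagonal'_mul, Matrix.blockDiagonal'_apply_eq,
      Matrix.blockDiagonal'_apply_eq]
    have h1 := congrFun (sl_lower (kk l) hs i (by omega)) x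
    have h2 : (![dn s 0, dn s 1, dn s 2, dn s 3 * ((kk l : ℂ) - 2 * (nn l : ℂ))] : Fin 4 → ℂ) =
        ![1, conj s, conj s ^ 2, 0] := by
      funext r
      fin_cases r <;> simp [dn]
    have h3 : (sl (kk l) ![dn s 0, dn s 1, dn s 2, dn s 3 * ((kk l : ℂ) - 2 * (nn l : ℂ))] *
        Matrix.of fun (l' i' : Fin (kk l + 1)) => form (kk l) s (conj s) i' l') x ⟨i + 1, hi⟩ =
        (sl (kk l) ![dn s 0, dn s 1, dn s 2, dn s 3 * ((kk l : ℂ) - 2 * (nn l : ℂ))] *ᵥ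
          form (kk l) s (conj s) (i + 1)) x := rfl
    rw [h3, h2, h1, Matrix.of_apply, Pi.smul_apply, smul_eq_mul]
  · rw [Sf_ne s ⟨l, x⟩ ⟨j, ⟨i, by omega⟩⟩ hl, mul_zero]
    unfold dr Sf
    rw [← Matrix.blockDiagonal'_mul, Matrix.blockDiagonal'_apply_ne _ _ _ hl]

private theorem F3_PP_mul {s : ℂ} (hs : 0 < s.im) (a : ℤ) :
    PP kk nn s a * Sf kk s =
      Sf kk s * Matrix.diagonal (fun x => if pp kk nn x = a then 1 else 0) := by
  have hu := (Matrix.isUnit_iff_isUnit_det _).1 (Sf_isUnit (kk := kk) hs)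
  unfold PP
  rw [Matrix.nonsing_inv_mul_cancel_right _ _ hu]

private theorem F3_un {ι : Type} [Fintype ι] [DecidableEq ι] {d p : ι → ℤ} {K : ℕ}
    {Φ : Matrix ι ι ℂ} {P : ℤ → Matrix ι ι ℂ} {h : Matrix ι ι ℂ} (hP : GrP d p K Φ P)
    (hh : DelH d p Φ P h) {M : Matrix ι ι ℂ} (hM : Tri d M) (hF : M ∈ Fend p Φ 0) (a b : ℤ)
    (hab : b < a) : P b * dgR d M * P a = 0 := by
  have h1 := (Fend_comp hP hh 0 M).1 hF a b (by omega)
  have hun := hh.un
  have hti := ZQ38.B13_tri_un hun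
  have hu : IsUnit h := ZQ38.Un.isUnit hun
  have hti' : Tri d h⁻¹ := hti.inv hu
  have hd : dgR d h = 1 := ZQ38.B13_dgR_un hun
  have hd' : dgR d h⁻¹ = 1 := by
    have h2 : dgR d (h⁻¹ * h) = dgR d h⁻¹ * dgR d h := ZQ38.dgR_mul hti' hti
    rw [Matrix.nonsing_inv_mul _ ((Matrix.isUnit_iff_isUnit_det _).1 hu), ZQ38.B13_dgR_one, hd,
      mul_one] at h2
    exact h2.symm
  have hTP : ∀ c, Tri d (P c) := fun c i j hij => hP.diag c i j (by omega)
  have hDP : ∀ c, dgR d (P c) = P c := by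
    intro c
    ext i j
    unfold dgR
    by_cases hij : d i = d j
    · rw [if_pos hij]
    · rw [if_neg hij, hP.diag c i j hij]
  have h3 : dgR d (P b * (h⁻¹ * M * h) * P a) = P b * dgR d M * P a := by
    rw [ZQ38.dgR_mul ((hTP b).mul ((hti'.mul hM).mul hti)) (hTP a),
      ZQ38.dgR_mul (hTP b) ((hti'.mul hM).mul hti), ZQ38.dgR_mul (hti'.mul hM) hti,
      ZQ38.dgR_mul hti' hM, hd, hd', hDP, hDP, one_mul, mul_one]
  rw [← h3, h1]
  ext i j
  simp [dgR]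

end F3aux

namespace EllVar

variable (V : EllVar X kk nn)

private theorem F3_Pz {z : ℂ} (hz : z ∈ Om) : V.Pz z ∈ Fend (pp kk nn) (V.Φ z) 0 :=
  (ZQ38.oP_mem_Fend (V.grP' hz) (V.h_del hz)).1

private theorem F3_Qz {z : ℂ} (hz : z ∈ Om) : V.Qz z ∈ Fend (pp kk nn) (V.Φ z) 0 := by
  have h1 : V.Qz z = V.h z * Dwt (wt kk nn) * (V.h z)⁻¹ - V.Pz z := by
    have := V.Pz_add_Qz z
    unfold Yz at this
    rw [← this, add_sub_cancel_left]
  rw [h1]
  exact Submodule.sub_mem _ (ZQ38.oP_mem_Fend (V.grP' hz) (V.h_del hz)).2 (V.F3_Pz hz)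

theorem dom_le {z : ℂ} (hz : z ∈ Om) {L : Submodule ℚ (Matrix (Ix kk) (Ix kk) ℚ)}
    (hL : L ≤ V.gen) :
    Module.finrank ℂ ((cx L).map (Fend (pp kk nn) (V.Φ z) 0).mkQ) ≤
      Module.finrank ℚ V.uni + 1 := by
  set E := Fend (pp kk nn) (V.Φ z) 0 with hE
  obtain ⟨A₁, h₁, h₁F, h₁'⟩ := V.exists_up hz
  obtain ⟨A₂, h₂, h₂'⟩ := V.exists_lift (dn (V.tC z))
  have h1 : (cx L).map E.mkQ ≤ (cx V.uni).map E.mkQ ⊔ Submodule.span ℂ {E.mkQ A₂} := by
    rintro _ ⟨A, hA, rfl⟩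
    obtain ⟨a, b, c, d, hx⟩ := V.span4 hz h₁ h₁' h₂ h₂' (ZQ38.cx_mono hL hA)
    have hz1 : E.mkQ (V.Pz z) = 0 := by
      rw [Submodule.mkQ_apply, Submodule.Quotient.mk_eq_zero]
      exact V.F3_Pz hz
    have hz2 : E.mkQ (V.Qz z) = 0 := by
      rw [Submodule.mkQ_apply, Submodule.Quotient.mk_eq_zero]
      exact V.F3_Qz hz
    have hz3 : E.mkQ A₁ = 0 := by
      rw [Submodule.mkQ_apply, Submodule.Quotient.mk_eq_zero]
      exact h₁F
    have h2 : E.mkQ A = E.mkQ (A - (a • V.Pz z + b • V.Qz z + c • A₁ + d • A₂)) +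
        d • E.mkQ A₂ := by
      rw [map_sub, map_add, map_add, map_add, map_smul, map_smul, map_smul, map_smul, hz1, hz2,
        hz3, smul_zero, smul_zero, smul_zero, zero_add, zero_add, zero_add, sub_add_cancel]
    rw [h2]
    exact Submodule.add_mem_sup (Submodule.mem_map_of_mem hx)
      (Submodule.smul_mem _ _ (Submodule.mem_span_singleton_self _))
  calc Module.finrank ℂ ((cx L).map E.mkQ)
      ≤ Module.finrank ℂ ((cx V.uni).map E.mkQ ⊔ Submodule.span ℂ {E.mkQ A₂} :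
          Submodule ℂ _) := Submodule.finrank_mono h1
    _ ≤ Module.finrank ℂ ((cx V.uni).map E.mkQ) +
          Module.finrank ℂ (Submodule.span ℂ {E.mkQ A₂}) :=
        Submodule.finrank_add_le_finrank_add_finrank _ _
    _ ≤ Module.finrank ℚ V.uni + 1 := by
        refine Nat.add_le_add ?_ ?_
        · rw [← ZQ38.finrank_cx]
          exact Submodule.finrank_map_le _ _
        · refine (finrank_span_le_card _).trans ?_
          simp

theorem dn_not {z : ℂ} (hz : z ∈ Om) {j : J} (hj : 1 ≤ kk j) {M : Matrix (Ix kk) (Ix kk) ℂ}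
    (hMt : Tri (wt kk nn) M) (hM : dgR (wt kk nn) M = dr kk nn (dn (V.tC z))) :
    M ∉ Fend (pp kk nn) (V.Φ z) 0 := by
  intro hF
  have hs := V.tC_pos z
  set s := V.tC z with hsdef
  obtain ⟨i, hi⟩ : ∃ i, kk j = i + 1 := ⟨kk j - 1, by omega⟩
  set x₁ : Ix kk := ⟨j, ⟨i + 1, by omega⟩⟩ with hx₁
  set x₀ : Ix kk := ⟨j, ⟨i, by omega⟩⟩ with hx₀
  have hab : pp kk nn x₀ < pp kk nn x₁ := by
    show ((i : ℕ) : ℤ) - nn j < ((i + 1 : ℕ) : ℤ) - nn j
    push_cast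
    omega
  have h1 := F3_un (V.grP' hz) (V.h_del hz) hMt hF _ _ hab
  rw [hM] at h1
  have h2 : PP kk nn s (pp kk nn x₀) * dr kk nn (dn s) * PP kk nn s (pp kk nn x₁) * Sf kk s =
      0 := by
    rw [← hsdef] at h1
    rw [h1, Matrix.zero_mul]
  rw [Matrix.mul_assoc, F3_PP_mul hs, ← Matrix.mul_assoc] at h2
  have h3 : ∀ x, (PP kk nn s (pp kk nn x₀) * dr kk nn (dn s) * Sf kk s) x x₁ = 0 := by
    intro x
    have h4 := congrFun (congrFun h2 x) x₁
    rw [Matrix.mul_diagonal, if_pos rfl, mul_one] at h4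
    exact h4
  set c : ℂ := -((i : ℂ) + 1) * (2 * Complex.I * s.im) with hc
  have hc0 : c ≠ 0 := by
    rw [hc]
    refine mul_ne_zero ?_ (mul_ne_zero (mul_ne_zero two_ne_zero Complex.I_ne_zero) ?_)
    · rw [neg_ne_zero]
      exact_mod_cast Nat.succ_ne_zero i
    · exact_mod_cast hs.ne'
  have h5 : ∀ x, Sf kk s x x₀ = 0 := by
    intro x
    have h6 := h3 x
    rw [Matrix.mul_assoc, Matrix.mul_apply] at h6
    have h7 : ∀ y, (dr kk nn (dn s) * Sf kk s) y x₁ = c * Sf kk s y x₀ := fun y =>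
      F3_dr_dn_col s hs j i _ y
    simp only [h7] at h6
    have h8 : ∑ y, PP kk nn s (pp kk nn x₀) x y * (c * Sf kk s y x₀) =
        c * (PP kk nn s (pp kk nn x₀) * Sf kk s) x x₀ := by
      rw [Matrix.mul_apply, Finset.mul_sum]
      refine Finset.sum_congr rfl fun y _ => ?_
      ring
    rw [h8, F3_PP_mul hs, Matrix.mul_diagonal, if_pos rfl, mul_one] at h6
    exact (mul_eq_zero.1 h6).resolve_left hc0
  have hu := (Matrix.isUnit_iff_isUnit_det _).1 (Sf_isUnit (kk := kk) hs)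
  have h9 : ((Sf kk s)⁻¹ * Sf kk s) x₀ x₀ = 0 := by
    rw [Matrix.mul_apply]
    refine Finset.sum_eq_zero fun y _ => ?_
    rw [h5 y, mul_zero]
  rw [Matrix.nonsing_inv_mul _ hu, Matrix.one_apply_eq] at h9
  exact one_ne_zero h9

theorem dom_ge (hT : V.NegTypes) {j : J} (hj : 1 ≤ kk j) {z : ℂ} (hz : z ∈ Om) :
    Module.finrank ℚ V.uni + 1 ≤
      Module.finrank ℂ ((cx V.gen).map (Fend (pp kk nn) (V.Φ z) 0).mkQ) := by
  set E := Fend (pp kk nn) (V.Φ z) 0 with hE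
  obtain ⟨A₂, h₂, h₂'⟩ := V.exists_lift (dn (V.tC z))
  have hinj : Function.Injective (E.mkQ.domRestrict (cx V.uni)) := by
    rw [← LinearMap.ker_eq_bot, LinearMap.ker_eq_bot']
    rintro ⟨A, hA⟩ h
    rw [LinearMap.domRestrict_apply, Submodule.mkQ_apply, Submodule.Quotient.mk_eq_zero] at h
    exact Subtype.ext (hT.eq hz hA h)
  have hfin : Module.finrank ℂ ((cx V.uni).map E.mkQ) = Module.finrank ℚ V.uni := by
    rw [← ZQ38.finrank_cx, ← LinearMap.finrank_range_of_inj hinj, LinearMap.range_domRestrict]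
  rw [← hfin]
  apply Submodule.finrank_lt_finrank_of_lt
  refine lt_of_le_of_ne (Submodule.map_mono (ZQ38.cx_mono V.uni_le)) ?_
  intro heq
  have h1 : E.mkQ A₂ ∈ (cx V.uni).map E.mkQ := by
    rw [heq]
    exact Submodule.mem_map_of_mem h₂
  obtain ⟨x, hx, hx'⟩ := h1
  have h2 : A₂ - x ∈ E := by
    rw [← Submodule.Quotient.mk_eq_zero, Submodule.Quotient.mk_sub, ← Submodule.mkQ_apply,
      ← Submodule.mkQ_apply, hx', sub_self]
  have hxl : x ∈ Low ℂ (wt kk nn) := by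
    have h3 : x ∈ cx V.uni := hx
    rw [V.cx_uni] at h3
    exact h3.2
  refine V.dn_not hz hj (M := A₂ - x) ?_ ?_ h2
  · exact ZQ38.B13_tri_sub (ZQ38.cx_tri V.gen_tri h₂) (low_tri hxl)
  · rw [ZQ38.B13_dgR_sub, h₂']
    have h4 : dgR (wt kk nn) x = 0 := by
      ext a b
      unfold dgR
      by_cases hab : wt kk nn a = wt kk nn b
      · rw [if_pos hab, hxl a b hab.symm.le]
        rfl
      · rw [if_neg hab]
        rfl
    rw [h4, sub_zero]

end EllVar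

end Pool.Agent.LibME94
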