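import Pool.Agent.LibME94.F1
import Pool.Agent.LibME94.C5
import Pool.Agent.LibEis68.B14

/-!
ROW [ME94 F4]. CM points.

PLAN. Let `s = V.tC z` be CM (`LibEis68.IsCM s`: look at the definition in LibEis68/Defs.lean: a
rational quadratic equation). There is a nonzero rational `q : Fin 4 → ℚ`, `q 3 = 0`, and `α : ℂ`
with `2 • hv s - e3 = α • q` (`e3 = ![0,0,0,1]`; `hvec s` is proportional to
`(1, s.re, s * conj s)`, and `s.re`, `s * conj s` are rational for a CM point; compare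
`LibEis68`/`LibSym94` (`dims_cm`) where this is done): this is `exists_q`.
* Let `L = {A ∈ V.gen | ∃ a b : ℚ, dgR A = dr (a • q + b • e3)}` (a `Submodule ℚ`). `L` is closed under
  the commutator (`dgR` of a commutator of `Tri` matrices is the commutator of the `dgR`'s, which is
  `0` by `dr_bracket`). `V.Pz z ∈ cx L`: `mem_cx_iff`: for `f : ℂ →ₗ[ℚ] ℚ`, `(V.Pz z).map f ∈ V.gen`
  (`V.Pz_gen`), `dgR ((V.Pz z).map f) = (dgR (V.Pz z)).map f = (dr (hv s)).map f = dr (f ∘ hv s)`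
  (`dr_mapf`, C1.lean), and `f (hv s i) = f (α/2) * q i + f (1/2) * e3 i`. Same for `V.Qz z`. So
  `mtLie (V.Φ z) ≤ L`: `sInf_le` with `ZQ38.isOpP_iff`, `isOpQ_iff` (as in the proof of `le_gen` /
  `gen_eq`, C2.lean; `V.grP' hz`, `V.h_del hz`). This is `mt_cm`.
* `cm_lt`: if `mtLie (V.Φ z) = V.gen` then by `V.gen_gr` every `dr t`, `t` rational, is
  `dr (a • q + b • e3)`; with `t = ![1,0,0,0]` and `t = ![0,0,1,0]` and the injectivity of `dr` on
  `(t₀, t₁, t₂)` for `kk j ≥ 1` (entries `(⟨j, 1⟩, ⟨j, 0⟩)`, `(⟨j, 0⟩, ⟨j, 1⟩)` of `dr t`, see `sl` in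
  LibEis68/Defs.lean) `q` would be proportional to both: contradiction.
* `dom_cm`: for `A ∈ mtLie`, `dgR A = dr (a q + b e3)` and `q, e3` are combinations of `hv s`,
  `e3 - hv s` (`α ≠ 0` since `hvec s 0 ≠ 0`), so `A - (a' Pz + b' Qz) ∈ cx (mtLie) ⊓ Low = cx (V.uz z)`
  (`V.Pz_mem`, `V.Qz_mem`; `ZQ38.cx_inf`, `ZQ38.cx_low`) `= cx V.uni`. As `Pz, Qz ∈ E = Fend 0`
  (see the proof of `Yz_Fend`, C6.lean), `(cx mtLie).map E.mkQ = (cx V.uni).map E.mkQ`, of finrank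
  `finrank ℚ V.uni` because `cx V.uni ⊓ E = ⊥` (`NegTypes.eq`, C5.lean) and `ZQ38.finrank_cx`.
-/

open Matrix Polynomial UpperHalfPlane
open scoped MatrixGroups ComplexConjugate
open MW38 (Fl Tri dg)
open ZQ38 (Un Low cx Fend brk Stab GrP PG Dwt An DelH IsLie mtLie oP oQ dgR mem_cx_iff adm Lm HH)
open Pool.Agent.LibUB33 (Curve)
open Pool.Agent.LibEis68 (sl sl_bracket act form hvec form_linearIndependent sl_mulVec_form
  form_span sl_raise sl_lower)

namespace Pool.Agent.LibME94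

variable {J : Type} [Fintype J] [DecidableEq J] {kk : J → ℕ} {nn : J → ℤ} {X : Curve}

theorem exists_q {s : ℂ} (hs : 0 < s.im) (hcm : LibEis68.IsCM s) : ∃ (q : Fin 4 → ℚ) (α : ℂ),
    q 3 = 0 ∧ α ≠ 0 ∧ ∀ i, 2 * hv s i - (![0, 0, 0, 1] : Fin 4 → ℂ) i = α * (q i : ℂ) := by
  obtain ⟨q, α, -, h3, h⟩ := LibEis68.exists_rational hs hcm
  refine ⟨q, α, h3, ?_, ?_⟩
  · rintro rfl
    have h0 := h 0
    rw [zero_mul] at h0
    have h1 : hvec s 0 = Complex.I / s.im := rfl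
    rw [h1, div_eq_zero_iff] at h0
    rcases h0 with h0 | h0
    · exact Complex.I_ne_zero h0
    · exact hs.ne' (by exact_mod_cast h0)
  · intro i
    fin_cases i
    · have := h 0
      simp [hv, this]
      ring
    · have := h 1
      simp [hv, this]
      ring
    · have := h 2
      simp [hv, this]
      ring
    · simp [hv, h3]

namespace EllVar

variable (V : EllVar X kk nn)

private theorem F4_map {z : ℂ} (hz : z ∈ Om) {q : Fin 4 → ℚ} {α : ℂ}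
    (hα : ∀ i, 2 * hv (V.tC z) i - (![0, 0, 0, 1] : Fin 4 → ℂ) i = α * (q i : ℂ))
    (f : ℂ →ₗ[ℚ] ℚ) :
    dgR (wt kk nn) ((V.Pz z).map f) =
      dr kk nn (f (α / 2) • q + f (1 / 2) • ![0, 0, 0, 1]) ∧
    dgR (wt kk nn) ((V.Qz z).map f) =
      dr kk nn ((-f (α / 2)) • q + f (1 / 2) • ![0, 0, 0, 1]) := by
  have hm : ∀ (r : ℚ) (z : ℂ), f (z * (r : ℂ)) = f z * r := by
    intro r z
    have : z * (r : ℂ) = r • z := by rw [Rat.smul_def, mul_comm]
    rw [this, map_smul, smul_eq_mul, mul_comm]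
  have hh : ∀ i, hv (V.tC z) i = α / 2 * (q i : ℂ) +
      1 / 2 * (((![0, 0, 0, 1] : Fin 4 → ℚ) i : ℚ) : ℂ) := by
    intro i
    have h1 := hα i
    have h2 : ((((![0, 0, 0, 1] : Fin 4 → ℚ) i : ℚ)) : ℂ) = (![0, 0, 0, 1] : Fin 4 → ℂ) i := by
      fin_cases i <;> simp
    rw [h2]
    linear_combination h1 / 2
  have hh' : ∀ i, ((![0, 0, 0, 1] : Fin 4 → ℂ) - hv (V.tC z)) i = -(α / 2 * (q i : ℂ)) +
      1 / 2 * (((![0, 0, 0, 1] : Fin 4 → ℚ) i : ℚ) : ℂ) := by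
    intro i
    have h2 : ((((![0, 0, 0, 1] : Fin 4 → ℚ) i : ℚ)) : ℂ) = (![0, 0, 0, 1] : Fin 4 → ℂ) i := by
      fin_cases i <;> simp
    rw [Pi.sub_apply, hh, h2]
    ring
  constructor
  · rw [ZQ38.B13_dgR_map, V.dgR_Pz hz, dr_mapf]
    congr 1
    funext i
    rw [hh, map_add, hm, hm, Pi.add_apply, Pi.smul_apply, Pi.smul_apply, smul_eq_mul,
      smul_eq_mul]
  · rw [ZQ38.B13_dgR_map, V.dgR_Qz hz, dr_mapf]
    congr 1
    funext i
    rw [hh', map_add, map_neg, hm, hm, Pi.add_apply, Pi.smul_apply, Pi.smul_apply, smul_eq_mul,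
      smul_eq_mul, neg_mul]

theorem mt_cm {z : ℂ} (hz : z ∈ Om) {q : Fin 4 → ℚ} {α : ℂ} (hq : q 3 = 0)
    (hα : ∀ i, 2 * hv (V.tC z) i - (![0, 0, 0, 1] : Fin 4 → ℂ) i = α * (q i : ℂ))
    {A : Matrix (Ix kk) (Ix kk) ℚ} (hA : A ∈ mtLie (wt kk nn) (pp kk nn) (V.Φ z)) :
    ∃ a b : ℚ, dgR (wt kk nn) A = dr kk nn (a • q + b • ![0, 0, 0, 1]) := by
  set L : Submodule ℚ (Matrix (Ix kk) (Ix kk) ℚ) :=
    { carrier := {A | A ∈ V.gen ∧ ∃ a b : ℚ, dgR (wt kk nn) A =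
        dr kk nn (a • q + b • ![0, 0, 0, 1])}
      add_mem' := by
        rintro A B ⟨hA, a, b, h1⟩ ⟨hB, a', b', h2⟩
        refine ⟨V.gen.add_mem hA hB, a + a', b + b', ?_⟩
        rw [ZQ38.B13_dgR_add, h1, h2, ← dr_add]
        congr 1
        rw [add_smul, add_smul]
        abel
      zero_mem' := by
        refine ⟨V.gen.zero_mem, 0, 0, ?_⟩
        rw [ZQ38.B13_dgR_zero, zero_smul, zero_smul, add_zero, dr_zero]
      smul_mem' := by
        rintro c A ⟨hA, a, b, h1⟩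
        refine ⟨V.gen.smul_mem c hA, c * a, c * b, ?_⟩
        rw [ZQ38.B13_dgR_smul, h1, ← dr_smul]
        congr 1
        rw [smul_add, smul_smul, smul_smul] } with hL
  have hLie : IsLie L := by
    rintro A ⟨hA, a, b, h1⟩ B ⟨hB, a', b', h2⟩
    refine ⟨V.gen_isLie A hA B hB, 0, 0, ?_⟩
    rw [ZQ38.B13_dgR_comm (V.gen_tri A hA) (V.gen_tri B hB), h1, h2]
    have h3 := dr_bracket (kk := kk) (nn := nn) (a • q + b • ![0, 0, 0, 1])
      (a' • q + b' • ![0, 0, 0, 1])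
    rw [ad_apply] at h3
    rw [h3]
    congr 1
    funext i
    fin_cases i
    · simp
      ring
    · simp
      ring
    · simp
      ring
    · simp
  have h1 : mtLie (wt kk nn) (pp kk nn) (V.Φ z) ≤ L := by
    rw [ZQ38.mtLie_le_iff (V.grP' hz) (V.h_del hz) hLie]
    constructor
    · rw [mem_cx_iff]
      intro f
      exact ⟨(mem_cx_iff _ _).1 (V.Pz_gen hz) f, _, _, (V.F4_map hz hα f).1⟩
    · rw [mem_cx_iff]
      intro f
      exact ⟨(mem_cx_iff _ _).1 (V.Qz_gen hz) f, _, _, (V.F4_map hz hα f).2⟩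
  exact (h1 hA).2

theorem cm_lt {j : J} (hj : 1 ≤ kk j) {z : ℂ} (hz : z ∈ Om) (hcm : LibEis68.IsCM (V.tC z)) :
    mtLie (wt kk nn) (pp kk nn) (V.Φ z) ≠ V.gen := by
  intro heq
  obtain ⟨q, α, hq, -, hα⟩ := exists_q (V.tC_pos z) hcm
  have hkj : ((kk j : ℕ) : ℚ) ≠ 0 := by
    rw [Nat.cast_ne_zero]
    omega
  have key : ∀ t : Fin 4 → ℚ, ∃ a : ℚ, t 0 = a * q 0 ∧ t 2 = a * q 2 := by
    intro t
    obtain ⟨A, hA, h1⟩ := V.gen_gr t
    rw [← heq] at hA
    obtain ⟨a, b, h2⟩ := V.mt_cm hz hq hα hA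
    rw [h1] at h2
    refine ⟨a, ?_, ?_⟩
    · have h3 := congrFun (congrFun h2 (⟨j, ⟨1, by omega⟩⟩ : Ix kk)) (⟨j, ⟨0, by omega⟩⟩ : Ix kk)
      unfold dr at h3
      rw [Matrix.blockDiagonal'_apply_eq, Matrix.blockDiagonal'_apply_eq] at h3
      simp [sl] at h3
      rcases h3 with h3 | h3
      · exact h3
      · exact absurd h3 (by omega)
    · have h3 := congrFun (congrFun h2 (⟨j, ⟨0, by omega⟩⟩ : Ix kk)) (⟨j, ⟨1, by omega⟩⟩ : Ix kk)
      unfold dr at h3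
      rw [Matrix.blockDiagonal'_apply_eq, Matrix.blockDiagonal'_apply_eq] at h3
      simp [sl] at h3
      exact h3
  obtain ⟨a, ha0, ha2⟩ := key ![1, 0, 0, 0]
  obtain ⟨a', ha0', ha2'⟩ := key ![0, 0, 1, 0]
  simp at ha0 ha2 ha0' ha2'
  have hane : a ≠ 0 := by
    rintro rfl
    rw [zero_mul] at ha0
    exact one_ne_zero ha0
  have hq2 : q 2 = 0 := ha2.resolve_left hane
  rw [hq2, mul_zero] at ha2'
  exact one_ne_zero ha2'

theorem dom_cm (hT : V.NegTypes) {z : ℂ} (hz : z ∈ Om) (hcm : LibEis68.IsCM (V.tC z))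
    (hu : V.uz z = V.uni) : ZQ38.domDim (wt kk nn) (pp kk nn) (V.Φ z) =
      Module.finrank ℚ V.uni := by
  obtain ⟨q, α, hq, hα0, hα⟩ := exists_q (V.tC_pos z) hcm
  unfold ZQ38.domDim
  set E := Fend (pp kk nn) (V.Φ z) 0 with hE
  have hinj : Function.Injective (E.mkQ.domRestrict (cx V.uni)) := by
    rw [← LinearMap.ker_eq_bot, LinearMap.ker_eq_bot']
    rintro ⟨A, hA⟩ h
    rw [LinearMap.domRestrict_apply, Submodule.mkQ_apply, Submodule.Quotient.mk_eq_zero] at h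
    exact Subtype.ext (hT.eq hz hA h)
  have hfin : Module.finrank ℂ ((cx V.uni).map E.mkQ) = Module.finrank ℚ V.uni := by
    rw [← ZQ38.finrank_cx, ← LinearMap.finrank_range_of_inj hinj, LinearMap.range_domRestrict]
  rw [← hfin]
  have hP : V.Pz z ∈ E := (ZQ38.oP_mem_Fend (V.grP' hz) (V.h_del hz)).1
  have hY : V.Yz z ∈ E := (ZQ38.oP_mem_Fend (V.grP' hz) (V.h_del hz)).2
  have hQ : V.Qz z ∈ E := by
    have h1 : V.Qz z = V.Yz z - V.Pz z := by
      rw [← V.Pz_add_Qz z, add_sub_cancel_left]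
    rw [h1]
    exact Submodule.sub_mem _ hY hP
  have hEmap : ∀ A ∈ E, E.mkQ A = 0 := by
    intro A hA
    rw [Submodule.mkQ_apply, Submodule.Quotient.mk_eq_zero]
    exact hA
  have hle : (cx (mtLie (wt kk nn) (pp kk nn) (V.Φ z))).map E.mkQ ≤ (cx V.uni).map E.mkQ := by
    rw [Submodule.map_le_iff_le_comap]
    apply cx_induction
    intro M hM
    rw [Submodule.mem_comap]
    obtain ⟨a, b, hab⟩ := V.mt_cm hz hq hα hM
    set x : Matrix (Ix kk) (Ix kk) ℂ := (2 * (a : ℂ) / α) • V.Pz z +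
      ((b : ℂ) - a / α) • (V.Pz z + V.Qz z) with hx
    have hxE : x ∈ E := Submodule.add_mem _ (Submodule.smul_mem _ _ hP)
      (Submodule.smul_mem _ _ (Submodule.add_mem _ hP hQ))
    have hxm : x ∈ cx (mtLie (wt kk nn) (pp kk nn) (V.Φ z)) :=
      Submodule.add_mem _ (Submodule.smul_mem _ _ (V.Pz_mem hz))
        (Submodule.smul_mem _ _ (Submodule.add_mem _ (V.Pz_mem hz) (V.Qz_mem hz)))
    have hgen : ∀ {A}, A ∈ cx (mtLie (wt kk nn) (pp kk nn) (V.Φ z)) → Tri (wt kk nn) A :=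
      fun hA => ZQ38.cx_tri V.gen_tri (ZQ38.cx_mono (V.le_gen hz) hA)
    have hdsmul : ∀ (c : ℂ) (A : Matrix (Ix kk) (Ix kk) ℂ),
        dgR (wt kk nn) (c • A) = c • dgR (wt kk nn) A := by
      intro c A
      ext i k
      simp only [dgR, Matrix.smul_apply, smul_eq_mul]
      split_ifs
      · rfl
      · rw [mul_zero]
    have hdx : dgR (wt kk nn) x = dgR (wt kk nn) (qc M) := by
      have h1 : dgR (wt kk nn) (qc M) = qc (dgR (wt kk nn) M) := by
        ext i k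
        simp only [dgR, qc, Matrix.map_apply]
        split_ifs
        · rfl
        · rw [map_zero]
      rw [h1, hab, qc_dr, hx, ZQ38.B13_dgR_add, hdsmul, hdsmul, ZQ38.B13_dgR_add, V.dgR_Pz hz,
        V.dgR_Qz hz, ← dr_add, add_sub_cancel, ← dr_smul, ← dr_smul, ← dr_add]
      congr 1
      funext i
      have h2 := hα i
      have h3 : ((((![0, 0, 0, 1] : Fin 4 → ℚ) i : ℚ)) : ℂ) = (![0, 0, 0, 1] : Fin 4 → ℂ) i := by
        fin_cases i <;> simp
      simp only [Pi.add_apply, Pi.smul_apply, smul_eq_mul, Rat.cast_add, Rat.cast_mul, h3]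
      have h4 : 2 * hv (V.tC z) i = α * (q i : ℂ) + (![0, 0, 0, 1] : Fin 4 → ℂ) i := by
        linear_combination h2
      have h5 : 2 * (a : ℂ) / α * hv (V.tC z) i = a / α * (2 * hv (V.tC z) i) := by ring
      rw [h5, h4]
      field_simp
      ring
    have h6 : qc M - x ∈ cx V.uni := by
      rw [← hu]
      unfold uz
      rw [ZQ38.cx_inf, ZQ38.cx_low]
      refine ⟨Submodule.sub_mem _ (ZQ38.mem_cx_of_mem hM) hxm, ?_⟩
      exact low_of_dgR (hgen (ZQ38.mem_cx_of_mem hM)) (hgen hxm) hdx.symm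
    refine ⟨qc M - x, h6, ?_⟩
    rw [map_sub, hEmap x hxE, sub_zero]
  have hge : (cx V.uni).map E.mkQ ≤ (cx (mtLie (wt kk nn) (pp kk nn) (V.Φ z))).map E.mkQ := by
    apply Submodule.map_mono
    rw [← hu]
    exact ZQ38.cx_mono inf_le_left
  rw [le_antisymm hle hge]

end EllVar

end Pool.Agent.LibME94
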