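import Pool.Agent.LibME94.D3
import Pool.Agent.LibME94.F3
import Pool.Agent.LibME94.F4

/-!
# The Hodge locus and the atypical locus of a nice variation
-/

open Matrix Polynomial UpperHalfPlane
open scoped MatrixGroups ComplexConjugate
open MW38 (Fl Tri dg)
open ZQ38 (Un Low cx Fend brk Stab GrP PG Dwt An DelH IsLie mtLie oP oQ dgR mem_cx_iff adm Lm HH)
open Pool.Agent.LibUB33 (Curve)
open Pool.Agent.LibEis68 (sl sl_bracket act form hvec form_linearIndependent sl_mulVec_form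
  form_span)

namespace Pool.Agent.LibME94

variable {J : Type} [Fintype J] [DecidableEq J] {kk : J → ℕ} {nn : J → ℤ} {X : Curve}

namespace EllVar

variable (V : EllVar X kk nn)

theorem mt_eq_of {z : ℂ} (hz : z ∈ Om)
    (h : ∀ t : Fin 4 → ℚ, ∃ A ∈ mtLie (wt kk nn) (pp kk nn) (V.Φ z),
      dgR (wt kk nn) A = dr kk nn t) (hu : V.uz z = V.uni) :
    mtLie (wt kk nn) (pp kk nn) (V.Φ z) = V.gen := by
  refine le_antisymm (V.le_gen hz) fun A hA => ?_
  obtain ⟨t, ht⟩ := V.gr_gen hA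
  obtain ⟨B, hB, hBt⟩ := h t
  have h1 : A - B ∈ V.uni := by
    refine ⟨Submodule.sub_mem _ hA (V.le_gen hz hB), ?_⟩
    exact low_of_dgR (V.gen_tri A hA) (V.gen_tri B (V.le_gen hz hB)) (by rw [hBt, ht])
  rw [← hu] at h1
  have h2 := Submodule.add_mem _ h1.1 hB
  rwa [sub_add_cancel] at h2

theorem mt_eq {z : ℂ} (hz : z ∈ Om) (hcm : ¬ LibEis68.IsCM (V.tC z)) (hu : V.uz z = V.uni) :
    mtLie (wt kk nn) (pp kk nn) (V.Φ z) = V.gen := V.mt_eq_of hz (V.gr_mt hz hcm) hu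

theorem mt_eq_const (h0 : ∀ j, kk j = 0) {z : ℂ} (hz : z ∈ Om) (hu : V.uz z = V.uni) :
    mtLie (wt kk nn) (pp kk nn) (V.Φ z) = V.gen := by
  refine V.mt_eq_of hz (fun t => ?_) hu
  have hdr : ∀ {R : Type} [CommRing R] (t : Fin 4 → R),
      dr kk nn t = t 3 • dr kk nn (R := R) ![0, 0, 0, 1] := by
    intro R _ t
    rw [← dr_smul]
    ext ⟨i, x⟩ ⟨j, y⟩
    by_cases hij : i = j
    · subst hij
      unfold dr
      rw [Matrix.blockDiagonal'_apply_eq, Matrix.blockDiagonal'_apply_eq]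
      have hx : (x : ℕ) = 0 := by have := x.2; have := h0 i; omega
      have hy : (y : ℕ) = 0 := by have := y.2; have := h0 i; omega
      have hk : kk i = 0 := h0 i
      simp [sl, hx, hy, hk]
    · unfold dr
      rw [Matrix.blockDiagonal'_apply_ne _ _ _ hij, Matrix.blockDiagonal'_apply_ne _ _ _ hij]
  -- the weight operator
  have hY : V.Yz z ∈ cx (mtLie (wt kk nn) (pp kk nn) (V.Φ z)) := by
    rw [← V.Pz_add_Qz]
    exact Submodule.add_mem _ (V.Pz_mem hz) (V.Qz_mem hz)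
  have hYd : dgR (wt kk nn) (V.Yz z) = dr kk nn ![0, 0, 0, 1] := by
    rw [← V.Pz_add_Qz]
    have : dgR (wt kk nn) (V.Pz z + V.Qz z) =
        dgR (wt kk nn) (V.Pz z) + dgR (wt kk nn) (V.Qz z) := by
      ext x y
      unfold dgR
      simp only [Matrix.add_apply]
      split_ifs <;> simp
    rw [this, V.dgR_Pz hz, V.dgR_Qz hz, ← dr_add]
    congr 1
    abel
  obtain ⟨f, hf⟩ : ∃ f : ℂ →ₗ[ℚ] ℚ, f 1 = 1 := by
    obtain ⟨f, hf⟩ := (Algebra.linearMap ℚ ℂ).exists_leftInverse_of_injective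
      (LinearMap.ker_eq_bot.2 (algebraMap ℚ ℂ).injective)
    refine ⟨f, ?_⟩
    have := LinearMap.congr_fun hf 1
    simpa using this
  refine ⟨t 3 • (V.Yz z).map f, Submodule.smul_mem _ _ ((mem_cx_iff _ _).1 hY f), ?_⟩
  have h1 : dgR (wt kk nn) (t 3 • (V.Yz z).map f) =
      t 3 • (dgR (wt kk nn) (V.Yz z)).map f := by
    ext x y
    unfold dgR
    simp only [Matrix.smul_apply, Matrix.map_apply]
    split_ifs <;> simp
  rw [h1, hYd, dr_mapf, hdr t]
  congr 1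
  congr 1
  funext i
  fin_cases i
  · simp
  · simp
  · simp
  · simpa using hf

/-- the dimension of the generic Mumford-Tate group -/
theorem genMt : V.genericMtDim = Module.finrank ℚ V.gen := by
  obtain ⟨z₀, hz₀, h⟩ := V.gen_eq
  have hle : ∀ z : ℍ, V.mtDim z ≤ Module.finrank ℚ V.gen := fun z =>
    Submodule.finrank_mono (V.le_gen z.im_pos)
  refine le_antisymm (ciSup_le hle) ?_
  have hb : BddAbove (Set.range V.mtDim) := ⟨_, by
    rintro _ ⟨z, rfl⟩
    exact hle z⟩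
  refine le_trans ?_ (le_ciSup hb ⟨z₀, hz₀⟩)
  rw [h]
  rfl

theorem mem_HL (z : ℍ) : z ∈ V.hodgeLocus ↔
    mtLie (wt kk nn) (pp kk nn) (V.Φ z) ≠ V.gen := by
  have h1 : z ∈ V.hodgeLocus ↔ Module.finrank ℚ (mtLie (wt kk nn) (pp kk nn) (V.Φ z)) <
      Module.finrank ℚ V.gen := by
    rw [← V.genMt]
    rfl
  rw [h1]
  constructor
  · intro h h'
    rw [h'] at h
    exact lt_irrefl _ h
  · intro h
    exact Submodule.finrank_lt_finrank_of_lt (lt_of_le_of_ne (V.le_gen z.im_pos) h)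

/-- the dimension of the generic Mumford-Tate domain -/
theorem genDom (hT : V.NegTypes) {j : J} (hj : 1 ≤ kk j) :
    V.genericDomDim = Module.finrank ℚ V.uni + 1 := by
  obtain ⟨z₀, hz₀, h⟩ := V.gen_eq
  have hle : ∀ z : ℍ, V.domDim z ≤ Module.finrank ℚ V.uni + 1 := fun z =>
    V.dom_le z.im_pos (V.le_gen z.im_pos)
  refine le_antisymm (ciSup_le hle) ?_
  have hb : BddAbove (Set.range V.domDim) := ⟨_, by
    rintro _ ⟨z, rfl⟩
    exact hle z⟩
  refine le_trans ?_ (le_ciSup hb ⟨z₀, hz₀⟩)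
  have h2 := V.dom_ge hT hj hz₀
  rw [h] at h2
  exact h2

theorem tC_eq (z : ℍ) : V.tC z = (V.τ z : ℂ) := by
  unfold tC
  rw [ofComplex_apply]

theorem HL_small {z : ℍ} (h : z ∈ V.hodgeLocus) (hcm : ¬ LibEis68.IsCM (V.τ z : ℂ)) :
    V.uz z ≠ V.uni := by
  intro hu
  exact (V.mem_HL z).1 h (V.mt_eq z.im_pos (by rwa [V.tC_eq]) hu)

theorem atyp_small (hT : V.NegTypes) {z : ℍ} (h : z ∈ V.atypicalLocus) : V.uz z ≠ V.uni := by
  intro hu
  by_cases hcm : LibEis68.IsCM (V.τ z : ℂ)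
  · by_cases hj : ∃ j, 1 ≤ kk j
    · obtain ⟨j, hj⟩ := hj
      apply h.2
      rw [V.genDom hT hj]
      have h1 : V.domDim z = Module.finrank ℚ V.uni :=
        V.dom_cm hT z.im_pos (by rwa [V.tC_eq]) hu
      rw [h1]
      omega
    · push Not at hj
      exact (V.mem_HL z).1 h.1 (V.mt_eq_const (fun j => by have := hj j; omega) z.im_pos hu)
  · exact V.HL_small h.1 hcm hu

theorem cm_HL {j : J} (hj : 1 ≤ kk j) {z : ℍ} (hcm : LibEis68.IsCM (V.τ z : ℂ)) :
    z ∈ V.hodgeLocus :=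
  (V.mem_HL z).2 (V.cm_lt hj z.im_pos (by rwa [V.tC_eq]))

variable {V}

theorem Nice.main (hN : V.Nice) (hT : V.NegTypes) (hT2 : V.NoConst) (h : OnePlace X V.ρ ∨ V.DistinctEven) :
    ((fun z : ℍ => (Quotient.mk'' z : X.Pts)) ''
      {z : ℍ | z ∈ V.hodgeLocus ∧ ¬ LibEis68.IsCM (V.τ z : ℂ)}).Finite ∧
    ((fun z : ℍ => (Quotient.mk'' z : X.Pts)) '' V.atypicalLocus).Finite := by
  have h1 : ((fun z : ℍ => (Quotient.mk'' z : X.Pts)) '' {z : ℍ | V.uz z ≠ V.uni}).Finite := by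
    rcases h with h | h
    · exact hN.small_one hT hT2 h
    · exact hN.small_odd hT hT2 h
  exact ⟨h1.subset (Set.image_mono fun z hz => V.HL_small hz.1 hz.2),
    h1.subset (Set.image_mono fun z hz => V.atyp_small hT hz)⟩

end EllVar

end Pool.Agent.LibME94
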