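import Pool.Agent.LibME94.G1
import Pool.Agent.LibME94.E5
import Pool.Agent.LibME94.E6

/-!
# The main theorem
-/

open Matrix Polynomial UpperHalfPlane
open scoped MatrixGroups ComplexConjugate
open MW38 (Fl Tri dg)
open ZQ38 (Un Low cx Fend brk Stab GrP PG Dwt An DelH IsLie mtLie oP oQ dgR mem_cx_iff adm Lm HH)
open Pool.Agent.LibUB33 (Curve)

namespace Pool.Agent.LibME94

variable {J : Type} [Fintype J] [DecidableEq J] {kk : J → ℕ} {nn : J → ℤ} {X : Curve}

namespace EllVar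

theorem main (V : EllVar X kk nn) (hT : V.NegTypes) (hT2 : V.NoConst) (h : OnePlace X V.ρ ∨ V.DistinctEven) :
    ((fun z : ℍ => (Quotient.mk'' z : X.Pts)) ''
      {z : ℍ | z ∈ V.hodgeLocus ∧ ¬ LibEis68.IsCM (V.τ z : ℂ)}).Finite ∧
    ((fun z : ℍ => (Quotient.mk'' z : X.Pts)) '' V.atypicalLocus).Finite := by
  obtain ⟨t, ht, hN⟩ := V.exists_nice
  have h1 := hN.main (V.cj_T1 ht hT) (V.cj_T2 ht hT2) (h.imp (fun h => h) (V.cj_T3 ht))
  have e1 : (V.cj ht).mtDim = V.mtDim := funext (V.cj_dim ht)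
  have e2 : (V.cj ht).domDim = V.domDim := funext (V.cj_dom ht)
  have e3 : (V.cj ht).hodgeLocus = V.hodgeLocus := by
    unfold hodgeLocus genericMtDim
    rw [e1]
  have e4 : (V.cj ht).atypicalLocus = V.atypicalLocus := by
    unfold atypicalLocus genericDomDim
    rw [e3, e2]
  rw [e3, e4] at h1
  exact h1

end EllVar

end Pool.Agent.LibME94
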