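import Pool.Agent.LibME94.C5
import Pool.Agent.LibME94.C7

/-!
ROW [ME94 H1]. The hypothesis (NegTypes) read off from the graded pieces.

PLAN. Let `A ∈ cx V.uni`, so `A ∈ Low` (`cx_uni` in C3.lean), `A ∈ Fend p (V.Φ z) 0`,
`P = PP kk nn s`, `s = V.tC z`, `h = V.h z`. By `Fend_comp` (C4.lean; `V.grP' hz`, `V.h_del hz`):
`P b * (h⁻¹ * A * h) * P a = 0` whenever `b < a`. Put `N = h⁻¹ * A * h ∈ Low` (`h` is `Un`:
`(V.h_del hz).un`, `Un_inv` and `low_mul_left`, `low_mul_right`, `Un_tri` in C2/C7). Also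
`P b * N * P a = 0` for `a ≤ b`: `P a x y = 0` unless `x.1 = y.1` (`PP_ne`, B2.lean) and the column
space of `P a` meets the block `j` only if `a = i - nn j` for some `0 ≤ i ≤ kk j`
(`PP = Sf * diagonal (pp = a) * Sf⁻¹`, B1.lean), so a nonzero entry of `P b * N * P a` would give
blocks `j'`, `j` with `wt j' < wt j`, `a ≥ - nn j`, `b ≤ kk j' - nn j' < - nn j ≤ a`: contradiction
with `a ≤ b`. Hence `N = ∑ b ∑ a P b * N * P a = 0` (`GrP.sum`), and `A = h N h⁻¹ = 0`.
(`V.NegTypes` is defined in C5.lean: for all `z : ℍ`.)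
-/

open Matrix Polynomial UpperHalfPlane
open scoped MatrixGroups ComplexConjugate
open MW38 (Fl Tri dg)
open ZQ38 (Un Low cx Fend brk Stab GrP PG Dwt An DelH IsLie mtLie oP oQ dgR mem_cx_iff adm)
open Pool.Agent.LibUB33 (Curve)
open Pool.Agent.LibEis68 (sl sl_bracket act form hvec form_linearIndependent sl_mulVec_form
  form_span)

namespace Pool.Agent.LibME94

variable {J : Type} [Fintype J] [DecidableEq J] {kk : J → ℕ} {nn : J → ℤ} {X : Curve}

namespace EllVar

private theorem H1_Sf_tri (s : ℂ) : Tri (wt kk nn) (Sf kk s) := by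
  intro x y hxy
  refine Sf_ne s x y fun h => ?_
  have := wt_eq_of_fst (nn := nn) h
  omega

private theorem H1_Sf_inv_tri {s : ℂ} (hs : 0 < s.im) : Tri (wt kk nn) (Sf kk s)⁻¹ := by
  intro x y hxy
  refine Sf_inv_ne hs x y fun h => ?_
  have := wt_eq_of_fst (nn := nn) h
  omega

theorem T1_of (V : EllVar X kk nn)
    (h : ∀ i j : J, (kk j : ℤ) - 2 * nn j < kk i - 2 * nn i → (kk j : ℤ) - nn j < -nn i) :
    V.NegTypes := by
  intro z A hA hF
  have hz : (z : ℂ) ∈ Om := z.im_pos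
  have hs := V.tC_pos (z : ℂ)
  have hun := (V.h_del hz).un
  have hd : IsUnit (V.h z).det := (Matrix.isUnit_iff_isUnit_det _).1 (ZQ38.Un.isUnit hun)
  have hu := (Matrix.isUnit_iff_isUnit_det _).1 (Sf_isUnit (kk := kk) hs)
  have hAl : A ∈ Low ℂ (wt kk nn) := by
    rw [V.cx_uni] at hA
    exact hA.2
  rw [Fend_comp (V.grP' hz) (V.h_del hz)] at hF
  set N : Matrix (Ix kk) (Ix kk) ℂ := (V.h z)⁻¹ * A * V.h z with hN
  have hNl : N ∈ Low ℂ (wt kk nn) :=
    low_mul_right (Un_tri hun) (low_mul_left (Un_tri (Un_inv hun)) hAl)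
  set S := Sf kk (V.tC z) with hS
  set M : Matrix (Ix kk) (Ix kk) ℂ := S⁻¹ * N * S with hM
  have hMl : M ∈ Low ℂ (wt kk nn) :=
    low_mul_right (H1_Sf_tri _) (low_mul_left (H1_Sf_inv_tri hs) hNl)
  have hM0 : M = 0 := by
    ext x y
    rw [Matrix.zero_apply]
    by_cases hxy : wt kk nn y ≤ wt kk nn x
    · exact hMl x y hxy
    · have h1 := h y.1 x.1 (by
        simp only [wt] at hxy
        omega)
      have hx2 := x.2.2
      have h2 : pp kk nn x < pp kk nn y + 0 := by
        simp only [pp]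
        omega
      have h3 := hF (pp kk nn y) (pp kk nn x) h2
      have h4 : S⁻¹ * (PP kk nn (V.tC z) (pp kk nn x) * N * PP kk nn (V.tC z) (pp kk nn y)) * S =
          Matrix.diagonal (fun w => if pp kk nn w = pp kk nn x then (1 : ℂ) else 0) * M *
            Matrix.diagonal (fun w => if pp kk nn w = pp kk nn y then (1 : ℂ) else 0) := by
        unfold PP
        rw [← hS, hM]
        simp only [Matrix.mul_assoc]
        rw [Matrix.nonsing_inv_mul_cancel_left _ _ hu, Matrix.nonsing_inv_mul _ hu, Matrix.mul_one]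
      rw [h3, Matrix.mul_zero, Matrix.zero_mul] at h4
      have h5 := congrFun (congrFun h4 x) y
      rw [Matrix.mul_diagonal, Matrix.diagonal_mul, if_pos rfl, if_pos rfl, one_mul, mul_one,
        Matrix.zero_apply] at h5
      exact h5.symm
  have hN0 : N = 0 := by
    have h6 : N = S * M * S⁻¹ := by
      rw [hM]
      simp only [Matrix.mul_assoc]
      rw [Matrix.mul_nonsing_inv _ hu, Matrix.mul_one, Matrix.mul_nonsing_inv_cancel_left _ _ hu]
    rw [h6, hM0, Matrix.mul_zero, Matrix.zero_mul]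
  have hA0 : A = V.h z * N * (V.h z)⁻¹ := by
    rw [hN]
    simp only [Matrix.mul_assoc]
    rw [Matrix.mul_nonsing_inv _ hd, Matrix.mul_one, Matrix.mul_nonsing_inv_cancel_left _ _ hd]
  rw [hA0, hN0, Matrix.mul_zero, Matrix.zero_mul]

end EllVar

end Pool.Agent.LibME94
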