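import Pool.Agent.LibME94.A4

/-!
ROW [ME94 H2]. A homomorphism between symmetric powers of different degree which commutes with the
raising operator and with the weights is zero.

PLAN. `sl k ![0,1,0,0]` is diagonal with entry `2 i - k` at `i` (see `dr_H` in A1.lean or the
definition of `sl` in LibEis68/Defs.lean), so `hh` gives `B a b = 0` unless `2 a - l = 2 b - k`
(a : Fin (l+1), b : Fin (k+1)). `sl k ![1,0,0,0]` sends the basis vector `i` to `(k - i)` times the
basis vector `i + 1` (`sl_R_single` in A3.lean), so `he` at the entry `(a + 1, b)` reads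
`(l - a) * B a b = (k - b) * B (a + 1) (b + 1)` (with `B (a+1) (b+1) = 0` if `b = k`, and
at `a + 1 > l` the left side is absent).
Put `β b = B a b` with `2 a - l = 2 b - k` (i.e. `a = b + (l - k) / 2`; if `l - k` is odd or there is
no such `a` in range the entry is 0). Case `l < k`: the entry `b = 0` is 0 (a would be negative);
and `(k - b) * β (b + 1) = (l - a) * β b` (or `= 0` when `a` is out of range) gives by induction on
`b` that all entries vanish since `k - b ≠ 0` for `b < k`. Case `k < l`: at `b = k` we have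
`a = k + (l - k)/2 < l` and `(l - a) * β k = 0`, so `β k = 0`; downward induction:
`(l - a) * β b = (k - b) * β (b + 1) = 0` with `l - a ≠ 0`.
-/

open Matrix
open Pool.Agent.LibEis68 (sl sl_bracket)

namespace Pool.Agent.LibME94

private theorem H2_e (κ : ℕ) (i j : Fin (κ + 1)) :
    sl κ (![1, 0, 0, 0] : Fin 4 → ℚ) i j = if (i : ℕ) = j + 1 then (κ : ℚ) - (j : ℕ) else 0 := by
  simp only [sl, Matrix.of_apply, Matrix.cons_val_zero, Matrix.cons_val_one, Matrix.cons_val,
    one_mul, zero_mul, add_zero, ite_self, sub_zero]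

private theorem H2_h (κ : ℕ) (i j : Fin (κ + 1)) :
    sl κ (![0, 1, 0, 0] : Fin 4 → ℚ) i j = if i = j then 2 * ((j : ℕ) : ℚ) - κ else 0 := by
  simp only [sl, Matrix.of_apply, Matrix.cons_val_zero, Matrix.cons_val_one, Matrix.cons_val,
    one_mul, zero_mul, add_zero, ite_self, sub_zero, zero_add]

private theorem H2_left {k l : ℕ} (B : Matrix (Fin (l + 1)) (Fin (k + 1)) ℚ) (a : ℕ)
    (ha : a < l) (b : Fin (k + 1)) :
    (sl l (![1, 0, 0, 0] : Fin 4 → ℚ) * B) ⟨a + 1, by omega⟩ b =
      ((l : ℚ) - a) * B ⟨a, by omega⟩ b := by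
  rw [Matrix.mul_apply, Finset.sum_eq_single (⟨a, by omega⟩ : Fin (l + 1))]
  · rw [H2_e, if_pos rfl]
  · intro c _ hc
    rw [H2_e, if_neg, zero_mul]
    intro h
    apply hc
    ext
    simp only at h ⊢
    omega
  · intro h
    exact absurd (Finset.mem_univ _) h

private theorem H2_left0 {k l : ℕ} (B : Matrix (Fin (l + 1)) (Fin (k + 1)) ℚ)
    (b : Fin (k + 1)) :
    (sl l (![1, 0, 0, 0] : Fin 4 → ℚ) * B) ⟨0, by omega⟩ b = 0 := by
  rw [Matrix.mul_apply]
  refine Finset.sum_eq_zero fun c _ => ?_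
  rw [H2_e, if_neg, zero_mul]
  simp only
  omega

private theorem H2_right {k l : ℕ} (B : Matrix (Fin (l + 1)) (Fin (k + 1)) ℚ)
    (a : Fin (l + 1)) (b : ℕ) (hb : b < k) :
    (B * sl k (![1, 0, 0, 0] : Fin 4 → ℚ)) a ⟨b, by omega⟩ =
      ((k : ℚ) - b) * B a ⟨b + 1, by omega⟩ := by
  rw [Matrix.mul_apply, Finset.sum_eq_single (⟨b + 1, by omega⟩ : Fin (k + 1))]
  · rw [H2_e, if_pos rfl, mul_comm]
  · intro c _ hc
    rw [H2_e, if_neg, mul_zero]
    intro h
    apply hc
    ext
    simp only at h ⊢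
    omega
  · intro h
    exact absurd (Finset.mem_univ _) h

private theorem H2_rightk {k l : ℕ} (B : Matrix (Fin (l + 1)) (Fin (k + 1)) ℚ)
    (a : Fin (l + 1)) :
    (B * sl k (![1, 0, 0, 0] : Fin 4 → ℚ)) a ⟨k, by omega⟩ = 0 := by
  rw [Matrix.mul_apply]
  refine Finset.sum_eq_zero fun c _ => ?_
  have hc := c.2
  rw [H2_e, if_neg, mul_zero]
  simp only
  omega

private theorem H2_wt {k l : ℕ} {B : Matrix (Fin (l + 1)) (Fin (k + 1)) ℚ}
    (hh : sl l (![0, 1, 0, 0] : Fin 4 → ℚ) * B = B * sl k (![0, 1, 0, 0] : Fin 4 → ℚ))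
    (a : Fin (l + 1)) (b : Fin (k + 1)) (hab : 2 * (a : ℕ) + k ≠ 2 * (b : ℕ) + l) :
    B a b = 0 := by
  have h1 := congrFun (congrFun hh a) b
  rw [Matrix.mul_apply, Matrix.mul_apply, Finset.sum_eq_single a, Finset.sum_eq_single b,
    H2_h, H2_h, if_pos rfl, if_pos rfl] at h1
  · have h2 : ((2 * (a : ℕ) + k : ℕ) : ℚ) - ((2 * (b : ℕ) + l : ℕ) : ℚ) ≠ 0 := by
      rw [sub_ne_zero]
      exact_mod_cast hab
    have h3 : (((2 * (a : ℕ) + k : ℕ) : ℚ) - ((2 * (b : ℕ) + l : ℕ) : ℚ)) * B a b = 0 := by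
      push_cast
      linear_combination h1
    exact (mul_eq_zero.1 h3).resolve_left h2
  · intro c _ hc
    rw [H2_h, if_neg hc, mul_zero]
  · intro h
    exact absurd (Finset.mem_univ _) h
  · intro c _ hc
    rw [H2_h, if_neg (fun h => hc h.symm), zero_mul]
  · intro h
    exact absurd (Finset.mem_univ _) h

theorem schur_e {k l : ℕ} (hkl : k ≠ l) {B : Matrix (Fin (l + 1)) (Fin (k + 1)) ℚ}
    (he : sl l (![1, 0, 0, 0] : Fin 4 → ℚ) * B = B * sl k (![1, 0, 0, 0] : Fin 4 → ℚ))
    (hh : sl l (![0, 1, 0, 0] : Fin 4 → ℚ) * B = B * sl k (![0, 1, 0, 0] : Fin 4 → ℚ)) :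
    B = 0 := by
  rcases lt_or_gt_of_ne hkl with hlt | hlt
  · -- `k < l`
    have key : ∀ n : ℕ, ∀ (a b : ℕ) (ha : a < l + 1) (hb : b < k + 1), b + n = k →
        2 * a + k = 2 * b + l → B ⟨a, ha⟩ ⟨b, hb⟩ = 0 := by
      intro n
      induction n with
      | zero =>
        intro a b ha hb hn hab
        have hbk : b = k := by omega
        subst hbk
        have hal : a < l := by omega
        have h1 := congrFun (congrFun he ⟨a + 1, by omega⟩) ⟨b, hb⟩
        rw [H2_left B a hal, H2_rightk] at h1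
        have h2 : (l : ℚ) - a ≠ 0 := by
          rw [sub_ne_zero]
          exact_mod_cast hal.ne'
        exact (mul_eq_zero.1 h1).resolve_left h2
      | succ n ih =>
        intro a b ha hb hn hab
        have hal : a < l := by omega
        have hbk : b < k := by omega
        have h1 := congrFun (congrFun he ⟨a + 1, by omega⟩) ⟨b, hb⟩
        rw [H2_left B a hal, H2_right B _ b hbk,
          ih (a + 1) (b + 1) (by omega) (by omega) (by omega) (by omega), mul_zero] at h1
        have h2 : (l : ℚ) - a ≠ 0 := by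
          rw [sub_ne_zero]
          exact_mod_cast hal.ne'
        exact (mul_eq_zero.1 h1).resolve_left h2
    ext a b
    rw [Matrix.zero_apply]
    by_cases hab : 2 * (a : ℕ) + k = 2 * (b : ℕ) + l
    · exact key (k - b) a b a.2 b.2 (by have := b.2; omega) hab
    · exact H2_wt hh a b hab
  · -- `l < k`
    have key : ∀ (a b : ℕ) (ha : a < l + 1) (hb : b < k + 1), a < b →
        B ⟨a, ha⟩ ⟨b, hb⟩ = 0 := by
      intro a
      induction a with
      | zero =>
        intro b ha hb hab
        obtain ⟨b, rfl⟩ : ∃ c, b = c + 1 := ⟨b - 1, by omega⟩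
        have h1 := congrFun (congrFun he ⟨0, by omega⟩) ⟨b, by omega⟩
        rw [H2_left0, H2_right B _ b (by omega)] at h1
        have h2 : (k : ℚ) - b ≠ 0 := by
          rw [sub_ne_zero]
          have : b < k := by omega
          exact_mod_cast this.ne'
        exact (mul_eq_zero.1 h1.symm).resolve_left h2
      | succ a ih =>
        intro b ha hb hab
        obtain ⟨b, rfl⟩ : ∃ c, b = c + 1 := ⟨b - 1, by omega⟩
        have h1 := congrFun (congrFun he ⟨a + 1, by omega⟩) ⟨b, by omega⟩
        rw [H2_left B a (by omega), H2_right B _ b (by omega),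
          ih b (by omega) (by omega) (by omega), mul_zero] at h1
        have h2 : (k : ℚ) - b ≠ 0 := by
          rw [sub_ne_zero]
          have : b < k := by omega
          exact_mod_cast this.ne'
        exact (mul_eq_zero.1 h1.symm).resolve_left h2
    ext a b
    rw [Matrix.zero_apply]
    by_cases hab : 2 * (a : ℕ) + k = 2 * (b : ℕ) + l
    · exact key a b a.2 b.2 (by omega)
    · exact H2_wt hh a b hab

end Pool.Agent.LibME94
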