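import Pool.Agent.LibME94.A4

/-!
ROW [ME94 H3]. An invariant functional does not vanish on the invariant vectors (extremal
projector of `𝔰𝔩₂` in weight 0).

PLAN. `IsFun.exists_low` (A3.lean) with `κ = 0` gives `B ∈ u`, `fn c B ≠ 0`, `cmp (wt) w B = B`,
`cmp (hw) 0 B = B`. Let `e = ad (dr ![1,0,0,0])`, `f = ad (dr ![0,0,-1,0])`, `h = ad (dr ![0,1,0,0])`
(commutation relations: `dr_bracket` and `ad_ad` in A1.lean, see `gr_comm`, `eigH_R` in A4.lean:
`f (e B) = e (f B) - h B`-type formulas; check the signs: `[e, f] = h`, `[h, e] = 2 e`,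
`[h, f] = -2 f`). `e^m B` has `h`-eigenvalue `2 m`. By induction on `m`:
`e (f^m u) = f^m (e u) + m (λ - (m - 1)) f^(m-1) u` if `h u = λ u`. With `x_m = f^m (e^m B)`,
`y_m = f^m (e^(m+1) B)`: `e x_m = y_m + m (m + 1) y_(m-1)`. As `e^m B = 0` for `m` large
(`cmp_far` in A2.lean: `e^m B` lives in `hw`-degree `2 m`, `cmp_R` in A4.lean), the finite sum
`v = ∑_(m < M) (-1)^m / (m! (m+1)!) • x_m` satisfies `e v = 0` (telescoping). `v ∈ u` (`GlSt`), `h v = 0`
(each `x_m` has `hw`-degree 0), `cmp (wt) w v = v` (`cmp_ad` in A2.lean, `sup_dr`). Finally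
`fn c x_m = 0` for `m ≥ 1`: `x_m = f (f^(m-1) e^m B)` and `fn c (f x) = 0` for `x ∈ u` because
`κ = 0` (`Fu.top` in A2.lean with `κ = 0`: `fn c ((f)^(0+1) B) = 0`; `IsFun.fu` in A3.lean), so
`fn c v = fn c B ≠ 0`.
-/

open Matrix
open ZQ38 (Un Low cx Fend brk Stab)
open Pool.Agent.LibEis68 (sl sl_bracket)

namespace Pool.Agent.LibME94

variable {J : Type} [Fintype J] [DecidableEq J] {kk : J → ℕ} {nn : J → ℤ}

/-- the raising operator on `f^(j+1) x`, `x` a highest weight vector -/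
private theorem H3_ef {x : Matrix (Ix kk) (Ix kk) ℚ} (m : ℕ) (hx : cmp (hw kk) (2 * m) x = x)
    (he : ad (dr kk nn (R := ℚ) ![1, 0, 0, 0]) x = 0) (j : ℕ) :
    ad (dr kk nn (R := ℚ) ![1, 0, 0, 0]) ((ad (dr kk nn (R := ℚ) ![0, 0, -1, 0]) ^ (j + 1)) x) =
      (((j : ℚ) + 1) * (2 * m - j)) • (ad (dr kk nn (R := ℚ) ![0, 0, -1, 0]) ^ j) x := by
  have hcomm : ∀ y : Matrix (Ix kk) (Ix kk) ℚ,
      ad (dr kk nn (R := ℚ) ![1, 0, 0, 0]) (ad (dr kk nn (R := ℚ) ![0, 0, -1, 0]) y) =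
        ad (dr kk nn (R := ℚ) ![0, 0, -1, 0]) (ad (dr kk nn (R := ℚ) ![1, 0, 0, 0]) y) +
          ad (dr kk nn (R := ℚ) ![0, 1, 0, 0]) y := by
    intro y
    rw [gr_comm]
    abel
  have hH : ∀ j : ℕ, ad (dr kk nn (R := ℚ) ![0, 1, 0, 0])
      ((ad (dr kk nn (R := ℚ) ![0, 0, -1, 0]) ^ j) x) =
        (2 * (m : ℚ) - 2 * j) • (ad (dr kk nn (R := ℚ) ![0, 0, -1, 0]) ^ j) x := by
    intro j
    have h1 := (eig_iff (R := ℚ) (hw kk) (2 * m - 2 * j)
      ((ad (dr kk nn (R := ℚ) ![0, 0, -1, 0]) ^ j) x)).2 (by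
        rw [Fu.cmp_G, sub_add_cancel, hx])
    rw [dr_H, h1]
    push_cast
    rfl
  induction j with
  | zero =>
    rw [zero_add, pow_one, hcomm, he, map_zero, zero_add]
    have h1 := hH 0
    rw [pow_zero, Module.End.one_apply] at h1
    rw [h1, pow_zero, Module.End.one_apply]
    congr 1
    push_cast
    ring
  | succ j ih =>
    rw [pow_succ' _ (j + 1), Module.End.mul_apply, hcomm, ih, map_smul, hH (j + 1),
      ← Module.End.mul_apply (ad (dr kk nn (R := ℚ) ![0, 0, -1, 0]))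
      (ad (dr kk nn (R := ℚ) ![0, 0, -1, 0]) ^ j), ← pow_succ', ← add_smul]
    congr 1
    push_cast
    ring

private theorem H3_eefff {x : Matrix (Ix kk) (Ix kk) ℚ} (m : ℕ)
    (hx : cmp (hw kk) (2 * m) x = x)
    (he : ad (dr kk nn (R := ℚ) ![1, 0, 0, 0]) x = 0) (k : ℕ) (hk : k ≤ 2 * m) :
    ∃ a : ℚ, a ≠ 0 ∧ (ad (dr kk nn (R := ℚ) ![1, 0, 0, 0]) ^ k)
      ((ad (dr kk nn (R := ℚ) ![0, 0, -1, 0]) ^ k) x) = a • x := by
  induction k with
  | zero => exact ⟨1, one_ne_zero, by simp⟩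
  | succ k ih =>
    obtain ⟨a, ha, h1⟩ := ih (by omega)
    refine ⟨((k : ℚ) + 1) * (2 * m - k) * a, ?_, ?_⟩
    · refine mul_ne_zero (mul_ne_zero ?_ ?_) ha
      · exact_mod_cast Nat.succ_ne_zero k
      · rw [sub_ne_zero]
        intro h
        have : 2 * m = k := by exact_mod_cast h
        omega
    · rw [pow_succ (ad (dr kk nn (R := ℚ) ![1, 0, 0, 0])), Module.End.mul_apply, H3_ef m hx he k,
        map_smul, h1, smul_smul]

theorem exists_inv {u K : Submodule ℚ (Matrix (Ix kk) (Ix kk) ℚ)} (hu : GlSt kk nn u) {w : ℤ}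
    {c : Matrix (Ix kk) (Ix kk) ℚ} (hc : IsFun nn u K w 0 c) :
    ∃ B ∈ u, fn c B ≠ 0 ∧ cmp (wt kk nn) w B = B ∧
      ad (dr kk nn (R := ℚ) ![1, 0, 0, 0]) B = 0 ∧
      ad (dr kk nn (R := ℚ) ![0, 1, 0, 0]) B = 0 := by
  obtain ⟨B, hB, hcB, hBw, hBh⟩ := hc.exists_low hu
  have hD : ∀ t : Fin 4 → ℚ, ∀ C : Matrix (Ix kk) (Ix kk) ℚ, cmp (wt kk nn) w C = C →
      cmp (wt kk nn) w (ad (dr kk nn t) C) = ad (dr kk nn t) C := by
    intro t C hC
    have h1 := cmp_ad (R := ℚ) (m := 0) (sup_dr (kk := kk) (nn := nn) t) w C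
    rw [add_zero] at h1
    rw [h1, hC]
  have hpu : ∀ (t : Fin 4 → ℚ) (l : ℕ) (C : Matrix (Ix kk) (Ix kk) ℚ), C ∈ u →
      (ad (dr kk nn t) ^ l) C ∈ u := by
    intro t l C hC
    induction l with
    | zero => simpa using hC
    | succ l ih =>
      rw [pow_succ', Module.End.mul_apply]
      exact hu _ _ ih
  have hpw : ∀ (t : Fin 4 → ℚ) (l : ℕ) (C : Matrix (Ix kk) (Ix kk) ℚ), cmp (wt kk nn) w C = C →
      cmp (wt kk nn) w ((ad (dr kk nn t) ^ l) C) = (ad (dr kk nn t) ^ l) C := by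
    intro t l C hC
    induction l with
    | zero => simpa using hC
    | succ l ih =>
      rw [pow_succ', Module.End.mul_apply]
      exact hD _ _ ih
  have key : ∀ m : ℕ, ∀ v ∈ u, cmp (wt kk nn) w v = v → cmp (hw kk) 0 v = v → fn c v ≠ 0 →
      (ad (dr kk nn (R := ℚ) ![1, 0, 0, 0]) ^ (m + 1)) v = 0 →
      ∃ B ∈ u, fn c B ≠ 0 ∧ cmp (wt kk nn) w B = B ∧
        ad (dr kk nn (R := ℚ) ![1, 0, 0, 0]) B = 0 ∧
        ad (dr kk nn (R := ℚ) ![0, 1, 0, 0]) B = 0 := by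
    intro m
    induction m with
    | zero =>
      intro v hv hvw hvh hcv h
      refine ⟨v, hv, hcv, hvw, ?_, ?_⟩
      · rwa [zero_add, pow_one] at h
      · have h1 := (eig_iff (R := ℚ) (hw kk) 0 v).2 hvh
        rw [dr_H, h1, Int.cast_zero, zero_smul]
    | succ m ih =>
      intro v hv hvw hvh hcv h
      set x := (ad (dr kk nn (R := ℚ) ![1, 0, 0, 0]) ^ (m + 1)) v with hx
      have hxu : x ∈ u := hpu _ _ _ hv
      have hxw : cmp (wt kk nn) w x = x := hpw _ _ _ hvw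
      have hxe : ad (dr kk nn (R := ℚ) ![1, 0, 0, 0]) x = 0 := by
        rw [hx, ← Module.End.mul_apply, ← pow_succ']
        exact h
      have hxh : cmp (hw kk) (2 * ((m + 1 : ℕ) : ℤ)) x = x := by
        have h1 := cmp_R (nn := nn) (R := ℚ) 0 (m + 1) v
        rw [zero_add, hvh] at h1
        exact h1
      obtain ⟨a, ha, h1⟩ := H3_eefff (m + 1) hxh hxe (m + 1) (by omega)
      set y := (ad (dr kk nn (R := ℚ) ![0, 0, -1, 0]) ^ (m + 1)) x with hy
      have hyu : y ∈ u := hpu _ _ _ hxu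
      have hyw : cmp (wt kk nn) w y = y := hpw _ _ _ hxw
      have hyh : cmp (hw kk) 0 y = y := by
        have h2 := Fu.cmp_G (nn := nn) (R := ℚ) 0 (m + 1) x
        rw [zero_add, hxh] at h2
        exact h2
      have hcy : fn c y = 0 := by
        have h2 := (hc.fu hu).top (κ := 0) (hpu ![0, 0, -1, 0] m x hxu)
        rw [zero_add, pow_one, ← Module.End.mul_apply, ← pow_succ'] at h2
        exact h2
      refine ih (v - a⁻¹ • y) (u.sub_mem hv (u.smul_mem _ hyu)) ?_ ?_ ?_ ?_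
      · rw [map_sub, map_smul, hvw, hyw]
      · rw [map_sub, map_smul, hvh, hyh]
      · rw [map_sub, map_smul, hcy, smul_zero, sub_zero]
        exact hcv
      · rw [map_sub, map_smul, h1, smul_smul, inv_mul_cancel₀ ha, one_smul, ← hx, sub_self]
  obtain ⟨N, hN⟩ := cmp_far (R := ℚ) (hw kk)
  have hBh' : cmp (hw kk) 0 B = B := by
    have : (-((0 : ℕ) : ℤ)) = 0 := by simp
    rw [this] at hBh
    exact hBh
  refine key N B hB hBw hBh' hcB ?_
  have h1 := cmp_R (nn := nn) (R := ℚ) 0 (N + 1) B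
  rw [hBh'] at h1
  rw [← h1]
  apply hN
  rw [lt_abs]
  left
  push_cast
  omega

end Pool.Agent.LibME94
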