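import Pool.Agent.LibME94.H1
import Pool.Agent.LibME94.H2
import Pool.Agent.LibME94.H3
import Pool.Agent.LibME94.G2

/-!
# Sufficient conditions on the graded pieces
-/

open Matrix Polynomial UpperHalfPlane
open scoped MatrixGroups ComplexConjugate
open MW38 (Fl Tri dg)
open ZQ38 (Un Low cx Fend brk Stab GrP PG Dwt An DelH IsLie mtLie oP oQ dgR mem_cx_iff adm Lm HH)
open Pool.Agent.LibUB33 (Curve)
open Pool.Agent.LibEis68 (sl sl_bracket)

namespace Pool.Agent.LibME94

variable {J : Type} [Fintype J] [DecidableEq J] {kk : J → ℕ} {nn : J → ℤ} {X : Curve}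

theorem dr_mul_block {R : Type*} [CommRing R] (t : Fin 4 → R) (B : Matrix (Ix kk) (Ix kk) R)
    (i j : J) (a : Fin (kk j + 1)) (b : Fin (kk i + 1)) :
    (dr kk nn t * B) ⟨j, a⟩ ⟨i, b⟩ =
      (sl (kk j) ![t 0, t 1, t 2, t 3 * ((kk j : R) - 2 * (nn j : R))] *
        Matrix.of fun (a : Fin (kk j + 1)) (b : Fin (kk i + 1)) => B ⟨j, a⟩ ⟨i, b⟩) a b := by
  rw [Matrix.mul_apply, Matrix.mul_apply, Fintype.sum_sigma, Finset.sum_eq_single j]
  · refine Finset.sum_congr rfl fun x _ => ?_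
    unfold dr
    rw [Matrix.blockDiagonal'_apply_eq]
    rfl
  · intro j' _ hj'
    refine Finset.sum_eq_zero fun x _ => ?_
    unfold dr
    rw [Matrix.blockDiagonal'_apply_ne _ _ _ hj'.symm, zero_mul]
  · intro h
    exact absurd (Finset.mem_univ _) h

theorem mul_dr_block {R : Type*} [CommRing R] (t : Fin 4 → R) (B : Matrix (Ix kk) (Ix kk) R)
    (i j : J) (a : Fin (kk j + 1)) (b : Fin (kk i + 1)) :
    (B * dr kk nn t) ⟨j, a⟩ ⟨i, b⟩ =
      ((Matrix.of fun (a : Fin (kk j + 1)) (b : Fin (kk i + 1)) => B ⟨j, a⟩ ⟨i, b⟩) *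
        sl (kk i) ![t 0, t 1, t 2, t 3 * ((kk i : R) - 2 * (nn i : R))]) a b := by
  rw [Matrix.mul_apply, Matrix.mul_apply, Fintype.sum_sigma, Finset.sum_eq_single i]
  · refine Finset.sum_congr rfl fun x _ => ?_
    unfold dr
    rw [Matrix.blockDiagonal'_apply_eq]
    rfl
  · intro j' _ hj'
    refine Finset.sum_eq_zero fun x _ => ?_
    unfold dr
    rw [Matrix.blockDiagonal'_apply_ne _ _ _ hj', mul_zero]
  · intro h
    exact absurd (Finset.mem_univ _) h

namespace EllVar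

theorem Nice.T2_of {V : EllVar X kk nn} (hN : V.Nice)
    (h : ∀ i j : J, (kk j : ℤ) - 2 * nn j < kk i - 2 * nn i → kk i ≠ kk j) : V.NoConst := by
  rintro ⟨N, h1, h2, h3, h4⟩
  have hGl : GlSt kk nn N := fun t B hB => h3 _ (hN.dr_mem t) B hB
  have hnle : ¬ V.uni ≤ N := by
    intro hle
    have := Submodule.finrank_mono hle
    omega
  obtain ⟨B, hB, hBN⟩ := Set.not_subset.1 hnle
  have hex : ∃ v : ℤ, cmp (wt kk nn) v B ∉ N := by
    by_contra hcon
    push Not at hcon
    obtain ⟨s, hs, -⟩ := sum_cmp (wt kk nn) B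
    have h4 : B ∈ N := by
      rw [← hs]
      exact Submodule.sum_mem _ fun w _ => hcon w
    exact hBN h4
  obtain ⟨w, hw⟩ := hex
  obtain ⟨κ, c, hc⟩ := exists_fun_wt hN.glSt hGl hB hw
  have hcb := hc.mono h1
  have e1 := hN.finrank_kerI hcb
  have e2 : N ≤ V.kerI c κ := fun B hB => ⟨h2 hB, hc.pr_ker hGl hB⟩
  have e3 := Submodule.finrank_mono e2
  have hκ : κ = 0 := by omega
  subst hκ
  obtain ⟨B, hB, hne, -, he, hh⟩ := exists_inv hN.glSt hcb
  have hB0 : B = 0 := by
    ext ⟨j, a⟩ ⟨i, b⟩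
    by_cases hij : wt kk nn (⟨i, b⟩ : Ix kk) ≤ wt kk nn (⟨j, a⟩ : Ix kk)
    · exact V.uni_low hB _ _ hij
    · have hk : kk i ≠ kk j := h i j (by unfold wt at hij; push Not at hij; exact hij)
      have hblk : ∀ t : Fin 4 → ℚ, t 3 = 0 → ad (dr kk nn t) B = 0 →
          sl (kk j) t * (Matrix.of fun (a : Fin (kk j + 1)) (b : Fin (kk i + 1)) =>
            B ⟨j, a⟩ ⟨i, b⟩) = (Matrix.of fun (a : Fin (kk j + 1)) (b : Fin (kk i + 1)) =>
            B ⟨j, a⟩ ⟨i, b⟩) * sl (kk i) t := by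
        intro t ht hB
        ext a b
        have e1 := dr_mul_block (nn := nn) t B i j a b
        have e2 := mul_dr_block (nn := nn) t B i j a b
        have e3 : ∀ r : ℚ, (![t 0, t 1, t 2, t 3 * r] : Fin 4 → ℚ) = t := by
          intro r
          funext x
          fin_cases x
          · rfl
          · rfl
          · rfl
          · simp [ht]
        rw [e3] at e1 e2
        rw [← e1, ← e2]
        rw [ad_apply, sub_eq_zero] at hB
        rw [hB]
      have hz := schur_e hk (hblk _ rfl he) (hblk _ rfl hh)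
      exact congrFun (congrFun hz a) b
  exact hne (by rw [hB0, map_zero])

theorem T2_of_cj (V : EllVar X kk nn) {t : Matrix (Ix kk) (Ix kk) ℚ} (ht : Un (wt kk nn) t)
    (h : (V.cj ht).NoConst) : V.NoConst := by
  rintro ⟨N, h1, h2, h3, h4⟩
  apply h
  set L := (cjL (ZQ38.Un.isUnit ht)) with hL
  have hinj := Submodule.map_injective_of_injective (f := L.toLinearMap) L.injective
  have e1 : (N.comap L.toLinearMap).map L.toLinearMap = N :=
    Submodule.map_comap_eq_of_surjective L.surjective _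
  refine ⟨N.comap L.toLinearMap, ?_, ?_, ?_, ?_⟩
  · rw [← Submodule.map_le_iff_le_comap, map_brk, V.map_uni ht]
    exact h1
  · intro A hA
    exact (V.cj_uni ht A).2 (h2 hA)
  · rw [← map_stab (ZQ38.Un.isUnit ht), ← hL, e1, V.map_gen ht]
    exact h3
  · have f1 : Module.finrank ℚ ((N.comap L.toLinearMap).map L.toLinearMap) =
        Module.finrank ℚ (N.comap L.toLinearMap) := LinearEquiv.finrank_map_eq L _
    have f2 : Module.finrank ℚ ((V.cj ht).uni.map L.toLinearMap) =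
        Module.finrank ℚ (V.cj ht).uni := LinearEquiv.finrank_map_eq L _
    rw [e1] at f1
    rw [V.map_uni ht] at f2
    rw [← f1, ← f2]
    exact h4

theorem T2_of (V : EllVar X kk nn)
    (h : ∀ i j : J, (kk j : ℤ) - 2 * nn j < kk i - 2 * nn i → kk i ≠ kk j) : V.NoConst := by
  obtain ⟨t, ht, hN⟩ := V.exists_nice
  exact V.T2_of_cj ht (hN.T2_of h)

end EllVar

end Pool.Agent.LibME94
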