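import Pool.Agent.LibSym94.Main

/-!
# Two-jets of sums of products, and the local inequality for the extreme component
-/

open Matrix Filter Topology Polynomial UpperHalfPlane
open scoped MatrixGroups ComplexConjugate
open Pool.Agent.LibUB33 (Curve ee)
open Pool.Agent.LibEis68 (form act)
open Pool.Agent.LibSym94

namespace Pool.Agent.LibME94

theorem rep_eq {n : ℕ} {a b : Fin n → ℂ → ℂ} {G : R2} (hG : ∀ p q, cf a b p q = co p q G) :
    G = ∑ l, inz (tay 0 (a l)) * inw (tay 0 (b l)) := by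
  rw [← sub_eq_zero]
  apply LC8_ext
  intro p q
  rw [EV6_co_sub, EV5_co_sum, ← hG]
  simp [cf, LC6_co]

theorem P_mul {F F' : ℂ → ℂ → ℂ} {G G' : R2} (h : LC6_P F G) (h' : LC6_P F' G') :
    LC6_P (fun u w => F u w * F' u w) (G * G') := by
  obtain ⟨n, a, b, ha, hb, hF, hG⟩ := h
  obtain ⟨n', a', b', ha', hb', hF', hG'⟩ := h'
  rw [rep_eq hG, rep_eq hG', Finset.sum_mul_sum]
  have h1 : (fun u w => F u w * F' u w) =
      fun u w => ∑ l, ∑ l', (a l u * a' l' u) * (b l w * b' l' w) := by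
    funext u w
    rw [hF, hF', Finset.sum_mul_sum]
    refine Finset.sum_congr rfl fun l _ => Finset.sum_congr rfl fun l' _ => ?_
    ring
  rw [h1]
  refine LC6_sum _ fun l _ => LC6_sum _ fun l' _ => ?_
  have h2 := LC6_one (a := fun u => a l u * a' l' u) (b := fun w => b l w * b' l' w)
    ((ha l).mul (ha' l')) ((hb l).mul (hb' l'))
  rw [tay_mul (ha l) (ha' l'), tay_mul (hb l) (hb' l'), map_mul, map_mul] at h2
  convert h2 using 1
  ring

theorem P_const (c : ℂ) : LC6_P (fun _ _ => c) (inz (PowerSeries.C c)) := by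
  have h := LC6_one (a := fun _ => c) (b := fun _ => 1) analyticAt_const analyticAt_const
  rw [tay_const, tay_const, map_one, map_one, mul_one] at h
  simpa using h

theorem P_one : LC6_P (fun _ _ => 1) 1 := by
  have h := P_const 1
  rwa [map_one, map_one] at h

theorem P_pow {F : ℂ → ℂ → ℂ} {G : R2} (h : LC6_P F G) (n : ℕ) :
    LC6_P (fun u w => F u w ^ n) (G ^ n) := by
  induction n with
  | zero => simpa using P_one
  | succ n ih =>
    simp only [pow_succ]
    exact P_mul ih h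

theorem P_left {a : ℂ → ℂ} (ha : AnalyticAt ℂ a 0) :
    LC6_P (fun u _ => a u) (inz (tay 0 a)) := by
  have h := LC6_one (a := a) (b := fun _ => 1) ha analyticAt_const
  rw [tay_const, map_one, map_one, mul_one] at h
  simpa using h

theorem P_right {b : ℂ → ℂ} (hb : AnalyticAt ℂ b 0) :
    LC6_P (fun _ w => b w) (inw (tay 0 b)) := by
  have h := LC6_one (a := fun _ => 1) (b := b) analyticAt_const hb
  rw [tay_const, map_one, map_one, one_mul] at h
  simpa using h

theorem P_neg {F : ℂ → ℂ → ℂ} {G : R2} (h : LC6_P F G) : LC6_P (fun u w => -F u w) (-G) := by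
  have h1 := P_mul (P_const (-1)) h
  rw [map_neg, map_neg, map_one, map_one, neg_one_mul] at h1
  simpa using h1

theorem P_sub {F F' : ℂ → ℂ → ℂ} {G G' : R2} (h : LC6_P F G) (h' : LC6_P F' G') :
    LC6_P (fun u w => F u w - F' u w) (G - G') := by
  have h1 := LC6_add h (P_neg h')
  simpa only [sub_eq_add_neg] using h1

theorem P_conj {F : ℂ → ℂ → ℂ} {G : R2} (h : LC6_P F G) :
    ∃ G' : R2, LC6_P (fun u w => conj (F (conj w) (conj u))) G' ∧
      ∀ p q, co p q G' = conj (co q p G) := by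
  obtain ⟨n, a, b, ha, hb, hF, hG⟩ := h
  have hcf : ∀ p q, cf (fun l => cc (b l)) (fun l => cc (a l)) p q = conj (co q p G) := by
    intro p q
    rw [← hG, cf, cf, map_sum]
    refine Finset.sum_congr rfl fun l _ => ?_
    rw [EV6_tay_cc, EV6_tay_cc, map_mul, mul_comm]
  refine ⟨∑ l, inz (tay 0 (cc (b l))) * inw (tay 0 (cc (a l))), ?_, ?_⟩
  · refine ⟨n, fun l => cc (b l), fun l => cc (a l), fun l => EV6_cc (hb l),
      fun l => EV6_cc (ha l), fun u w => ?_, fun p q => ?_⟩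
    · show conj (F (conj w) (conj u)) = _
      rw [hF, map_sum]
      refine Finset.sum_congr rfl fun l _ => ?_
      rw [map_mul, mul_comm]
      rfl
    · rw [EV5_co_sum]
      simp [cf, LC6_co]
  · intro p q
    rw [← hcf, EV5_co_sum]
    simp [cf, LC6_co]

theorem anti_one : Finset.HasAntidiagonal.antidiagonal (1 : ℕ) = {(0, 1), (1, 0)} := rfl

theorem anti_zero : Finset.HasAntidiagonal.antidiagonal (0 : ℕ) = {(0, 0)} := rfl

theorem co00_mul (f g : R2) : co 0 0 (f * g) = co 0 0 f * co 0 0 g := by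
  rw [EV6_co_mul, anti_zero]
  simp

theorem co10_mul (f g : R2) :
    co 1 0 (f * g) = co 1 0 f * co 0 0 g + co 0 0 f * co 1 0 g := by
  rw [EV6_co_mul, anti_zero, anti_one]
  simp
  ring

theorem co01_mul (f g : R2) :
    co 0 1 (f * g) = co 0 1 f * co 0 0 g + co 0 0 f * co 0 1 g := by
  rw [EV6_co_mul, anti_zero, anti_one]
  simp
  ring

theorem co11_mul (f g : R2) :
    co 1 1 (f * g) = co 1 1 f * co 0 0 g + co 1 0 f * co 0 1 g + co 0 1 f * co 1 0 g +
      co 0 0 f * co 1 1 g := by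
  rw [EV6_co_mul, anti_one]
  simp
  ring

theorem co_add (f g : R2) (p q : ℕ) : co p q (f + g) = co p q f + co p q g := by
  unfold co
  rw [map_add, map_add]

theorem co_neg (f : R2) (p q : ℕ) : co p q (-f) = -co p q f := by
  unfold co
  rw [map_neg, map_neg]

theorem co_one (p q : ℕ) : co p q 1 = if p = 0 ∧ q = 0 then 1 else 0 := by
  unfold co
  rw [PowerSeries.coeff_one]
  by_cases hq : q = 0
  · simp [hq, PowerSeries.coeff_one]
  · simp [hq]

/-- The two-jet of a power of a difference of one-variable series. -/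
theorem co_pow {r : R2} {x a b : ℂ} (hx : x ≠ 0) (h00 : co 0 0 r = x) (h10 : co 1 0 r = a)
    (h01 : co 0 1 r = b) (h11 : co 1 1 r = 0) (n : ℕ) :
    co 0 0 (r ^ n) = x ^ n ∧ co 1 0 (r ^ n) = n * x ^ n * a / x ∧
    co 0 1 (r ^ n) = n * x ^ n * b / x ∧ co 1 1 (r ^ n) = n * (n - 1) * x ^ n * a * b / x ^ 2 := by
  induction n with
  | zero => simp [co_one]
  | succ n ih =>
    obtain ⟨i0, i1, i2, i3⟩ := ih
    rw [pow_succ, co00_mul, co10_mul, co01_mul, co11_mul, i0, i1, i2, i3, h00, h10, h01, h11]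
    refine ⟨by ring, ?_, ?_, ?_⟩
    · push_cast
      field_simp
      ring
    · push_cast
      field_simp
      ring
    · push_cast
      field_simp
      ring

/-- A nonnegative sum of products which vanishes at the origin has vanishing gradient and
nonnegative Laplacian. -/
theorem jet_nonneg {F : ℂ → ℂ → ℂ} {G : R2} (h : LC6_P F G) {g : ℂ → ℝ}
    (hF : ∀ᶠ u in 𝓝 (0 : ℂ), F u (conj u) = (g u : ℂ)) (hg : ∀ᶠ u in 𝓝 (0 : ℂ), 0 ≤ g u)
    (h0 : co 0 0 G = 0) :
    co 1 0 G = 0 ∧ co 0 1 G = 0 ∧ ∃ v : ℝ, 0 ≤ v ∧ co 1 1 G = (v : ℂ) := by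
  obtain ⟨n, a, b, ha, hb, hab, hG⟩ := h
  have e0 : cf a b 0 0 = 0 := by rw [hG]; exact h0
  have hG' : ∀ᶠ u in 𝓝 (0 : ℂ), ∑ l, a l u * b l (conj u) = 1 * ((1 : ℝ) : ℂ) * (g u : ℂ) := by
    filter_upwards [hF] with u hu
    rw [← hab, hu]
    simp
  have key1 := fun x => form_nonneg ha hb (d := 1) (by
    intro p q hpq
    obtain ⟨rfl, rfl⟩ : p = 0 ∧ q = 0 := by omega
    exact e0) one_ne_zero hG' (y := fun _ => 1) continuousAt_const one_pos hg x
  have key1' : ∀ x : ℂ, ∃ v : ℝ, 0 ≤ v ∧ cf a b 1 0 * x + cf a b 0 1 * conj x = (v : ℂ) := by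
    intro x
    obtain ⟨v, hv, h1⟩ := key1 x
    refine ⟨v, hv, ?_⟩
    rw [Finset.sum_range_succ, Finset.sum_range_succ, Finset.sum_range_zero] at h1
    simpa using h1
  obtain ⟨v1, hv1, a1⟩ := key1' 1
  obtain ⟨v2, hv2, a2⟩ := key1' (-1)
  obtain ⟨v3, hv3, a3⟩ := key1' Complex.I
  obtain ⟨v4, hv4, a4⟩ := key1' (-Complex.I)
  have s1 : v1 = 0 := by
    have : ((v1 + v2 : ℝ) : ℂ) = 0 := by
      push_cast
      rw [← a1, ← a2]
      simp
      ring
    have := Complex.ofReal_eq_zero.1 this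
    linarith
  have s3 : v3 = 0 := by
    have : ((v3 + v4 : ℝ) : ℂ) = 0 := by
      push_cast
      rw [← a3, ← a4]
      simp
      ring
    have := Complex.ofReal_eq_zero.1 this
    linarith
  rw [s1] at a1
  rw [s3] at a3
  have b1 : cf a b 1 0 + cf a b 0 1 = 0 := by simpa using a1
  have b3 : cf a b 1 0 - cf a b 0 1 = 0 := by
    have h3 : (cf a b 1 0 - cf a b 0 1) * Complex.I = 0 := by
      have h4 := a3
      simp only [Complex.conj_I, Complex.ofReal_zero] at h4
      linear_combination h4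
    rcases mul_eq_zero.1 h3 with h4 | h4
    · exact h4
    · exact absurd h4 Complex.I_ne_zero
  have c1 : cf a b 1 0 = 0 := by linear_combination (b1 + b3) / 2
  have c2 : cf a b 0 1 = 0 := by linear_combination (b1 - b3) / 2
  refine ⟨by rw [← hG, c1], by rw [← hG, c2], ?_⟩
  have key2 := fun x => form_nonneg ha hb (d := 2) (by
    intro p q hpq
    rcases (by omega : (p = 0 ∧ q = 0) ∨ (p = 1 ∧ q = 0) ∨ (p = 0 ∧ q = 1)) with
      ⟨rfl, rfl⟩ | ⟨rfl, rfl⟩ | ⟨rfl, rfl⟩
    · exact e0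
    · exact c1
    · exact c2) one_ne_zero hG' (y := fun _ => 1) continuousAt_const one_pos hg x
  have key2' : ∀ x : ℂ, ∃ v : ℝ, 0 ≤ v ∧ cf a b 2 0 * x ^ 2 + cf a b 1 1 * x * conj x +
      cf a b 0 2 * conj x ^ 2 = (v : ℂ) := by
    intro x
    obtain ⟨v, hv, h1⟩ := key2 x
    refine ⟨v, hv, ?_⟩
    rw [Finset.sum_range_succ, Finset.sum_range_succ, Finset.sum_range_succ,
      Finset.sum_range_zero] at h1
    simpa using h1
  obtain ⟨v5, hv5, a5⟩ := key2' 1
  obtain ⟨v6, hv6, a6⟩ := key2' Complex.I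
  refine ⟨(v5 + v6) / 2, by positivity, ?_⟩
  rw [← hG]
  have h5 : cf a b 2 0 + cf a b 1 1 + cf a b 0 2 = (v5 : ℂ) := by simpa using a5
  have h6 : -cf a b 2 0 + cf a b 1 1 - cf a b 0 2 = (v6 : ℂ) := by
    rw [← a6, Complex.conj_I, neg_sq, Complex.I_sq]
    have hI : cf a b 1 1 * Complex.I * -Complex.I = cf a b 1 1 := by
      have := Complex.I_mul_I
      linear_combination (-cf a b 1 1) * this
    rw [hI]
    ring
  push_cast
  linear_combination (h5 + h6) / 2

end Pool.Agent.LibME94
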