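import Pool.Agent.LibME94.MaxA

/-!
# The local inequality for the extreme component
-/

open Matrix Filter Topology Polynomial UpperHalfPlane
open scoped MatrixGroups ComplexConjugate
open Pool.Agent.LibUB33 (Curve ee)
open Pool.Agent.LibEis68 (form act)
open Pool.Agent.LibSym94

namespace Pool.Agent.LibME94

/-- The algebra of the maximum principle: `x, xz, xw, xzw` are the derivatives of the extreme
component, `α` the derivative of the period, `y` its imaginary part. -/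
theorem max_alg {k : ℕ} (hk : 1 ≤ k) {x xz xw xzw α z₁ : ℂ} {y ε M v : ℝ} (hy : 0 < y)
    (hε : 0 ≤ ε) (hpos : 0 < ε ∨ (α ≠ 0 ∧ x ≠ 0))
    (hzw : (2 * Complex.I * y) * xzw = k * α * xw)
    (h00 : ((M - ε * Complex.normSq z₁ : ℝ) : ℂ) * (y : ℂ) ^ k = x * conj x)
    (h10 : -(ε : ℂ) * conj z₁ * (y : ℂ) ^ k +
      ((M - ε * Complex.normSq z₁ : ℝ) : ℂ) * (k * (y : ℂ) ^ k * α / (2 * Complex.I * y)) -
        (xz * conj x + x * conj xw) = 0)
    (h11 : -(ε : ℂ) * (y : ℂ) ^ k +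
      (-(ε : ℂ) * conj z₁) * (k * (y : ℂ) ^ k * (-conj α) / (2 * Complex.I * y)) +
      (-(ε : ℂ) * z₁) * (k * (y : ℂ) ^ k * α / (2 * Complex.I * y)) +
      ((M - ε * Complex.normSq z₁ : ℝ) : ℂ) *
        (k * (k - 1) * (y : ℂ) ^ k * α * (-conj α) / (2 * Complex.I * y) ^ 2) -
        (xzw * conj x + xz * conj xz + xw * conj xw + x * conj xzw) = (v : ℂ)) :
    v < 0 := by
  have hI := Complex.I_ne_zero
  have hyC : (y : ℂ) ≠ 0 := by exact_mod_cast hy.ne'
  have hd : (2 * Complex.I * (y : ℂ)) ≠ 0 := mul_ne_zero (mul_ne_zero two_ne_zero hI) hyC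
  obtain ⟨b, hb⟩ : ∃ b : ℂ, b = α / (2 * Complex.I * y) := ⟨_, rfl⟩
  obtain ⟨m, hm⟩ : ∃ m : ℝ, m = M - ε * Complex.normSq z₁ := ⟨_, rfl⟩
  rw [← hm] at h00 h10 h11
  obtain ⟨Y, hY⟩ : ∃ Y : ℂ, Y = (y : ℂ) ^ k := ⟨_, rfl⟩
  have hYr : Y = ((y ^ k : ℝ) : ℂ) := by rw [hY]; push_cast; rfl
  have hYc : conj Y = Y := by rw [hYr, Complex.conj_ofReal]
  rw [← hY] at h00 h10 h11
  have hbc : conj b = -conj α / (2 * Complex.I * y) := by
    rw [hb, map_div₀, map_mul, map_mul, Complex.conj_I, Complex.conj_ofReal, map_ofNat]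
    rw [show (2 * -Complex.I * (y : ℂ)) = -(2 * Complex.I * y) by ring, div_neg, neg_div]
  have hxzw : xzw = k * b * xw := by
    apply mul_left_cancel₀ hd
    rw [hzw, hb]
    field_simp
  have h10' : -(ε : ℂ) * conj z₁ * Y + (m : ℂ) * (k * Y * b) -
      (xz * conj x + x * conj xw) = 0 := by
    rw [← h10, hb]
    ring
  have h10c : -(ε : ℂ) * z₁ * Y + (m : ℂ) * (k * Y * conj b) -
      (conj xz * x + conj x * xw) = 0 := by
    have := congrArg conj h10'
    simpa [hYc] using this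
  have h11' : -(ε : ℂ) * Y + (-(ε : ℂ) * conj z₁) * (k * Y * conj b) +
      (-(ε : ℂ) * z₁) * (k * Y * b) + (m : ℂ) * (k * (k - 1) * Y * b * conj b) -
        (xzw * conj x + xz * conj xz + xw * conj xw + x * conj xzw) = (v : ℂ) := by
    rw [← h11, hbc, hb]
    ring
  have hxzwc : conj xzw = k * conj b * conj xw := by
    rw [hxzw]
    simp
  rw [hxzwc, hxzw] at h11'
  have hfin : (v : ℂ) = -(ε * Y) - (xz - k * b * x) * conj (xz - k * b * x) - xw * conj xw -
      k * (x * conj x) * (b * conj b) := by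
    rw [map_sub, map_mul, map_mul, map_natCast]
    linear_combination (-1 : ℂ) * h11' - (k * conj b) * h10' * (-1) - (k * b) * h10c * (-1) +
      (k * (k - 1) * b * conj b - 2 * k ^ 2 * b * conj b) * h00
  have hfin' : v = -(ε * y ^ k) - Complex.normSq (xz - k * b * x) - Complex.normSq xw -
      k * Complex.normSq x * Complex.normSq b := by
    have h2 : (v : ℂ) = ((-(ε * y ^ k) - Complex.normSq (xz - k * b * x) - Complex.normSq xw -
      k * Complex.normSq x * Complex.normSq b : ℝ) : ℂ) := by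
      rw [hfin, hYr]
      simp only [Complex.mul_conj]
      push_cast
      ring
    exact_mod_cast h2
  rw [hfin']
  have p1 := Complex.normSq_nonneg (xz - k * b * x)
  have p2 := Complex.normSq_nonneg xw
  have p3 := Complex.normSq_nonneg x
  have p4 := Complex.normSq_nonneg b
  have p5 : 0 ≤ ε * y ^ k := by positivity
  have p6 : 0 ≤ k * Complex.normSq x * Complex.normSq b := by positivity
  rcases hpos with h | ⟨h1, h2⟩
  · have : 0 < ε * y ^ k := by positivity
    linarith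
  · have hb0 : b ≠ 0 := by
      rw [hb]
      exact div_ne_zero h1 hd
    have hk' : (0 : ℝ) < k := by exact_mod_cast hk
    have : 0 < k * Complex.normSq x * Complex.normSq b :=
      mul_pos (mul_pos hk' (Complex.normSq_pos.2 h2)) (Complex.normSq_pos.2 hb0)
    linarith

theorem co_inz (f : PowerSeries ℂ) (p q : ℕ) :
    co p q (inz f) = if q = 0 then PowerSeries.coeff p f else 0 := by
  unfold co inz
  rw [PowerSeries.coeff_C]
  split_ifs
  · rfl
  · rw [map_zero]

theorem co_inw (f : PowerSeries ℂ) (p q : ℕ) :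
    co p q (inw f) = if p = 0 then PowerSeries.coeff q f else 0 := by
  unfold co inw
  rw [PowerSeries.coeff_map, PowerSeries.coeff_C]

theorem tay_zero (f : ℂ → ℂ) : PowerSeries.coeff 0 (tay 0 f) = f 0 := by
  simp [tay]

theorem tay_one (f : ℂ → ℂ) : PowerSeries.coeff 1 (tay 0 f) = deriv f 0 := by
  simp [tay]

theorem P_value {F : ℂ → ℂ → ℂ} {G : R2} (h : LC6_P F G) : co 0 0 G = F 0 0 := by
  obtain ⟨n, a, b, ha, hb, hab, hG⟩ := h
  rw [← hG, hab]
  simp [cf, tay_zero]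

theorem zf2_conj {k : ℕ} (T : ℂ → ℂ) (W : Fin (k + 1) → ℂ → ℂ) (i : ℕ) (u : ℂ) :
    zf2 k T W i u (conj u) = zf k T W i u := by
  simp [zf2, zf, cc]

/-- The extreme component cannot touch the comparison function from below. -/
theorem key {k : ℕ} (hk : 1 ≤ k) {T : ℂ → ℂ} {W : Fin (k + 1) → ℂ → ℂ} (H : LocD k T W)
    {ε M : ℝ} (hε : 0 ≤ ε) (z₁ : ℂ)
    (hle : ∀ᶠ u in 𝓝 (0 : ℂ), Complex.normSq (zf k T W 0 u) ≤
      (M - ε * Complex.normSq (z₁ + u)) * (T u).im ^ k)
    (heq : Complex.normSq (zf k T W 0 0) = (M - ε * Complex.normSq z₁) * (T 0).im ^ k)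
    (hpos : 0 < ε ∨ (deriv T 0 ≠ 0 ∧ zf k T W 0 0 ≠ 0)) : False := by
  have hT := H.T_an
  have hcT := EV6_cc hT
  obtain ⟨Dz, Dw, hD⟩ := exists_pder
  set G0 : R2 := gcoR k (inz (tay 0 T)) (inw (tay 0 (cc T)))
        (fun j => inz (tay 0 (W j)) - inw (tay 0 (cc (W j)))) 0 with hG0
  set r : R2 := inz (tay 0 T) - inw (tay 0 (cc T)) with hr
  have hP0 : LC6_P (fun u w => zf2 k T W 0 u w) G0 :=
    gco_products k hT hcT H.W_an (fun j => EV6_cc (H.W_an j)) 0
  obtain ⟨G', hP', hG'⟩ := P_conj hP0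
  have hPr : LC6_P (fun u w => T u - cc T w) r := P_sub (P_left hT) (P_right hcT)
  have hA : AnalyticAt ℂ (fun u : ℂ => z₁ + u) 0 := analyticAt_const.add analyticAt_id
  have hB : AnalyticAt ℂ (fun w : ℂ => conj z₁ + w) 0 := analyticAt_const.add analyticAt_id
  set c₀ : ℂ := (2 * Complex.I)⁻¹ ^ k with hc₀
  have hPF := P_sub (P_mul (P_sub (P_const (M : ℂ)) (P_mul (P_const (ε : ℂ))
    (P_mul (P_left hA) (P_right hB)))) (P_mul (P_const c₀) (P_pow hPr k))) (P_mul hP0 hP')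
  set GF : R2 := (inz (PowerSeries.C (M : ℂ)) - inz (PowerSeries.C (ε : ℂ)) *
    (inz (tay 0 fun u : ℂ => z₁ + u) * inw (tay 0 fun w : ℂ => conj z₁ + w))) *
    (inz (PowerSeries.C c₀) * r ^ k) - G0 * G' with hGF
  have h2I : (2 * Complex.I : ℂ) ≠ 0 := mul_ne_zero two_ne_zero Complex.I_ne_zero
  have hc₀' : ∀ y : ℂ, c₀ * (2 * Complex.I * y) ^ k = y ^ k := by
    intro y
    rw [hc₀, ← mul_pow]
    congr 1
    field_simp
  have hF : ∀ u : ℂ, ((M : ℂ) - ε * ((z₁ + u) * (conj z₁ + conj u))) *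
      (c₀ * (T u - cc T (conj u)) ^ k) -
        zf2 k T W 0 u (conj u) * conj (zf2 k T W 0 (conj (conj u)) (conj u)) =
      (((M - ε * Complex.normSq (z₁ + u)) * (T u).im ^ k -
        Complex.normSq (zf k T W 0 u) : ℝ) : ℂ) := by
    intro u
    have e1 : cc T (conj u) = conj (T u) := by simp [cc]
    have e2 : (z₁ + u) * (conj z₁ + conj u) = (Complex.normSq (z₁ + u) : ℂ) := by
      rw [← map_add, Complex.mul_conj]
    rw [Complex.conj_conj, zf2_conj, e1, e2, EV1_sub, hc₀', Complex.mul_conj]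
    push_cast
    ring
  have hval0 : co 0 0 GF = 0 := by
    have h1 := P_value hPF
    have h2 := hF 0
    rw [map_zero] at h2
    rw [h1]
    simp only [map_zero]
    rw [map_zero] at h2
    rw [h2, add_zero, heq, sub_self, Complex.ofReal_zero]
  obtain ⟨j10, -, v, hv, j11⟩ := jet_nonneg hPF (Filter.Eventually.of_forall hF) (by
    filter_upwards [hle] with u hu
    linarith) hval0
  -- the jets
  have f0 := (H.formal hD (Nat.zero_le k) hG0).2
  have y0 := H.T_im
  have r00 : co 0 0 r = 2 * Complex.I * (T 0).im := by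
    rw [P_value hPr]
    simp only [cc, map_zero]
    exact EV1_sub
  have r10 : co 1 0 r = deriv T 0 := by
    rw [hr, EV6_co_sub, co_inz, co_inw, tay_one]
    simp
  have r01 : co 0 1 r = -conj (deriv T 0) := by
    rw [hr, EV6_co_sub, co_inz, co_inw, tay_one, EV6_deriv_cc]
    simp [cc]
  have r11 : co 1 1 r = 0 := by
    rw [hr, EV6_co_sub, co_inz, co_inw]
    simp
  have hr0 : (2 * Complex.I * ((T 0).im : ℂ)) ≠ 0 :=
    mul_ne_zero h2I (by exact_mod_cast y0.ne')
  obtain ⟨q00, q10, q01, q11⟩ := co_pow hr0 r00 r10 r01 r11 k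
  have hzw : (2 * Complex.I * ((T 0).im : ℂ)) * co 1 1 G0 = k * deriv T 0 * co 0 1 G0 := by
    have h1 := congrArg (co 0 0) f0
    rw [co00_mul, co_add, co00_mul, co00_mul, co00_mul, hD.z, hD.w, hD.w, hD.z, hD.z] at h1
    rw [← hr, r00] at h1
    have e0 : ∀ a : ℕ, co 0 0 ((a : ℕ) : R2) = a := by
      intro a
      have : ((a : ℕ) : R2) = inz (PowerSeries.C (a : ℂ)) := by simp
      rw [this, co_inz]
      simp
    rw [Nat.sub_zero, e0, Nat.cast_zero, zero_mul, neg_zero] at h1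
    have e1 : co 0 0 (0 : R2) = 0 := by simpa using e0 0
    have e2 : co (0 + 1) 0 (inz (tay 0 T)) = deriv T 0 := by
      rw [co_inz, zero_add, tay_one]
      simp
    rw [e1, e2] at h1
    simpa using h1
  -- the product
  set x := co 0 0 G0 with hx
  set xz := co 1 0 G0 with hxz
  set xw := co 0 1 G0 with hxw
  set xzw := co 1 1 G0 with hxzw
  have g00 : co 0 0 G' = conj x := hG' 0 0
  have g10 : co 1 0 G' = conj xw := hG' 1 0
  have g01 : co 0 1 G' = conj xz := hG' 0 1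
  have g11 : co 1 1 G' = conj xzw := hG' 1 1
  have hcst : ∀ c : ℂ, co 0 0 (inz (PowerSeries.C c)) = c ∧ co 1 0 (inz (PowerSeries.C c)) = 0 ∧
      co 0 1 (inz (PowerSeries.C c)) = 0 ∧ co 1 1 (inz (PowerSeries.C c)) = 0 := by
    intro c
    simp [co_inz]
  obtain ⟨M0, M1, M2, M3⟩ := hcst (M : ℂ)
  obtain ⟨E0, E1, E2, E3⟩ := hcst (ε : ℂ)
  obtain ⟨C0, C1, C2, C3⟩ := hcst c₀
  have dA : deriv (fun u : ℂ => z₁ + u) 0 = 1 := by simp
  have dB : deriv (fun w : ℂ => conj z₁ + w) 0 = 1 := by simp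
  have A0 : co 0 0 (inz (tay 0 fun u : ℂ => z₁ + u)) = z₁ := by
    rw [co_inz, tay_zero]; simp
  have A1 : co 1 0 (inz (tay 0 fun u : ℂ => z₁ + u)) = 1 := by
    rw [co_inz, tay_one, dA]; simp
  have A2 : co 0 1 (inz (tay 0 fun u : ℂ => z₁ + u)) = 0 := by
    rw [co_inz]; simp
  have A3 : co 1 1 (inz (tay 0 fun u : ℂ => z₁ + u)) = 0 := by
    rw [co_inz]; simp
  have B0 : co 0 0 (inw (tay 0 fun w : ℂ => conj z₁ + w)) = conj z₁ := by
    rw [co_inw, tay_zero]; simp
  have B1 : co 1 0 (inw (tay 0 fun w : ℂ => conj z₁ + w)) = 0 := by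
    rw [co_inw]; simp
  have B2 : co 0 1 (inw (tay 0 fun w : ℂ => conj z₁ + w)) = 1 := by
    rw [co_inw, tay_one, dB]; simp
  have B3 : co 1 1 (inw (tay 0 fun w : ℂ => conj z₁ + w)) = 0 := by
    rw [co_inw]; simp
  rw [hGF] at hval0 j10 j11
  simp only [EV6_co_sub, co00_mul, co10_mul, co01_mul, co11_mul, M0, M1, M2, M3, E0, E1, E2, E3,
    C0, C1, C2, C3, A0, A1, A2, A3, B0, B1, B2, B3, q00, q10, q01, q11, g00, g10, g01, g11,
    ← hx, ← hxz, ← hxw, ← hxzw] at hval0 j10 j11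
  have hxv : x = zf k T W 0 0 := by
    have h1 := P_value hP0
    rw [← hx] at h1
    rw [h1]
    have := zf2_conj T W 0 0
    rwa [map_zero] at this
  have hzz : z₁ * conj z₁ = (Complex.normSq z₁ : ℂ) := Complex.mul_conj z₁
  have hcy := hc₀' ((T 0).im : ℂ)
  have hlt := max_alg hk (x := x) (xz := xz) (xw := xw) (xzw := xzw) (α := deriv T 0)
    (z₁ := z₁) (y := (T 0).im) (ε := ε) (M := M) (v := v) y0 hε (by rwa [hxv]) hzw (by
      push_cast
      rw [← hzz]
      linear_combination hval0 - ((M : ℂ) - ε * (z₁ * conj z₁)) * hcy) (by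
      push_cast
      rw [← hzz, ← hcy]
      linear_combination j10) (by
      push_cast
      rw [← hzz, ← hcy]
      linear_combination j11)
  linarith

end Pool.Agent.LibME94
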