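import Pool.Agent.LibME94.MaxB

/-!
# No local maximum of the extreme component
-/

open Matrix Filter Topology Polynomial UpperHalfPlane
open scoped MatrixGroups ComplexConjugate
open Pool.Agent.LibUB33 (Curve ee)
open Pool.Agent.LibEis68 (form act)
open Pool.Agent.LibSym94

namespace Pool.Agent.LibME94

/-- The square of the norm of the extreme component. -/
noncomputable def ssq (k : ℕ) (s : ℂ) (p : Fin (k + 1) → ℂ) : ℝ :=
  Complex.normSq (gco k s (conj s) (fun j => p j - conj (p j)) 0) / s.im ^ k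

theorem ssq_nonneg (k : ℕ) {s : ℂ} (hs : 0 < s.im) (p : Fin (k + 1) → ℂ) : 0 ≤ ssq k s p :=
  div_nonneg (Complex.normSq_nonneg _) (pow_nonneg hs.le _)

theorem ssq_cont {α : Type*} [TopologicalSpace α] {a : α} {k : ℕ} {s : α → ℂ}
    {p : α → Fin (k + 1) → ℂ} (hs : ContinuousAt s a) (hs0 : 0 < (s a).im)
    (hp : ∀ j, ContinuousAt (fun x => p x j) a) :
    ContinuousAt (fun x => ssq k (s x) (p x)) a := by
  have hc : ContinuousAt (fun x => conj (s x)) a := Complex.continuous_conj.continuousAt.comp hs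
  unfold ssq
  refine ContinuousAt.div ?_ ((Complex.continuous_im.continuousAt.comp hs).pow _)
    (pow_ne_zero _ hs0.ne')
  exact Complex.continuous_normSq.continuousAt.comp (EV10_gco hs hc (fun j => (hp j).sub
      (Complex.continuous_conj.continuousAt.comp (hp j))) _)

theorem ssq_zf {k : ℕ} (T : ℂ → ℂ) (W : Fin (k + 1) → ℂ → ℂ) (u : ℂ) :
    ssq k (T u) (fun j => W j u) = Complex.normSq (zf k T W 0 u) / (T u).im ^ k := rfl

/-- Recentring local data. -/
theorem shift {k : ℕ} {T : ℂ → ℂ} {W : Fin (k + 1) → ℂ → ℂ} (H : LocD k T W) :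
    ∀ᶠ z in 𝓝 (0 : ℂ), LocD k (fun u => T (z + u)) (fun j u => W j (z + u)) ∧
      (z ≠ 0 → deriv T z ≠ 0) := by
  have h1 : ∀ᶠ z in 𝓝 (0 : ℂ), AnalyticAt ℂ T z := H.T_an.eventually_analyticAt
  have h2 : ∀ᶠ z in 𝓝 (0 : ℂ), 0 < (T z).im :=
    (Complex.continuous_im.continuousAt.comp H.T_an.continuousAt).eventually
      (lt_mem_nhds H.T_im)
  have h3 : ∀ᶠ z in 𝓝 (0 : ℂ), ∀ j, AnalyticAt ℂ (W j) z :=
    eventually_all.2 fun j => (H.W_an j).eventually_analyticAt
  have h4 := H.trans.eventually_nhds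
  have h5 : ∀ᶠ z in 𝓝 (0 : ℂ), z ≠ 0 → ∀ᶠ u in 𝓝 z, deriv T u ≠ 0 := by
    have := eventually_eventually_nhdsWithin.2 H.T_nc
    rw [eventually_nhdsWithin_iff] at this
    filter_upwards [this] with z hz hz0
    have h6 := hz hz0
    rwa [nhdsWithin_eq_nhds.2 (isOpen_compl_singleton.mem_nhds hz0)] at h6
  have h5' : ∀ᶠ z in 𝓝 (0 : ℂ), z ≠ 0 → ∀ᶠ u in 𝓝 z, deriv (W (Fin.last k)) u ≠ 0 := by
    have := eventually_eventually_nhdsWithin.2 H.W_nc
    rw [eventually_nhdsWithin_iff] at this
    filter_upwards [this] with z hz hz0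
    have h6 := hz hz0
    rwa [nhdsWithin_eq_nhds.2 (isOpen_compl_singleton.mem_nhds hz0)] at h6
  filter_upwards [h1, h2, h3, h4, h5, h5'] with z a1 a2 a3 a4 a5 a5'
  have ht : Tendsto (fun u : ℂ => z + u) (𝓝 0) (𝓝 z) := by
    have : Tendsto (fun u : ℂ => z + u) (𝓝 0) (𝓝 (z + 0)) :=
      (continuous_const.add continuous_id).tendsto 0
    rwa [add_zero] at this
  have hd : ∀ (f : ℂ → ℂ) (u : ℂ), deriv (fun u => f (z + u)) u = deriv f (z + u) := by
    intro f u
    rw [deriv_comp_const_add]
  refine ⟨⟨?_, ?_, fun j => ?_, ?_, ?_, ?_⟩, fun hz => (a5 hz).self_of_nhds⟩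
  · have h6 : AnalyticAt ℂ T (z + 0) := by rwa [add_zero]
    exact h6.comp (analyticAt_const.add analyticAt_id)
  · show 0 < (T (z + 0)).im
    rwa [add_zero]
  · have h6 : AnalyticAt ℂ (W j) (z + 0) := by
      rw [add_zero]
      exact a3 j
    exact h6.comp (analyticAt_const.add analyticAt_id)
  · filter_upwards [ht.eventually a4] with u hu
    obtain ⟨g, hg⟩ := hu
    refine ⟨g, fun j => ?_⟩
    rw [hd]
    exact hg j
  · by_cases hz : z = 0
    · subst hz
      simpa [hd] using H.T_nc
    · refine nhdsWithin_le_nhds ?_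
      filter_upwards [ht.eventually (a5 hz)] with u hu
      rw [hd]
      exact hu
  · by_cases hz : z = 0
    · subst hz
      simpa [hd] using H.W_nc
    · refine nhdsWithin_le_nhds ?_
      filter_upwards [ht.eventually (a5' hz)] with u hu
      rw [hd]
      exact hu

/-- The square of the norm of the extreme component has no positive local maximum. -/
theorem no_max {k : ℕ} (hk : 1 ≤ k) {T : ℂ → ℂ} {W : Fin (k + 1) → ℂ → ℂ} (H : LocD k T W)
    (h0 : 0 < ssq k (T 0) (fun j => W j 0))
    (hmax : ∀ᶠ u in 𝓝 (0 : ℂ), ssq k (T u) (fun j => W j u) ≤ ssq k (T 0) (fun j => W j 0)) :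
    False := by
  set S : ℂ → ℝ := fun u => ssq k (T u) (fun j => W j u) with hS
  have hScont : ∀ᶠ z in 𝓝 (0 : ℂ), ContinuousAt S z := by
    filter_upwards [shift H] with z hz
    have h1 := hz.1
    have h2 : ContinuousAt (fun u => ssq k (T (z + u)) (fun j => W j (z + u))) 0 :=
      ssq_cont h1.T_an.continuousAt h1.T_im fun j => (h1.W_an j).continuousAt
    have h3 : ContinuousAt (fun w : ℂ => w - z) z := (continuous_id.sub continuous_const).continuousAt
    have h4 : ContinuousAt ((fun u => ssq k (T (z + u)) (fun j => W j (z + u))) ∘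
        fun w : ℂ => w - z) z := by
      refine ContinuousAt.comp ?_ h3
      rwa [sub_self]
    have h5 : ((fun u => ssq k (T (z + u)) (fun j => W j (z + u))) ∘ fun w : ℂ => w - z) = S := by
      funext w
      simp [hS]
    rwa [h5] at h4
  have hgood : ∀ᶠ z in 𝓝 (0 : ℂ), (LocD k (fun u => T (z + u)) (fun j u => W j (z + u)) ∧
      (z ≠ 0 → deriv T z ≠ 0)) ∧ S z ≤ S 0 ∧ ContinuousAt S z :=
    (shift H).and (hmax.and hScont)
  obtain ⟨δ, hδ, hball⟩ := Metric.mem_nhds_iff.1 hgood
  -- contact at a point of the ball is impossible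
  have touch : ∀ z ∈ Metric.ball (0 : ℂ) δ, ∀ ε : ℝ, 0 ≤ ε → (0 < ε ∨ (z ≠ 0 ∧ S z ≠ 0)) →
      ¬ ∀ᶠ w in 𝓝 z, S w + ε * Complex.normSq w ≤ S z + ε * Complex.normSq z := by
    intro z hz ε hε hpos hcon
    obtain ⟨⟨hL, hd⟩, -, -⟩ := hball hz
    have ht : Tendsto (fun u : ℂ => z + u) (𝓝 0) (𝓝 z) := by
      have : Tendsto (fun u : ℂ => z + u) (𝓝 0) (𝓝 (z + 0)) :=
        (continuous_const.add continuous_id).tendsto 0
      rwa [add_zero] at this
    have hne : ∀ w : ℂ, 0 < (T w).im → Complex.normSq (zf k T W 0 w) = S w * (T w).im ^ k := by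
      intro w hw
      have : (T w).im ^ k ≠ 0 := pow_ne_zero _ hw.ne'
      show _ = Complex.normSq (zf k T W 0 w) / (T w).im ^ k * (T w).im ^ k
      field_simp
    have him : ∀ᶠ w in 𝓝 z, 0 < (T w).im := by
      have h1 : ContinuousAt T z := by
        have h2 := hL.T_an.continuousAt
        have h3 : ContinuousAt (fun w : ℂ => w - z) z :=
          (continuous_id.sub continuous_const).continuousAt
        have h4 : ContinuousAt ((fun u => T (z + u)) ∘ fun w : ℂ => w - z) z := by
          refine ContinuousAt.comp ?_ h3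
          rwa [sub_self]
        have h5 : ((fun u => T (z + u)) ∘ fun w : ℂ => w - z) = T := by
          funext w
          simp
        rwa [h5] at h4
      have h2 : 0 < (T z).im := by simpa using hL.T_im
      exact (Complex.continuous_im.continuousAt.comp h1).eventually (lt_mem_nhds h2)
    have hz0 : 0 < (T z).im := him.self_of_nhds
    refine key hk hL (ε := ε) (M := S z + ε * Complex.normSq z) hε z ?_ ?_ ?_
    · filter_upwards [ht.eventually hcon, ht.eventually him] with u hu hu'
      show Complex.normSq (zf k T W 0 (z + u)) ≤ _ * (T (z + u)).im ^ k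
      rw [hne _ hu']
      apply mul_le_mul_of_nonneg_right _ (pow_nonneg hu'.le _)
      linarith
    · have e' : zf k (fun u => T (z + u)) (fun j u => W j (z + u)) 0 0 = zf k T W 0 z := by
        simp [zf]
      rw [add_zero, e', hne z hz0]
      ring
    · rcases hpos with h | ⟨h1, h2⟩
      · exact Or.inl h
      · right
        refine ⟨?_, ?_⟩
        · rw [deriv_comp_const_add, add_zero]
          exact hd h1
        · have e' : zf k (fun u => T (z + u)) (fun j u => W j (z + u)) 0 0 = zf k T W 0 z := by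
            simp [zf]
          rw [e']
          intro h3
          apply h2
          show Complex.normSq (zf k T W 0 z) / (T z).im ^ k = 0
          rw [h3]
          simp
  -- the maximum on a smaller circle
  by_cases hA : ∃ z ∈ Metric.ball (0 : ℂ) δ, z ≠ 0 ∧ S z = S 0
  · obtain ⟨z, hz, hz0, hz1⟩ := hA
    refine touch z hz 0 le_rfl (Or.inr ⟨hz0, by rw [hz1]; exact h0.ne'⟩) ?_
    filter_upwards [Metric.isOpen_ball.mem_nhds hz] with w hw
    rw [zero_mul, zero_mul, add_zero, add_zero, hz1]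
    exact (hball hw).2.1
  · push Not at hA
    set ρ : ℝ := δ / 2 with hρ
    have hρ0 : 0 < ρ := by positivity
    have hsub : Metric.closedBall (0 : ℂ) ρ ⊆ Metric.ball (0 : ℂ) δ := by
      intro z hz
      rw [Metric.mem_closedBall] at hz
      rw [Metric.mem_ball]
      linarith
    have hcomp : IsCompact (Metric.sphere (0 : ℂ) ρ) := isCompact_sphere _ _
    have hne : (Metric.sphere (0 : ℂ) ρ).Nonempty := by
      refine ⟨(ρ : ℂ), ?_⟩
      rw [mem_sphere_zero_iff_norm, Complex.norm_real, Real.norm_eq_abs, abs_of_pos hρ0]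
    obtain ⟨zs, hzs, hzs'⟩ := hcomp.exists_isMaxOn hne (f := S) fun z hz =>
      (hball (hsub (Metric.sphere_subset_closedBall hz))).2.2.continuousWithinAt
    have hzs0 : zs ≠ 0 := by
      intro h
      rw [h, mem_sphere_zero_iff_norm, norm_zero] at hzs
      exact hρ0.ne hzs
    have hlt : S zs < S 0 := lt_of_le_of_ne
      (hball (hsub (Metric.sphere_subset_closedBall hzs))).2.1
      (hA zs (hsub (Metric.sphere_subset_closedBall hzs)) hzs0)
    set ε : ℝ := (S 0 - S zs) / (2 * ρ ^ 2) with hε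
    have hε0 : 0 < ε := div_pos (by linarith) (by positivity)
    have hερ : ε * ρ ^ 2 = (S 0 - S zs) / 2 := by
      rw [hε]
      field_simp
    obtain ⟨z₁, hz₁, hz₁'⟩ := (isCompact_closedBall (0 : ℂ) ρ).exists_isMaxOn
      ⟨0, Metric.mem_closedBall_self hρ0.le⟩ (f := fun w => S w + ε * Complex.normSq w)
      fun z hz => ((hball (hsub hz)).2.2.add
        (continuousAt_const.mul Complex.continuous_normSq.continuousAt)).continuousWithinAt
    have hz₁0 : S 0 ≤ S z₁ + ε * Complex.normSq z₁ := by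
      have := hz₁' (Metric.mem_closedBall_self hρ0.le)
      simpa using this
    have hin : z₁ ∈ Metric.ball (0 : ℂ) ρ := by
      rw [Metric.mem_ball, dist_zero_right]
      rw [Metric.mem_closedBall, dist_zero_right] at hz₁
      refine lt_of_le_of_ne hz₁ fun h => ?_
      have h1 : z₁ ∈ Metric.sphere (0 : ℂ) ρ := mem_sphere_zero_iff_norm.2 h
      have h2 : S z₁ ≤ S zs := hzs' h1
      rw [Complex.normSq_eq_norm_sq, h, hερ] at hz₁0
      linarith
    refine touch z₁ (hsub (Metric.ball_subset_closedBall hin)) ε hε0.le (Or.inl hε0) ?_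
    filter_upwards [Metric.isOpen_ball.mem_nhds hin] with w hw
    exact hz₁' (Metric.ball_subset_closedBall hw)

end Pool.Agent.LibME94
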