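import Pool.Agent.LibME94.MaxC

/-!
# The extreme component on the curve
-/

open Matrix Filter Topology Polynomial UpperHalfPlane
open scoped MatrixGroups ComplexConjugate
open Pool.Agent.LibUB33 (Curve ee)
open Pool.Agent.LibEis68 (form act)
open Pool.Agent.LibSym94

namespace Pool.Agent.LibME94

variable {k : ℕ} {X : Curve}

/-- Invariance of the size of the extreme component. -/
theorem ssq_smul (γ : SL(2, ℤ)) {s s' : ℂ} (h : 0 < s.im)
    (hs : s' * ((γ 1 0 : ℂ) * s + γ 1 1) = (γ 0 0 : ℂ) * s + γ 0 1)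
    (p : Fin (k + 1) → ℂ) (c : Fin (k + 1) → ℝ) :
    ssq k s' ((act k γ).map (algebraMap ℚ ℂ) *ᵥ p + fun j => (c j : ℂ)) = ssq k s p := by
  have hdet : γ 0 0 * γ 1 1 - γ 0 1 * γ 1 0 = 1 := by
    rw [← Matrix.det_fin_two]
    exact γ.det_coe
  have him := EV1_im hdet hs
  have hden := EV1_den hdet h hs
  set den : ℂ := (γ 1 0 : ℂ) * s + γ 1 1 with hdenD
  have hN0 : 0 < Complex.normSq den := Complex.normSq_pos.mpr hden
  have hs' : 0 < s'.im := by
    by_contra hc
    have : s'.im * Complex.normSq den ≤ 0 :=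
      mul_nonpos_of_nonpos_of_nonneg (not_lt.mp hc) hN0.le
    linarith
  have hne : s ≠ conj s := by
    intro he
    have := congrArg Complex.im he
    rw [Complex.conj_im] at this
    linarith
  have hsc : conj s' * ((γ 1 0 : ℂ) * conj s + γ 1 1) = (γ 0 0 : ℂ) * conj s + γ 0 1 := by
    have := congrArg conj hs
    rw [hdenD] at this
    simpa using this
  set p' : Fin (k + 1) → ℂ := (act k γ).map (algebraMap ℚ ℂ) *ᵥ p + fun j => (c j : ℂ) with hp'
  have hD : (fun j => p' j - conj (p' j)) =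
      (act k γ).map (algebraMap ℚ ℂ) *ᵥ (fun j => p j - conj (p j)) := by
    funext j
    have e1 : (fun j => p j - conj (p j)) = p - fun j => conj (p j) := rfl
    rw [e1, Matrix.mulVec_sub, hp']
    simp only [Pi.add_apply, Pi.sub_apply, map_add, Complex.conj_ofReal]
    have e2 : conj (((act k γ).map (algebraMap ℚ ℂ) *ᵥ p) j) =
        ((act k γ).map (algebraMap ℚ ℂ) *ᵥ fun j => conj (p j)) j := by
      simp only [Matrix.mulVec, dotProduct, Matrix.map_apply, map_sum, map_mul]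
      refine Finset.sum_congr rfl fun m _ => ?_
      congr 1
      simp
    rw [e2]
    ring
  unfold ssq
  have hg := gco_smul γ hne hs hsc (fun j => p j - conj (p j)) (Nat.zero_le k)
  rw [← hD, Nat.sub_zero, pow_zero, mul_one, ← hdenD] at hg
  rw [← hg, map_mul, map_pow, ← him]
  have h1 : s'.im ^ k ≠ 0 := pow_ne_zero _ hs'.ne'
  have h2 : Complex.normSq den ^ k ≠ 0 := pow_ne_zero _ hN0.ne'
  rw [mul_pow]
  field_simp

/-- The size of the extreme component on the curve. -/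
noncomputable def SS (V : Variation k X) (z : ℍ) : ℝ := ssq k (V.τ z) (V.v z)

theorem SS_nonneg (V : Variation k X) (z : ℍ) : 0 ≤ SS V z := ssq_nonneg k (V.τ z).im_pos _

theorem SS_smul (V : Variation k X) (g : X.P) (z : ℍ) :
    SS V ((g : SL(2, ℝ)) • z) = SS V z := by
  unfold SS
  rw [V.v_equiv g z, V.τ_equiv g z]
  have h := ssq_smul (V.ρ g) (V.τ z).im_pos (EV10_mob (V.ρ g) (V.τ z)) (V.v z)
    (fun j => (V.c g j : ℝ))
  simpa using h

theorem SS_cont (V : Variation k X) : Continuous (SS V) := by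
  have h0 : SS V = fun z : ℍ => ssq k (V.tauC (z : ℂ)) (fun j => V.vC j (z : ℂ)) := by
    funext z
    unfold SS Variation.tauC Variation.vC
    simp only [ofComplex_apply]
  rw [h0, continuous_iff_continuousAt]
  intro z
  refine ssq_cont ((V.tauC_diff z.im_pos).1.continuousAt.comp continuous_coe.continuousAt)
    (V.tauC_diff z.im_pos).2 fun j => ?_
  exact (V.vC_diff j z.im_pos).continuousAt.comp
    (f := fun z : ℍ => (z : ℂ)) continuous_coe.continuousAt

/-- An invariant continuous function which is bounded below near the ends is bounded below. -/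
theorem bounded_below (X : Curve) (F : ℍ → ℝ) (hF : Continuous F)
    (inv : ∀ g ∈ X.P, ∀ z : ℍ, F (g • z) = F z)
    (ends : ∀ (s : ℂ → ℍ) (Y : ℝ), X.IsEnd s Y → ∃ C Y' : ℝ, ∀ ζ : ℂ, Y' < ζ.im → C ≤ F (s ζ)) :
    ∃ C : ℝ, ∀ z, C ≤ F z := by
  by_contra hcon
  push Not at hcon
  have hpos : ∀ x : ℝ, 0 < 1 + |x| := fun x => by positivity
  have hF' : Continuous fun z => F z / (1 + |F z|) :=
    hF.div (continuous_const.add hF.abs) fun z => (hpos _).ne'
  have hgt : ∀ x : ℝ, -1 < x / (1 + |x|) := by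
    intro x
    rw [lt_div_iff₀ (hpos x)]
    have := neg_abs_le x
    linarith
  rcases EV10_cases X (fun z => F z / (1 + |F z|)) hF' (fun g hg z => by
      show F (g • z) / (1 + |F (g • z)|) = F z / (1 + |F z|)
      rw [inv g hg]) (-1) (by
      intro δ hδ
      obtain ⟨z, hz⟩ := hcon (-δ⁻¹)
      refine ⟨z, ?_⟩
      have h1 : F z < 0 := hz.trans (by simpa using hδ)
      rw [abs_of_neg h1, div_lt_iff₀ (by linarith)]
      have h2 : 1 < δ * (1 - F z) := by
        have h3 : δ⁻¹ < 1 - F z := by linarith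
        have h4 := mul_lt_mul_of_pos_left h3 hδ
        rwa [mul_inv_cancel₀ hδ.ne'] at h4
      nlinarith) (fun z => (hgt _).le) with ⟨z, hz⟩ | ⟨s, Y, hE, hP⟩
  · exact absurd hz (hgt _).ne'
  · obtain ⟨C, Y', h⟩ := ends s Y hE
    obtain ⟨ζ, h1, h2⟩ := hP Y' (1 + |C|)⁻¹ (inv_pos.2 (hpos C))
    have h3 := h ζ h1
    have h4 : -|C| / (1 + |C|) ≤ F (s ζ) / (1 + |F (s ζ)|) := by
      rw [div_le_div_iff₀ (hpos _) (hpos _)]
      have h5 := neg_abs_le C
      rcases le_or_gt 0 (F (s ζ)) with h6 | h6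
      · have : 0 ≤ |C| := abs_nonneg _
        have h7 : 0 ≤ |F (s ζ)| := abs_nonneg _
        nlinarith
      · rw [abs_of_neg h6]
        nlinarith
    have h5 : -|C| / (1 + |C|) = -1 + (1 + |C|)⁻¹ := by
      have := (hpos C).ne'
      field_simp
      ring
    linarith

/-- Local constancy at the filled ends. -/
theorem SS_filled (V : Variation k X) (hk : 1 ≤ k) {s : ℂ → ℍ} {Y : ℝ} (hE : X.IsEnd s Y)
    (E : EndForm V s Y) (hm : E.m = 0) {W : Fin (k + 1) → ℂ → ℂ} {Y' : ℝ}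
    (hWe : ∀ ζ : ℂ, Y' < ζ.im → ∀ j,
        W j (ee (ζ / E.n)) = ((act k E.M).map (algebraMap ℚ ℂ) *ᵥ V.v (s ζ)) j) (ζ : ℂ)
    (hζ : max Y' E.Y' < ζ.im) :
    ssq k (E.F (ee (ζ / E.n))) (fun j => W j (ee (ζ / E.n))) = SS V (s ζ) := by
  have h1 := hWe ζ ((le_max_left _ _).trans_lt hζ)
  have h2 := E.hτ ζ ((le_max_right _ _).trans_lt hζ)
  rw [hm, Nat.cast_zero, zero_mul, zero_add] at h2
  have h3 : (fun j => W j (ee (ζ / E.n))) = (act k E.M).map (algebraMap ℚ ℂ) *ᵥ V.v (s ζ) +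
      fun _ => ((0 : ℝ) : ℂ) := by
    funext j
    rw [h1 j, Pi.add_apply, Complex.ofReal_zero, add_zero]
  rw [h3, ← h2]
  exact ssq_smul E.M (V.τ (s ζ)).im_pos (EV10_mob E.M (V.τ (s ζ))) (V.v (s ζ)) (fun _ => 0)

/-- If the extreme component tends to zero at the infinite ends then the variation splits. -/
theorem split_of_ends (V : Variation k X) (hk : 1 ≤ k)
    (hinf : ∀ (s : ℂ → ℍ) (Y : ℝ), X.IsEnd s Y → ∀ E : EndForm V s Y, 0 < E.m → ∀ ε : ℝ, 0 < ε →
      ∃ Y' : ℝ, ∀ ζ : ℂ, Y' < ζ.im → SS V (s ζ) ≤ ε) : V.Split := by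
  by_contra hns
  -- a point where the extreme component does not vanish
  obtain ⟨z₁, hz₁⟩ : ∃ z, 0 < SS V z := by
    have h1 := V.zc_isolated hk hns (Nat.zero_le k) (by omega) UpperHalfPlane.I
    have h2 : ∀ᶠ w in 𝓝[≠] ((UpperHalfPlane.I : ℍ) : ℂ), 0 < w.im := by
      refine nhdsWithin_le_nhds ?_
      exact (isOpen_lt continuous_const Complex.continuous_im).mem_nhds
        UpperHalfPlane.I.im_pos
    obtain ⟨w, hw, hw'⟩ := (h1.and h2).exists
    refine ⟨ofComplex w, ?_⟩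
    unfold SS ssq
    refine div_pos (Complex.normSq_pos.2 hw) (pow_pos (V.τ (ofComplex w)).im_pos _)
  -- boundedness
  obtain ⟨C, hC⟩ := bounded_below X (fun z => -SS V z) (SS_cont V).neg
    (fun g hg z => by rw [SS_smul V ⟨g, hg⟩ z]) (by
      intro s Y hE
      obtain ⟨E⟩ := V.nonempty_endForm hE
      rcases Nat.eq_zero_or_pos E.m with hm | hm
      · obtain ⟨W, Y', hW, hWe⟩ := V.filled hk hE E hm
        have hcont : ContinuousAt (fun u : ℂ => ssq k (E.F u) (fun j => W j u)) 0 :=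
          ssq_cont E.hF.continuousAt (E.hF0 hm) fun j => (hW j).continuousAt
        have h1 : ∀ᶠ u in 𝓝 (0 : ℂ), ssq k (E.F u) (fun j => W j u) <
            ssq k (E.F 0) (fun j => W j 0) + 1 :=
          hcont.eventually (gt_mem_nhds (by
            show ssq k (E.F 0) (fun j => W j 0) < _
            linarith))
        obtain ⟨Y'', h2⟩ := EV10_tend E.hn h1
        refine ⟨-(ssq k (E.F 0) (fun j => W j 0) + 1), max Y'' (max Y' E.Y'), fun ζ hζ => ?_⟩
        have h3 : ssq k (E.F (ee (ζ / E.n))) (fun j => W j (ee (ζ / E.n))) <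
          ssq k (E.F 0) (fun j => W j 0) + 1 := h2 ζ ((le_max_left _ _).trans_lt hζ)
        rw [SS_filled V hk hE E hm hWe ζ ((le_max_right _ _).trans_lt hζ)] at h3
        linarith
      · obtain ⟨Y', h⟩ := hinf s Y hE E hm 1 one_pos
        exact ⟨-1, Y', fun ζ hζ => by have := h ζ hζ; linarith⟩)
  have hbb : BddAbove (Set.range (SS V)) := ⟨-C, by
    rintro _ ⟨z, rfl⟩
    have := hC z
    linarith⟩
  set μ := sSup (Set.range (SS V)) with hμd
  have hμ : ∀ z, SS V z ≤ μ := fun z => le_csSup hbb ⟨z, rfl⟩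
  have hμpos : 0 < μ := hz₁.trans_le (hμ z₁)
  have hμ1 : ∀ δ : ℝ, 0 < δ → ∃ z, -SS V z < -μ + δ := by
    intro δ hδ
    obtain ⟨_, ⟨z, rfl⟩, hz⟩ := exists_lt_of_lt_csSup (Set.range_nonempty (SS V))
      (sub_lt_self (sSup (Set.range (SS V))) hδ)
    exact ⟨z, by rw [← hμd] at hz; linarith⟩
  rcases EV10_cases X (fun z => -SS V z) (SS_cont V).neg
    (fun g hg z => by rw [SS_smul V ⟨g, hg⟩ z]) (-μ) hμ1
    (fun z => by have := hμ z; linarith) with ⟨z₀, hz₀⟩ | ⟨s, Y, hE, hP⟩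
  · -- a point of the curve
    have hz₀' : SS V z₀ = μ := by
      have : -SS V z₀ = -μ := hz₀
      linarith
    have H := V.chart hk hns z₀.im_pos
    have h1 : ∀ u : ℂ, ssq k (V.tauC ((z₀ : ℂ) + u)) (fun j => V.vC j ((z₀ : ℂ) + u)) =
        SS V (ofComplex ((z₀ : ℂ) + u)) := fun u => rfl
    have h2 : SS V (ofComplex ((z₀ : ℂ) + 0)) = μ := by
      rw [add_zero, ofComplex_apply, hz₀']
    refine no_max hk H.toLocD ?_ (Filter.Eventually.of_forall fun u => ?_)
    · rw [h1, h2]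
      exact hμpos
    · rw [h1, h1, h2]
      exact hμ _
  · obtain ⟨E⟩ := V.nonempty_endForm hE
    rcases Nat.eq_zero_or_pos E.m with hm | hm
    swap
    · obtain ⟨Y', h1⟩ := hinf s Y hE E hm (μ / 2) (by linarith)
      obtain ⟨ζ, h2, h3⟩ := hP Y' (μ / 2) (by linarith)
      have h4 := h1 ζ h2
      linarith
    obtain ⟨W, Y', hW, hWe⟩ := V.filled hk hE E hm
    have key := SS_filled V hk hE E hm hWe
    have hch := V.filled_chart hk hns hE E hm hW hWe
    have hcont : ContinuousAt (fun u : ℂ => ssq k (E.F u) (fun j => W j u)) 0 :=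
      ssq_cont E.hF.continuousAt (E.hF0 hm) fun j => (hW j).continuousAt
    have hle : μ ≤ ssq k (E.F 0) (fun j => W j 0) := by
      by_contra hcon
      rw [not_le] at hcon
      set δ : ℝ := (μ - ssq k (E.F 0) (fun j => W j 0)) / 2 with hδ
      have hδ0 : 0 < δ := by rw [hδ]; linarith
      have h1 : ∀ᶠ u in 𝓝 (0 : ℂ), ssq k (E.F u) (fun j => W j u) < μ - δ :=
        hcont.eventually (gt_mem_nhds (by
          show ssq k (E.F 0) (fun j => W j 0) < μ - δ
          rw [hδ]; linarith))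
      obtain ⟨Y'', h2⟩ := EV10_tend E.hn h1
      obtain ⟨ζ, h3, h4⟩ := hP (max Y'' (max Y' E.Y')) δ hδ0
      have h5 : ssq k (E.F (ee (ζ / E.n))) (fun j => W j (ee (ζ / E.n))) < μ - δ :=
        h2 ζ ((le_max_left _ _).trans_lt h3)
      rw [key ζ ((le_max_right _ _).trans_lt h3)] at h5
      linarith
    refine no_max hk hch.toLocD (hμpos.trans_le hle) ?_
    filter_upwards [EV10_small E.hn (max Y' E.Y')] with u hu
    by_cases hu0 : u = 0
    · rw [hu0]
    · obtain ⟨ζ, h1, h2⟩ := hu hu0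
      rw [← h2, key ζ h1]
      exact (hμ _).trans hle

end Pool.Agent.LibME94
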