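import Pool.Agent.LibME94.MaxD
import Pool.Agent.LibME94.DefP

/-!
# Residues, curves with one place of multiplicative reduction
-/

open Matrix Filter Topology Polynomial UpperHalfPlane
open scoped MatrixGroups ComplexConjugate
open Pool.Agent.LibUB33 (Curve ee)
open Pool.Agent.LibEis68 (form act)
open Pool.Agent.LibSym94

namespace Pool.Agent.LibME94

variable {k : ℕ} {X : Curve}

theorem iter_end {s : ℂ → ℍ} {Y : ℝ} {n : ℕ} {p : SL(2, ℝ)}
    (h : ∀ ζ : ℂ, Y < ζ.im → s (ζ + n) = p • s ζ) (j : ℕ) (ζ : ℂ) (hζ : Y < ζ.im) :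
    s (ζ + (j * n : ℕ)) = p ^ j • s ζ := by
  induction j with
  | zero => simp
  | succ j ih =>
    have e : ζ + ((j + 1) * n : ℕ) = (ζ + (j * n : ℕ)) + n := by push_cast; ring
    have him : (ζ + (j * n : ℕ)).im = ζ.im := by simp
    rw [e, h _ (by rw [him]; exact hζ), ih, pow_succ', mul_smul]

theorem T_pow_ne_one {m : ℕ} (hm : 0 < m) : (ModularGroup.T ^ m : SL(2, ℤ)) ≠ 1 := by
  intro h
  have h1 : ((ModularGroup.T ^ m : SL(2, ℤ)) : Matrix (Fin 2) (Fin 2) ℤ) =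
      !![1, (m : ℤ); 0, 1] := by
    have := ModularGroup.coe_T_zpow (m : ℤ)
    rwa [zpow_natCast] at this
  rw [h] at h1
  have h2 := congrFun (congrFun h1 0) 1
  simp at h2
  omega

theorem infEnd_of_pos (V : Variation k X) {s : ℂ → ℍ} {Y : ℝ} (hE : X.IsEnd s Y)
    (E : EndForm V s Y) (hm : 0 < E.m) : InfEnd X V.ρ s Y := by
  refine ⟨hE, fun n hn p hp hρ => ?_⟩
  have hζ : Y < (((Y + 1 : ℝ) : ℂ) * Complex.I).im := by simp
  have h1 := iter_end hp E.n _ hζ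
  have h2 := iter_end E.hp n _ hζ
  rw [mul_comm n E.n, h1] at h2
  have h3 : ((p : SL(2, ℝ)) ^ E.n)⁻¹ * (E.p : SL(2, ℝ)) ^ n = 1 := by
    refine X.free _ ?_ (s (((Y + 1 : ℝ) : ℂ) * Complex.I)) ?_
    · exact X.G.mul_mem (X.G.inv_mem (X.G.pow_mem (X.P_le p.2) _))
        (X.G.pow_mem (X.P_le E.p.2) _)
    · rw [mul_smul, ← h2, inv_smul_smul]
  have h4 : (p : SL(2, ℝ)) ^ E.n = (E.p : SL(2, ℝ)) ^ n := by
    rw [inv_mul_eq_one] at h3
    exact h3
  have h5 : p ^ E.n = E.p ^ n := Subtype.ext (by push_cast; exact h4)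
  have h6 : V.ρ E.p ^ n = 1 := by rw [← map_pow, ← h5, map_pow, hρ, one_pow]
  have h7 : (ModularGroup.T ^ E.m) ^ n = 1 := by
    have h8 : E.M * V.ρ E.p * E.M⁻¹ = ModularGroup.T ^ E.m := by
      rw [E.hρ, mul_inv_cancel_right]
    rw [← h8, conj_pow, h6, mul_one, mul_inv_cancel]
  rw [← pow_mul] at h7
  exact T_pow_ne_one (Nat.mul_pos hm hn) h7

theorem pos_of_infEnd (V : Variation k X) {s : ℂ → ℍ} {Y : ℝ} (h : InfEnd X V.ρ s Y)
    (E : EndForm V s Y) : 0 < E.m := by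
  by_contra hm
  have hm' : E.m = 0 := by omega
  refine h.2 E.n E.hn E.p E.hp ?_
  have h1 := E.hρ
  rw [hm', pow_zero, one_mul] at h1
  exact mul_left_cancel (a := E.M) (by rw [h1, mul_one])

/-- The residue at an end. -/
noncomputable def resid (V : Variation k X) {s : ℂ → ℍ} {Y : ℝ} (E : EndForm V s Y) : ℚ :=
  (act k E.M *ᵥ V.c E.p) (Fin.last k)

theorem toP_coeff (v : Fin (k + 1) → ℂ) (j : Fin (k + 1)) : (toP v).coeff j = v j := by
  unfold toP
  simp only [Polynomial.finsetSum_coeff, Polynomial.coeff_C_mul, Polynomial.coeff_X_pow]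
  rw [Finset.sum_eq_single j]
  · simp
  · intro b _ hb
    have : (j : ℕ) ≠ b := fun h => hb (Fin.ext h.symm)
    simp [this]
  · simp

theorem coeff_sub_pow (a : ℂ) (j : ℕ) (hj : j ≤ k) :
    ((Polynomial.X - C a : ℂ[X]) ^ j).coeff k = if j = k then 1 else 0 := by
  have h := (monic_X_sub_C a).pow j
  have hd : ((Polynomial.X - C a) ^ j : ℂ[X]).natDegree = j := by
    rw [(monic_X_sub_C a).natDegree_pow, natDegree_X_sub_C, mul_one]
  split_ifs with h1
  · subst h1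
    have := h.coeff_natDegree
    rwa [hd] at this
  · exact Polynomial.coeff_eq_zero_of_natDegree_lt (by rw [hd]; omega)

theorem coeff_sub_pow_succ (a : ℂ) (k : ℕ) :
    ((Polynomial.X - C a : ℂ[X]) ^ (k + 1)).coeff k = -((k : ℂ) + 1) * a := by
  rw [sub_eq_add_neg, ← C_neg, Polynomial.coeff_X_add_C_pow]
  simp
  ring

theorem comp_last (v : Fin (k + 1) → ℂ) (a : ℂ) :
    ((toP v).comp (Polynomial.X - C a)).coeff k = v (Fin.last k) := by
  unfold toP
  rw [Polynomial.sum_comp, Polynomial.finsetSum_coeff, Finset.sum_eq_single (Fin.last k)]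
  · simp only [Polynomial.mul_comp, Polynomial.C_comp, Polynomial.pow_comp, Polynomial.X_comp,
      Polynomial.coeff_C_mul, Fin.val_last]
    rw [coeff_sub_pow a k le_rfl]
    simp
  · intro j _ hj
    simp only [Polynomial.mul_comp, Polynomial.C_comp, Polynomial.pow_comp, Polynomial.X_comp,
      Polynomial.coeff_C_mul]
    have hne : (j : ℕ) ≠ k := fun h => hj (Fin.ext h)
    rw [coeff_sub_pow a j (Nat.lt_succ_iff.1 j.2), if_neg hne, mul_zero]
  · simp

theorem nform_last (rr : ℝ) (N : ℝ[X]) (c₀ : ℂ) (u : ℕ → ℂ) (s : ℂ) :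
    (nform k rr N c₀ u s).coeff k = rr * s + (N.coeff k : ℂ) + (C c₀ : ℂ[X]).coeff k + u k := by
  unfold nform
  rw [Polynomial.coeff_add, Polynomial.coeff_add, Polynomial.coeff_add, Polynomial.coeff_C_mul,
    Polynomial.coeff_sub, coeff_sub_pow_succ, Polynomial.coeff_X_pow, Polynomial.coeff_map,
    Polynomial.finsetSum_coeff, Finset.sum_eq_single k]
  · rw [Polynomial.coeff_C_mul, coeff_sub_pow s k le_rfl, if_neg (by omega), if_pos rfl]
    have hk : ((k : ℂ) + 1) ≠ 0 := by exact_mod_cast Nat.succ_ne_zero k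
    push_cast
    simp only [Complex.coe_algebraMap]
    field_simp
    ring
  · intro j hj hne
    rw [Polynomial.coeff_C_mul, coeff_sub_pow s j (by
      have := Finset.mem_range.1 hj; omega), if_neg hne, mul_zero]
  · intro h
    exact absurd (Finset.mem_range.2 (Nat.lt_succ_self k)) h

theorem act_T_last (m : ℕ) (w : Fin (k + 1) → ℂ) :
    ((act k (ModularGroup.T ^ m)).map (algebraMap ℚ ℂ) *ᵥ w) (Fin.last k) = w (Fin.last k) := by
  have hT : ((ModularGroup.T ^ m : SL(2, ℤ)) : Matrix (Fin 2) (Fin 2) ℤ) =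
      !![1, (m : ℤ); 0, 1] := by
    have := ModularGroup.coe_T_zpow (m : ℤ)
    rwa [zpow_natCast] at this
  have hTij : ∀ i j, (ModularGroup.T ^ m : SL(2, ℤ)) i j = !![1, (m : ℤ); 0, 1] i j := by
    intro i j
    change ((ModularGroup.T ^ m : SL(2, ℤ)) : Matrix (Fin 2) (Fin 2) ℤ) i j = _
    rw [hT]
  have h3 : toP ((act k (ModularGroup.T ^ m)).map (algebraMap ℚ ℂ) *ᵥ w) =
      (toP w).comp (Polynomial.X - C (m : ℂ)) := by
    rw [toP_act]
    simp only [hTij]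
    unfold toP
    rw [Polynomial.sum_comp]
    refine Finset.sum_congr rfl fun j _ => ?_
    simp
  rw [← toP_coeff ((act k (ModularGroup.T ^ m)).map (algebraMap ℚ ℂ) *ᵥ w) (Fin.last k), h3,
    Fin.val_last, comp_last]

/-- The leading coefficient of the cocycle is the residue. -/
theorem rr_eq (V : Variation k X) {s : ℂ → ℍ} {Y : ℝ}
    (E : EndForm V s Y) {c : Fin (k + 1) → ℝ} {Y1 Y2 rr : ℝ} {N : ℝ[X]} {c₀ : ℂ}
    {u : ℕ → ℂ → ℂ}
    (H : CuspD k E.n E.m Y1 (fun ζ => ((E.M • V.τ (s ζ) : ℍ) : ℂ)) E.F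
      (fun j ζ => ((act k E.M).map (algebraMap ℚ ℂ) *ᵥ V.v (s ζ)) j) c)
    (HN : NForm k E.n Y2 (fun ζ => ((E.M • V.τ (s ζ) : ℍ) : ℂ))
      (fun j ζ => ((act k E.M).map (algebraMap ℚ ℂ) *ᵥ V.v (s ζ)) j) rr N c₀ u) :
    rr * E.m = (resid V E : ℝ) := by
  have hn : (E.n : ℂ) ≠ 0 := by exact_mod_cast E.hn.ne'
  set Z : ℝ := max (max Y1 Y2) (max Y E.Y') + 1 with hZ
  set ζ : ℂ := (Z : ℂ) * Complex.I with hζ
  have hζi : ζ.im = Z := by simp [hζ]
  have hζn : (ζ + E.n).im = Z := by simp [hζ]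
  have i1 : Y1 < Z := by
    have := (le_max_left Y1 Y2).trans (le_max_left _ (max Y E.Y'))
    linarith
  have i2 : Y2 < Z := by
    have := (le_max_right Y1 Y2).trans (le_max_left _ (max Y E.Y'))
    linarith
  have i3 : Y < Z := by
    have := (le_max_left Y E.Y').trans (le_max_right (max Y1 Y2) _)
    linarith
  have i4 : E.Y' < Z := by
    have := (le_max_right Y E.Y').trans (le_max_right (max Y1 Y2) _)
    linarith
  set W : ℂ → Fin (k + 1) → ℂ :=
    fun ζ => (act k E.M).map (algebraMap ℚ ℂ) *ᵥ V.v (s ζ) with hW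
  have e1 : ∀ ζ' : ℂ, Y2 < ζ'.im → W ζ' (Fin.last k) =
      rr * ((E.M • V.τ (s ζ') : ℍ) : ℂ) + (N.coeff k : ℂ) + (C c₀ : ℂ[X]).coeff k +
        u k (ee (ζ' / E.n)) := by
    intro ζ' h
    have h1 := HN.eq ζ' h
    have h2 := congrArg (fun P : ℂ[X] => P.coeff ((Fin.last k : Fin (k + 1)) : ℕ)) h1
    rw [toP_coeff, Fin.val_last, nform_last] at h2
    exact h2
  have h1 : V.v (s (ζ + E.n)) = (act k (V.ρ E.p)).map (algebraMap ℚ ℂ) *ᵥ V.v (s ζ) +
      fun j => (V.c E.p j : ℂ) := by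
    rw [E.hp ζ (by rw [hζi]; exact i3), V.v_equiv]
  have hmul : (act k E.M).map (algebraMap ℚ ℂ) * (act k (V.ρ E.p)).map (algebraMap ℚ ℂ) =
      (act k (ModularGroup.T ^ E.m)).map (algebraMap ℚ ℂ) * (act k E.M).map (algebraMap ℚ ℂ) := by
    rw [← Matrix.map_mul, ← Matrix.map_mul, ← act_mul, ← act_mul, E.hρ]
  have h2 : W (ζ + E.n) = (act k (ModularGroup.T ^ E.m)).map (algebraMap ℚ ℂ) *ᵥ W ζ +
      fun j => (((act k E.M *ᵥ V.c E.p) j : ℚ) : ℂ) := by
    simp only [hW]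
    rw [h1, Matrix.mulVec_add, Matrix.mulVec_mulVec, hmul, ← Matrix.mulVec_mulVec]
    congr 1
    funext j
    simp only [Matrix.mulVec, dotProduct, Matrix.map_apply]
    push_cast
    refine Finset.sum_congr rfl fun l _ => ?_
    simp
  have h3 := congrFun h2 (Fin.last k)
  rw [Pi.add_apply, act_T_last, e1 _ (by rw [hζn]; exact i2), e1 _ (by rw [hζi]; exact i2)] at h3
  have h4 : ((E.M • V.τ (s (ζ + E.n)) : ℍ) : ℂ) = ((E.M • V.τ (s ζ) : ℍ) : ℂ) + E.m := by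
    rw [E.hτ _ (by rw [hζn]; exact i4), E.hτ _ (by rw [hζi]; exact i4)]
    have h5 : ee ((ζ + E.n) / E.n) = ee (ζ / E.n) := by
      unfold Pool.Agent.LibUB33.ee
      rw [add_div, div_self hn, mul_add, mul_one, Complex.exp_add, Complex.exp_two_pi_mul_I,
        mul_one]
    rw [h5, add_div, div_self hn]
    ring
  have h5 : ee ((ζ + E.n) / E.n) = ee (ζ / E.n) := by
    unfold Pool.Agent.LibUB33.ee
    rw [add_div, div_self hn, mul_add, mul_one, Complex.exp_add, Complex.exp_two_pi_mul_I,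
      mul_one]
  rw [h4, h5] at h3
  have h6 : ((rr * E.m : ℝ) : ℂ) = ((resid V E : ℝ) : ℂ) := by
    unfold resid
    push_cast
    linear_combination h3
  exact_mod_cast h6

/-- At an infinite end with vanishing residue the extreme component tends to zero. -/
theorem SS_end (V : Variation k X) (hk : 1 ≤ k) (hns : ¬ V.Split) {s : ℂ → ℍ} {Y : ℝ}
    (hE : X.IsEnd s Y) (E : EndForm V s Y) (hm : 0 < E.m) (hr : resid V E = 0) {ε : ℝ}
    (hε : 0 < ε) : ∃ Y' : ℝ, ∀ ζ : ℂ, Y' < ζ.im → SS V (s ζ) ≤ ε := by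
  obtain ⟨c, Y1, H⟩ := V.cuspD hk hns hE E hm
  obtain ⟨Y2, rr, N, c₀, u, hY12, HN⟩ := H.nform
  have hrr : rr = 0 := by
    have h1 := rr_eq V E H HN
    rw [hr, Rat.cast_zero] at h1
    rcases mul_eq_zero.1 h1 with h2 | h2
    · exact h2
    · exact absurd (by exact_mod_cast h2 : E.m = 0) hm.ne'
  subst hrr
  set T : ℂ → ℂ := fun ζ => ((E.M • V.τ (s ζ) : ℍ) : ℂ) with hT
  have hTim : ∀ ζ, 0 < (T ζ).im := fun ζ => (E.M • V.τ (s ζ) : ℍ).im_pos
  set K : ℝ := ‖c₀ - conj c₀‖ + 1 + (k + 1) with hK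
  have hK0 : 0 < K := by positivity
  set D : ℝ := max 1 (K ^ 2 / ε) with hD
  have hD1 : 1 ≤ D := le_max_left _ _
  set δ : ℝ := (2 * D)⁻¹ with hδ
  have hδ0 : 0 < δ := by positivity
  have hδ1 : δ ≤ 1 := by
    rw [hδ]
    exact inv_le_one_of_one_le₀ (by linarith)
  obtain ⟨Y3, hY3⟩ := EV9_unif (Finset.range (k + 1))
    (fun m ζ => δ⁻¹ < ‖T ζ - conj (T ζ)‖ ∧
      ‖u m (ee (ζ / E.n))‖ * ‖T ζ - conj (T ζ)‖ ^ m ≤ δ)
    (fun m _ => small_at_cusp H.hn H.hm H.F_an H.hT (HN.u_an m) (HN.u_zero m) m hδ0)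
  refine ⟨max Y2 Y3, fun ζ hζ => ?_⟩
  have hζ2 : Y2 < ζ.im := lt_of_le_of_lt (le_max_left _ _) hζ
  have hζ3 : Y3 < ζ.im := lt_of_le_of_lt (le_max_right _ _) hζ
  have h0 := hY3 0 (by simp) ζ hζ3
  have hTD : D < (T ζ).im := by
    have h1 := h0.1
    rw [hδ, inv_inv, EV9_norm _ (hTim ζ)] at h1
    linarith
  have hSS : SS V (s ζ) = ssq k (T ζ)
      (fun j => ((act k E.M).map (algebraMap ℚ ℂ) *ᵥ V.v (s ζ)) j) := by
    have h1 := ssq_smul E.M (V.τ (s ζ)).im_pos (EV10_mob E.M (V.τ (s ζ))) (V.v (s ζ))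
      (fun _ => 0)
    unfold SS
    rw [← h1]
    congr 1
    funext j
    simp
  have hg := gco_nform k HN.hN (c₀ := c₀) (u := fun j => u j (ee (ζ / E.n)))
    (hTim ζ) (HN.eq ζ hζ2) (i := 0) (Nat.zero_le k)
  rw [hSS]
  unfold ssq
  rw [div_le_iff₀ (pow_pos (hTim ζ) k), Complex.normSq_eq_norm_sq]
  have hn1 : ‖gco k (T ζ) (conj (T ζ)) (fun j =>
      ((act k E.M).map (algebraMap ℚ ℂ) *ᵥ V.v (s ζ)) j -
        conj (((act k E.M).map (algebraMap ℚ ℂ) *ᵥ V.v (s ζ)) j)) 0‖ ≤ K := by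
    rw [hg]
    simp only [zero_div, Complex.ofReal_zero, zero_mul, zero_add, pow_zero, mul_one,
      Nat.choose_zero_right, Nat.cast_one, Finset.sum_range_one, Nat.sub_self, Nat.sub_zero,
      one_mul]
    refine (norm_sub_le _ _).trans (add_le_add ((norm_add_le _ _).trans
      (add_le_add le_rfl ?_)) ((norm_sum_le _ _).trans ?_))
    · have h1 := h0.2
      rw [pow_zero, mul_one] at h1
      exact h1.trans hδ1
    · have h2 : ∀ m ∈ Finset.range (k + 1),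
          ‖conj (u m (ee (ζ / E.n))) * (T ζ - conj (T ζ)) ^ m‖ ≤ 1 := by
        intro m hm
        rw [norm_mul, norm_pow, RCLike.norm_conj]
        exact ((hY3 m hm ζ hζ3).2).trans hδ1
      refine (Finset.sum_le_sum h2).trans ?_
      simp
  have h1 : K ^ 2 ≤ ε * D := by
    have : K ^ 2 / ε ≤ D := le_max_right _ _
    rw [div_le_iff₀ hε] at this
    linarith
  have h2 : D ≤ (T ζ).im ^ k := by
    calc D ≤ (T ζ).im := hTD.le
      _ = (T ζ).im ^ 1 := (pow_one _).symm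
      _ ≤ (T ζ).im ^ k := pow_le_pow_right₀ (by linarith) hk
  calc _ ≤ K ^ 2 := pow_le_pow_left₀ (norm_nonneg _) hn1 2
    _ ≤ ε * D := h1
    _ ≤ ε * (T ζ).im ^ k := mul_le_mul_of_nonneg_left h2 hε.le

/-- **One place.** If the residue at the only place of infinite monodromy vanishes then the
variation splits. -/
theorem split_of_resid (V : Variation k X) (hk : 1 ≤ k) (hone : OnePlace X V.ρ) {s : ℂ → ℍ}
    {Y : ℝ} (hE : X.IsEnd s Y) (E : EndForm V s Y) (hm : 0 < E.m) (hr : resid V E = 0) :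
    V.Split := by
  by_contra hns
  refine hns (split_of_ends V hk fun s' Y' hE' E' hm' ε hε => ?_)
  obtain ⟨d, c, Y'', h⟩ := hone s s' Y Y' (infEnd_of_pos V hE E hm) (infEnd_of_pos V hE' E' hm')
  obtain ⟨Y3, h3⟩ := SS_end V hk hns hE E hm hr hε
  refine ⟨max Y'' Y3, fun ζ hζ => ?_⟩
  rw [h ζ ((le_max_left _ _).trans_lt hζ), SS_smul]
  refine h3 _ ?_
  rw [Complex.add_im, Complex.intCast_im, add_zero]
  exact (le_max_right _ _).trans_lt hζ

end Pool.Agent.LibME94
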